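import Pool.Agent.W_448s8f_h76.FiA

/-!
Twins, the bound `K`, the boundary elements of level at least `2 m + 2` (MP_448cb3_co, S8,
small `m`).
-/

namespace Pool.Agent.GaussPoset.Fi

set_option linter.unusedSectionVars false

open Polynomial Finset

universe u

variable {P : Type u} [Fintype P] [PartialOrder P] [DecidableEq P] {r i m K : ℕ}
  {N : Tops P → Finset P} {b : Tops P → ℕ} {θ : Tops P → P → ℕ}

/-- the system of twins -/
theorem WI.twSys (W : WI r i m K N b θ) : TwSys (unnat N) (twY (2 * m) N) topOf (twT N) where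
  sub := fun x hx => (mem_twY.mp hx).1
  nat := fun x hx => (twT_spec (mem_twY.mp hx).2.2).1
  up := fun x hx => (twT_spec (mem_twY.mp hx).2.2).2
  inj := by
    intro x hx x' hx' h
    have h1 := mem_twY.mp hx
    have h2 := mem_twY.mp hx'
    have h3 := twT_spec h1.2.2
    have h4 := twT_spec h2.2.2
    by_contra hne
    have h5 : x < (topOf x : P) := lt_of_le_of_ne (le_topOf x) (by
      intro h
      have := (topOf x).2
      rw [← h] at this
      omega)
    obtain ⟨u, hu, -⟩ := Hul.exists_cov h5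
    have hu' : twT N x ⋖ u := (cov_of_up h3.2).mpr hu
    have hu'' : x' ⋖ u := by
      rw [h] at hu'
      exact (cov_of_up h4.2).mp hu'
    refine Win.dc_three W.gt.H hu hu'' hu' hne ?_ ?_
    · intro h6
      exact h3.1 (h6 ▸ h1.1)
    · intro h6
      rw [h] at h6
      exact h4.1 (h6 ▸ h2.1)
  anti := by
    intro x hx y hy h
    have h1 := mem_twY.mp hx
    have h2 := mem_twY.mp hy
    have := lev_strictAnti h
    omega
  cp := by
    intro x hx
    have h1 := mem_twY.mp hx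
    have h3 := twT_spec h1.2.2
    have h5 : x < (topOf x : P) := lt_of_le_of_ne (le_topOf x) (by
      intro h
      have := (topOf x).2
      rw [← h] at this
      omega)
    have h6 : twT N x ∈ N (topOf (twT N x)) := W.natSys.mem_iff.mpr ⟨h3.1, rfl⟩
    exact (Subtype.ext (W.natSys.top_eq h6 (topOf x).2 ((h3.2 _).mpr h5).le)).symm

section Kap

variable {t : P} {Nc : Finset P} {co : P → ℕ × ℕ} {k k' : ℕ} {x y z : P}

lemma kap_chart_aux (hK : KapR i m K) (hm : 1 ≤ m) (C : Chart t (fun _ => True) Nc co)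
    (hx : x ∈ Nc) (h1 : 1 ≤ (co x).1) (h3 : (co x).1 ≤ (co x).2) (hl : 2 * m + 1 ≤ lev x)
    (hk : ((co x).1 - i) + ((co x).2 - i) + 1 ≤ k) : K ≤ ct i k x + k := by
  have hlx := C.lev x hx
  obtain ⟨s, hs, hsm, hs1, hc1⟩ : ∃ s, 1 ≤ s ∧ s ≤ m ∧
      s ≤ (co x).1 ∧ 2 * m + 1 - s ≤ (co x).2 := by
    by_cases h4 : (co x).1 ≤ m
    · exact ⟨(co x).1, h1, h4, le_rfl, by omega⟩
    · exact ⟨m, hm, le_rfl, by omega, by omega⟩
  obtain ⟨u, hu, hcu⟩ := C.low x hx (s, 2 * m + 1 - s) ⟨hs1, hc1⟩ trivial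
  have hxu : x ≤ u := by
    rw [C.le_iff x hx u hu, hcu]
    exact ⟨hs1, hc1⟩
  have hlu : lev u = 2 * m + 1 := by
    rw [C.lev u hu, hcu]
    simp only
    omega
  have h5 := hK s (mem_Icc.mpr ⟨hs, hsm⟩)
  have h6 := ct_chart C (shift := false) (by simp) hu i ((s - i) + (2 * m + 1 - s - i) + 1)
  rw [hcu, hlu] at h6
  simp only at h6
  rw [← h6] at h5
  have h7 := ct_mono (i := i) hxu (show (s - i) + (2 * m + 1 - s - i) + 1 ≤ k by omega)
  omega

lemma kap_chart (hK : KapR i m K) (hm : 1 ≤ m) (C : Chart t (fun _ => True) Nc co) (hx : x ∈ Nc)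
    (h1 : 1 ≤ (co x).1) (h2 : 1 ≤ (co x).2) (hl : 2 * m + 1 ≤ lev x)
    (hk : ((co x).1 - i) + ((co x).2 - i) + 1 ≤ k) : K ≤ ct i k x + k := by
  rcases le_total (co x).1 (co x).2 with h3 | h3
  · exact kap_chart_aux hK hm C hx h1 h3 hl hk
  · refine kap_chart_aux hK hm C.swap hx ?_ ?_ hl ?_
    · simpa using h2
    · simpa using h3
    · simp only [swp_fst, swp_snd]
      omega

lemma kap_chartS (hK : KapS i m K) (hm : 1 ≤ m) (C : Chart t (fun c => c.1 ≤ c.2) Nc co)
    (hx : x ∈ Nc) (h1 : 1 ≤ (co x).1) (hl : 2 * m + 1 ≤ lev x)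
    (hk : ((co x).1 - 2 * (i / 2)) + ((co x).2 - i) + 1 ≤ k) : K ≤ ct i k x + k := by
  have hlx := C.lev x hx
  have h3 : (co x).1 ≤ (co x).2 := C.mem x hx
  obtain ⟨s, hs, hsm, hs1, hc1⟩ : ∃ s, 1 ≤ s ∧ s ≤ m ∧
      s ≤ (co x).1 ∧ 2 * m + 1 - s ≤ (co x).2 := by
    by_cases h4 : (co x).1 ≤ m
    · exact ⟨(co x).1, h1, h4, le_rfl, by omega⟩
    · exact ⟨m, by omega, le_rfl, by omega, by omega⟩
  obtain ⟨u, hu, hcu⟩ := C.low x hx (s, 2 * m + 1 - s) ⟨hs1, hc1⟩
    (show s ≤ 2 * m + 1 - s by omega)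
  have hxu : x ≤ u := by
    rw [C.le_iff x hx u hu, hcu]
    exact ⟨hs1, hc1⟩
  have hlu : lev u = 2 * m + 1 := by
    rw [C.lev u hu, hcu]
    simp only
    omega
  have h5 := hK s (mem_Icc.mpr ⟨hs, hsm⟩)
  have h6 := ct_chart C (shift := true) (by simp) hu i
    ((s - 2 * (i / 2)) + (2 * m + 1 - s - i) + 1)
  rw [hcu, hlu] at h6
  simp only at h6
  rw [← h6] at h5
  have h7 := ct_mono (i := i) hxu (show (s - 2 * (i / 2)) + (2 * m + 1 - s - i) + 1 ≤ k by omega)
  omega

end Kap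

/-- natural elements of level at least `2 m + 1` -/
theorem WI.kap (W : WI r i m K N b θ) {x : P} (hx : x ∉ unnat N) (hl : 2 * m + 1 ≤ lev x) :
    Full i m N θ x ∨ K ≤ ct i (θ (topOf x) x + 1) x + (θ (topOf x) x + 1) := by
  have h4 := W.hi
  have him := W.him
  rcases W.cases hx with h | ⟨Nc, co, h⟩ | ⟨Nc, co, h⟩ | h
  · exact Or.inl h
  · right
    refine kap_chart W.kapR (by omega) h.rect.chart h.mem h.fst h.snd hl ?_
    rw [h.th]
  · right
    refine kap_chartS W.kapS (by omega) h.stair.chart h.mem h.fst hl ?_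
    rw [h.th]
  · have := h.lev
    omega

lemma WI.tw_inner (W : WI r i m K N b θ) {x : P} (hx : x ∈ twY (2 * m) N) :
    (∃ Nc co, InR i m N b θ (twT N x) Nc co) ∨ ∃ Nc co, InS i m N b θ (twT N x) Nc co := by
  have h1 := mem_twY.mp hx
  have h3 := twT_spec h1.2.2
  rcases W.cases h3.1 with h | h | h | h
  · exact absurd h3.2 (h.tw x h1.1)
  · exact Or.inl h
  · exact Or.inr h
  · have h4 := h.lev
    have h5 := W.twSys.lev hx
    omega

lemma WI.tw_kap (W : WI r i m K N b θ) {x : P} (hx : x ∈ twY (2 * m) N) :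
    K ≤ ct i (θ (topOf (twT N x)) (twT N x) + 1) (twT N x) +
      (θ (topOf (twT N x)) (twT N x) + 1) := by
  have h1 := mem_twY.mp hx
  have h3 := twT_spec h1.2.2
  have h5 := W.twSys.lev hx
  rcases W.kap h3.1 (by omega) with h | h
  · exact absurd h3.2 (h.tw x h1.1)
  · exact h

lemma WI.tw_th (W : WI r i m K N b θ) {x : P} (hx : x ∈ twY (2 * m) N) :
    1 ≤ θ (topOf (twT N x)) (twT N x) ∧ θ (topOf (twT N x)) (twT N x) ≤ 2 * m - i := by
  have h1 := mem_twY.mp hx
  have h5 := W.twSys.lev hx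
  have h4 := W.hi
  have him := W.him
  rcases W.tw_inner hx with ⟨Nc, co, h⟩ | ⟨Nc, co, h⟩
  · have h6 := h.rect.chart.lev _ h.mem
    have h7 := h.fst
    have h8 := h.snd
    have h9 := h.th
    omega
  · have h6 := h.stair.chart.lev _ h.mem
    have h7 := h.fst
    have h8 : (co (twT N x)).1 ≤ (co (twT N x)).2 := h.stair.chart.mem _ h.mem
    have h9 := h.th
    omega

/-- the twins are harmless below energy `K - 1` -/
theorem WI.twinPair (W : WI r i m K N b θ) {x : P} (hx : x ∈ twY (2 * m) N) :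
    TwinPair i (thX (twY (2 * m) N) (twT N) (fun x => θ (topOf x) x)) (K - 1) (twT N x) x := by
  classical
  have T := W.twSys
  have h1 := mem_twY.mp hx
  have him := W.him
  have hlev : lev (twT N x) = 2 * m + 1 := by rw [T.lev hx]; exact h1.2.1
  have hnY : twT N x ∉ twY (2 * m) N := fun h => T.nat x hx (mem_twY.mp h).1
  obtain ⟨h3, h4⟩ := W.tw_th hx
  have h5 := W.tw_kap hx
  have hth : thX (twY (2 * m) N) (twT N) (fun x => θ (topOf x) x) (twT N x) =
      θ (topOf (twT N x)) (twT N x) := thX_not hnY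
  have hth' : thX (twY (2 * m) N) (twT N) (fun x => θ (topOf x) x) x =
      θ (topOf (twT N x)) (twT N x) := thX_of hx
  refine ⟨?_, T.up x hx, ?_, ?_, ?_, ?_, ?_⟩
  · intro h
    exact T.nat x hx (h.symm ▸ h1.1)
  · rw [hth]; exact h3
  · rw [hth, hth']
  · rw [hth, hlev]; omega
  · rw [hth]
    have h6 : ct i (θ (topOf (twT N x)) (twT N x) + 1) (twT N x) ≤
        ∑ y, (if twT N x ≤ y then lev y - i else 0) := by
      rw [ct_eq_sum]
      refine Finset.sum_le_sum fun y _ => ?_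
      split_ifs
      · exact Nat.min_le_right _ _
      · exact le_rfl
    omega
  · rw [hth]
    have h6 := ct_succ i (θ (topOf (twT N x)) (twT N x) + 1) (twT N x)
    rw [hlev, Nat.min_eq_left (by omega)] at h6
    omega

/-- truncated data at window `i` -/
theorem WI.farT (W : WI r i m K N b θ) : FarT P i (r2 (2 * m) N) (lv P i).card
    (h2 (2 * m) N θ) (K - 1) := by
  choose B hB using W.natTop
  have h := farT_of_tops W.gt.H.gradedBelow hB W.twSys (K - 1) (fun x hx => W.twinPair hx)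
  rw [W.sum_b] at h
  exact h

lemma WI.sq_ge (W : WI r i m K N b θ) {l : ℕ} (hl : 2 * m + 2 - i ≤ l) : K ≤ l ^ 2 := by
  have h0 := W.K_le
  have him := W.him
  obtain ⟨a, ha⟩ : ∃ a, 2 * m + 1 - i = a := ⟨_, rfl⟩
  rw [ha] at h0
  have h1 : (a + 1) ^ 2 ≤ l ^ 2 := Nat.pow_le_pow_left (by omega) 2
  nlinarith

/-- the boundary: level `2 m + 1` or large cost -/
theorem WI.bd (W : WI r i m K N b θ) {z : P} (hz : z ∈ bdR (r2 (2 * m) N)) :
    lev z = 2 * m + 1 ∨ K ≤ cst i (h2 (2 * m) N θ) z := by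
  classical
  have H := W.gt.H
  have h4 := W.hi
  have him := W.him
  have T := W.twSys
  have hzR : z ∈ unnat N := (mem_sdiff.mp (mem_filter.mp hz).1).1
  have hlz := W.lt_lev hzR
  by_cases hl : lev z = 2 * m + 1
  · exact Or.inl hl
  right
  obtain ⟨u, hu, hzu, hh⟩ := hcan_spec
    (θ := thX (twY (2 * m) N) (twT N) (fun x => θ (topOf x) x)) hz
  have hlu := (H.covBy_iff.mp hzu).2
  have hc : ∀ k, h2 (2 * m) N θ z = k → cst i (h2 (2 * m) N θ) z = ct i k z := by
    intro k hk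
    unfold ct cst ez
    rw [hk]
  have key : ∀ (u' : P) (k : ℕ), ct i k u = ct i k u' → K ≤ ct i k u' + k → k ≤ lev z - i →
      h2 (2 * m) N θ z = k → K ≤ cst i (h2 (2 * m) N θ) z := by
    intro u' k h3 h4 h5 h6
    have h7 := ct_cov (i := i) (k := k) hzu.1
    rw [Nat.min_eq_left h5] at h7
    rw [hc k h6]
    omega
  by_cases huY : u ∈ twY (2 * m) N
  · rw [thX_of huY] at hh
    have h3 := W.tw_th huY
    exact key (twT N u) _ (ct_congr_up fun w => (T.up u huY w).symm) (W.tw_kap huY) (by omega) hh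
  · have huR : u ∉ unnat N := fun h => hu (mem_sdiff.mpr ⟨h, huY⟩)
    rw [thX_not huY] at hh
    rcases W.kap huR (by omega) with hF | hI
    · rw [hF.th] at hh
      have h3 := sq_le_cst (i := i) (h := h2 (2 * m) N θ) (z := z) (by omega)
        (by show h2 (2 * m) N θ z = _; rw [show h2 (2 * m) N θ z = _ from hh]; omega) (by
          intro k hk hk2
          exact hF.two z hzR hzu.le k (by omega) (by omega))
      exact (W.sq_ge (by omega)).trans h3
    · have h5 := W.farT.le_lev z hz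
      exact key u _ rfl hI (by rw [show h2 (2 * m) N θ z = _ from hh] at h5; exact h5) hh

end Pool.Agent.GaussPoset.Fi
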