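import Pool.Agent.W_448s8f_h76.FiE

/-!
Labels, costs, drops and signs of the elements of level `2 m + 1` (MP_448cb3_co, S8, small `m`).
-/

namespace Pool.Agent.GaussPoset.Fi

set_option linter.unusedSectionVars false

open Polynomial Finset

universe u

variable {P : Type u} [Fintype P] [PartialOrder P] [DecidableEq P] {r i m K N0 : ℕ}
  {N : Tops P → Finset P} {b : Tops P → ℕ} {θ : Tops P → P → ℕ}

/-- weighted number of elements above, from the numbers by depth -/
def vsQ (i m k : ℕ) (q : ℕ → ℕ) : ℕ :=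
  ∑ u ∈ range (2 * m - i + 1), min k u * q (2 * m - (i + u))

/-- sign exponent from the numbers by depth -/
def nsQ (i m k : ℕ) (q : ℕ → ℕ) : ℕ := ∑ u ∈ range k, q (2 * m - (i + u))

lemma ct_topI {z : P} {k : ℕ} {q : ℕ → ℕ} (hi : i ≤ 2 * m) (hl : lev z = 2 * m + 1)
    (hk : k ≤ 2 * m + 1 - i) (hq : ∀ d, d ≤ 2 * m - i → nab (2 * m - d) z = q d) :
    ct i k z = vsQ i m k q + k := by
  unfold ct vsQ
  rw [cst_eq, hl, Finset.sum_range_succ, ← hl, nab_self, hl,
    show 2 * m + 1 = i + (2 * m - i + 1) by omega, Finset.sum_range_add, Finset.sum_eq_zero,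
    zero_add]
  · congr 1
    · refine Finset.sum_congr rfl fun u hu => ?_
      rw [mem_range] at hu
      rw [Nat.add_sub_cancel_left, ← hq (2 * m - (i + u)) (by omega),
        show 2 * m - (2 * m - (i + u)) = i + u by omega]
    · rw [Nat.add_sub_cancel_left, Nat.min_eq_left (by omega), Nat.mul_one]
  · intro l hl
    rw [mem_range] at hl
    rw [show l - i = 0 by omega, Nat.min_zero, Nat.zero_mul]

/-- elements of level `2 m` -/
lemma ct_midI {x : P} {k : ℕ} {q : ℕ → ℕ} (hi : i ≤ 2 * m) (hl : lev x = 2 * m)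
    (hq : ∀ d, d ≤ 2 * m - i → nab (2 * m - d) x = q d) : ct i k x = vsQ i m k q := by
  unfold ct vsQ
  rw [cst_eq, hl, show 2 * m + 1 = i + (2 * m - i + 1) by omega, Finset.sum_range_add,
    Finset.sum_eq_zero, zero_add]
  · refine Finset.sum_congr rfl fun u hu => ?_
    rw [mem_range] at hu
    rw [Nat.add_sub_cancel_left, ← hq (2 * m - (i + u)) (by omega),
      show 2 * m - (2 * m - (i + u)) = i + u by omega]
  · intro l hl
    rw [mem_range] at hl
    rw [show l - i = 0 by omega, Nat.min_zero, Nat.zero_mul]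

lemma vsQ_add (i m k : ℕ) (q q' : ℕ → ℕ) :
    vsQ i m k (fun d => q d + q' d) = vsQ i m k q + vsQ i m k q' := by
  unfold vsQ
  rw [← Finset.sum_add_distrib]
  refine Finset.sum_congr rfl fun u _ => ?_
  ring

lemma vsQ_mono {i m k : ℕ} {q q' : ℕ → ℕ} (h : ∀ d, q d ≤ q' d) : vsQ i m k q ≤ vsQ i m k q' :=
  Finset.sum_le_sum fun _ _ => Nat.mul_le_mul_left _ (h _)

/-- the numerical data of a boundary element -/
structure NQ (i m : ℕ) (N : Tops P → Finset P) (θ : Tops P → P → ℕ) (z : P) (k : ℕ) (q : ℕ → ℕ) :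
    Prop where
  lab : h2 (2 * m) N θ z = k
  cst : Pool.Agent.GaussPoset.cst i (h2 (2 * m) N θ) z = vsQ i m k q + k
  n0 : nab i z = q (2 * m - i)
  n1 : nab (i + h2 (2 * m) N θ z) z = q (2 * m - (i + k))
  nst : Pool.Agent.GaussPoset.nst i (h2 (2 * m) N θ) z = nsQ i m k q

lemma NQ.mk' {z : P} {k : ℕ} {q : ℕ → ℕ} (hl : lev z = 2 * m + 1)
    (hk : i + k ≤ 2 * m) (h1 : h2 (2 * m) N θ z = k)
    (hq : ∀ d, d ≤ 2 * m - i → nab (2 * m - d) z = q d) : NQ i m N θ z k q where
  lab := h1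
  cst := by rw [cst_ct h1, ct_topI (by omega) hl (by omega) hq]
  n0 := by rw [← hq _ le_rfl, show 2 * m - (2 * m - i) = i by omega]
  n1 := by rw [h1, ← hq _ (by omega), show 2 * m - (2 * m - (i + k)) = i + k by omega]
  nst := by
    rw [nst_eq, h1]
    unfold nsQ
    refine Finset.sum_congr rfl fun u hu => ?_
    rw [mem_range] at hu
    rw [← hq _ (by omega), show 2 * m - (2 * m - (i + u)) = i + u by omega]

/-- the label of a fold end -/
def kF (i m : ℕ) : ℕ := (m - 2 * (i / 2)) + (m - i) + 1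

/-- the label of a boundary element of level `2 m + 1` -/
lemma WI.h2_eqI (W : WI r i m K N b θ) {z x : P} (hz : z ∈ r2 (2 * m) N) (hl : lev z = 2 * m + 1)
    (hzx : z ⋖ x) (hmin : ∀ y, z ⋖ y → θ (topOf x) x ≤ θ (topOf y) y) :
    h2 (2 * m) N θ z = θ (topOf x) x + 1 := by
  classical
  have H := W.gt.H
  have hlev : ∀ y, z ⋖ y → lev y = 2 * m := by
    intro y hy
    have := (H.covBy_iff.mp hy).2
    omega
  have hnY : ∀ y, z ⋖ y → y ∉ twY (2 * m) N := by
    intro y hy h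
    have h1 := hlev y hy
    have h2 := (mem_twY.mp h).2.1
    omega
  have hnR : ∀ y, z ⋖ y → y ∉ r2 (2 * m) N := fun y hy h =>
    W.low (hlev y hy).le (mem_sdiff.mp h).1
  have hbd : z ∈ bdR (r2 (2 * m) N) := mem_filter.mpr ⟨hz, x, hnR x hzx, hzx⟩
  refine le_antisymm ?_ ?_
  · refine (hcan_le (θ := thX (twY (2 * m) N) (twT N) (fun x => θ (topOf x) x)) (hnR x hzx)
      hzx).trans ?_
    rw [thX_not (hnY x hzx)]
  · obtain ⟨y, hy, hzy, hh⟩ := hcan_spec
      (θ := thX (twY (2 * m) N) (twT N) (fun x => θ (topOf x) x)) hbd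
    rw [thX_not (hnY y hzy)] at hh
    have h3 := hmin y hzy
    show _ ≤ hcan _ _ z
    omega

lemma WI.mem_bd (W : WI r i m K N b θ) {z : P} (hz : z ∈ r2 (2 * m) N) (hl : lev z = 2 * m + 1) :
    z ∈ bdR (r2 (2 * m) N) := by
  classical
  have hzt : z < (topOf z : P) := lt_of_le_of_ne (le_topOf z) (by
    intro h
    have := (topOf z).2
    rw [← h] at this
    omega)
  obtain ⟨x, hzx, -⟩ := Hul.exists_cov hzt
  refine mem_filter.mpr ⟨hz, x, fun h => ?_, hzx⟩
  have h1 := (W.gt.H.covBy_iff.mp hzx).2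
  exact W.low (by omega) (mem_sdiff.mp h).1

/-- joins of natural elements of level `2 m` of different tops -/
lemma WI.nab_joinI (W : WI r i m K N b θ) {z x x' : P} (hl : lev z = 2 * m + 1) (hzx : z ⋖ x)
    (hzx' : z ⋖ x') (ht : topOf x ≠ topOf x') {l : ℕ} (hl2 : l ≤ 2 * m) :
    nab l z = nab l x + nab l x' := by
  have H := W.gt.H
  have HN := W.natSys
  have h1 := (H.covBy_iff.mp hzx).2
  have h2 := (H.covBy_iff.mp hzx').2
  exact nab_join_eq HN H (HN.mem_iff.mpr ⟨W.low (by omega), rfl⟩)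
    (HN.mem_iff.mpr ⟨W.low (by omega), rfl⟩) ht hzx hzx' (by omega)

/-- the table -/
inductive Rw (i m : ℕ) (N : Tops P → Finset P) (θ : Tops P → P → ℕ) (z : P) : Prop
  | penF (x : P) (hx : Fd m x) (hp : Pend z x) (hn : NQ i m N θ z (kF i m) (fun d => 1 + pF m d))
  | penH (x : P) (hx : He i m N θ x) (hp : Pend z x) (p : List ℕ) (hp' : p ∈ HL i m)
      (hn : NQ i m N θ z 1 (fun d => 1 + gD p d))
  | fh (x x' : P) (hx : Fd m x) (hx' : He i m N θ x') (ht : topOf x ≠ topOf x') (hzx : z ⋖ x)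
      (hzx' : z ⋖ x') (p : List ℕ) (hp : p ∈ HL i m) (hpr : Prof m x' (gD p))
      (hn : NQ i m N θ z 1 (fun d => (1 + pF m d) + (1 + gD p d)))
  | ff (x x' : P) (hx : Fd m x) (hx' : Fd m x') (ht : topOf x ≠ topOf x') (hzx : z ⋖ x)
      (hzx' : z ⋖ x') (hn : NQ i m N θ z (kF i m) (fun d => (1 + pF m d) + (1 + pF m d)))
  | fv (x x' : P) (hx : Fd m x) (hx' : Full i m N θ x') (h1 : (Win.uc x').card = 1)
      (ht : topOf x ≠ topOf x') (hzx : z ⋖ x) (hzx' : z ⋖ x') (p : List ℕ) (hp : p ∈ PL i m)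
      (hpr : Prof m x' (gD p))
      (htd : gD p 7 = 1 → (p = q7 ∧ TD m (topOf x') x' 8) ∨ (p = p5 ∧ TD m (topOf x') x' 4))
      (hn : NQ i m N θ z (kF i m) (fun d => (1 + pF m d) + (1 + gD p d)))
  | cc (x x' : P) (hx : Fd m x) (h1 : (Win.uc x').card = 1) (ht : topOf x' = topOf x)
      (hne : x ≠ x') (hzx : z ⋖ x) (hzx' : z ⋖ x')
  | full (hF : ∀ y, z ⋖ y → Full i m N θ y)
      (h : (2 * m + 1 - i) ^ 2 ≤ cst i (h2 (2 * m) N θ) z)

/-- the table of the elements of level `2 m + 1` -/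
theorem WC.rows (W : WC r i m K N b θ) (S7 : S7F P m) (hkF : i + kF i m ≤ 2 * m) {z : P}
    (hz : z ∈ r2 (2 * m) N) (hl : lev z = 2 * m + 1) : Rw i m N θ z := by
  have H := W.gt.H
  have h4 := W.hi
  have him := W.him
  have hmi := W.hmi
  have W' := W.wi
  have hlev : ∀ y, z ⋖ y → lev y = 2 * m := by
    intro y hy
    have := (H.covBy_iff.mp hy).2
    omega
  have hFle : (m - 2 * (i / 2)) + (m - i) ≤ 2 * m - i := by omega
  rcases W.class S7 hz hl with ⟨x, hx, hp⟩ | ⟨x, hx, hp⟩ | ⟨x, x', hx, h1, ht, hzx, hzx'⟩ |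
    ⟨x, x', hx, h1, ht, hne, hzx, hzx'⟩ | h
  · refine Rw.penF x hx hp (NQ.mk' hl hkF ?_ fun d hd => ?_)
    · rw [W'.h2_eqI hz hl hp.1 (fun y hy => by rw [hp.2 y hy]), W.fold_th hx]
      rfl
    · rw [nab_pend hp (by omega)]
      exact W.fold_prof hx d (by omega)
  · obtain ⟨p, hp', hpr⟩ := hx.prof
    refine Rw.penH x hx hp p hp' (NQ.mk' hl (by omega) ?_ fun d hd => ?_)
    · rw [W'.h2_eqI hz hl hp.1 (fun y hy => by rw [hp.2 y hy]), hx.th]
    · rw [nab_pend hp (by omega)]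
      exact hpr d (by omega)
  · have hne : x ≠ x' := fun h => ht (by rw [h])
    have hlx' := hlev x' hzx'
    rcases W.kind hlx' with h | h | h | h
    · obtain ⟨p, hp, hpr, htd⟩ := W.full_prof hlx' h h1
      refine Rw.fv x x' hx h h1 ht hzx hzx' p hp hpr htd (NQ.mk' hl hkF ?_ fun d hd => ?_)
      · rw [W'.h2_eqI hz hl hzx (fun y hy => ?_), W.fold_th hx]
        · rfl
        · rcases uc_pair H hzx hzx' hne hy with e | e
          · rw [e]
          · rw [e, W.fold_th hx, h.th, hlx']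
            exact hFle
      · rw [W'.nab_joinI hl hzx hzx' ht (by omega), W.fold_prof hx d (by omega),
          hpr d (by omega)]
    · refine Rw.ff x x' hx h ht hzx hzx' (NQ.mk' hl hkF ?_ fun d hd => ?_)
      · rw [W'.h2_eqI hz hl hzx (fun y hy => ?_), W.fold_th hx]
        · rfl
        · rcases uc_pair H hzx hzx' hne hy with e | e
          · rw [e]
          · rw [e, W.fold_th hx, W.fold_th h]
      · rw [W'.nab_joinI hl hzx hzx' ht (by omega), W.fold_prof hx d (by omega),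
          W.fold_prof h d (by omega)]
    · obtain ⟨p, hp, hpr⟩ := h.prof
      refine Rw.fh x x' hx h ht hzx hzx' p hp hpr (NQ.mk' hl (by omega) ?_ fun d hd => ?_)
      · rw [W'.h2_eqI hz hl hzx' (fun y hy => ?_), h.th]
        rw [h.th]
        exact Nat.zero_le _
      · rw [W'.nab_joinI hl hzx hzx' ht (by omega), W.fold_prof hx d (by omega),
          hpr d (by omega)]
    · omega
  · exact Rw.cc x x' hx h1 ht hne hzx hzx'
  · refine Rw.full h ?_
    have hzt : z < (topOf z : P) := lt_of_le_of_ne (le_topOf z) (by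
      intro h
      have := (topOf z).2
      rw [← h] at this
      omega)
    obtain ⟨x, hzx, -⟩ := Hul.exists_cov hzt
    have h3 := W'.h2_eqI hz hl hzx (fun y hy => by
      rw [(h x hzx).th, (h y hy).th, hlev x hzx, hlev y hy])
    rw [(h x hzx).th, hlev x hzx] at h3
    have h5 := sq_le_cst (i := i) (h := h2 (2 * m) N θ) (z := z) (by omega)
      (by rw [h3]; omega) (by
        intro k hk hk2
        exact (h x hzx).two z (mem_sdiff.mp hz).1 hzx.le k (by omega) (by rw [hlev x hzx]; omega))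
    rwa [hl] at h5

end Pool.Agent.GaussPoset.Fi
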