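import Pool.Agent.W_448s8f_h76.FjD
import Pool.Agent.W_448f4_h70.FD
import Pool.Agent.W_448s7s_h5.SrC

/-!
# The windows `2`, `3` with fold joins above the cap (MP_448cb3_co, S8, `j = 12, 14`)
-/

namespace Pool.Agent.GaussPoset.Sm

set_option linter.unusedSectionVars false

open Polynomial Finset W4

universe u

variable {P : Type u} [Fintype P] [PartialOrder P] [DecidableEq P] {r j w K : ℕ}
  {N : Tops P → Finset P} {b : Tops P → ℕ} {θ : Tops P → P → ℕ} {XE XO : ℕ → Prop}

/-- elements of level `j + 1` below a deep cell, with fold joins -/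
theorem Wk.deep_jF (W : Wk r j w K N b θ) (hw2 : 2 ≤ w) (hj8 : 8 ≤ j)
    (hfl : j % 2 = 1 → K < flC w j) {z : P} (hz : z ∈ bdR (rA N)) (hlz : lev z = j + 1)
    {x : P} (hzx : z ⋖ x) (hD : Dk j w K N θ x) : K < cst w (hA N θ) z ∨
      (j % 2 = 0 ∧ cst w (hA N θ) z = foC w j ∧ nst w (hA N θ) z = foN w j ∧
        nab w z = nab (w + hA N θ z) z + 1 ∧ (∀ y, z ⋖ y → y = x) ∧ Fold j x) ∨
      ((∃ x', FJn j z x x') ∧ hA N θ z = j - w - 1) ∨ CEl j w N θ z := by
  classical
  have H := W.gt.H
  have HN := W.natSys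
  have hj := W.hj
  have hw := W.hw
  have hzR := (mem_bdR.mp hz).1
  have hzu := (mem_rA.mp hzR).1
  have e1 := (H.covBy_iff.mp hzx).2
  have hlx : lev x = j := by omega
  have hx : x ∉ unnat N := W.low (by omega)
  have hbs : GaussPoset.bs N x = x := by
    unfold GaussPoset.bs
    rw [if_neg (W.not_tw hx)]
  have hle := W.hA_le (not_mem_rA.mpr (Or.inl hx)) hzx
  rw [hbs] at hle
  have hth := hD.th
  have h1w := hD.one_le
  have hxt : x ∈ N (topOf x) := HN.mem_iff.mpr ⟨hx, rfl⟩
  have hxle : x ≤ (topOf x : P) := le_topOf x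
  have hzN := mem_unnat.mp hzu (topOf x)
  have hnat : ∀ y ∈ N (topOf x), y ∉ unnat N := fun y hy => (HN.mem_iff.mp hy).1
  have hzt : ∀ y, y ∉ unnat N → ¬ ∀ v, y < v ↔ z < v := fun y hy h =>
    (mem_rA.mp hzR).2 (mem_twA.mpr ⟨hzu, y, hy, h⟩)
  -- two covers have one cover each
  have hnear : (Win.uc x).card = 2 → ∀ y, z ⋖ y → y = x := by
    intro h2 y hy
    by_contra hne
    have := (W.near hzR hlz hzx hy (Ne.symm hne)).1
    omega
  -- the label of an element with one cover
  have hlab : (∀ y, z ⋖ y → y = x) → hA N θ z = θ (topOf x) x + 1 := by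
    intro ho
    obtain ⟨x0, g1, g2, g3⟩ := W.hA_spec hz
    rw [ho x0 g2, hbs] at g3
    exact g3
  have hthx : θ (topOf x) x = θ (topOf x) x := rfl
  have hth0 := hD.th
  generalize htt : topOf x = t at hxt hxle hzN hnat hle hth hlab
  rcases W.typ t with ⟨g1, g2, g3, g5⟩ | ⟨Nc, co, h0, g1, g2, g4⟩ |
    ⟨Nc, co, h0, g1, g2, g3, g4, g5'⟩
  · exfalso
    rw [g2] at hth
    simp only at hth
    omega
  · exfalso
    rw [g1] at hxt
    rw [g2] at hth
    have hJ : ¬ (x ∈ junk (fun _ => True) Nc co ∨ x ∈ junk (fun _ => True) Nc (swp co)) := by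
      intro h
      unfold thR at hth
      rw [if_pos h] at hth
      omega
    have hxN : x ∈ Nc := by
      rw [mem_natR] at hxt
      rcases hxt with h | h | h
      · exact h
      · exact absurd (Or.inl h) hJ
      · exact absurd (Or.inr h) hJ
    have h2 := rect_th7 h0 hw hxN hJ (by omega)
    have h3 := chart_inner_uc h0.chart H hxN (by omega) (by omega)
    exact g4 x z hxle hlx h3 hzx (hnear h3)
  · rw [g1] at hxt hzN
    rw [g2] at hth
    have hJ : x ∉ junk (fun c => c.1 ≤ c.2) Nc co := by
      intro h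
      unfold thS at hth
      rw [if_pos h] at hth
      omega
    have hxN : x ∈ Nc := by
      rw [mem_natS] at hxt
      exact hxt.resolve_right hJ
    have hl := h0.chart.lev x hxN
    have hm : (co x).1 ≤ (co x).2 := h0.chart.mem x hxN
    have h2 := stair_th7 h0 hw g4 hxN hJ (by omega)
    have hzN1 : z ∉ Nc := fun h => hzN (mem_natS.mpr (Or.inl h))
    have h6 := cst_ge_cover (i := w) (h := hA N θ) H.gradedBelow hzx
    rcases Nat.lt_or_ge (co x).1 (co x).2 with hlt | hge
    · -- a double
      have h3 := stair_inner_uc h0.chart H hxN (by omega) hlt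
      have ho := hnear h3
      rcases g5' x z hxle hlx h3 hzx ho with h4 | h4
      · exfalso
        obtain ⟨y, hy, h⟩ := diag_twin h0.chart h0.max H hzN1 hxN hzx ho h4
        exact hzt y (hnat y (by rw [g1]; exact mem_natS.mpr (Or.inl hy))) h
      · left
        have h5 := hlab ho
        rw [g2] at h5
        have hlb : hA N θ z = j - w - 1 := by omega
        have h7 := cst_stair (w := w) (L := j) (h := hA N θ z) h0.chart hxN hlx (by omega)
        have h8 := hfl (by omega)
        rw [h7, Nat.min_eq_left (by omega), hlb] at h6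
        unfold flC at h8
        rw [show (co x).1 = (j - 3) / 2 by omega, show j - (j - 3) / 2 = (j + 3) / 2 by omega]
          at h6
        omega
    · -- the fold end
      have hcc : (co x).2 = (co x).1 := by omega
      -- the label
      have hlb : hA N θ z + 1 = lev x - w := by
        obtain ⟨x0, f1, f2, f3⟩ := W.hA_spec hz
        rw [g2] at hle
        by_cases hne : x0 = x
        · rw [hne, hbs, htt, g2] at f3
          omega
        · have f4 := W.near hzR hlz hzx f2 (Ne.symm hne)
          have f5 := (H.covBy_iff.mp f2).2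
          have hx0 : x0 ∉ unnat N := W.low (by omega)
          have hbs0 : GaussPoset.bs N x0 = x0 := by
            unfold GaussPoset.bs
            rw [if_neg (W.not_tw hx0)]
          rw [hbs0] at f3
          have f6 := W.single_th hx0 (by omega) f4.2
          omega
      have h8 : min (hA N θ z) (lev z - w) = hA N θ z := Nat.min_eq_left (by omega)
      rw [h8] at h6
      have hj2 : j % 2 = 0 := by omega
      have hA2 : (co x).1 = j / 2 := by omega
      have hlb' : hA N θ z = j - w - 1 := by omega
      have h7 := cst_stair (w := w) (L := j) (h := j - w - 1) h0.chart hxN hlx (by omega)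
      rw [hA2, show j - j / 2 = j / 2 by omega] at h7
      have hnk : ∀ k, k ≤ j → nab k x + (k - j / 2) = min (k / 2) (j / 2) + 1 := by
        intro k hk
        have := stair_nab h0.chart hxN (k := k) (by omega)
        rw [hA2, show (co x).2 = j / 2 by omega] at this
        exact this
      have hFo : Fold j x := ⟨hlx, hj2, fun k hk => by
        have := hnk k hk
        omega⟩
      by_cases ho : ∀ y, z ⋖ y → y = x
      · -- a pendant
        right; left
        have h9 := cst_only (i := w) (h := hA N θ) H.gradedBelow hzx ho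
        rw [h8, hlb', h7] at h9
        have hns : nst w (hA N θ) z = foN w j := by
          rw [nst_eq, hlb']
          unfold foN
          refine Finset.sum_congr rfl fun n hn => ?_
          rw [mem_range] at hn
          rw [nab_only ho hzx (by omega)]
          have := hnk (w + n) (by omega)
          omega
        refine ⟨hj2, by unfold foC; exact h9, hns, ?_, ho, hFo⟩
        rw [hlb', nab_only ho hzx (by omega), nab_only ho hzx (by omega)]
        have a1 := hnk w (by omega)
        have a2 := hnk (w + (j - w - 1)) (by omega)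
        omega
      · -- a second cover
        right; right
        push Not at ho
        obtain ⟨x', hzx', hne'⟩ := ho
        have hne : x ≠ x' := Ne.symm hne'
        have e2 := (H.covBy_iff.mp hzx').2
        have hx' : x' ∉ unnat N := W.low (by omega)
        by_cases hh : topOf x' = t
        · right
          exact ⟨hzR, hlz, x, x', hzx, hzx', hne, by rw [htt, hh], by omega⟩
        · left
          refine ⟨⟨x', Cg.mk' hzx hzx' (mem_onlyB.mpr fun s hs hxs => ?_)
            (mem_onlyB.mpr fun s hs hxs => ?_) ?_, hlz, hFo⟩, hlb'⟩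
          · exact HN.top_eq (HN.mem_iff.mpr ⟨hx, rfl⟩) hs hxs
          · exact HN.top_eq (HN.mem_iff.mpr ⟨hx', rfl⟩) hs hxs
          · rw [htt]
            exact fun h => hh h.symm


/-- no element below both ends of a stair with a fold -/
def NoCC (P : Type u) [Fintype P] [PartialOrder P] [DecidableEq P] (j : ℕ) : Prop :=
  ∀ z x x' : P, lev z = j + 1 → Fold j x → z ⋖ x → z ⋖ x' → x' ≠ x → (Win.uc x').card = 1 →
    topOf x ≠ topOf x'

lemma NoCC.not_cel (h : NoCC P j) (W : Wk r j w K N b θ) (hw2 : 2 ≤ w) {z : P} :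
    ¬ CEl j w N θ z := by
  rintro ⟨h1, h2, f, s, h3, h4, h5, h6, h7⟩
  obtain ⟨Nc, co, C⟩ := W.fold_cell hw2 h1 h2 h3 h4 h5 h7
  refine h z f s h2 ⟨C.lev, C.ev, fun k hk => ?_⟩ h3 h4 h5.symm (W.near h1 h2 h3 h4 h5).2 h6
  have := C.nab hk
  omega

/-- the outcome below a deep cell, if the fold joins cost more than `K` -/
theorem Wk.dj_noC (W : Wk r j w K N b θ) (hw2 : 2 ≤ w) (hj8 : 8 ≤ j)
    (hfl : j % 2 = 1 → K < flC w j) (hCC : NoCC P j)
    (hFo : ∀ z x x' : P, FJn j z x x' → K < cst w (fun _ => j - w - 1) z)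
    (hfv : j % 2 = 0 → (Even (foN w j) ∧ XE (foC w j)) ∨ (Odd (foN w j) ∧ XO (foC w j)))
    (v : ℕ) (z x : P) (hz : z ∈ bdR (rA N))
    (hc : cst w (hA N θ) z = v) (hlz : lev z = j + 1) (hzx : z ⋖ x)
    (hD : Dk j w K N θ x) : OutK j w K XE XO (hA N θ) z v := by
  rcases W.deep_jF hw2 hj8 hfl hz hlz hzx hD with h | ⟨h1, h2, h3, h4, -⟩ | ⟨⟨x', h1⟩, h2⟩ | h
  · left
    omega
  · right
    refine ⟨h4, ?_⟩
    rw [h3, ← hc, h2]
    rcases hfv h1 with h | h
    · exact Or.inl ⟨h.1, Or.inr h.2⟩
    · exact Or.inr (Or.inl ⟨h.1, Or.inr h.2⟩)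
  · left
    have h3 := hFo z x x' h1
    have h4 : cst w (hA N θ) z = cst w (fun _ => j - w - 1) z := by
      unfold cst ez
      rw [h2]
    omega
  · exact absurd h (hCC.not_cel W hw2)

end Pool.Agent.GaussPoset.Sm
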