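import Pool.Agent.W_448s8f_h76.FkB
import Pool.Agent.W_448w4_h70.WH

/-!
# The windows `2`, `3` with fold joins above the cap: the balance (MP_448cb3_co, S8, `j = 12, 14`)
-/

namespace Pool.Agent.GaussPoset.Sm

set_option linter.unusedSectionVars false

open Polynomial Finset W4 Wd Cp

universe u

variable {P : Type u} [Fintype P] [PartialOrder P] [DecidableEq P] {r j w K : ℕ}
  {lo hi : Tops P → ℕ → ℕ} {e : Tops P → ℕ → ℕ → P}

/-- **the balance at the windows `2`, `3`; fold joins above the cap** -/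
theorem Ctx.win2F (K : Ctx P r j lo hi e) (hF : NoFo P j) (h10 : 10 ≤ j)
    (hwj : w = 2 ∨ (w = 3 ∧ 11 ≤ j)) {cT : ℕ}
    {LE LO : List ℤ} {lb : ℤ} {E : List (ℕ × ℕ × ℕ)} (hE : ChkE j E) (h0 : (0, 0, 0) ∈ E)
    (hb : j % 2 = 1 → ∀ s ∈ E, (s.1 : ℤ) * ((j : ℤ) - w) - s.2.1 ≤ 5 * ((j : ℤ) - w))
    (c1 : ∀ a ∈ Finset.Icc 2 ((j + 1) / 2), (j + 1 - w) ^ 2 + cT + 1 < stC w (j + 1) a)
    (c2 : ∀ a ∈ Finset.Icc 2 (j - 1), (j + 1 - w) ^ 2 + cT + 1 < reC w (j + 1) a)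
    (c3 : j % 2 = 1 → (j + 1 - w) ^ 2 + cT < flC w j)
    (hCC : NoCC P j)
    (hFo : ∀ z x x' : P, FJn j z x x' → (j + 1 - w) ^ 2 + cT < cst w (fun _ => j - w - 1) z)
    (c5 : j % 2 = 0 → (Even (foN w j) ∧ (foC w j : ℤ) - ((j + 1 - w : ℕ) : ℤ) ^ 2 ∈ LE) ∨
      (Odd (foN w j) ∧ (foC w j : ℤ) - ((j + 1 - w : ℕ) : ℤ) ^ 2 ∈ LO))
    (c6 : 2 * ((j + 1 - w) ^ 2 + cT) < 3 * (j + 1 - w) ^ 2 + 3 * (j + 1 - w))
    (c7 : cT < 7 * (j + 1 - w) + 10)
    (hl0 : lb ≤ 0) (hlE : ∀ x ∈ LE, lb ≤ x) (hlO : ∀ x ∈ LO, lb ≤ x)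
    (hJ : ∃ z : P, Hul.Jn z) :
    ∃ V, WinB P j w cT (fun V => LO.elem V) (fun V => nz ((j + 1 - w : ℕ) : ℤ) V || LE.elem V)
      lb V := by
  have H := K.gt.H
  have h16 := K.h16
  have hw : w = 2 ∨ w = 3 := by omega
  have hsh : ∀ t : Tops P, lo t w = hi t w ∨ RectShape j (lo t) (hi t) ∨
      StairShape j (lo t) (hi t) ∨ StairShape j (fun k => k - hi t k) (fun k => k - lo t k) := by
    intro t
    rcases shape_cases (K.comp t) (by omega) (K.shape t) with h | h | ⟨a, h, h3⟩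
    · exact Or.inl (h w (by omega))
    · exact Or.inr (by tauto)
    · left
      have h4 := h.lt (h3 (by omega)) hwj
      rw [(h.low w (by omega)).1, (h.low w (by omega)).2]
  obtain ⟨N, θ, t1, t2, hs, hu⟩ := K.types (w := w) (by omega) hsh
  have W : Wk r j w ((j + 1 - w) ^ 2 + cT) N (fun t => hi t w - lo t w + 1) θ :=
    { gt := K.gt, hj := by omega, hw1 := by omega, hw := by omega, typ := t1, top := t2
      sum_b := hs
      hK := c6
      rdeep := fun C _ hx _ h1 h2 h3 h4 => rdeep_of (by omega) (by omega) c2 C hx h1 h2 h3 h4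
      sdeep := fun _ _ _ _ C _ hx _ h1 h3 h4 => sdeep_of (by omega) (by omega) c1 C hx h1 h3 h4 }
  have L : Lk P j w ((j + 1 - w) ^ 2 + cT) N (fun t => hi t w - lo t w + 1) θ
      (XL (j + 1 - w) LE) (XL (j + 1 - w) LO) :=
    { unq := hu
      nsk := fun z x x' h hl hn hns => (nsk23' h10 hw hn hns).elim
      dj := fun v z x hz hc hl hzx hD =>
        W.dj_noC (by omega) (by omega) c3 hCC hFo c5 v z x hz hc hl hzx hD }
  have hlow : ∀ z x x' : P, Cg z x x' → Sok j x → Sok j x' → j + 1 ≤ lev z →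
      ∀ k, k < w → nab k z = 2 := by
    intro z x x' h hs hs' hl k hk
    rw [h.sum H (by omega), K.low_one' hF h10 hwj h hs hk, K.low_one' hF h10 hwj h.symm hs' hk]
  have hpen : OnePen P j (fun t => 2 ≤ hi t w - lo t w + 1) ∨ ∃ z : P, Hul.Jn z ∧
      ful w z ≤ (j + 1 - w) ^ 2 + 5 * (j - w) := by
    rcases K.pen_or with h | ⟨hodd, z, x, x', h1, h2, h3, h4⟩
    · left
      intro e e' p p' hB
      refine h e e' p p' ?_
      rcases shape_cases (K.comp (topOf e)) (by omega) (K.shape (topOf e)) with h | h | ⟨a, h, h3⟩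
      · have := h w (by omega)
        omega
      · exact h
      · have h4 := h.lt (h3 (by omega)) hwj
        have e1 := h.low w (by omega)
        omega
    · right
      have hs : Sok j x := ⟨fun hf => by
        have := hf.1
        have := (h1.lev_eq H).1
        omega, fun _ hf => by
        have := hf.2.1
        omega⟩
      have hs' : Sok j x' := ⟨fun hf => by
        have := hf.1
        have := (h1.lev_eq H).2
        omega, fun _ hf => by
        have := hf.2.1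
        omega⟩
      exact ⟨z, h1.jn, K.cheap (by omega) hodd hE h0 (hb hodd) h1 h2 h3 h4
        (hlow z x x' h1 hs hs' h2.ge)⟩
  exact W.winB L h16 (cT := (cT : ℤ)) (lb := lb) (by push_cast; ring)
    (by exact_mod_cast c7) hl0 hlE hlO hlow hpen hJ


/-- **the balance at window `3` for the system, with the least cost `v`; fold joins above the
cap** -/
theorem Ctx.win3F (K : Ctx P r j lo hi e) (h12 : 12 ≤ j) {N : Tops P → Finset P}
    {θ3 θ4 : Tops P → P → ℕ} (S : Sy P j lo hi N θ3 θ4) {cT : ℕ}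
    {LE LO : List ℤ} {lb : ℤ} {E : List (ℕ × ℕ × ℕ)} (hE : ChkE j E) (h0 : (0, 0, 0) ∈ E)
    (hb : j % 2 = 1 → ∀ s ∈ E, (s.1 : ℤ) * ((j : ℤ) - 3) - s.2.1 ≤ 5 * ((j : ℤ) - 3))
    (c1 : ∀ a ∈ Finset.Icc 2 ((j + 1) / 2), (j + 1 - 3) ^ 2 + cT + 1 < stC 3 (j + 1) a)
    (c2 : ∀ a ∈ Finset.Icc 2 (j - 1), (j + 1 - 3) ^ 2 + cT + 1 < reC 3 (j + 1) a)
    (c3 : j % 2 = 1 → (j + 1 - 3) ^ 2 + cT < flC 3 j)
    (hCC : NoCC P j)
    (hFo : ∀ z x x' : P, FJn j z x x' → (j + 1 - 3) ^ 2 + cT < cst 3 (fun _ => j - 3 - 1) z)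
    (c5 : j % 2 = 0 → (Even (foN 3 j) ∧ (foC 3 j : ℤ) - ((j + 1 - 3 : ℕ) : ℤ) ^ 2 ∈ LE) ∨
      (Odd (foN 3 j) ∧ (foC 3 j : ℤ) - ((j + 1 - 3 : ℕ) : ℤ) ^ 2 ∈ LO))
    (c6 : 2 * ((j + 1 - 3) ^ 2 + cT) < 3 * (j + 1 - 3) ^ 2 + 3 * (j + 1 - 3))
    (c7 : cT < 7 * (j + 1 - 3) + 10)
    (hl0 : lb ≤ 0) (hlE : ∀ x ∈ LE, lb ≤ x) (hlO : ∀ x ∈ LO, lb ≤ x)
    (hJ : ∃ z : P, Hul.Jn z) :
    ∃ v : ℕ, Mn j 3 N θ3 v ∧
      Wk r j 3 ((j + 1 - 3) ^ 2 + cT) N (fun t => hi t 3 - lo t 3 + 1) θ3 ∧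
      WinB P j 3 cT (fun V => LO.elem V) (fun V => nz ((j + 1 - 3 : ℕ) : ℤ) V || LE.elem V)
        lb ((v : ℤ) - ((j + 1 - 3 : ℕ) : ℤ) ^ 2) := by
  have H := K.gt.H
  have h16 := K.h16
  have W : Wk r j 3 ((j + 1 - 3) ^ 2 + cT) N (fun t => hi t 3 - lo t 3 + 1) θ3 :=
    { gt := K.gt, hj := by omega, hw1 := by omega, hw := by omega, typ := S.typ3, top := S.top3
      sum_b := S.sum3
      hK := c6
      rdeep := fun C _ hx _ h1 h2 h3 h4 => rdeep_of (by omega) (by omega) c2 C hx h1 h2 h3 h4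
      sdeep := fun _ _ _ _ C _ hx _ h1 h3 h4 => sdeep_of (by omega) (by omega) c1 C hx h1 h3 h4 }
  have L : Lk P j 3 ((j + 1 - 3) ^ 2 + cT) N (fun t => hi t 3 - lo t 3 + 1) θ3
      (XL (j + 1 - 3) LE) (XL (j + 1 - 3) LO) :=
    { unq := S.unq3
      nsk := fun z x x' h hl hn hns => (nsk23 h12 (Or.inr rfl) hn hns).elim
      dj := fun v z x hz hc hl hzx hD =>
        W.dj_noC (by omega) (by omega) c3 hCC hFo c5 v z x hz hc hl hzx hD }
  have hlow : ∀ z x x' : P, Cg z x x' → Sok j x → Sok j x' → j + 1 ≤ lev z →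
      ∀ k, k < 3 → nab k z = 2 := by
    intro z x x' h hs hs' hl k hk
    obtain ⟨l1, l2⟩ := h.lev_eq H
    have hend : lev x = j → (Win.uc x).card = 1 := fun hh => (K.ends h (by omega)).1
    have hend' : lev x' = j → (Win.uc x').card = 1 := fun hh => (K.ends h (by omega)).2
    rw [h.sum H (by omega), K.low_one h12 h.only (by omega) hend hs (by omega),
      K.low_one h12 h.only' (by omega) hend' hs' (by omega)]
  have hpen : OnePen P j (fun t => 2 ≤ hi t 3 - lo t 3 + 1) ∨ ∃ z : P, Hul.Jn z ∧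
      ful 3 z ≤ (j + 1 - 3) ^ 2 + 5 * (j - 3) := by
    rcases K.pen_or with h | ⟨hodd, z, x, x', h1, h2, h3, h4⟩
    · left
      intro e e' p p' hB
      refine h e e' p p' ?_
      rcases shape_cases (K.comp (topOf e)) (by omega) (K.shape (topOf e)) with h | h | ⟨a, h, h3⟩
      · have := h 3 (by omega)
        omega
      · exact h
      · have h4 := h.four (by omega)
        have e1 := h.low 3 (by omega)
        omega
    · right
      have hs : Sok j x := ⟨fun hf => by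
        have := hf.1
        have := (h1.lev_eq H).1
        omega, fun _ hf => by
        have := hf.2.1
        omega⟩
      have hs' : Sok j x' := ⟨fun hf => by
        have := hf.1
        have := (h1.lev_eq H).2
        omega, fun _ hf => by
        have := hf.2.1
        omega⟩
      exact ⟨z, h1.jn, K.cheap (w := 3) (by omega) hodd hE h0 (hb hodd) h1 h2 h3 h4
        (hlow z x x' h1 hs hs' h2.ge)⟩
  obtain ⟨v, M, hex⟩ := exists_minK W (bdR_nonempty W hJ)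
  exact ⟨v, M, W, winB_of W L h16 (cT := (cT : ℤ)) (lb := lb) (by push_cast; ring)
    (by exact_mod_cast c7) hl0 hlE hlO hlow hpen M hex⟩


end Pool.Agent.GaussPoset.Sm
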