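import Pool.Agent.W_448s8f_h76.FiM

/-!
No joins on the level 18 (`j = 17`); the frame for `j = 16`, `j = 18` (MP_448cb3_co).
-/

namespace Pool.Agent.GaussPoset.Fi

set_option linter.unusedSectionVars false

open Polynomial Finset

universe u

variable {P : Type u} [Fintype P] [PartialOrder P] [DecidableEq P] {r i m j K : ℕ}
  {N : Tops P → Finset P} {b : Tops P → ℕ} {θ : Tops P → P → ℕ}

/-- from covers to maximal elements -/
theorem no_jn_of (G : Win.GoodTo P r j)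
    (h : ∀ z x x' : P, lev z = j + 1 → z ⋖ x → z ⋖ x' → topOf x = topOf x') (z : P)
    (hl : lev z = j + 1) : ¬ Hul.Jn z := by
  rintro ⟨s, s', hs, hs', hne, hzs, hzs'⟩
  have hlt : ∀ s : P, lev s = 0 → z ≤ s → z < s := fun s hs hzs =>
    lt_of_le_of_ne hzs (by rintro rfl; omega)
  obtain ⟨x, hzx, hxs⟩ := Hul.exists_cov (hlt s hs hzs)
  obtain ⟨x', hzx', hxs'⟩ := Hul.exists_cov (hlt s' hs' hzs')
  have l1 := (G.H.covBy_iff.mp hzx).2
  have l2 := (G.H.covBy_iff.mp hzx').2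
  have e1 := mem_onlyB.mp (only_of_le G.H G.good (le_topOf x) (by omega)) s hs hxs
  have e2 := mem_onlyB.mp (only_of_le G.H G.good (le_topOf x') (by omega)) s' hs' hxs'
  apply hne
  rw [e1, e2, h z x x' hl hzx hzx']

/-- no element of level 18 is below two maximal elements, `j = 17` -/
theorem no_cross17 (G : Win.GoodTo P r 17)
    {lo hi : Tops P → ℕ → ℕ} {e : Tops P → ℕ → ℕ → P}
    (C : ∀ t : Tops P, Cp.Comp 17 (t : P) (lo t) (hi t) (e t))
    (hS : ∀ t, Wd.Shape 17 (lo t) (hi t)) {z x x' : P} (hl : lev z = 17 + 1) (hzx : z ⋖ x)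
    (hzx' : z ⋖ x') : topOf x = topOf x' := by
  by_contra hne
  obtain ⟨h1, h2⟩ := single_of_join G (by omega) hl hzx hzx' hne
  have l1 := (G.H.covBy_iff.mp hzx).2
  have l2 := (G.H.covBy_iff.mp hzx').2
  have key : ∀ x : P, lev x = 17 → (Win.uc x).card = 1 →
      (RectShape 17 (lo (topOf x)) (hi (topOf x)) ∨
        StairShape 17 (lo (topOf x)) (hi (topOf x))) → ∀ k, k ≤ 17 → nab k x = 1 := by
    intro x hlx hu hsh
    rcases hsh with hsh | hsh
    · exact straight_rect G (C (topOf x)) hsh (le_topOf x) hlx hu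
    · rcases straight_stair G (C (topOf x)) hsh (le_topOf x) hlx hu with h | ⟨h, -⟩
      · exact h
      · omega
  exact no_end_join G (by omega) C hS hl hzx hzx' hne (key x (by omega) h1)
    (key x' (by omega) h2)

theorem no_jn17 (G : Win.GoodTo P r 17)
    {lo hi : Tops P → ℕ → ℕ} {e : Tops P → ℕ → ℕ → P}
    (C : ∀ t : Tops P, Cp.Comp 17 (t : P) (lo t) (hi t) (e t))
    (hS : ∀ t, Wd.Shape 17 (lo t) (hi t)) (z : P) (hl : lev z = 17 + 1) : ¬ Hul.Jn z :=
  no_jn_of G (fun _ _ _ hl hzx hzx' => no_cross17 G C hS hl hzx hzx') z hl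

/-- `m = 8`: no joins -/
theorem no_cross16 (W : WC r 8 8 K N b θ) (hK : 43 ≤ K) (S7 : S7F P 8)
    (hst : StarT 8 8 K N b θ) {z x x' : P} (hl : lev z = 2 * 8 + 1) (hzx : z ⋖ x)
    (hzx' : z ⋖ x') : topOf x = topOf x' := by
  by_contra hne
  have hz := W.join_r2 hne hzx hzx'
  rcases S7 z x x' hl hzx hzx' hne with h | h
  · exact below8 W hK S7 hst hz hl h hzx
  · exact below8 W hK S7 hst hz hl h hzx'

/-- `m = 9`: no joins, if there are no joins of two fold ends -/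
theorem no_cross18 {K' : ℕ} {N' : Tops P → Finset P} {b' : Tops P → ℕ} {θ' : Tops P → P → ℕ}
    (W : WC r 9 9 K N b θ) (hK : 91 ≤ K) (W' : WC r 8 9 K' N' b' θ') (hK' : 122 ≤ K')
    (S7 : S7F P 9) (hst : StarT 9 9 K N b θ) (hst' : StarT 8 9 K' N' b' θ')
    (hff : ∀ z x x' : P, lev z = 2 * 9 + 1 → Fd 9 x → Fd 9 x' → topOf x ≠ topOf x' → z ⋖ x →
      z ⋖ x' → False) {z x x' : P} (hl : lev z = 2 * 9 + 1) (hzx : z ⋖ x)
    (hzx' : z ⋖ x') : topOf x = topOf x' := by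
  by_contra hne
  obtain ⟨h1, h2⟩ := single_of_join W.gt (by omega) hl hzx hzx' hne
  obtain ⟨-, -, hB⟩ := below9 W hK W' hK' S7 hst hst'
  rcases S7 z x x' hl hzx hzx' hne with h | h
  · exact hff z x x' hl h (hB z x x' hl h h2 hne hzx hzx') hne hzx hzx'
  · exact hff z x' x hl h (hB z x' x hl h h1 (Ne.symm hne) hzx' hzx) (Ne.symm hne) hzx' hzx

end Pool.Agent.GaussPoset.Fi
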