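import Pool.Agent.W_448s8f_h76.FiC

/-!
The unnatural elements of level `2 m + 1`: classification (MP_448cb3_co, S8, small `m`).
-/

namespace Pool.Agent.GaussPoset.Fi

set_option linter.unusedSectionVars false

open Polynomial Finset

universe u

variable {P : Type u} [Fintype P] [PartialOrder P] [DecidableEq P] {r i m K : ℕ}
  {N : Tops P → Finset P} {b : Tops P → ℕ} {θ : Tops P → P → ℕ}

/-- the kinds of natural elements of light components -/
theorem WI.light_case (W : WI r i m K N b θ) {x : P} (hx : x ∉ unnat N)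
    (h1 : N (topOf x) = onlyB (topOf x)) (h2 : θ (topOf x) = fun x => lev x - i) :
    Full i m N θ x := by
  have H := W.gt.H
  have HN := W.natSys
  have hxt : x ∈ N (topOf x) := HN.mem_iff.mpr ⟨hx, rfl⟩
  have h4 := W.hi
  have him := W.him
  generalize ht : topOf x = t at hxt h1 h2
  have hs : ∀ z ∈ unnat N, ∃ s : P, lev s = 0 ∧ z ≤ s ∧ s ≠ t := by
    intro z hz
    have h7 : z ∉ onlyB t := by
      rw [← h1]
      exact mem_unnat.mp hz t
    rw [mem_onlyB] at h7
    push Not at h7
    exact h7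
  refine ⟨by rw [ht, h2], ?_, ?_⟩
  · intro z hz hzx k _ hk
    obtain ⟨s, hs1, hs2, hs3⟩ := hs z hz
    exact two_le_nab_join HN H.gradedBelow hxt hzx hs1 hs3 hs2 hk
  · intro z hz h
    obtain ⟨s, hs1, hs2, hs3⟩ := hs z hz
    have h7 := W.lt_lev hz
    have h8 : z < s := lt_of_le_of_ne hs2 (by rintro rfl; omega)
    exact hs3 (HN.top_eq hxt hs1 ((h s).mpr h8).le)

/-- the kinds of natural elements of rectangles -/
theorem WI.rect_case (W : WI r i m K N b θ) {x : P} (hx : x ∉ unnat N) {Nc : Finset P}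
    {co : P → ℕ × ℕ} (h0 : RectNat (2 * m) i (topOf x) (b (topOf x)) Nc co)
    (h1 : N (topOf x) = natR Nc co) (h2 : θ (topOf x) = thR i (b (topOf x)) Nc co)
    (h3 : NopT m (topOf x)) : Full i m N θ x ∨ ∃ Nc co, InR i m N b θ x Nc co := by
  have H := W.gt.H
  have HN := W.natSys
  have hxt : x ∈ N (topOf x) := HN.mem_iff.mpr ⟨hx, rfl⟩
  have h4 := W.hi
  have him := W.him
  generalize ht : topOf x = t at hxt h0 h1 h2 h3
  -- rectangles
  by_cases hJ : x ∈ junk (fun _ => True) Nc co ∨ x ∈ junk (fun _ => True) Nc (swp co)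
  · left
    refine ⟨?_, ?_, ?_⟩
    · rw [ht, h2]
      unfold thR
      rw [if_pos hJ]
    · intro z hz hzx k hk hkx
      refine rect_two_le_nab H h0 h1 hz hzx ?_ (by omega) hkx
      rcases hJ with h | h
      · exact Or.inl h
      · exact Or.inr (Or.inl h)
    · intro z hz h
      refine mem_unnat.mp hz t ?_
      rw [h1, mem_natR]
      rcases hJ with h' | h'
      · exact Or.inr (Or.inl (junk_twin h' h))
      · exact Or.inr (Or.inr (junk_twin h' h))
  · have hxN : x ∈ Nc := by
      rw [h1, mem_natR] at hxt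
      rcases hxt with h | h | h
      · exact h
      · exact absurd (Or.inl h) hJ
      · exact absurd (Or.inr h) hJ
    have hl := h0.chart.lev x hxN
    have hb1 := h0.b_two
    have hb2 := h0.b_le
    have hrow : b t = i + 1 ∨ (co x).1 ≤ b t - 1 := by
      rcases h0.rows with h | h
      · exact Or.inl h
      · exact Or.inr (h x hxN)
    by_cases h7 : (co x).1 = 0 ∨ (co x).2 = 0
    · left
      refine ⟨?_, ?_, ?_⟩
      · rw [ht, h2]
        unfold thR
        rw [if_neg hJ]
        omega
      · intro z hz hzx k hk hkx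
        exact rect_two_le_nab H h0 h1 hz hzx (Or.inr (Or.inr ⟨hxN, h7⟩)) (by omega) hkx
      · intro z hz h
        have h8 := W.lt_lev hz
        rw [← lev_eq_of_up h] at h8
        rcases h7 with h7 | h7
        · obtain ⟨u, hu, hcu⟩ := h0.chart.low x hxN (0, (co x).2 - 1)
            ⟨Nat.zero_le _, Nat.sub_le _ _⟩ trivial
          refine straight_twin H h0 h1 hxN hu ?_ ?_ ?_ hz h
          · rw [hcu]
            exact Or.inr ⟨by simp only; omega, by simp only; omega⟩
          · intro y hy hp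
            rw [hcu]
            rcases hp with hp | hp
            · omega
            · exact Prod.ext (by simp only; omega) (by simp only; omega)
          · rw [hcu]
            exact Or.inl rfl
        · obtain ⟨u, hu, hcu⟩ := h0.chart.low x hxN ((co x).1 - 1, 0)
            ⟨Nat.sub_le _ _, Nat.zero_le _⟩ trivial
          refine straight_twin H h0 h1 hxN hu ?_ ?_ ?_ hz h
          · rw [hcu]
            exact Or.inl ⟨by simp only; omega, by simp only; omega⟩
          · intro y hy hp
            rw [hcu]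
            rcases hp with hp | hp
            · exact Prod.ext (by simp only; omega) (by simp only; omega)
            · omega
          · rw [hcu]
            exact Or.inr rfl
    · right
      refine ⟨Nc, co, ?_, ?_, hxN, by omega, by omega, ?_, ?_⟩
      · rw [ht]; exact h0
      · rw [ht]; exact h1
      · rw [ht, h2]
        unfold thR
        rw [if_neg hJ]
        omega
      · rw [ht]; exact h3

/-- the kinds of natural elements of stairs -/
theorem WI.stair_case (W : WI r i m K N b θ) {x : P} (hx : x ∉ unnat N) {Nc : Finset P}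
    {co : P → ℕ × ℕ} (h0 : StairNat (2 * m) i (topOf x) Nc co)
    (h1 : N (topOf x) = natS Nc co) (h2 : θ (topOf x) = thS i Nc co)
    (h3 : b (topOf x) = i / 2 + 1) (h4 : NopT m (topOf x)) :
    Full i m N θ x ∨ ∃ Nc co, InS i m N b θ x Nc co := by
  have H := W.gt.H
  have HN := W.natSys
  have hxt : x ∈ N (topOf x) := HN.mem_iff.mpr ⟨hx, rfl⟩
  have hi4 := W.hi
  have him := W.him
  generalize ht : topOf x = t at hxt h0 h1 h2 h3 h4
  -- stairs
  by_cases hJ : x ∈ junk (fun c => c.1 ≤ c.2) Nc co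
  · left
    refine ⟨?_, ?_, ?_⟩
    · rw [ht, h2]
      unfold thS
      rw [if_pos hJ]
    · intro z hz hzx k hk hkx
      exact stair_two_le_nab H h0 h1 hz hzx (Or.inl hJ) hk hkx
    · intro z hz h
      refine mem_unnat.mp hz t ?_
      rw [h1, mem_natS]
      exact Or.inr (junk_twin hJ h)
  · have hxN : x ∈ Nc := by
      rw [h1, mem_natS] at hxt
      rcases hxt with h | h
      · exact h
      · exact absurd h hJ
    have hl := h0.chart.lev x hxN
    by_cases h7 : (co x).1 = 0
    · left
      refine ⟨?_, ?_, ?_⟩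
      · rw [ht, h2]
        unfold thS
        rw [if_neg hJ]
        omega
      · intro z hz hzx k hk hkx
        exact stair_two_le_nab H h0 h1 hz hzx (Or.inr ⟨hxN, h7⟩) hk hkx
      · intro z hz h
        have h8 := W.lt_lev hz
        rw [← lev_eq_of_up h] at h8
        obtain ⟨u, hu, hcu⟩ := h0.chart.low x hxN (0, (co x).2 - 1)
          ⟨Nat.zero_le _, Nat.sub_le _ _⟩ (Nat.zero_le _)
        refine straight_twinS H h0 (by omega) h1 hxN hu ?_ ?_ ?_ hz h
        · rw [hcu]
          exact Or.inr ⟨by simp only; omega, by simp only; omega⟩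
        · intro y hy hp
          rw [hcu]
          rcases hp with hp | hp
          · omega
          · exact Prod.ext (by simp only; omega) (by simp only; omega)
        · rw [hcu]
    · right
      refine ⟨Nc, co, ?_, ?_, ?_, ?_, hxN, by omega, ?_, ?_⟩
      · rw [ht]; exact h0
      · rw [ht]; exact h1
      · rw [ht]; exact h2
      · rw [ht]; exact h3
      · rw [ht, h2]
        unfold thS
        rw [if_neg hJ]
      · rw [ht]; exact h4

/-- heavy ends -/
structure He (i m : ℕ) (N : Tops P → Finset P) (θ : Tops P → P → ℕ) (x : P) : Prop where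
  lev : Pool.Agent.GaussPoset.lev x = 2 * m
  nat : N (topOf x) = lowPart (2 * m) (topOf x : P)
  th : θ (topOf x) x = 0
  up1 : (Win.uc x).card = 1
  prof : ∃ p ∈ HL i m, Prof m x (gD p)
  uniq : ∀ w, w ≤ (topOf x : P) → Pool.Agent.GaussPoset.lev w = 2 * m → w = x

/-- the kinds of elements of level `2 m` -/
theorem WC.kind (W : WC r i m K N b θ) {x : P} (hl : lev x = 2 * m) :
    Full i m N θ x ∨ Fd m x ∨ He i m N θ x ∨ ((Win.uc x).card = 2 ∧ NopT m (topOf x)) := by
  have H := W.gt.H
  have him := W.him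
  have h4 := W.hi
  have W' := W.wi
  have hlow := W'.low hl.le
  rcases W.tc (topOf x) with ⟨g1, g2, g3, g5, g6, g7, g8⟩ | ⟨Nc, co, g0, g1, g2, g3⟩ |
    ⟨Nc, co, g0, g1, g2, g3, g4⟩ | ⟨g1, g2, g3, g4, g5, g8⟩
  · exact Or.inl (W'.light_case hlow g1 g2)
  · rcases W'.rect_case hlow g0 g1 g2 g3 with h | ⟨Nc', co', h⟩
    · exact Or.inl h
    · exact Or.inr (Or.inr (Or.inr ⟨chart_inner_uc h.rect.chart H h.mem h.fst h.snd, h.nop⟩))
  · rcases W'.stair_case hlow g0 g1 g2 g3 g4 with h | ⟨Nc', co', h⟩
    · exact Or.inl h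
    · have h1 := h.stair.chart.lev x h.mem
      have h2 : (co' x).1 ≤ (co' x).2 := h.stair.chart.mem x h.mem
      have h0 := h.fst
      by_cases h3 : (co' x).1 = (co' x).2
      · refine Or.inr (Or.inl ⟨hl, ?_, ?_⟩)
        · rw [Wd.uc_card_nab H (by omega), nab_chart h.stair.chart h.mem]
          have := card_cellsAt_shift (l := lev x - 1) (p := co' x) h2 (by omega)
          omega
        · rw [nab_chart h.stair.chart h.mem]
          have := card_cellsAt_shift (l := 2) (p := co' x) h2 (by omega)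
          omega
      · exact Or.inr (Or.inr (Or.inr ⟨chartS_inner_uc h.stair.chart H h.mem h.fst (by omega),
          h.nop⟩))
  · exact Or.inr (Or.inr (Or.inl ⟨hl, g1, g2 x hl.le, (g5 x (le_topOf x) hl).1,
      (g5 x (le_topOf x) hl).2, fun w hw hwl => g4 w x hw (le_topOf x) hwl hl⟩))

/-- two neighbours of the level `2 m`: the element is natural or a twin -/
theorem WC.near (W : WC r i m K N b θ) {z x x' : P} (hz : z ∈ r2 (2 * m) N)
    (hl : lev z = 2 * m + 1) (hzx : z ⋖ x) (hzx' : z ⋖ x') (hne : x ≠ x')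
    (h1 : ucv x x' = 1) : False := by
  classical
  have H := W.gt.H
  have W' := W.wi
  have HN := W'.natSys
  have h4 := W.hi
  have him := W.him
  have hlx : lev x = 2 * m := by
    have := (H.covBy_iff.mp hzx).2
    omega
  have hlx' : lev x' = 2 * m := by
    have := (H.covBy_iff.mp hzx').2
    omega
  rw [mem_sdiff] at hz
  have hzU := hz.1
  obtain ⟨p, hp⟩ := Finset.card_eq_one.mp h1
  have hp2 : x ⋖ p ∧ x' ⋖ p := by
    have : p ∈ (univ.filter (fun y : P => x ⋖ y ∧ x' ⋖ y)) := by rw [hp]; simp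
    simpa using this
  have hxt : topOf x = topOf p := HN.cp x p hp2.1.le (W'.low hlx.le)
  have hxt' : topOf x' = topOf p := HN.cp x' p hp2.2.le (W'.low hlx'.le)
  have hxle : x ≤ (topOf p : P) := by rw [← hxt]; exact le_topOf x
  have hxle' : x' ≤ (topOf p : P) := by rw [← hxt']; exact le_topOf x'
  have hxN : x ∈ N (topOf p) := HN.mem_iff.mpr ⟨W'.low hlx.le, hxt⟩
  have hxN' : x' ∈ N (topOf p) := HN.mem_iff.mpr ⟨W'.low hlx'.le, hxt'⟩
  have twin : ∀ y : P, y ∉ unnat N → y ⋖ x → y ⋖ x' → False := fun y hy hyx hyx' =>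
    hz.2 (mem_twY.mpr ⟨hzU, hl, y, hy, up_of_pair H hzx hzx' hyx hyx' hne⟩)
  rcases W.tc (topOf p) with ⟨g1, g2, g3, g5, g6, g7, g8⟩ | ⟨Nc, co, g0, g1, g2, g3⟩ |
    ⟨Nc, co, g0, g1, g2, g3, g4⟩ | ⟨g1, g2, g3, g4, g5, g8⟩
  · refine mem_unnat.mp hzU (topOf p) ?_
    rw [g1, mem_onlyB]
    intro s hs hzs
    have hne2 : z ≠ s := by rintro rfl; omega
    obtain ⟨v, hv, hvs⟩ := Hul.exists_cov (lt_of_le_of_ne hzs hne2)
    rcases uc_pair H hzx hzx' hne hv with h | h
    · rw [h] at hvs
      exact HN.top_eq hxN hs hvs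
    · rw [h] at hvs
      exact HN.top_eq hxN' hs hvs
  · have hx : x ∈ Nc := g0.strip (mem_lowPart.mpr ⟨hxle, hlx.le⟩)
    have hx' : x' ∈ Nc := g0.strip (mem_lowPart.mpr ⟨hxle', hlx'.le⟩)
    have hpN := g0.chart.up x hx p hp2.1.le
    have e1 := (chart_cov g0.chart H hx hpN).mp hp2.1
    have e2 := (chart_cov g0.chart H hx' hpN).mp hp2.2
    have hcne : co x ≠ co x' := fun h => hne (g0.chart.inj x hx x' hx' h)
    have hzN : z ∉ Nc := fun h => mem_unnat.mp hzU (topOf p) (by
      rw [g1]
      exact mem_natR.mpr (Or.inl h))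
    have key : ∀ x x' : P, x ∈ Nc → x' ∈ Nc → z ⋖ x → z ⋖ x' →
        co x = ((co p).1 + 1, (co p).2) → co x' = ((co p).1, (co p).2 + 1) →
        ∃ y, y ∉ unnat N ∧ y ⋖ x ∧ y ⋖ x' := by
      intro x x' hx hx' hzx hzx' hcx hcx'
      obtain ⟨y, hy, -, hyx, hyx', hyz⟩ := max_pair g0.chart g0.max H hzN hx hx' hzx hzx' hcx
        hcx' trivial
      refine ⟨y, (HN.mem_iff (t := topOf p).mp ?_).1, hyx, hyx'⟩
      rw [g1]
      exact mem_natR.mpr (Or.inl hy)
    rcases e1 with e1 | e1
    · rcases e2 with e2 | e2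
      · exact hcne (Prod.ext (by omega) (by omega))
      · obtain ⟨y, h3, h4, h5⟩ := key x x' hx hx' hzx hzx' (Prod.ext e1.1 e1.2)
          (Prod.ext e2.1 e2.2)
        exact twin y h3 h4 h5
    · rcases e2 with e2 | e2
      · obtain ⟨y, h3, h4, h5⟩ := key x' x hx' hx hzx' hzx (Prod.ext e2.1 e2.2)
          (Prod.ext e1.1 e1.2)
        exact twin y h3 h5 h4
      · exact hcne (Prod.ext (by omega) (by omega))
  · have hx : x ∈ Nc := g0.strip (mem_lowPart.mpr ⟨hxle, hlx.le⟩)
    have hx' : x' ∈ Nc := g0.strip (mem_lowPart.mpr ⟨hxle', hlx'.le⟩)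
    have hpN := g0.chart.up x hx p hp2.1.le
    have e1 := (chart_cov g0.chart H hx hpN).mp hp2.1
    have e2 := (chart_cov g0.chart H hx' hpN).mp hp2.2
    have hcne : co x ≠ co x' := fun h => hne (g0.chart.inj x hx x' hx' h)
    have hzN : z ∉ Nc := fun h => mem_unnat.mp hzU (topOf p) (by
      rw [g1]
      exact mem_natS.mpr (Or.inl h))
    have hSx : (co x).1 ≤ (co x).2 := g0.chart.mem x hx
    have hSx' : (co x').1 ≤ (co x').2 := g0.chart.mem x' hx'
    have key : ∀ x x' : P, x ∈ Nc → x' ∈ Nc → z ⋖ x → z ⋖ x' → (co x).1 ≤ (co x).2 →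
        co x = ((co p).1 + 1, (co p).2) → co x' = ((co p).1, (co p).2 + 1) →
        ∃ y, y ∉ unnat N ∧ y ⋖ x ∧ y ⋖ x' := by
      intro x x' hx hx' hzx hzx' hS hcx hcx'
      obtain ⟨y, hy, -, hyx, hyx', hyz⟩ := max_pair g0.chart g0.max H hzN hx hx' hzx hzx' hcx
        hcx' (by
          rw [hcx] at hS
          simp only at hS ⊢
          omega)
      refine ⟨y, (HN.mem_iff (t := topOf p).mp ?_).1, hyx, hyx'⟩
      rw [g1]
      exact mem_natS.mpr (Or.inl hy)
    rcases e1 with e1 | e1
    · rcases e2 with e2 | e2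
      · exact hcne (Prod.ext (by omega) (by omega))
      · obtain ⟨y, h3, h4, h5⟩ := key x x' hx hx' hzx hzx' hSx (Prod.ext e1.1 e1.2)
          (Prod.ext e2.1 e2.2)
        exact twin y h3 h4 h5
    · rcases e2 with e2 | e2
      · obtain ⟨y, h3, h4, h5⟩ := key x' x hx' hx hzx' hzx hSx' (Prod.ext e2.1 e2.2)
          (Prod.ext e1.1 e1.2)
        exact twin y h3 h5 h4
      · exact hcne (Prod.ext (by omega) (by omega))
  · exact hne (g4 x x' hxle hxle' hlx hlx')

/-- the second single-up end of the component of a fold end -/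
theorem WC.stair_single (W : WC r i m K N b θ) {x x' : P} (hx : Fd m x) (hlx' : lev x' = 2 * m)
    (hxt : topOf x' = topOf x) (hne : x ≠ x') (h1 : (Win.uc x').card = 1) :
    Prof m x' (gD []) ∧ ∃ Nc co, FI i m N b θ x Nc co ∧ x' ∈ Nc ∧ co x' = (0, 2 * m) := by
  have H := W.gt.H
  have h4 := W.hi
  have him := W.him
  obtain ⟨Nc, co, h⟩ := W.fold_typ hx
  have hx' : x' ∈ Nc := h.stair.strip (mem_lowPart.mpr ⟨by rw [← hxt]; exact le_topOf x',
    hlx'.le⟩)
  have h2 := h.stair.chart.lev x' hx'
  have h3 : (co x').1 ≤ (co x').2 := h.stair.chart.mem x' hx'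
  have h5 : (co x').1 = 0 := by
    by_contra h5
    by_cases h6 : (co x').1 = (co x').2
    · refine hne (h.stair.chart.inj x h.mem x' hx' ?_)
      rw [h.cell]
      exact Prod.ext (by simp only; omega) (by simp only; omega)
    · have := chartS_inner_uc h.stair.chart H hx' (by omega) (by omega)
      omega
  refine ⟨fun d hd => ?_, Nc, co, h, hx', Prod.ext h5 (by simp only; omega)⟩
  rw [nab_chart h.stair.chart hx']
  have := card_cellsAt_shift (l := 2 * m - d) (p := co x') h3 (by omega)
  have h7 : gD [] d = 0 := rfl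
  omega

/-- the seventh step: a fold end in every join -/
def S7F (P : Type u) [Fintype P] [PartialOrder P] [DecidableEq P] (m : ℕ) : Prop :=
  ∀ z x x' : P, lev z = 2 * m + 1 → z ⋖ x → z ⋖ x' → topOf x ≠ topOf x' → Fd m x ∨ Fd m x'

/-- the unnatural elements of level `2 m + 1` which are no twins -/
inductive Kd (i m : ℕ) (N : Tops P → Finset P) (θ : Tops P → P → ℕ) (z : P) : Prop
  | penF (x : P) (hx : Fd m x) (hzx : Pend z x)
  | penH (x : P) (hx : He i m N θ x) (hzx : Pend z x)
  | join (x x' : P) (hx : Fd m x) (h1 : (Win.uc x').card = 1) (ht : topOf x ≠ topOf x')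
      (hzx : z ⋖ x) (hzx' : z ⋖ x')
  | cc (x x' : P) (hx : Fd m x) (h1 : (Win.uc x').card = 1) (ht : topOf x' = topOf x)
      (hne : x ≠ x') (hzx : z ⋖ x) (hzx' : z ⋖ x')
  | full (h : ∀ x, z ⋖ x → Full i m N θ x)

/-- the classification -/
theorem WC.class (W : WC r i m K N b θ) (S7 : S7F P m) {z : P} (hz : z ∈ r2 (2 * m) N)
    (hl : lev z = 2 * m + 1) : Kd i m N θ z := by
  classical
  have H := W.gt.H
  have h4 := W.hi
  have him := W.him
  have hzt : z < (topOf z : P) := lt_of_le_of_ne (le_topOf z) (by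
    intro h
    have := (topOf z).2
    rw [← h] at this
    omega)
  obtain ⟨x, hzx, hxt⟩ := Hul.exists_cov hzt
  have hlev : ∀ y, z ⋖ y → lev y = 2 * m := by
    intro y hy
    have := (H.covBy_iff.mp hy).2
    omega
  have hlx := hlev x hzx
  by_cases honly : ∀ y, z ⋖ y → y = x
  · rcases W.kind hlx with h | h | h | h
    · refine Kd.full fun y hy => ?_
      rw [honly y hy]
      exact h
    · exact Kd.penF x h ⟨hzx, honly⟩
    · exact Kd.penH x h ⟨hzx, honly⟩
    · exact absurd honly (h.2 x z (le_topOf x) hlx h.1 hzx)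
  · push Not at honly
    obtain ⟨x', hzx', hne'⟩ := honly
    have hne : x ≠ x' := Ne.symm hne'
    have hlx' := hlev x' hzx'
    obtain ⟨j, hj⟩ : ∃ j, 2 * m = j + 1 := ⟨2 * m - 1, by omega⟩
    have hgt := W.gt
    rw [hj] at hgt
    rcases (Win.near_level' hgt (by omega)).1 z x x' (by omega) hzx hzx' hne with
      h7 | ⟨h7, h8, -⟩
    · exact (W.near hz hl hzx hzx' hne h7).elim
    · by_cases ht : topOf x = topOf x'
      · have hQ : ∀ y, z ⋖ y → ¬ He i m N θ y := by
          intro y hy hQ
          rcases uc_pair H hzx hzx' hne hy with h | h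
          · subst h
            exact hne (hQ.uniq x' (by rw [ht]; exact le_topOf x') hlx').symm
          · subst h
            exact hne (hQ.uniq x (by rw [← ht]; exact le_topOf x) hlx)
        rcases W.kind hlx with h | h | h | h
        · rcases W.kind hlx' with h' | h' | h' | h'
          · refine Kd.full fun y hy => ?_
            rcases uc_pair H hzx hzx' hne hy with e | e
            · rw [e]; exact h
            · rw [e]; exact h'
          · exact Kd.cc x' x h' h7 ht hne' hzx' hzx
          · exact (hQ x' hzx' h').elim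
          · omega
        · exact Kd.cc x x' h h8 ht.symm hne hzx hzx'
        · exact (hQ x hzx h).elim
        · omega
      · rcases S7 z x x' hl hzx hzx' ht with h9 | h9
        · exact Kd.join x x' h9 h8 ht hzx hzx'
        · exact Kd.join x' x h9 h7 (Ne.symm ht) hzx' hzx

/-- the profiles of the full single-up elements -/
theorem WC.full_prof (W : WC r i m K N b θ) {v : P} (hl : lev v = 2 * m)
    (hF : Full i m N θ v) (h1 : (Win.uc v).card = 1) : ∃ p ∈ PL i m, Prof m v (gD p) ∧
      (gD p 7 = 1 → (p = q7 ∧ TD m (topOf v) v 8) ∨ (p = p5 ∧ TD m (topOf v) v 4)) := by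
  have H := W.gt.H
  have h4 := W.hi
  have him := W.him
  have hnil : ([] : List ℕ) ∈ PL i m := by
    unfold PL
    simp
  have h7 : gD [] 7 = 1 → (([] : List ℕ) = q7 ∧ TD m (topOf v) v 8) ∨
      (([] : List ℕ) = p5 ∧ TD m (topOf v) v 4) := by
    intro h
    exact absurd h (by decide)
  rcases W.tc (topOf v) with ⟨g1, g2, g3, g5, g6, g7, g8⟩ | ⟨Nc, co, g0, g1, g2, g3⟩ |
    ⟨Nc, co, g0, g1, g2, g3, g4⟩ | ⟨g1, g2, g3, g4, g5, g8⟩
  · exact g7 v (le_topOf v) hl h1
  · have hv : v ∈ Nc := g0.strip (mem_lowPart.mpr ⟨le_topOf v, hl.le⟩)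
    have hcl := g0.chart.lev v hv
    refine ⟨[], hnil, fun d hd => ?_, h7⟩
    have h3 : (co v).1 = 0 ∨ (co v).2 = 0 := by
      by_contra hcon
      have := chart_inner_uc g0.chart H hv (by omega) (by omega)
      omega
    rw [nab_chart g0.chart hv]
    have := card_cellsAt_true (l := 2 * m - d) (p := co v) (by omega)
    have h8 : gD [] d = 0 := rfl
    omega
  · have hv : v ∈ Nc := g0.strip (mem_lowPart.mpr ⟨le_topOf v, hl.le⟩)
    have hcl := g0.chart.lev v hv
    have hS : (co v).1 ≤ (co v).2 := g0.chart.mem v hv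
    have h3 : (co v).1 = 0 := by
      by_contra h3
      by_cases h5 : (co v).1 = (co v).2
      · have hFd : Fd m v := by
          refine ⟨hl, h1, ?_⟩
          rw [nab_chart g0.chart hv]
          have := card_cellsAt_shift (l := 2) (p := co v) hS (by omega)
          omega
        have e1 := W.fold_th hFd
        have e2 := hF.th
        omega
      · have := chartS_inner_uc g0.chart H hv (by omega) (by omega)
        omega
    refine ⟨[], hnil, fun d hd => ?_, h7⟩
    rw [nab_chart g0.chart hv]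
    have := card_cellsAt_shift (l := 2 * m - d) (p := co v) hS (by omega)
    have h8 : gD [] d = 0 := rfl
    omega
  · have e2 := hF.th
    rw [g2 v hl.le] at e2
    omega

end Pool.Agent.GaussPoset.Fi
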