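import Pool.Agent.W_448s8f_h76.FiP
import Pool.Agent.W_448s8f_h61.TK

/-!
No joins on the level 19 (`j = 18`); the level 17 from the seventh step (MP_448cb3_co, S8).
-/

namespace Pool.Agent.GaussPoset.Fi

set_option linter.unusedSectionVars false

open Polynomial Finset

universe u

variable {P : Type u} [Fintype P] [PartialOrder P] [DecidableEq P] {r : ℕ}

lemma kapR88 : KapR 8 8 43 := by
  unfold KapR
  decide

lemma kapS88 : KapS 8 8 43 := by
  unfold KapS
  decide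

lemma kapR99 : KapR 9 9 91 := by
  unfold KapR
  decide

lemma kapS99 : KapS 9 9 91 := by
  unfold KapS
  decide

lemma kapR89 : KapR 8 9 122 := by
  unfold KapR
  decide

lemma kapS89 : KapS 8 9 122 := by
  unfold KapS
  decide

/-- `j = 18`: no joins -/
theorem no_jn18 (G : Win.GoodTo P r 18) (hr : 18 + 1 ≤ r)
    {lo hi : Tops P → ℕ → ℕ} {e : Tops P → ℕ → ℕ → P}
    (C : ∀ t : Tops P, Cp.Comp 18 (t : P) (lo t) (hi t) (e t))
    (hS : ∀ t, Wd.Shape 18 (lo t) (hi t)) (z : P) (hl : lev z = 18 + 1) : ¬ Hul.Jn z := by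
  have h := exists_WC (i := 9) (m := 9) (Or.inr (Or.inl ⟨rfl, rfl⟩)) G hr C hS kapR99 kapS99
    (by norm_num)
  have h' := exists_WC (i := 8) (m := 9) (Or.inr (Or.inr ⟨rfl, rfl⟩)) G hr C hS kapR89 kapS89
    (by norm_num)
  exact no_jn18_of G h h' (s7F_of (m := 9) le_rfl G C hS) z hl

/-- `j = 16`: no joins, from the seventh step -/
theorem no_jn16 (G : Win.GoodTo P r 16) (hr : 16 + 1 ≤ r)
    {lo hi : Tops P → ℕ → ℕ} {e : Tops P → ℕ → ℕ → P}
    (C : ∀ t : Tops P, Cp.Comp 16 (t : P) (lo t) (hi t) (e t))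
    (hS : ∀ t, Wd.Shape 16 (lo t) (hi t)) (S7 : S7F P 8) (z : P) (hl : lev z = 16 + 1) :
    ¬ Hul.Jn z := by
  have h := exists_WC (i := 8) (m := 8) (Or.inl ⟨rfl, rfl⟩) G hr C hS kapR88 kapS88
    (by norm_num)
  exact no_jn16_of G h S7 z hl

end Pool.Agent.GaussPoset.Fi
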