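import Pool.Agent.W_448w4_h70.WI

/-!
# Own noise at window `4` with fold joins (MP_448cb3_co, S8, `j = 12, 14`)

A fold join is a join of level `j + 1` below the end of a fold; its label at window `4` is
`j - 5` (the threshold of the fold end plus one).
-/

namespace Pool.Agent.GaussPoset.W4

set_option linter.unusedSectionVars false

open Polynomial Finset Sm

universe u

variable {P : Type u} [Fintype P] [PartialOrder P] [DecidableEq P] {r j K3 K V3 : ℕ}
  {N : Tops P → Finset P} {b : Tops P → ℕ} {θ3 θ4 : Tops P → P → ℕ}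

/-- fold joins -/
def FJn (j : ℕ) (z x x' : P) : Prop := Cg z x x' ∧ lev z = j + 1 ∧ Fold j x

/-- elements of level `j + 1` below a deep cell -/
theorem Y4.deep_jF (Y : Y4 r j K3 K V3 N b θ3 θ4)
    (hfo3 : j % 2 = 0 → foC 3 j + foE 3 j < V3)
    {z : P} (hz : z ∈ bdR (rA N)) (hlz : lev z = j + 1) {x : P} (hzx : z ⋖ x)
    (hD : Dy j K V3 N θ3 θ4 x) : K < cst 4 (hA N θ4) z ∨
      ((∃ x', FJn j z x x') ∧ hA N θ4 z = j - 5) := by
  classical
  have W := Y.W
  have H := W.gt.H
  have HN := W.natSys
  have hj := Y.n.hj
  have hzR := (mem_bdR.mp hz).1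
  have hzu := (mem_rA.mp hzR).1
  have e1 := (H.covBy_iff.mp hzx).2
  have hlx : lev x = j := by omega
  have hx : x ∉ unnat N := W.low (by omega)
  have hbs : GaussPoset.bs N x = x := by
    unfold GaussPoset.bs
    rw [if_neg (W.not_tw hx)]
  have hle := Y.hA_le (not_mem_rA.mpr (Or.inl hx)) hzx
  rw [hbs] at hle
  have hle3 := W.hA_le (not_mem_rA.mpr (Or.inl hx)) hzx
  rw [hbs] at hle3
  have hth := hD.th
  have hxt : x ∈ N (topOf x) := HN.mem_iff.mpr ⟨hx, rfl⟩
  have hxle : x ≤ (topOf x : P) := le_topOf x
  -- two covers have one cover each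
  have hnear : (Win.uc x).card = 2 → ∀ y, z ⋖ y → y = x := by
    intro h2 y hy
    by_contra hne
    have := (W.near hzR hlz hzx hy (Ne.symm hne)).1
    omega
  -- the label of an element with one cover
  have hlab : (∀ y, z ⋖ y → y = x) → hA N θ4 z = θ4 (topOf x) x + 1 := by
    intro ho
    obtain ⟨x0, g1, g2, g3⟩ := Y.hA_spec hz
    rw [ho x0 g2, hbs] at g3
    exact g3
  generalize htt : topOf x = t at hxt hxle hle hle3 hth hlab
  rcases Y.typ t with ⟨g1, g2, g2', g5⟩ | ⟨c, Nc, co, h0, h0', g1, g2, g2', g4⟩ |
    ⟨Nc, co, h0, h0', g1, g2, g2', g5'⟩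
  · exfalso
    rw [g2'] at hth
    simp only at hth
    omega
  · exfalso
    rw [g1] at hxt
    rw [g2'] at hth
    have hJ : ¬ (x ∈ junk (fun _ => True) Nc co ∨ x ∈ junk (fun _ => True) Nc (swp co)) := by
      intro h
      unfold thR at hth
      rw [if_pos h] at hth
      omega
    have hxN : x ∈ Nc := by
      rw [mem_natR] at hxt
      rcases hxt with h | h | h
      · exact h
      · exact absurd (Or.inl h) hJ
      · exact absurd (Or.inr h) hJ
    have h2 := rect_th4 h0 hxN hJ (by omega)
    have h3 := chart_inner_uc h0.chart H hxN (by omega) (by omega)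
    exact g4 x z hxle hlx h3 hzx (hnear h3)
  · rw [g1] at hxt
    rw [g2'] at hth
    have hJ : x ∉ junk (fun c => c.1 ≤ c.2) Nc co := by
      intro h
      unfold thSg at hth
      rw [if_pos h] at hth
      omega
    have hxN : x ∈ Nc := by
      rw [mem_natS] at hxt
      exact hxt.resolve_right hJ
    have hl := h0.chart.lev x hxN
    have hm : (co x).1 ≤ (co x).2 := h0.chart.mem x hxN
    have h2 := stair_th4 h0 hxN hJ (by omega)
    have h2' := stair_th7 h0' le_rfl (by norm_num) hxN hJ (by omega)
    have h6 := cst_ge_cover (i := 4) (h := hA N θ4) H.gradedBelow hzx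
    rcases Nat.lt_or_ge (co x).1 (co x).2 with hlt | hge
    · -- a double
      left
      have h3 := stair_inner_uc h0.chart H hxN (by omega) hlt
      have ho := hnear h3
      have h4 := Y.stair_pend h0 g1 g5' hxN hlx (by omega) hlt hz hzx ho
      have h5 := hlab ho
      rw [g2'] at h5
      have hlb : hA N θ4 z = j - 4 - 1 := by omega
      have h7 := cst_stair (w := 4) (L := j) (h := hA N θ4 z) h0.chart hxN hlx (by omega)
      have h8 := Y.n.fl (by omega)
      rw [h7, Nat.min_eq_left (by omega), hlb] at h6
      unfold flC at h8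
      rw [show (co x).1 = (j - 3) / 2 by omega, show j - (j - 3) / 2 = (j + 3) / 2 by omega]
        at h6
      omega
    · -- the fold end
      by_cases ho : ∀ y, z ⋖ y → y = x
      · exact (Y.fold_pend h0' g1 g2 hxN hlx (by omega) hz hzx ho).elim
      -- a second cover
      push Not at ho
      obtain ⟨x', hzx', hne'⟩ := ho
      have hne : x ≠ x' := Ne.symm hne'
      have e2 := (H.covBy_iff.mp hzx').2
      have hx' : x' ∉ unnat N := W.low (by omega)
      have hnr := W.near hzR hlz hzx hzx' hne
      have hbs' : GaussPoset.bs N x' = x' := by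
        unfold GaussPoset.bs
        rw [if_neg (W.not_tw hx')]
      have huni := uc_two_of H hzx hzx' hne
      have hj2 : j % 2 = 0 := by omega
      have hA2 : (co x).1 = j / 2 := by omega
      have hnk : ∀ k, k ≤ j → nab k x + (k - j / 2) = min (k / 2) (j / 2) + 1 := by
        intro k hk
        have := stair_nab h0.chart hxN (k := k) (by omega)
        rw [hA2, show (co x).2 = j / 2 by omega] at this
        exact this
      -- the second cover in the same component
      have hcell : topOf x' = t → x' ∈ Nc ∧ (co x').1 = 0 := by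
        intro hh
        have hx'N : x' ∈ Nc := by
          refine h0.strip (mem_lowPart.mpr ⟨?_, by omega⟩)
          have h5 := le_topOf x'
          rw [hh] at h5
          exact h5
        have hl' := h0.chart.lev x' hx'N
        have hm' : (co x').1 ≤ (co x').2 := h0.chart.mem x' hx'N
        refine ⟨hx'N, ?_⟩
        by_contra h11
        rcases Nat.lt_or_ge (co x').1 (co x').2 with h12 | h12
        · have := stair_inner_uc h0.chart H hx'N (by omega) h12
          omega
        · exact hne (h0.chart.inj x hxN x' hx'N (Prod.ext (by omega) (by omega)))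
      have hlb' : hA N θ4 z = j - 5 := by
        obtain ⟨x0, f1, f2, f3⟩ := Y.hA_spec hz
        rw [g2'] at hle
        rcases huni x0 f2 with h | h
        · rw [h, hbs, htt, g2'] at f3
          omega
        · rw [h, hbs'] at f3
          have f6 := Y.single_th hx' (by omega) hnr.2
          omega
      have hfo3 := hfo3 hj2
      by_cases hh : topOf x' = t
      · exfalso
        -- the own double: by the cost at window `3`
        obtain ⟨hx'N, h10⟩ := hcell hh
        have hl' := h0.chart.lev x' hx'N
        have hlb' : hA N θ3 z = j - 3 - 1 := by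
          obtain ⟨x0, f1, f2, f3⟩ := W.hA_spec hz
          rw [g2] at hle3
          rcases huni x0 f2 with h | h
          · rw [h, hbs, htt, g2] at f3
            omega
          · rw [h, hbs'] at f3
            have f6 := W.single_th hx' (by omega) hnr.2
            omega
        have hcov : ∀ y, z ≤ y → lev y ≤ j → x ≤ y ∨ x' ≤ y := by
          intro y hy hly
          have hlt : z < y := lt_of_le_of_ne hy (by rintro rfl; omega)
          obtain ⟨u, hu, huy⟩ := Hul.exists_cov hlt
          rcases huni u hu with h | h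
          · exact Or.inl (h ▸ huy)
          · exact Or.inr (h ▸ huy)
        have hpos : ∀ y, x' ≤ y → y ∈ Nc ∧ (co y).1 = 0 ∧ (co y).2 = lev y := by
          intro y hy
          have hyN := h0.chart.up x' hx'N y hy
          have h11 := (h0.chart.le_iff x' hx'N y hyN).mp hy
          have h12 : (co y).1 ≤ (co x').1 := h11.1
          have h13 := h0.chart.lev y hyN
          exact ⟨hyN, by omega, by omega⟩
        have hup : ∀ k, k ≤ j → nab k z ≤ nab k x + (if j / 2 < k then 1 else 0) := by
          intro k hk
          unfold nab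
          split_ifs with h13
          · obtain ⟨q, hq, hcq⟩ := h0.chart.low x' hx'N (0, k)
              ⟨Nat.zero_le _, by simp only; omega⟩ (Nat.zero_le _)
            have h11 : (lv P k).filter (fun y => z ≤ y) ⊆
                insert q ((lv P k).filter (fun y => x ≤ y)) := by
              intro y hy
              rw [mem_filter, mem_lv] at hy
              rw [mem_insert, mem_filter, mem_lv]
              rcases hcov y hy.2 (by omega) with h | h
              · exact Or.inr ⟨hy.1, h⟩
              · left
                obtain ⟨p1, p2, p3⟩ := hpos y h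
                refine h0.chart.inj y p1 q hq ?_
                rw [hcq]
                exact Prod.ext (by simp only; omega) (by simp only; omega)
            exact (Finset.card_le_card h11).trans (Finset.card_insert_le _ _)
          · refine Finset.card_le_card fun y hy => ?_
            rw [mem_filter, mem_lv] at hy ⊢
            refine ⟨hy.1, ?_⟩
            rcases hcov y hy.2 (by omega) with h | h
            · exact h
            · obtain ⟨p1, p2, p3⟩ := hpos y h
              rw [h0.chart.le_iff x hxN y p1]
              exact ⟨by omega, by omega⟩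
        have key : cst 3 (hA N θ3) z ≤ foC 3 j + foE 3 j := by
          rw [cst_shift (i := 3) (h := hA N θ3) (a := j - 3 + 1) (by omega),
            Finset.sum_range_succ, hlb']
          have s4 : min (j - 3 - 1) (j - 3 + 1) * nab (3 + (j - 3 + 1)) z = j - 3 - 1 := by
            rw [Nat.min_eq_left (by omega), show 3 + (j - 3 + 1) = lev z by omega, nab_self,
              mul_one]
          rw [s4]
          unfold foC foE
          have s5 : ∑ n ∈ range (j - 3 + 1), min (j - 3 - 1) n * nab (3 + n) z ≤
              ∑ n ∈ range (j - 3 + 1), min (j - 3 - 1) n *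
              (min ((3 + n) / 2) (j / 2) + 1 - ((3 + n) - j / 2)) +
              ∑ n ∈ range (j - 3 + 1), min (j - 3 - 1) n * (if j / 2 < 3 + n then 1 else 0) := by
            rw [← Finset.sum_add_distrib]
            refine Finset.sum_le_sum fun n hn => ?_
            rw [mem_range] at hn
            rw [← Nat.mul_add]
            refine Nat.mul_le_mul_left _ ?_
            have a1 := hnk (3 + n) (by omega)
            have a2 := hup (3 + n) (by omega)
            omega
          omega
        have := Y.m3 z hz
        omega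
      · right
        refine ⟨⟨x', Cg.mk' hzx hzx' (mem_onlyB.mpr fun s hs hxs => ?_)
          (mem_onlyB.mpr fun s hs hxs => ?_) ?_, hlz, hlx, hj2, fun k hk => ?_⟩, hlb'⟩
        · exact HN.top_eq (HN.mem_iff.mpr ⟨hx, rfl⟩) hs hxs
        · exact HN.top_eq (HN.mem_iff.mpr ⟨hx', rfl⟩) hs hxs
        · rw [htt]
          exact fun h => hh h.symm
        · have := hnk k hk
          omega

/-- the straight joins: the joins with straight covers and the full label -/
def SJn (N : Tops P → Finset P) (θ3 θ4 : Tops P → P → ℕ) (z : P) : Prop :=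
  (∀ x, z ⋖ x → x ∉ unnat N ∧ Str 3 N θ3 x ∧ Str 4 N θ4 x) ∧ hA N θ4 z = lev z - 4 ∧
    cst 4 (hA N θ4) z = ful 4 z ∧ ∃ x x', Cg z x x'

/-- **Own noise at window `4` with fold joins.**  The cheapest boundary elements, if their cost
is at most `K`, are joins with straight covers and the full label or fold joins with the label
`j - 5`. -/
theorem Y4.min_joinF (Y : Y4 r j K3 K V3 N b θ3 θ4)
    (hfo3 : j % 2 = 0 → foC 3 j + foE 3 j < V3)
    {v : ℕ} (M : Mn j 4 N θ4 v) (hv : v ≤ K) {z : P} (hz : z ∈ bdR (rA N))
    (hc : cst 4 (hA N θ4) z = v) :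
    SJn N θ3 θ4 z ∨ ((∃ x x', FJn j z x x') ∧ hA N θ4 z = j - 5) := by
  classical
  have W := Y.W
  have H := W.gt.H
  have HN := W.natSys
  have hj := Y.n.hj
  have hlz := W.bd_lev hz
  by_cases hd : ∃ x, x ∉ rA N ∧ z ⋖ x ∧ Dy j K V3 N θ3 θ4 (GaussPoset.bs N x)
  · right
    obtain ⟨x, hx, hzx, hD⟩ := hd
    have e1 := (H.covBy_iff.mp hzx).2
    by_cases hl : j + 1 ≤ lev x
    · exfalso
      have := Y.deep_cover hz hx hzx hl hD
      omega
    · have hxu : x ∉ unnat N := W.low (by omega)
      have hbs : GaussPoset.bs N x = x := by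
        unfold GaussPoset.bs
        rw [if_neg (W.not_tw hxu)]
      rw [hbs] at hD
      rcases Y.deep_jF hfo3 hz (by omega) hzx hD with h | ⟨⟨x', h⟩, h'⟩
      · omega
      · exact ⟨⟨x, x', h⟩, h'⟩
  · left
    push Not at hd
    obtain ⟨hF, hge⟩ := Y.flat M hz hc hd
    by_cases hR : ∃ x, z ⋖ x ∧ Row1 j 3 N θ3 x ∧ Row1 j 4 N θ4 x
    · exfalso
      obtain ⟨x, hzx, hR3, hR4⟩ := hR
      have := Y.row1_out hz hF hge hzx hR3 hR4
      omega
    · push Not at hR
      have hS : ∀ x, z ⋖ x → x ∉ unnat N ∧ Str 3 N θ3 x ∧ Str 4 N θ4 x := fun x hx =>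
        ⟨(hF x hx).1, (hF x hx).2.resolve_right (fun h => hR x hx h.1 h.2)⟩
      have hh : hA N θ4 z = lev z - 4 := by
        obtain ⟨x0, f1, f2, f3⟩ := Y.hA_spec hz
        obtain ⟨g1, g2⟩ := hS x0 f2
        have hbs : GaussPoset.bs N x0 = x0 := by
          unfold GaussPoset.bs
          rw [if_neg (W.not_tw g1)]
        rw [hbs, g2.2.th] at f3
        have := (H.covBy_iff.mp f2).2
        omega
      have hh3 : hA N θ3 z = lev z - 3 := by
        obtain ⟨x0, f1, f2, f3⟩ := W.hA_spec hz
        obtain ⟨g1, g2⟩ := hS x0 f2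
        have hbs : GaussPoset.bs N x0 = x0 := by
          unfold GaussPoset.bs
          rw [if_neg (W.not_tw g1)]
        rw [hbs, g2.1.th] at f3
        have := (H.covBy_iff.mp f2).2
        omega
      by_cases hT : ∃ x x', z ⋖ x ∧ z ⋖ x' ∧ topOf x ≠ topOf x'
      · obtain ⟨x, x', h1, h2, h3⟩ := hT
        refine ⟨hS, hh, ?_, x, x', ?_⟩
        · exact cst_eq_ful (by omega)
        · exact Cg.mk' h1 h2
            (mem_onlyB.mpr fun s hs hxs => HN.top_eq (HN.mem_iff.mpr ⟨(hS x h1).1, rfl⟩) hs hxs)
            (mem_onlyB.mpr fun s hs hxs => HN.top_eq (HN.mem_iff.mpr ⟨(hS x' h2).1, rfl⟩) hs hxs)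
            h3
      · exfalso
        push Not at hT
        obtain ⟨x, hzx, -⟩ := Hul.exists_cov (w := z) (v := (topOf z : P))
          (lt_of_le_of_ne (le_topOf z) (by
            intro h
            have := (topOf z).2
            rw [← h] at this
            omega))
        have := Y.own_out hz hh hh3 (fun x hx => ⟨(hS x hx).1, (hS x hx).2.1⟩)
          (t := topOf x) fun x' hx' => hT x' x hx' hzx
        omega

/-- **Own noise at window `4` with fold joins**, for a lower bound `n` of the costs of the joins:
every element of the boundary costs at least `n`, the twins cost more than `n`, and the boundary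
elements of cost `n` are joins with straight covers and the full label or fold joins with the
label `j - 5`. -/
theorem Y4.own_noiseF (Y : Y4 r j K3 K V3 N b θ3 θ4)
    (hfo3 : j % 2 = 0 → foC 3 j + foE 3 j < V3)
    {n : ℕ} (hn : n ≤ K) (hjn : ∀ z x x' : P, Cg z x x' → n ≤ ful 4 z)
    (hjf : ∀ z x x' : P, FJn j z x x' → n ≤ cst 4 (fun _ => j - 5) z) :
    (∀ z ∈ bdR (rA N), n ≤ cst 4 (hA N θ4) z) ∧
    (∀ x ∈ twA N, n < tcst 4 (thA N θ4) (twT N x, x)) ∧
    (∀ z ∈ bdR (rA N), cst 4 (hA N θ4) z = n →
      SJn N θ3 θ4 z ∨ ((∃ x x', FJn j z x x') ∧ hA N θ4 z = j - 5)) := by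
  have htw : ∀ x ∈ twA N, n < tcst 4 (thA N θ4) (twT N x, x) := fun x hx =>
    hn.trans_lt (Y.out_tw hx)
  have key : ∀ z : P, SJn N θ3 θ4 z ∨ ((∃ x x', FJn j z x x') ∧ hA N θ4 z = j - 5) →
      n ≤ cst 4 (hA N θ4) z := by
    rintro z (h | ⟨⟨x, x', h1⟩, h2⟩)
    · obtain ⟨-, -, h3, x, x', h4⟩ := h
      rw [h3]
      exact hjn z x x' h4
    · have h3 := hjf z x x' h1
      have h4 : cst 4 (hA N θ4) z = cst 4 (fun _ => j - 5) z := by
        unfold cst ez
        rw [h2]
      rw [h4]
      exact h3
  by_cases hne : (bdR (rA N)).Nonempty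
  · obtain ⟨v, M, hex⟩ := exists_min4 (j := j) (θ4 := θ4) hne
    have hnv : n ≤ v := by
      by_contra hcon
      rcases hex with ⟨z, hz, h⟩ | ⟨x, hx, h⟩
      · have h3 := key z (Y.min_joinF hfo3 M (by omega) hz h)
        omega
      · have := htw x hx
        omega
    refine ⟨fun z hz => hnv.trans (M.bd z hz), htw, fun z hz hc => ?_⟩
    have hvn : v = n := le_antisymm (by rw [← hc]; exact M.bd z hz) hnv
    subst hvn
    exact Y.min_joinF hfo3 M hn hz hc
  · rw [Finset.not_nonempty_iff_eq_empty] at hne
    rw [hne]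
    exact ⟨fun z hz => absurd hz (Finset.notMem_empty z), htw,
      fun z hz => absurd hz (Finset.notMem_empty z)⟩

end Pool.Agent.GaussPoset.W4
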