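import Pool.Agent.W_448s8f_h76.GqF

/-!
# The tables for the flips and `FU'` (MP_448cb3_co, S7 / S8)
-/

set_option autoImplicit false

namespace Pool.Agent.GaussPoset.Gq

set_option maxRecDepth 100000

lemma gq8 : ChkG 8 [(3, 9, 1)] [(1, 2, 1)] := by decide +kernel

lemma gq10 : ChkG 10 [(3, 9, 1), (5, 20, 1)] [(5, 20, 1), (1, 2, 1)] := by decide +kernel

lemma gq11 : ChkG 11 [(3, 9, 1)] [(5, 20, 1), (1, 2, 1)] := by decide +kernel

lemma gq12 : ChkG 12 [(3, 9, 1)] [(5, 20, 1), (1, 2, 1)] := by decide +kernel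

lemma gq13 : ChkG 13 [(3, 9, 1)] [(5, 20, 1), (1, 2, 1)] := by decide +kernel

lemma gq14 : ChkG 14 [(3, 9, 1)] [(10, 60, 1), (5, 20, 1), (1, 2, 1)] := by decide +kernel

lemma gq15 : ChkG 15 [(3, 9, 1)] [(5, 20, 1), (1, 2, 1)] := by decide +kernel

lemma gq16 : ChkG 16 [(3, 9, 1)] [(5, 20, 1), (1, 2, 1)] := by decide +kernel

end Pool.Agent.GaussPoset.Gq
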