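import Pool.Agent.W_448s8f_h76.FrG
import Pool.Agent.W_448s7_h27.PpM

/-!
# The window `12` with joins of level `15` (MP_448cb3_co, S7, `j = 14`)

`Sm.Ctx.gj14`: for `j = 14` every join of level `15` is a join of two ends with at most three elements
above on the level `12` (helper27's `noPD14`), so the laws of the window `12` hold for every component:
chain balance and nothing hangs below an element of level `14` over three elements of level `12`.
-/

namespace Pool.Agent.GaussPoset.Sm

set_option linter.unusedSectionVars false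

open Finset Wd Ec W4

universe u

variable {P : Type u} [Fintype P] [PartialOrder P] [DecidableEq P] {r j : ℕ}
  {lo hi : Tops P → ℕ → ℕ} {e : Tops P → ℕ → ℕ → P}

/-- **the window `12` for `j = 14`** -/
theorem Ctx.gj14 (K : Ctx P r 14 lo hi e) (hr : 15 ≤ r) : GJ P r 12 :=
  K.gj hr (noPD14 K) rfl

/-- **nothing hangs below an element of level `14` over three elements of level `12`** -/
theorem Ctx.pen_three14 (K : Ctx P r 14 lo hi e) (hr : 15 ≤ r) (t : Tops P) {a : ℕ}
    (ha : lo t 12 + 2 ≤ a) (ha' : a ≤ hi t 12) : Win.pen (e t 14 a) = ∅ :=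
  (K.gj14 hr).pen_three (K.comp t) ha ha'

/-- **the laws of the window `12` for `j = 14`** -/
theorem Ctx.law14 (K : Ctx P r 14 lo hi e) (hr : 15 ≤ r) (t : Tops P) :
    (Win.FL 12 (SS 12 t)).card = Win.fuw (lo t) (hi t) 12 ∧ Win.SO.N1f 12 (SS 12 t) = ∅ ∧
      Win.SO.N5f 12 (SS 12 t) = ∅ :=
  (K.gj14 hr).law (K.comp t)

end Pool.Agent.GaussPoset.Sm
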