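import Pool.Agent.W_448s8f_h76.FkC

/-!
# The own pair of level `j + 3` at the windows `1` and `w` (MP_448cb3_co, S8, `j = 12`)
-/

namespace Pool.Agent.GaussPoset.Sm

set_option linter.unusedSectionVars false

open Polynomial Finset

universe u

variable {P : Type u} [Fintype P] [PartialOrder P] [DecidableEq P] {r j w K : ℕ}
  {N : Tops P → Finset P} {b : Tops P → ℕ} {θ : Tops P → P → ℕ}

/-- two covers with one element of level `1` each, two elements above on all levels -/
structure OwP (z : P) : Prop where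
  cov : ∃ x x', z ⋖ x ∧ z ⋖ x' ∧ x ≠ x' ∧ nab 1 x = 1 ∧ nab 1 x' = 1
  two : ∀ l, 1 ≤ l → l < lev z → nab l z = 2

/-- such elements are far at the window `1` -/
theorem Wk.owp_far (W : Wk r j 1 K N b θ) (L : Unq P 1 b) {z : P} (hl : j + 1 ≤ lev z)
    (h : OwP z) : z ∈ rA N := by
  classical
  have H := W.gt.H
  have HN := W.natSys
  have hg := W.gt.good
  have hj := W.hj
  by_contra hcon
  rw [not_mem_rA] at hcon
  obtain ⟨y, hy, hup⟩ : ∃ y, y ∉ unnat N ∧ ∀ v, y < v ↔ z < v := by
    rcases hcon with h1 | h1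
    · exact ⟨z, h1, fun v => Iff.rfl⟩
    · exact (mem_twA.mp h1).2
  obtain ⟨x, x', g1, g2, hne, g3, g4⟩ := h.cov
  have hly := lev_eq_of_up hup
  have hyx : y < x := (hup x).mpr g1.1
  have hyx' : y < x' := (hup x').mpr g2.1
  have lx := (H.covBy_iff.mp g1).2
  have lx' := (H.covBy_iff.mp g2).2
  have hn1 : nab 1 y = 2 := by
    rw [nab_congr_up hup (by omega)]
    exact h.two 1 le_rfl (by omega)
  have hyN : y ∈ N (topOf y) := HN.mem_iff.mpr ⟨hy, rfl⟩
  have hxN : x ∈ N (topOf y) := HN.mem_iff.mpr (W.up hy hyx.le)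
  have hxN' : x' ∈ N (topOf y) := HN.mem_iff.mpr (W.up hy hyx'.le)
  generalize topOf y = t at hyN hxN hxN'
  rcases W.typ t with ⟨k1, k2, k3, k5⟩ | ⟨Nc, co, h0, k1, k2, k4⟩ |
    ⟨Nc, co, h0, k1, k2, k3, k4, k5'⟩
  · rw [k1] at hyN
    have : nab 1 y ≤ 1 := by
      unfold nab
      rw [Finset.card_le_one]
      intro a ha a' ha'
      rw [mem_filter, mem_lv] at ha ha'
      exact L t k3 a a' (onlyB_le (onlyB_up hyN ha.2)) (onlyB_le (onlyB_up hyN ha'.2)) ha.1 ha'.1
    omega
  · have hside1 : ∀ q, Side (fun _ => True) Nc co q → 1 ≤ lev q → nab 1 q = 1 := fun q hq hq1 =>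
      hq.nab_one rowT_true h0.chart H hg h0.strip h0.one1 (by omega) hq1
    have hside2 : ∀ q, Side (fun _ => True) Nc (swp co) q → 1 ≤ lev q → nab 1 q = 1 :=
      fun q hq hq1 => hq.nab_one rowT_true h0.chart.swap H hg h0.strip h0.one2 (by omega) hq1
    rw [k1, mem_natR] at hyN hxN hxN'
    have hyc : y ∈ Nc := by
      rcases hyN with q | q | q
      · exact q
      · have := hside1 y (Or.inl q) (by omega)
        omega
      · have := hside2 y (Or.inl q) (by omega)
        omega
    have hxc := h0.chart.up y hyc x hyx.le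
    have hxc' := h0.chart.up y hyc x' hyx'.le
    have l0 := h0.chart.lev y hyc
    have l1 := h0.chart.lev x hxc
    have l2 := h0.chart.lev x' hxc'
    have c1 := (h0.chart.le_iff y hyc x hxc).mp hyx.le
    have c2 := (h0.chart.le_iff y hyc x' hxc').mp hyx'.le
    have r1 := rect_nab h0.chart hxc (k := 1) (by omega)
    have r2 := rect_nab h0.chart hxc' (k := 1) (by omega)
    have r0 := rect_nab h0.chart hyc (k := 1) (by omega)
    rw [Prod.le_def] at c1 c2
    have hne' : co x ≠ co x' := fun hh => hne (h0.chart.inj x hxc x' hxc' hh)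
    have hne2 : (co x).1 ≠ (co x').1 ∨ (co x).2 ≠ (co x').2 := by
      by_contra hh
      push Not at hh
      exact hne' (Prod.ext hh.1 hh.2)
    omega
  · omega

/-- the least cost at the window `1` is at most the full cost of such an element -/
theorem Wk.owp_min (W : Wk r j 1 K N b θ) (L : Unq P 1 b) {v : ℕ} (M : Mn j 1 N θ v) {z : P}
    (hl : j + 1 ≤ lev z) (h : OwP z) : v ≤ (lev z - 1) ^ 2 := by
  have hpos : ∀ x ∈ rA N, 0 < lev x := fun x hx => by
    have := W.lt_lev (mem_rA.mp hx).1
    omega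
  have h1 := min_le_ful (i := 1) hpos M.bd (W.owp_far L hl h)
  rwa [ful_two (a := lev z - 1) (by omega) (fun k hk1 hk2 => h.two k hk1.le hk2)] at h1

/-- straight covers below one top: the own pair -/
theorem Wk.own_owp (W : Wk r j w K N b θ) {z : P} (hz : z ∈ bdR (rA N))
    (hF : ∀ x, z ⋖ x → x ∉ unnat N ∧ Str w N θ x) {t : Tops P}
    (ht : ∀ x, z ⋖ x → topOf x = t) :
    (∃ x x', z ⋖ x ∧ z ⋖ x' ∧ x ≠ x' ∧ nab 1 x = 1 ∧ nab 1 x' = 1) ∧
      (∀ k, 1 ≤ k → k ≤ j → nab k z = 2) ∧ nab (lev z - 1) z = 2 ∧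
      ∀ k, 1 ≤ k → k < lev z → 2 ≤ nab k z := by
  classical
  have H := W.gt.H
  have HN := W.natSys
  have hg := W.gt.good
  have hj := W.hj
  have hw := W.hw
  have hlz := W.bd_lev hz
  have hzu := (mem_rA.mp (mem_bdR.mp hz).1).1
  obtain ⟨x, hzx, -⟩ := Hul.exists_cov (w := z) (v := (topOf z : P))
    (lt_of_le_of_ne (le_topOf z) (by
      intro h
      have := (topOf z).2
      rw [← h] at this
      omega))
  have hzN := mem_unnat.mp hzu t
  have hin : ∀ x, z ⋖ x → x ∈ N t ∧ θ t x = lev x - w ∧ lev z = lev x + 1 := by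
    intro x hx
    refine ⟨HN.mem_iff.mpr ⟨(hF x hx).1, ht x hx⟩, ?_, (H.covBy_iff.mp hx).2⟩
    rw [← ht x hx]
    exact (hF x hx).2.th
  have hxx := hin x hzx
  rcases W.typ t with ⟨g1, g2, g3, g5⟩ | ⟨Nc, co, h0, g1, g2, g4⟩ |
    ⟨Nc, co, h0, g1, g2, g3, g4, g5'⟩
  · exfalso
    apply hzN
    rw [g1, mem_onlyB]
    intro s hs hzs
    have hzs' : z < s := lt_of_le_of_ne hzs (by rintro rfl; omega)
    obtain ⟨u, hu, hus⟩ := Hul.exists_cov hzs'
    have h1 := (hin u hu).1
    rw [g1, mem_onlyB] at h1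
    exact h1 s hs hus
  · rw [g1] at hzN
    have hside : ∀ x, z ⋖ x → Side (fun _ => True) Nc co x ∨ Side (fun _ => True) Nc (swp co) x := by
      intro x hx
      obtain ⟨a1, a2, a3⟩ := hin x hx
      rw [g1] at a1
      rw [g2] at a2
      exact rect_str7 h0 hw a1 (by omega) a2
    have key : ∀ y y' : P, z ⋖ y → z ⋖ y' → y ≠ y' → Side (fun _ => True) Nc co y →
        Side (fun _ => True) Nc (swp co) y' →
        (∃ x x', z ⋖ x ∧ z ⋖ x' ∧ x ≠ x' ∧ nab 1 x = 1 ∧ nab 1 x' = 1) ∧
        (∀ k, 1 ≤ k → k ≤ j → nab k z = 2) ∧ nab (lev z - 1) z = 2 ∧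
        ∀ k, 1 ≤ k → k < lev z → 2 ≤ nab k z := by
      intro y y' hy hy' hne sy sy'
      have ly := (H.covBy_iff.mp hy).2
      have ly' := (H.covBy_iff.mp hy').2
      have hsum := fun {k : ℕ} (hk : 1 ≤ k) (hkz : k < lev z) =>
        nab_two_sides H h0 sy sy' hy hy' hk hkz
      have n1 : ∀ k, k ≤ j → nab k y = 1 := fun k hk =>
        sy.nab_one rowT_true h0.chart H hg h0.strip h0.one1 hk (by omega)
      have n2 : ∀ k, k ≤ j → nab k y' = 1 := fun k hk =>
        sy'.nab_one rowT_true h0.chart.swap H hg h0.strip h0.one2 hk (by omega)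
      refine ⟨⟨y, y', hy, hy', hne, n1 1 (by omega), n2 1 (by omega)⟩, fun k hk1 hk2 => ?_, ?_,
        fun k hk1 hk2 => ?_⟩
      · rw [hsum hk1 (by omega), n1 k hk2, n2 k hk2]
      · rw [hsum (k := lev z - 1) (by omega) (by omega)]
        have e1 : nab (lev z - 1) y = 1 := by
          rw [show lev z - 1 = lev y by omega]
          exact nab_self
        have e2 : nab (lev z - 1) y' = 1 := by
          rw [show lev z - 1 = lev y' by omega]
          exact nab_self
        rw [e1, e2]
      · rw [hsum hk1 hk2]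
        have := one_le_nab (l := k) (z := y) (by omega)
        have := one_le_nab (l := k) (z := y') (by omega)
        omega
    by_cases honly : ∀ y, z ⋖ y → y = x
    · exfalso
      obtain ⟨a1, a2, a3, a4, a5⟩ := rect_pendant H h0 g1 hzu hxx.1 hzx honly
      rcases hside x hzx with h | h
      · rcases h with h | h
        · exact a2 h
        · have := h.2
          omega
      · rcases h with h | h
        · exact a3 h
        · have := h.2
          rw [swp_fst] at this
          omega
    · push Not at honly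
      obtain ⟨x', hzx', hne'⟩ := honly
      have hne : x ≠ x' := Ne.symm hne'
      have hxx' := hin x' hzx'
      have huni := uc_two_of H hzx hzx' hne
      rcases hside x hzx with h | h
      · rcases hside x' hzx' with h' | h'
        · exact absurd (mem_natR.mpr (Or.inr (Or.inl
            (junk_of_sides rowT_true h0.chart h0.one1 h h' hne (by omega) huni hzx)))) hzN
        · exact key x x' hzx hzx' hne h h'
      · rcases hside x' hzx' with h' | h'
        · exact key x' x hzx' hzx hne.symm h' h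
        · exact absurd (mem_natR.mpr (Or.inr (Or.inr
            (junk_of_sides rowT_true h0.chart.swap h0.one2 h h' hne (by omega) huni hzx)))) hzN
  · exfalso
    rw [g1] at hzN
    have hside : ∀ x, z ⋖ x → Side (fun c => c.1 ≤ c.2) Nc co x := by
      intro x hx
      obtain ⟨a1, a2, a3⟩ := hin x hx
      rw [g1] at a1
      rw [g2] at a2
      exact stair_str7 h0 hw g4 a1 (by omega) a2
    by_cases honly : ∀ y, z ⋖ y → y = x
    · obtain ⟨a1, a2, a3⟩ := stair_pendant H h0 (by omega) g1 hzu hxx.1 hzx honly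
      rcases hside x hzx with h | h
      · exact a2 h
      · have := h.2
        omega
    · push Not at honly
      obtain ⟨x', hzx', hne'⟩ := honly
      have hne : x ≠ x' := Ne.symm hne'
      have hxx' := hin x' hzx'
      have huni := uc_two_of H hzx hzx' hne
      exact hzN (mem_natS.mpr (Or.inr (junk_of_sides rowT_shift h0.chart (h0.one1 g4)
        (hside x hzx) (hside x' hzx') hne (by omega) huni hzx)))

/-- the own pair with the cost `(j + 3 - w) ^ 2` -/
theorem Wk.own_owp2 (W : Wk r j w K N b θ) {z : P} (hz : z ∈ bdR (rA N))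
    (hh : hA N θ z = lev z - w) (hc : cst w (hA N θ) z = (j + 3 - w) ^ 2)
    (hF : ∀ x, z ⋖ x → x ∉ unnat N ∧ Str w N θ x) {t : Tops P}
    (ht : ∀ x, z ⋖ x → topOf x = t) : OwP z ∧ lev z = j + 3 := by
  obtain ⟨h1, h2, h3, h4⟩ := W.own_owp hz hF ht
  have hj := W.hj
  have hw := W.hw
  have hw1 := W.hw1
  have hlz := W.bd_lev hz
  have hful : ful w z = (j + 3 - w) ^ 2 := by
    rw [← hc]
    exact (cst_eq_ful (by omega)).symm
  obtain ⟨c, hcz⟩ : ∃ c, lev z = w + c := ⟨lev z - w, by omega⟩
  have hlow : c ^ 2 ≤ ful w z := by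
    have := ful_ge (w := w) (z := z) (c := c) (fun _ => 0) hcz (fun n hn1 hn2 => h4 _ (by omega)
      (by omega))
    simpa using this
  have hlt : lev z ≤ j + 3 := by
    by_contra hcon
    have h5 : (j + 3 - w + 1) ^ 2 ≤ c ^ 2 := Nat.pow_le_pow_left (by omega) 2
    have h6 : (j + 3 - w + 1) ^ 2 = (j + 3 - w) ^ 2 + 2 * (j + 3 - w) + 1 := by ring
    omega
  have hl3 : lev z = j + 3 := by
    by_contra hcon
    have h5 : ful w z = c ^ 2 := ful_two hcz fun k hk1 hk2 => by
      rcases Nat.lt_or_ge k (j + 1) with h6 | h6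
      · exact h2 k (by omega) (by omega)
      · rw [show k = lev z - 1 by omega]
        exact h3
    have h6 : c ^ 2 < (j + 3 - w) ^ 2 := Nat.pow_lt_pow_left (by omega) (by norm_num)
    omega
  refine ⟨⟨h1, fun l hl1 hl2 => ?_⟩, hl3⟩
  rcases Nat.lt_or_ge l (j + 1) with h6 | h6
  · exact h2 l hl1 (by omega)
  · rcases Nat.lt_or_ge l (j + 2) with h7 | h7
    · have hl : l = j + 1 := by omega
      have h8 := ful_ge (w := w) (z := z) (c := c) (fun n => if n = j + 1 - w then
        nab (j + 1) z - 2 else 0) hcz (fun n hn1 hn2 => by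
          split_ifs with h9
          · rw [h9, show w + (j + 1 - w) = j + 1 by omega]
            have := h4 (j + 1) (by omega) (by omega)
            omega
          · exact h4 _ (by omega) (by omega))
      rw [Finset.sum_eq_single (j + 1 - w) (fun n _ hn => by rw [if_neg hn, mul_zero])
        (fun hn => absurd (mem_range.mpr (by omega)) hn), if_pos rfl, hful,
        show c = j + 3 - w by omega] at h8
      have h9 : (j + 1 - w) * (nab (j + 1) z - 2) = 0 := by omega
      rcases mul_eq_zero.mp h9 with h10 | h10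
      · omega
      · have := h4 (j + 1) (by omega) (by omega)
        rw [hl]
        omega
    · rw [show l = lev z - 1 by omega]
      exact h3

end Pool.Agent.GaussPoset.Sm
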