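import Pool.Agent.W_448s8f_h76.FjA
import Pool.Agent.W_448s7_h27.EwH

/-!
# Window `4` with fold joins: the class of the largest drop (MP_448cb3_co, S8, `j = 12, 14`)
-/

namespace Pool.Agent.GaussPoset.Ec

set_option linter.unusedSectionVars false

open Polynomial Finset Sm Wd Cp W4 Cl

universe u

variable {P : Type u} [Fintype P] [PartialOrder P] [DecidableEq P] {r j : ℕ}
  {lo hi : Tops P → ℕ → ℕ} {e : Tops P → ℕ → ℕ → P} {N : Tops P → Finset P}
  {θ3 θ4 : Tops P → P → ℕ} {Nf : Tops P → Finset P} {θf : Tops P → (ℕ → ℕ → ℕ) → P → ℕ}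
  {D : Tops P → Prop} {K3 K' V3 : ℕ} {b : Tops P → ℕ}

/-- the number of elements of level `k` above an element of one component -/
lemma nab_le_comp {t : Tops P} {lo hi : ℕ → ℕ} {e : ℕ → ℕ → P} (C : Comp j (t : P) lo hi e)
    {x : P} (hx : x ∈ onlyB t) {k : ℕ} (hk : k ≤ j) : nab k x ≤ hi k - lo k + 1 := by
  classical
  unfold nab
  have h1 : (lv P k).filter (fun y => x ≤ y) ⊆ (Icc (lo k) (hi k)).image (e k) := by
    intro y hy
    rw [mem_filter, mem_lv] at hy
    obtain ⟨s, a1, a2, a3⟩ := C.surj y (onlyB_le (onlyB_up hx hy.2)) (by omega)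
    rw [hy.1] at a1 a2 a3
    exact mem_image.mpr ⟨s, Finset.mem_Icc.mpr ⟨a1, a2⟩, a3⟩
  refine (Finset.card_le_card h1).trans (Finset.card_image_le.trans ?_)
  rw [Nat.card_Icc]
  have := C.lo_le k hk
  omega

/-- the threshold of a fold end -/
theorem Fs.fold_th (F : Fs P j lo hi e N θ4 Nf θf D) (K : Ctx P r j lo hi e) (h12 : 12 ≤ j)
    {x : P} (hf : Fold j x) (hx : x ∈ onlyB (topOf x)) (h1 : (Win.uc x).card = 1) :
    θ4 (topOf x) x = j - 6 := by
  have H := K.gt.H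
  have hl := hf.1
  have n4 := hf.2.2 4 (by omega)
  have h2 := hf.2.1
  have hc := nab_le_comp (K.comp (topOf x)) hx (k := 4) (by omega)
  have hxl : x ∈ lowPart j (topOf x : P) := mem_lowPart.mpr ⟨le_topOf x, hl.le⟩
  rcases F.typ (topOf x) with ⟨k1, k2, k3, k4, k5, k6, k7⟩ | ⟨c, Nc, co, k0, k1, k2, k3, k4, k5, k6⟩ |
    ⟨k0, k1, k2, k3, k4, k5, k6, k7, k8⟩ | ⟨Nc, co, k0, k1, k2, k3, k4, k5, k6⟩
  · omega
  · exfalso
    have hxN := k0.strip hxl
    have hcl := k0.chart.lev x hxN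
    have h0 : (co x).1 = 0 ∨ (co x).2 = 0 := by
      by_contra hcon
      have := chart_inner_uc k0.chart H hxN (by omega) (by omega)
      omega
    have := rect_nab k0.chart hxN (k := 4) (by omega)
    omega
  · omega
  · have hxN := k0.strip hxl
    have hcl := k0.chart.lev x hxN
    have hm : (co x).1 ≤ (co x).2 := k0.chart.mem x hxN
    have h3 := stair_nab k0.chart hxN (k := 4) (by omega)
    have h4 : (co x).1 = (co x).2 := by
      by_contra hcon
      have := stair_inner_uc k0.chart H hxN (by omega) (by omega)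
      omega
    have hJ := not_junk_above k0.chart hxN (by omega) le_rfl
    have h5 := stair_th4 k0 hxN hJ (by omega)
    rw [k2]
    omega

/-- the label of a fold join is at most `j - 5` -/
theorem Fs.fold_lab (F : Fs P j lo hi e N θ4 Nf θf D) (K : Ctx P r j lo hi e) (h12 : 12 ≤ j)
    (Y : Y4 r j K3 K' V3 N b θ3 θ4) {z x x' : P} (h : FJn j z x x') :
    z ∈ bdR (rA N) ∧ hA N θ4 z ≤ j - 5 := by
  obtain ⟨h1, h2, h3⟩ := h
  have H := K.gt.H
  have e1 := (H.covBy_iff.mp h1.cov).2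
  have hx : x ∉ unnat N := Y.W.low (by omega)
  have hxR : x ∉ rA N := not_mem_rA.mpr (Or.inl hx)
  have hz := join_mem_rA Y.W h1.jn
  refine ⟨mem_bdR.mpr ⟨hz, x, hxR, h1.cov⟩, ?_⟩
  have h4 := Y.hA_le hxR h1.cov
  have hbs : GaussPoset.bs N x = x := by
    unfold GaussPoset.bs
    rw [if_neg (Y.W.not_tw hx)]
  rw [hbs, F.fold_th K h12 h3 h1.only (K.ends h1 h2).1] at h4
  omega

lemma cst_mono_lab {z : P} {h h' : P → ℕ} (hh : h z ≤ h' z) : cst 4 h z ≤ cst 4 h' z := by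
  rw [cst_eq, cst_eq]
  refine Finset.sum_le_sum fun l _ => Nat.mul_le_mul_right _ ?_
  omega

/-- a smaller label has a smaller cost -/
lemma cst_lt_ful {z : P} {k : ℕ} (hk : k < lev z - 4) : cst 4 (fun _ => k) z < ful 4 z := by
  rw [← cst_eq_ful (i := 4) (h := fun _ => lev z - 4) (z := z) (by omega), cst_eq, cst_eq,
    Finset.sum_range_succ, Finset.sum_range_succ, nab_self]
  have h1 : ∑ l ∈ range (lev z), min k (l - 4) * nab l z ≤
      ∑ l ∈ range (lev z), min (lev z - 4) (l - 4) * nab l z :=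
    Finset.sum_le_sum fun l _ => Nat.mul_le_mul_right _ (by omega)
  have h2 : min k (lev z - 4) < min (lev z - 4) (lev z - 4) := by omega
  omega

/-- the fold joins at the cost `n` -/
lemma fold_mem (F : Fs P j lo hi e N θ4 Nf θf D) (K : Ctx P r j lo hi e) (h12 : 12 ≤ j)
    (Y : Y4 r j K3 K' V3 N b θ3 θ4) {n : ℕ} (hmin : ∀ z ∈ bdR (rA N), n ≤ cst 4 (hA N θ4) z)
    (hmem : ∀ z ∈ bdR (rA N), cst 4 (hA N θ4) z = n →
      SJn N θ3 θ4 z ∨ ((∃ x x', FJn j z x x') ∧ hA N θ4 z = j - 5))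
    {z x x' : P} (h : FJn j z x x') (hn : cst 4 (fun _ => j - 5) z = n) :
    z ∈ bdR (rA N) ∧ cst 4 (hA N θ4) z = n ∧ hA N θ4 z = j - 5 := by
  obtain ⟨h1, h2⟩ := F.fold_lab K h12 Y h
  have h3 : cst 4 (hA N θ4) z ≤ n := by
    rw [← hn]
    exact cst_mono_lab h2
  have h4 := le_antisymm h3 (hmin z h1)
  refine ⟨h1, h4, ?_⟩
  rcases hmem z h1 h4 with h5 | h5
  · exfalso
    have h6 := h5.2.2.1
    have h7 := cst_lt_ful (z := z) (k := j - 5) (by have := h.2.1; omega)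
    omega
  · exact h5.2

/-- the straight joins at the cost `n` -/
lemma full_mem (Y : Y4 r j K3 K' V3 N b θ3 θ4) (h12 : 12 ≤ j) {n : ℕ}
    (hmin : ∀ z ∈ bdR (rA N), n ≤ cst 4 (hA N θ4) z)
    (hmem : ∀ z ∈ bdR (rA N), cst 4 (hA N θ4) z = n →
      SJn N θ3 θ4 z ∨ ((∃ x x', FJn j z x x') ∧ hA N θ4 z = j - 5))
    {z x x' : P} (h : Cg z x x') (hn : ful 4 z = n) :
    z ∈ bdR (rA N) ∧ cst 4 (hA N θ4) z = n ∧ hA N θ4 z = lev z - 4 := by
  have hpos := rA_pos Y.W
  have hzR := join_mem_rA Y.W h.jn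
  obtain ⟨z', hz', hle, -⟩ := exists_bd_above hpos hzR
  have hlz : j + 1 ≤ lev z := by
    by_contra hcon
    exact Y.W.gt.no_join z (by omega) h.jn
  have hzz : z = z' := by
    by_contra hne
    have e1 := ful_lt (w := 4) (lt_of_le_of_ne hle hne) (by omega)
    have e2 := hmin z' hz'
    have e3 := cst_le_ful 4 (hA N θ4) z'
    omega
  subst hzz
  have hc : cst 4 (hA N θ4) z = n := le_antisymm (by rw [← hn]; exact cst_le_ful _ _ _)
    (hmin z hz')
  refine ⟨hz', hc, ?_⟩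
  rcases hmem z hz' hc with h5 | ⟨⟨y, y', h5⟩, h6⟩
  · exact h5.2.1
  · exfalso
    have h7 : cst 4 (hA N θ4) z = cst 4 (fun _ => j - 5) z := by
      unfold cst ez
      rw [h6]
    have h8 := cst_lt_ful (z := z) (k := j - 5) (by omega)
    omega

/-- **The class of the largest drop at window `4`, with fold joins.**  If all joins of cost `n`
(fold joins with the label `j - 5`) of drop greater than `d` have the same parity then there is
none. -/
theorem Fs.class_par (F : Fs P j lo hi e N θ4 Nf θf D) (K : Ctx P r j lo hi e) (h12 : 12 ≤ j)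
    (Y : Y4 r j K3 K' V3 N b θ3 θ4) {n d p : ℕ}
    (hmin : ∀ z ∈ bdR (rA N), n ≤ cst 4 (hA N θ4) z)
    (hmem : ∀ z ∈ bdR (rA N), cst 4 (hA N θ4) z = n →
      SJn N θ3 θ4 z ∨ ((∃ x x', FJn j z x x') ∧ hA N θ4 z = j - 5))
    (hgen : ∀ c0 : ℕ, c0 + d < (lv P 4).card →
      (∀ z ∈ bdR (rA N), cst 4 (hA N θ4) z = n →
        c0 + nab 4 z ≤ (lv P 4).card + nab (4 + hA N θ4 z) z) →
      ∑ z ∈ (bdR (rA N)).filter (fun z => cst 4 (hA N θ4) z = n ∧
        c0 + nab 4 z = (lv P 4).card + nab (4 + hA N θ4 z) z),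
        (-1 : ℤ) ^ (nst 4 (hA N θ4) z) = 0)
    (hp1 : ∀ z x x' : P, Cg z x x' → ful 4 z = n → d + 2 ≤ nab 4 z →
      nst 4 (fun z => lev z - 4) z % 2 = p)
    (hp2 : ∀ z x x' : P, FJn j z x x' → cst 4 (fun _ => j - 5) z = n →
      d + 1 + nab (j - 1) z ≤ nab 4 z → nst 4 (fun _ => j - 5) z % 2 = p) :
    (∀ z x x' : P, Cg z x x' → ful 4 z = n → nab 4 z ≤ d + 1) ∧
    (∀ z x x' : P, FJn j z x x' → cst 4 (fun _ => j - 5) z = n →
      nab 4 z ≤ d + nab (j - 1) z) := by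
  classical
  -- the members of the classes of drop greater than `d`
  have key : ∀ z ∈ bdR (rA N), cst 4 (hA N θ4) z = n →
      nab 4 z ≤ d + nab (4 + hA N θ4 z) z := by
    by_contra hcon
    push Not at hcon
    obtain ⟨z0, g1, g2, g3⟩ := hcon
    let M : Finset P := (bdR (rA N)).filter (fun z => cst 4 (hA N θ4) z = n)
    have hM : M.Nonempty := ⟨z0, mem_filter.mpr ⟨g1, g2⟩⟩
    obtain ⟨z1, hz1, hmax⟩ := M.exists_max_image (fun z => nab 4 z - nab (4 + hA N θ4 z) z) hM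
    have hz1' := mem_filter.mp hz1
    have h2 := hmax z0 (mem_filter.mpr ⟨g1, g2⟩)
    have hL := nab_le_card (P := P) 4 z1
    obtain ⟨c0, hc0⟩ : ∃ c0, c0 + (nab 4 z1 - nab (4 + hA N θ4 z1) z1) = (lv P 4).card :=
      ⟨(lv P 4).card - (nab 4 z1 - nab (4 + hA N θ4 z1) z1), by omega⟩
    have h3 := hgen c0 (by omega) (fun z hz hc => by
      have h4 := hmax z (mem_filter.mpr ⟨hz, hc⟩)
      omega)
    have hpar : ∀ z ∈ (bdR (rA N)).filter (fun z => cst 4 (hA N θ4) z = n ∧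
        c0 + nab 4 z = (lv P 4).card + nab (4 + hA N θ4 z) z),
        (-1 : ℤ) ^ (nst 4 (hA N θ4) z) = (-1) ^ p := by
      intro z hz
      rw [mem_filter] at hz
      obtain ⟨a1, a2, a3⟩ := hz
      have a4 : nst 4 (hA N θ4) z % 2 = p := by
        rcases hmem z a1 a2 with a5 | ⟨⟨x, x', a5⟩, a6⟩
        · obtain ⟨b1, b2, b3, x, x', b4⟩ := a5
          have h4 := Y.W.bd_lev a1
          rw [b2, show 4 + (lev z - 4) = lev z by omega, nab_self] at a3
          rw [nst_congr (h := hA N θ4) (h' := fun z => lev z - 4) b2]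
          exact hp1 z x x' b4 (by rw [← b3]; exact a2) (by omega)
        · rw [a6, show 4 + (j - 5) = j - 1 by omega] at a3
          rw [nst_congr (h := hA N θ4) (h' := fun _ => j - 5) a6]
          refine hp2 z x x' a5 ?_ (by omega)
          rw [← a2]
          unfold cst ez
          rw [a6]
      rw [← Nat.div_add_mod (nst 4 (hA N θ4) z) 2, a4, pow_add, pow_mul]
      norm_num
    rw [Finset.sum_congr rfl hpar, Finset.sum_const, nsmul_eq_mul] at h3
    have h5 : (0 : ℤ) < (((bdR (rA N)).filter (fun z => cst 4 (hA N θ4) z = n ∧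
        c0 + nab 4 z = (lv P 4).card + nab (4 + hA N θ4 z) z)).card : ℤ) := by
      have h6 : 0 < ((bdR (rA N)).filter (fun z => cst 4 (hA N θ4) z = n ∧
          c0 + nab 4 z = (lv P 4).card + nab (4 + hA N θ4 z) z)).card :=
        Finset.card_pos.mpr ⟨z1, mem_filter.mpr ⟨hz1'.1, hz1'.2, by omega⟩⟩
      exact_mod_cast h6
    rcases mul_eq_zero.mp h3 with h6 | h6
    · omega
    · exact absurd h6 (pow_ne_zero _ (by norm_num))
  refine ⟨fun z x x' h hn => ?_, fun z x x' h hn => ?_⟩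
  · obtain ⟨a1, a2, a3⟩ := full_mem Y h12 hmin hmem h hn
    have h4 := Y.W.bd_lev a1
    have h5 := key z a1 a2
    rw [a3, show 4 + (lev z - 4) = lev z by omega, nab_self] at h5
    exact h5
  · obtain ⟨a1, a2, a3⟩ := fold_mem F K h12 Y hmin hmem h hn
    have h5 := key z a1 a2
    rw [a3, show 4 + (j - 5) = j - 1 by omega] at h5
    exact h5

end Pool.Agent.GaussPoset.Ec
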