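import Pool.Agent.W_448s8f_h76.FjC
import Pool.Agent.W_448s7s_h5.SlC

/-!
# Fold joins: the list of the partners; elimination at window `4` (MP_448cb3_co, S8,
`j = 12, 14`)
-/

namespace Pool.Agent.GaussPoset.Sm

set_option linter.unusedSectionVars false

open Finset Wd W4

universe u

variable {P : Type u} [Fintype P] [PartialOrder P] [DecidableEq P] {r j w : ℕ}
  {lo hi : Tops P → ℕ → ℕ} {e : Tops P → ℕ → ℕ → P}

/-- the partners of the fold ends: fold ends or ends with the data in the list -/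
def FoL (P : Type u) [Fintype P] [PartialOrder P] [DecidableEq P] (j : ℕ)
    (EF : List (ℕ × ℕ × ℕ)) : Prop :=
  ∀ z x x' : P, FJn j z x x' → Fold j x' ∨ ∃ s ∈ EF, Dt j x' s

/-- the cost of a fold join at window `w` with the label `j - w - 1` -/
def cF (w j : ℕ) (s : ℕ × ℕ × ℕ) : ℤ :=
  foC w j + stF w j + (((j : ℤ) - w) * s.1 - s.2.1)

/-- the cost of a join of two fold ends -/
def cFF (w j : ℕ) : ℤ := 2 * foC w j - (j - w - 1 : ℕ)

/-- the parity of a fold join -/
def pFo (w j : ℕ) (s : ℕ × ℕ × ℕ) : ℕ := foN w j + (j - w - 1) + s.1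

/-- the parity of a join of two fold ends -/
def pFF (w j : ℕ) : ℕ := 2 * foN w j

/-- the partner of a fold end -/
lemma Ctx.partner (K : Ctx P r j lo hi e) {z x x' : P} (h : FJn j z x x') :
    lev x' = j ∧ (Win.uc x').card = 1 ∧ (Fold j x' ∨ Sok j x') := by
  have H := K.gt.H
  have h1 := (h.1.lev_eq H).2
  have h2 := h.2.1
  refine ⟨by omega, (K.ends h.1 h.2.1).2, ?_⟩
  by_cases hf : Fold j x'
  · exact Or.inl hf
  · exact Or.inr ⟨fun h3 => by have := h3.1; omega, fun _ => hf⟩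

/-- the initial list: all ends -/
theorem Ctx.foL (K : Ctx P r j lo hi e) (h12 : 12 ≤ j) {E : List (ℕ × ℕ × ℕ)} (hE : ChkE j E)
    (h0 : (0, 0, 0) ∈ E) : FoL P j E := by
  intro z x x' h
  obtain ⟨h1, h2, h3⟩ := K.partner h
  rcases h3 with h3 | h3
  · exact Or.inl h3
  · exact Or.inr (K.endd h.1.only' h1 h2 hE h0 fun hf => absurd hf (h3.2 h12))

/-- costs and parities of the fold joins -/
theorem Ctx.fo_num (K : Ctx P r j lo hi e) (h12 : 12 ≤ j) (hw : w ≤ 4) {z x x' : P}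
    (h : FJn j z x x') :
    (Fold j x' → (cst w (fun _ => j - w - 1) z : ℤ) = cFF w j ∧
      nst w (fun _ => j - w - 1) z = pFF w j) ∧
    (∀ s, ¬ Fold j x' → Dt j x' s → (cst w (fun _ => j - w - 1) z : ℤ) = cF w j s ∧
      nst w (fun _ => j - w - 1) z = pFo w j s) := by
  have H := K.gt.H
  obtain ⟨h1, h2, h3⟩ := K.partner h
  refine ⟨fun hf => ⟨?_, ?_⟩, fun s hf hD => ?_⟩
  · have h4 := fjn_FF H h hf (w := w) (by omega)
    unfold cFF
    have h5 : ((cst w (fun _ => j - w - 1) z + (j - w - 1) : ℕ) : ℤ) = ((2 * foC w j : ℕ) : ℤ) := by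
      rw [h4]
    push_cast at h5 ⊢
    linarith
  · have h4 : ∑ n ∈ range (j - w - 1), nab (w + n) x' = foN w j := by
      unfold foN
      refine Finset.sum_congr rfl fun n hn => ?_
      rw [mem_range] at hn
      rw [fold_nab_min hf (by omega)]
    rw [fjn_nst H h (by omega), h4]
    unfold pFF
    ring
  · have hs := h3.resolve_left hf
    have hlow : ∀ k, k < w → nab k x' = 1 := fun k hk =>
      K.low_one h12 h.1.only' h1.ge (fun _ => h2) hs (by omega)
    have h4 := fjn_cost H h (by omega) hlow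
    have h5 := fjn_par H h (by omega) hlow (nab_end H (by omega) h1 h2)
    rw [hD.1] at h5
    refine ⟨?_, ?_⟩
    · rw [h4, hD.1, hD.2.1]
      rfl
    · unfold pFo
      exact_mod_cast h5

/-- a lower bound for the costs of the fold joins -/
theorem Ctx.fo_ge (K : Ctx P r j lo hi e) (h12 : 12 ≤ j) (hw : w ≤ 4) {EF : List (ℕ × ℕ × ℕ)}
    (hL : FoL P j EF) {n : ℤ} (h1 : n ≤ cFF w j) (h2 : ∀ s ∈ EF, n ≤ cF w j s) {z x x' : P}
    (h : FJn j z x x') : n ≤ cst w (fun _ => j - w - 1) z := by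
  obtain ⟨g1, g2⟩ := K.fo_num h12 hw h
  by_cases hf : Fold j x'
  · rw [(g1 hf).1]
    exact h1
  · rcases hL z x x' h with h3 | ⟨s, hs, h3⟩
    · exact absurd h3 hf
    · rw [(g2 s hf h3).1]
      exact h2 s hs

/-- the parity of the fold joins of cost `n` -/
theorem Ctx.fo_par (K : Ctx P r j lo hi e) (h12 : 12 ≤ j) (hw : w ≤ 4) {EF : List (ℕ × ℕ × ℕ)}
    (hL : FoL P j EF) {n : ℤ} {p : ℕ} (h1 : cFF w j = n → pFF w j % 2 = p)
    (h2 : ∀ s ∈ EF, cF w j s = n → pFo w j s % 2 = p) {z x x' : P}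
    (h : FJn j z x x') (hn : (cst w (fun _ => j - w - 1) z : ℤ) = n) :
    nst w (fun _ => j - w - 1) z % 2 = p := by
  obtain ⟨g1, g2⟩ := K.fo_num h12 hw h
  by_cases hf : Fold j x'
  · rw [(g1 hf).2]
    exact h1 (by rw [← (g1 hf).1]; exact hn)
  · rcases hL z x x' h with h3 | ⟨s, hs, h3⟩
    · exact absurd h3 hf
    · rw [(g2 s hf h3).2]
      exact h2 s hs (by rw [← (g2 s hf h3).1]; exact hn)

/-- elimination of the partners of cost `n` -/
theorem Ctx.fo_elim (K : Ctx P r j lo hi e) (h12 : 12 ≤ j) (hw : w ≤ 4)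
    {EF EF' : List (ℕ × ℕ × ℕ)} (hL : FoL P j EF) {n : ℤ}
    (hne : ∀ z x x' : P, FJn j z x x' → (cst w (fun _ => j - w - 1) z : ℤ) ≠ n)
    (hE : ∀ s ∈ EF, cF w j s ≠ n → s ∈ EF') : FoL P j EF' := by
  intro z x x' h
  obtain ⟨g1, g2⟩ := K.fo_num h12 hw h
  by_cases hf : Fold j x'
  · exact Or.inl hf
  · rcases hL z x x' h with h3 | ⟨s, hs, h3⟩
    · exact Or.inl h3
    · refine Or.inr ⟨s, hE s hs ?_, h3⟩
      rw [← (g2 s hf h3).1]
      exact hne z x x' h

/-- the drop of the fold joins at window `4` is at least `2` -/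
lemma Ctx.fo_drop (K : Ctx P r j lo hi e) (h12 : 12 ≤ j) {z x x' : P} (h : FJn j z x x') :
    4 ≤ nab 4 z ∧ nab (j - 1) z = 2 := by
  have H := K.gt.H
  obtain ⟨h1, h2, h3⟩ := K.partner h
  have h4 := h.2.2.2.2 4 (by omega)
  have h5 := h.2.2.2.2 (j - 1) (by omega)
  have h6 := nab_end H (by omega) h1 h2
  have h7 := one_le_nab (l := 4) (z := x') (by omega)
  have h8 := fjn_nab H h (k := 4) (by omega)
  have h9 := fjn_nab H h (k := j - 1) (by omega)
  have h10 := h.2.2.2.1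
  omega

end Pool.Agent.GaussPoset.Sm
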