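import Pool.Agent.W_448s8f_h76.FkD
import Pool.Agent.W_448s8f_h76.FkC

/-!
# The inputs and the output of window `6` for `j = 12`, energies at most `20`
(MP_448cb3_co, S8)
-/

namespace Pool.Agent.GaussPoset.Sm

set_option linter.unusedSectionVars false

open Finset Wd W4

universe u

variable {P : Type u} [Fintype P] [PartialOrder P] [DecidableEq P] {r j w : ℕ}

lemma uc_nab (H : Gr P r) {x : P} (hj : 1 ≤ j) (hl : lev x = j) :
    (Win.uc x).card = nab (j - 1) x := by
  classical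
  unfold nab
  congr 1
  ext y
  rw [mem_filter, mem_lv, Win.mem_uc]
  constructor
  · intro g
    have := (H.covBy_iff.mp g).2
    exact ⟨by omega, g.1.le⟩
  · rintro ⟨g1, g2⟩
    refine H.covBy_iff.mpr ⟨lt_of_le_of_ne g2 (by rintro rfl; omega), by omega⟩

lemma Fold.uc (H : Gr P r) {x : P} (h : Fold j x) (hj : 2 ≤ j) : (Win.uc x).card = 1 := by
  rw [uc_nab H (by omega) h.1]
  have h1 := h.2.2 (j - 1) (by omega)
  have h2 := h.2.1
  omega

variable {lo hi : Tops P → ℕ → ℕ} {e : Tops P → ℕ → ℕ → P}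

lemma Ctx.only (K : Ctx P r j lo hi e) {x : P} (hl : lev x ≤ j) : x ∈ onlyB (topOf x) := by
  rw [mem_onlyB]
  intro s hs hxs
  by_contra hne
  exact K.gt.no_join x hl ⟨s, topOf x, hs, (topOf x).2, hne, hxs, le_topOf x⟩

/-- two covers with different tops -/
lemma Ctx.cg (K : Ctx P r j lo hi e) {z x x' : P} (hz : lev z = j + 1) (h1 : z ⋖ x)
    (h2 : z ⋖ x') (h3 : topOf x ≠ topOf x') : Cg z x x' := by
  have e1 := (K.gt.H.covBy_iff.mp h1).2
  have e2 := (K.gt.H.covBy_iff.mp h2).2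
  exact Cg.mk' h1 h2 (K.only (by omega)) (K.only (by omega)) h3

/-- the profile of an end of level `12` -/
theorem Ctx.endP (K : Ctx P r 12 lo hi e) {x : P} (hx : x ∈ onlyB (topOf x)) (hl : lev x = 12)
    (hend : (Win.uc x).card = 1) (hF : ¬ Fold 12 x) :
    ∃ m c b p q s : ℕ, (m, c, b, p, q, s) ∈ P12 ∧ Dt 12 x (m, c, b) ∧ nab 6 x = p + 1 ∧
      nab 7 x = q + 1 ∧ nab 7 x + nab 8 x + nab 9 x + nab 10 x + nab 11 x + nab 12 x = 6 + s := by
  have h5 := K.h5
  have h12 : nab 12 x = 1 := by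
    rw [← hl]
    exact nab_self
  rcases K.cases hx (by omega) (fun _ => hend) (fun h => by have := h.1; omega) with
    h | h | ⟨a, h, -⟩
  · exact absurd h hF
  · refine ⟨0, 0, 0, 0, 0, 0, by decide, ⟨h.mX.1, h.mX.2, h 10 (by omega)⟩, h 6 (by omega),
      h 7 (by omega), ?_⟩
    rw [h 7 (by omega), h 8 (by omega), h 9 (by omega), h 10 (by omega), h 11 (by omega), h12]
  · obtain ⟨A, g1, g2, g3, -, g4, g5, -, g7, g8⟩ := late_prof K.gt (by omega) (K.comp _) h.two h.le
      h.low h.at_a hx (by omega) (fun _ => hend) rfl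
    refine ⟨_, _, _, _, _, _, chkP12 a (mem_range.mpr (by have := h.le; omega)) (h.four (by omega))
      _ h.word (by simp) A g1 g2 (g3 0 hl), ⟨g4, g5, g7⟩, g8 6 (by omega), g8 7 (by omega), ?_⟩
    rw [g8 7 (by omega), g8 8 (by omega), g8 9 (by omega), g8 10 (by omega), g8 11 (by omega), h12]
    unfold sL
    omega

/-- the numbers of a fold end of level `12` -/
lemma fold_n12 {x : P} (h : Fold 12 x) : nab 6 x = 4 ∧ nab 7 x = 3 ∧
    nab 7 x + nab 8 x + nab 9 x + nab 10 x + nab 11 x + nab 12 x = 12 := by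
  have h6 := h.2.2 6 (by omega)
  have h7 := h.2.2 7 (by omega)
  have h8 := h.2.2 8 (by omega)
  have h9 := h.2.2 9 (by omega)
  have h10 := h.2.2 10 (by omega)
  have h11 := h.2.2 11 (by omega)
  have h12 := h.2.2 12 (by omega)
  omega

/-- the numbers of a join of level `13` -/
lemma cg_sum (H : Gr P r) {z x x' : P} (h : Cg z x x') (hz : lev z = 13) :
    nab 6 z = nab 6 x + nab 6 x' ∧ nab 7 z = nab 7 x + nab 7 x' ∧
      nab 7 z + nab 8 z + nab 9 z + nab 10 z + nab 11 z + nab 12 z =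
        (nab 7 x + nab 8 x + nab 9 x + nab 10 x + nab 11 x + nab 12 x) +
        (nab 7 x' + nab 8 x' + nab 9 x' + nab 10 x' + nab 11 x' + nab 12 x') := by
  rw [h.sum H (k := 6) (by omega), h.sum H (k := 7) (by omega), h.sum H (k := 8) (by omega),
    h.sum H (k := 9) (by omega), h.sum H (k := 10) (by omega), h.sum H (k := 11) (by omega),
    h.sum H (k := 12) (by omega)]
  refine ⟨rfl, rfl, ?_⟩
  ring

lemma p12_a : ∀ q ∈ P12, 3 ≤ q.2.2.2.2.2 ∨ (q.2.2.2.1 = 0 ∧ q.2.2.2.2.1 = 0) ∨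
    (q.2.2.2.1 = 1 ∧ q.2.2.2.2.1 = 0 ∧ q.2.2.2.2.2 = 0) ∨
    (q.2.2.2.1 = 0 ∧ q.2.2.2.2.1 = 1) := by
  decide +kernel

lemma p12_b : ∀ s ∈ Rf12, ∀ q ∈ P12, q.1 = s.1.1 → q.2.1 = s.1.2.1 →
    q.2.2.2.1 = 0 ∨ (q.2.2.2.1 = 1 ∧ q.2.2.2.2.1 = 1) := by
  decide +kernel

lemma p12_c : ∀ q ∈ P12, (q.1, q.2.1, q.2.2.1) ∈
    ([(1, 5, 0), (3, 9, 1), (5, 20, 1), (5, 25, 0), (8, 39, 1)] : List (ℕ × ℕ × ℕ)) ∨
    ((q.2.2.2.1 = 0 ∧ q.2.2.2.2.1 = 0 ∧ q.2.2.2.2.2 ≤ 1) ∨
    (q.2.2.2.1 = 1 ∧ q.2.2.2.2.1 = 0 ∧ q.2.2.2.2.2 = 0)) := by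
  decide +kernel

/-- **the hypothesis of window `6`, energies at most `20`** -/
theorem Ctx.hJ1 (K : Ctx P r 12 lo hi e) {z x x' : P} (hz : lev z = 13) (hzx : z ⋖ x)
    (hzx' : z ⋖ x') (hne : topOf x ≠ topOf x')
    (hx : (nab 6 x = 2 ∧ nab 7 x = 1) ∨ 3 ≤ nab 6 x) :
    21 ≤ nab 7 z + nab 8 z + nab 9 z + nab 10 z + nab 11 z + nab 12 z + 1 ∨
      (nab 6 z = 5 ∧ nab 7 z = 4) ∨
      (nab 6 z = 6 ∧ nab 7 z = 4 ∧
        nab 7 z + nab 8 z + nab 9 z + nab 10 z + nab 11 z + nab 12 z + 1 = 19) ∨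
      (nab 6 z = 5 ∧ nab 7 z = 5) := by
  have H := K.gt.H
  have h := K.cg hz hzx hzx' hne
  have hl := (h.lev_eq H).1
  have hl' := (h.lev_eq H).2
  obtain ⟨u1, u2⟩ := K.ends h hz
  obtain ⟨s1, s2, s3⟩ := cg_sum H h hz
  have key : ∀ y y' : P, Cg z y y' → Fold 12 y → (Win.uc y').card = 1 → lev y' = 12 →
      nab 6 z = nab 6 y + nab 6 y' → nab 7 z = nab 7 y + nab 7 y' →
      nab 7 z + nab 8 z + nab 9 z + nab 10 z + nab 11 z + nab 12 z =
        (nab 7 y + nab 8 y + nab 9 y + nab 10 y + nab 11 y + nab 12 y) +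
        (nab 7 y' + nab 8 y' + nab 9 y' + nab 10 y' + nab 11 y' + nab 12 y') →
      21 ≤ nab 7 z + nab 8 z + nab 9 z + nab 10 z + nab 11 z + nab 12 z + 1 ∨
      (nab 6 z = 5 ∧ nab 7 z = 4) ∨
      (nab 6 z = 6 ∧ nab 7 z = 4 ∧
        nab 7 z + nab 8 z + nab 9 z + nab 10 z + nab 11 z + nab 12 z + 1 = 19) ∨
      (nab 6 z = 5 ∧ nab 7 z = 5) := by
    intro y y' hy hf uy ly t1 t2 t3
    obtain ⟨f1, f2, f3⟩ := fold_n12 hf
    by_cases hf' : Fold 12 y'
    · obtain ⟨f1', f2', f3'⟩ := fold_n12 hf'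
      omega
    · obtain ⟨m, c, b, p, q, s, g1, -, g2, g3, g4⟩ := K.endP hy.only' ly uy hf'
      have g5 := p12_a _ g1
      simp only at g5
      omega
  by_cases hf : Fold 12 x
  · exact key x x' h hf u2 (by omega) s1 s2 s3
  by_cases hf' : Fold 12 x'
  · exact key x' x h.symm hf' u1 (by omega) (by omega) (by omega) (by omega)
  exfalso
  obtain ⟨s, s', g1, g2, g3⟩ := leftf12 K h hz hf hf'
  obtain ⟨m, c, b, p, q, t, k1, k2, k3, k4, k5⟩ := K.endP h.only (by omega) u1 hf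
  have e1 : (m : ℤ) = s.1 := by rw [← k2.1, g2.1]
  have e2 : (c : ℤ) = s.2.1 := by rw [← k2.2.1, g2.2.1]
  have e1' : m = s.1 := by exact_mod_cast e1
  have e2' : c = s.2.1 := by exact_mod_cast e2
  obtain ⟨s1', s2', s3'⟩ := s
  simp only at e1' e2'
  subst e1' e2'
  have g4 := p12_b _ g1 _ k1 rfl rfl
  simp only at g4
  omega

/-- **the partners of the fold ends after window `6`, energies at most `20`** -/
theorem Ctx.foL_20 (K : Ctx P r 12 lo hi e)
    (hL : ∀ z x x' : P, lev z = 13 → z ⋖ x → z ⋖ x' → topOf x ≠ topOf x' → 3 ≤ nab 6 x →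
      ¬ (nab 6 z = 5 ∧ nab 7 z = 4 ∧
        nab 7 z + nab 8 z + nab 9 z + nab 10 z + nab 11 z + nab 12 z + 1 ≤ 20) ∧
      ¬ (nab 6 z = 6 ∧ nab 7 z = 4 ∧
        nab 7 z + nab 8 z + nab 9 z + nab 10 z + nab 11 z + nab 12 z + 1 ≤ 19)) :
    FoL P 12 [(1, 5, 0), (3, 9, 1), (5, 20, 1), (5, 25, 0), (8, 39, 1)] := by
  intro z x x' h
  have H := K.gt.H
  have h1 := h.1
  by_cases hf' : Fold 12 x'
  · exact Or.inl hf'
  right
  obtain ⟨l1, l2⟩ := h1.lev_eq H
  have hz := h.2.1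
  obtain ⟨u1, u2⟩ := K.ends h1 hz
  obtain ⟨s1, s2, s3⟩ := cg_sum H h1 hz
  obtain ⟨f1, f2, f3⟩ := fold_n12 h.2.2
  obtain ⟨m, c, b, p, q, s, g1, g2, g3, g4, g5⟩ := K.endP h1.only' (by omega) u2 hf'
  obtain ⟨k1, k2⟩ := hL z x x' hz h1.cov h1.cov' h1.ne (by omega)
  refine ⟨(m, c, b), ?_, g2⟩
  rcases p12_c _ g1 with g6 | g6
  · exact g6
  · simp only at g6
    omega

/-- no element below both ends of a stair with a fold, from its coordinates -/
theorem Ctx.noCC_of (K : Ctx P r 12 lo hi e)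
    (hC : ∀ (t : Tops P) (z : P), StairShape 12 (lo t) (hi t) → lo t 12 = 0 → z ⋖ e t 12 6 →
      z ⋖ e t 12 0 → False) : NoCC P 12 := by
  intro z x x' hz hf hzx hzx' hne hu htt
  have H := K.gt.H
  have hg := K.gt.good
  have hl := (H.covBy_iff.mp hzx).2
  have hl' := (H.covBy_iff.mp hzx').2
  have hlx : lev x = 12 := by omega
  have hlx' : lev x' = 12 := by omega
  have n2 := hf.2.2 2 (by omega)
  have hox := K.only (x := x) (by omega)
  have hux := hf.uc H (by omega)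
  have C := K.comp (topOf x)
  rcases shape_cases C (by omega) (K.shape (topOf x)) with h | (h | h) | ⟨a, h, h3⟩
  · have := nab_one_of_eq C hox (k := 2) (by omega) (by omega) (h 2 (by omega))
    omega
  · rcases rect_dich' H (chart_rect C H hg h) (by omega) hox (by omega) with g | ⟨g1, g2⟩
    · have := g 2 (by omega)
      omega
    · have := g2 hlx
      omega
  · -- the stair
    have key : ∀ y : P, y ≤ (topOf x : P) → lev y = 12 → (Win.uc y).card = 1 →
        y = e (topOf x) 12 6 ∨ (lo (topOf x) 12 = 0 ∧ y = e (topOf x) 12 0) := by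
      intro y hy hly huy
      obtain ⟨s, a1, a2, a3⟩ := C.surj y hy (by omega)
      rw [hly] at a1 a2 a3
      have b1 := h.hi 12 (by omega)
      have b2 := h.hi 11 (by omega)
      have b3 := h.lo 11 (by omega)
      have b4 := C.lo_step 11 (by omega)
      have b5 := C.lo_le 11 (by omega)
      simp only [show 11 + 1 = 12 from rfl] at b3 b4
      by_cases hs : s = 6
      · left
        rw [← a3, hs]
      · right
        by_cases hs2 : lo (topOf x) 11 + 1 ≤ s
        · exfalso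
          have c1 := (C.cov 11 s s (by omega) (by simpa using a1) (by simpa using a2)
            (by omega) (by omega)).mpr (Or.inl rfl)
          have c2 := (C.cov 11 s (s - 1) (by omega) (by simpa using a1) (by simpa using a2)
            (by omega) (by omega)).mpr (Or.inr (by omega))
          simp only [show 11 + 1 = 12 from rfl, a3] at c1 c2
          have c3 : e (topOf x) 11 s ≠ e (topOf x) 11 (s - 1) := by
            intro hh
            have := C.inj 11 s (s - 1) (by omega) (by omega) (by omega) (by omega) (by omega) hh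
            omega
          have c4 := Finset.card_le_card (show ({e (topOf x) 11 s, e (topOf x) 11 (s - 1)} :
            Finset P) ⊆ Win.uc y from by
              intro q hq
              rw [Win.mem_uc]
              rw [mem_insert, mem_singleton] at hq
              rcases hq with rfl | rfl
              · exact c1
              · exact c2)
          rw [Finset.card_pair c3] at c4
          omega
        · have hs3 : s = 0 := by omega
          subst hs3
          exact ⟨by omega, a3.symm⟩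
    rcases key x (le_topOf x) hlx hux with g | ⟨g0, g⟩
    · rcases key x' (by rw [htt]; exact le_topOf x') hlx' hu with g' | ⟨g0', g'⟩
      · exact hne (g'.trans g.symm)
      · exact hC (topOf x) z h g0' (g ▸ hzx) (g' ▸ hzx')
    · rcases key x' (by rw [htt]; exact le_topOf x') hlx' hu with g' | ⟨g0', g'⟩
      · exact hC (topOf x) z h g0 (g' ▸ hzx') (g ▸ hzx)
      · exact hne (g'.trans g.symm)
  · obtain ⟨e1, e2⟩ := h.low 2 (by have := h3 (by omega); omega)
    have := nab_one_of_eq C hox (k := 2) (by omega) (by omega) (by rw [e1, e2])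
    omega

end Pool.Agent.GaussPoset.Sm
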