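import Pool.Agent.W_448s8f_h76.FjD
import Pool.Agent.W_448s7_h27.EwM

/-!
# Window `4` with fold joins: elimination (MP_448cb3_co, S8, `j = 12, 14`)
-/

namespace Pool.Agent.GaussPoset.Ec

set_option linter.unusedSectionVars false

open Polynomial Finset Sm Wd Cp W4 Cl

universe u

variable {P : Type u} [Fintype P] [PartialOrder P] [DecidableEq P] {r j : ℕ}
  {lo hi : Tops P → ℕ → ℕ} {e : Tops P → ℕ → ℕ → P} {N : Tops P → Finset P}
  {θ3 θ4 : Tops P → P → ℕ} {Nf : Tops P → Finset P} {θf : Tops P → (ℕ → ℕ → ℕ) → P → ℕ}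
  {D : Tops P → Prop} {K3 K' V3 : ℕ} {b : Tops P → ℕ}

/-- **Elimination at window `4`, with fold joins**: `n` is a lower bound of the costs of the
joins (fold joins with the label `j - 5`); all joins of cost `n` of drop at least `2` have the
same parity; then there is none. -/
theorem Fs.killF (F : Fs P j lo hi e N θ4 Nf θf D) (K : Ctx P r j lo hi e) (h12 : 12 ≤ j)
    (Y : Y4 r j K3 K' V3 N b θ3 θ4) (hfo3 : j % 2 = 0 → foC 3 j + foE 3 j < V3)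
    {n : ℕ} (hn : n ≤ K') (hjn : ∀ z x x' : P, Cg z x x' → n ≤ ful 4 z)
    {EF : List (ℕ × ℕ × ℕ)} (hL : FoL P j EF) (hF1 : (n : ℤ) ≤ cFF 4 j)
    (hF2 : ∀ s ∈ EF, (n : ℤ) ≤ cF 4 j s) {p : ℕ} (hpF1 : cFF 4 j = n → pFF 4 j % 2 = p)
    (hpF2 : ∀ s ∈ EF, cF 4 j s = n → pFo 4 j s % 2 = p)
    {good : Tops P → (P → ℕ) → ℕ → Prop} (hdv : HDv P n 1 N θ4 Nf D good)
    (hK : ∀ e' F', Vd 4 e' F' → ∑ x, e' x = n → Ew.Ok (rA N) (thA N θ4) e' →
      (El.KG (ED D) Nf good e').card ≤ 1)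
    (hp1 : ∀ z x x' : P, Cg z x x' → ful 4 z = n → 3 ≤ nab 4 z →
      nst 4 (fun z => lev z - 4) z % 2 = p) :
    (∀ z x x' : P, Cg z x x' → ful 4 z = n → nab 4 z ≤ 2) ∧
    (∀ z x x' : P, FJn j z x x' → (cst 4 (fun _ => j - 4 - 1) z : ℤ) ≠ n) := by
  have e5 : j - 4 - 1 = j - 5 := by omega
  obtain ⟨h1, h2, h3⟩ := Y.own_noiseF hfo3 hn hjn (fun z x x' h => by
    have h4 := K.fo_ge h12 le_rfl hL hF1 hF2 h
    rw [e5] at h4
    exact_mod_cast h4)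
  obtain ⟨g1, g2⟩ := F.class_par K h12 Y (d := 1) (p := p) h1 h3
    (fun c0 hc hle => F.gsum_gen K h12 Y hdv (fun x hx => (h2 x hx).le) h1 hK hc hle)
    hp1
    (fun z x x' h hc _ => by
      have h4 := K.fo_par h12 le_rfl hL hpF1 hpF2 h (by rw [e5]; exact_mod_cast hc)
      rwa [e5] at h4)
  refine ⟨g1, fun z x x' h hc => ?_⟩
  rw [e5] at hc
  have h4 := g2 z x x' h (by exact_mod_cast hc)
  obtain ⟨h5, h6⟩ := K.fo_drop h12 h
  omega

/-- **Elimination at window `4`, `j = 12`, with fold joins.** -/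
theorem Fs.killF12 (F : Fs P 12 lo hi e N θ4 Nf θf D) (K : Ctx P r 12 lo hi e)
    (Y : Y4 r 12 K3 K' V3 N b θ3 θ4) (hV : 10 ^ 2 + 40 ≤ V3)
    {n : ℕ} (hn : n ≤ K') (h126 : n ≤ 126) (hjn : ∀ z x x' : P, Cg z x x' → n ≤ ful 4 z)
    {EF : List (ℕ × ℕ × ℕ)} (hL : FoL P 12 EF)
    (hF2 : ∀ s ∈ EF, (n : ℤ) ≤ cF 4 12 s) {p : ℕ}
    (hpF2 : ∀ s ∈ EF, cF 4 12 s = n → pFo 4 12 s % 2 = p)
    (hdv : HDv P n 1 N θ4 Nf D (Gd12 lo hi e Nf θf))
    (hp1 : ∀ z x x' : P, Cg z x x' → ful 4 z = n → 3 ≤ nab 4 z →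
      nst 4 (fun z => lev z - 4) z % 2 = p) :
    (∀ z x x' : P, Cg z x x' → ful 4 z = n → nab 4 z ≤ 2) ∧
      FoL P 12 (EF.filter fun s => decide (cF 4 12 s ≠ n)) := by
  have h143 : cFF 4 12 = 143 := by decide
  have hfo : foC 3 12 + foE 3 12 = 136 := by decide
  obtain ⟨g1, g2⟩ := F.killF K le_rfl Y (fun _ => by omega) hn hjn hL (by rw [h143]; omega) hF2
    (p := p) (fun h => by rw [h143] at h; omega) hpF2 hdv
    (fun e' F' hV hs hok => F.card_le_one12 K Y (Or.inl h126) hV hs hok) hp1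
  exact ⟨g1, K.fo_elim le_rfl le_rfl hL g2 fun s hs hne => by
    rw [List.mem_filter]
    exact ⟨hs, by simpa using hne⟩⟩

end Pool.Agent.GaussPoset.Ec
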