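import Pool.Agent.W_448s8f_h76.FqE
import Pool.Agent.W_448f4_h70.JT

/-!
# S8 for `j = 12`: no joins of level `13` (MP_448cb3_co)
-/

namespace Pool.Agent.GaussPoset.Sm

set_option linter.unusedSectionVars false

open Finset

universe u

variable {P : Type u} [Fintype P] [PartialOrder P] [DecidableEq P] {r : ℕ}
  {lo hi : Tops P → ℕ → ℕ} {e : Tops P → ℕ → ℕ → P}

/-- **no joins of level `13`** -/
theorem Ctx.no_join12 (K : Ctx P r 12 lo hi e) {z : P} (hl : lev z = 13) : ¬ Hul.Jn z :=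
  no_join12_of K (fun hE hP hJ => K.winFK2_12 hE hP K.st2.1 (nf12 K) hJ)
    (fun hE hP hJ => K.winFK3_12 hE hP K.st2.1 (nf12 K) hJ) hl

end Pool.Agent.GaussPoset.Sm
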