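import Pool.Agent.W_448s8f_h76.FiH

/-!
Rows and ladders by numbers (MP_448cb3_co, S8, small `m`).
-/

namespace Pool.Agent.GaussPoset.Fi

set_option linter.unusedSectionVars false

open Polynomial Finset

universe u

/-- the row condition by numbers -/
def okR (i m k N0 : ℕ) (q1 q2 : ℕ → ℕ) (q : ℕ → ℕ) : Prop :=
  N0 ≤ vsQ i m k q + k ∨
  (q (2 * m - i) = q (2 * m - (i + k)) + 1 ∧ nsQ i m k q % 2 = q1 (vsQ i m k q + k) % 2) ∨
  (q (2 * m - i) = q (2 * m - (i + k)) + 2 ∧ nsQ i m k q % 2 = q2 (vsQ i m k q + k) % 2)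

instance (i m k N0 : ℕ) (q1 q2 q : ℕ → ℕ) : Decidable (okR i m k N0 q1 q2 q) := by
  unfold okR
  infer_instance

variable {P : Type u} [Fintype P] [PartialOrder P] [DecidableEq P] {r i m K N0 : ℕ}
  {N : Tops P → Finset P} {b : Tops P → ℕ} {θ : Tops P → P → ℕ}

/-- signs by parities -/
noncomputable def sg (P : Type u) [Fintype P] [PartialOrder P] [DecidableEq P] (i : ℕ) (q1 : ℕ → ℕ) (n : ℕ) : ℤ :=
  (-1) ^ (below P i + q1 n)

lemma sg_ne (q1 : ℕ → ℕ) (n : ℕ) : sg P i q1 n ≠ 0 := pow_ne_zero _ (by norm_num)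

lemma sg_of {q1 : ℕ → ℕ} {n s : ℕ} (h : s % 2 = q1 n % 2) :
    (-1 : ℤ) ^ (below P i + s) = sg P i q1 n := by
  unfold sg
  rw [pow_add, pow_add]
  congr 1
  rw [← Nat.div_add_mod s 2, ← Nat.div_add_mod (q1 n) 2, h, pow_add, pow_add, pow_mul, pow_mul]
  norm_num

lemma nq_ok {z : P} {k : ℕ} {q : ℕ → ℕ} (h : NQ i m N θ z k q) {q1 q2 : ℕ → ℕ}
    (hk : okR i m k N0 q1 q2 q) :
    N0 ≤ cst i (h2 (2 * m) N θ) z ∨
    (nab i z = nab (i + h2 (2 * m) N θ z) z + 1 ∧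
      (-1 : ℤ) ^ (below P i + nst i (h2 (2 * m) N θ) z) =
        sg P i q1 (cst i (h2 (2 * m) N θ) z)) ∨
    (nab i z = nab (i + h2 (2 * m) N θ z) z + 2 ∧
      (-1 : ℤ) ^ (below P i + nst i (h2 (2 * m) N θ) z) =
        sg P i q2 (cst i (h2 (2 * m) N θ) z)) := by
  rcases hk with h1 | ⟨h1, h2⟩ | ⟨h1, h2⟩
  · left
    rw [h.cst]
    exact h1
  · right
    left
    refine ⟨by rw [h.n0, h.n1, h1], ?_⟩
    rw [h.nst, h.cst]
    exact sg_of h2
  · right
    right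
    refine ⟨by rw [h.n0, h.n1, h1], ?_⟩
    rw [h.nst, h.cst]
    exact sg_of h2

lemma nq_congr {z : P} {k : ℕ} {q q' : ℕ → ℕ} (h : NQ i m N θ z k q)
    (he : ∀ d, q d = q' d) : NQ i m N θ z k q' := by
  have : q = q' := funext he
  rwa [this] at h

/-- (C) joins are no star joins -/
lemma CC.not_st (H : Gr P r) {z : P} (h : CC m z) {p : ℕ} : ¬ St m p z := by
  rintro ⟨f, v, S⟩
  obtain ⟨hl, x, x', h1, h2, h3, h4, h5, h6⟩ := h
  rcases uc_pair H h5 h6 h4 S.zf with e | e <;> rcases uc_pair H h5 h6 h4 S.zv with e' | e'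
  · exact S.ne (by rw [e, e'])
  · exact S.ne (by rw [e, e', h3])
  · exact S.ne (by rw [e, e', h3])
  · exact S.ne (by rw [e, e'])

/-- fold numbers -/
lemma WC.ct_fold (W : WC r i m K N b θ) {x : P} (hx : Fd m x) (k : ℕ) :
    ct i k x = vsQ i m k (fun d => 1 + pF m d) :=
  ct_midI (by have := W.him; omega) hx.1 (fun d _ => W.fold_prof hx d (by omega))

lemma WC.nst_fold (W : WC r i m K N b θ) {x : P} (hx : Fd m x) {k : ℕ} (hk : i + k ≤ 2 * m) :
    nst i (fun _ => k) x = nsQ i m k (fun d => 1 + pF m d) := by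
  rw [nst_eq]
  unfold nsQ
  refine Finset.sum_congr rfl fun u hu => ?_
  rw [mem_range] at hu
  have h1 := W.fold_prof hx (2 * m - (i + u)) (by omega)
  rw [show 2 * m - (2 * m - (i + u)) = i + u by omega] at h1
  exact h1

lemma ct_prof {v : P} {p : ℕ → ℕ} (hi : i ≤ 2 * m) (hl : lev v = 2 * m) (h : Prof m v p) (k : ℕ) :
    ct i k v = vsQ i m k (fun d => 1 + p d) :=
  ct_midI hi hl (fun d _ => h d (by omega))

lemma WC.ct_ge (W : WC r i m K N b θ) {v : P} (hl : lev v = 2 * m) (k : ℕ) :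
    vsQ i m k (fun _ => 1) ≤ ct i k v := by
  have him := W.him
  rw [ct_midI (q := fun d => nab (2 * m - d) v) (by omega) hl (fun d _ => rfl)]
  refine Finset.sum_le_sum fun u hu => Nat.mul_le_mul_left _ ?_
  rw [mem_range] at hu
  exact one_le_nab (by omega)

/-- the first pole of the star joins: to be proved by the product formula -/
def StarT (i m K : ℕ) (N : Tops P → Finset P) (b : Tops P → ℕ) (θ : Tops P → P → ℕ) : Prop :=
  ∀ N1, N1 + 1 ≤ K → ∀ z f v p, SZ m z f v p → z ∈ bdR (r2 (2 * m) N) →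
    N (topOf v) = onlyB (topOf v) → (θ (topOf v) = fun x => lev x - i) → b (topOf v) = 1 →
    (∀ x, x ≤ (topOf v : P) → lev x ≤ 2 * m → x ∈ onlyB (topOf v)) →
    (∀ z' ∈ fam m N z, ∀ y ∈ bdR (r2 (2 * m) N), y ∉ fam m N z → ∀ n,
      n ≤ ct i (kF i m) f + ct i (kF i m) v + kF i m + p → n < N1 →
      n < Uu i (h2 (2 * m) N θ) z' y) →
    FzT i m N θ z (ct i (kF i m) f + ct i (kF i m) v + kF i m + p)
      ((-1) ^ (below P i + kF i m + 1 + nst i (fun _ => kF i m) f)) N1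

lemma mem_of_not_fam {z y : P} (hy : y ∈ bdR (r2 (2 * m) N)) (h : y ∉ fam m N z) :
    ¬ ∀ w, z < w ↔ y < w := fun h2 => h (mem_fam.mpr ⟨hy, h2⟩)

/-- the numbers of a star theorem -/
structure StN (i m : ℕ) (E : ℕ → ℕ) : Prop where
  hk : i + kF i m + 7 = 2 * m
  i_lt : i < 2 * m - 7
  hHL : ∀ p ∈ HL i m, gD p m ≠ 0
  pm : ∀ p, gD (pp p) m = 0
  eE : ∀ p, p = 8 ∨ p = 4 → vsQ i m (kF i m) (fun d => 1 + pF m d) +
    vsQ i m (kF i m) (fun d => 1 + gD (pp p) d) + kF i m + p = E p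
  c1 : ∀ p, p = 8 ∨ p = 4 → vsQ i m (kF i m) (fun d => 1 + gD (pp p) d) + p <
    vsQ i m (kF i m) (fun d => 1 + pF m d) + kF i m
  c2 : 8 < vsQ i m (kF i m) (fun _ => 1) + kF i m

/-- the union of a star join with any other element -/
theorem WC.star_U (W : WC r i m K N b θ) {E : ℕ → ℕ} (T : StN i m E) {N1 : ℕ}
    (hAl : ∀ y ∈ bdR (r2 (2 * m) N), Al i m (kF i m) (vsQ i m (kF i m) (fun d => 1 + pF m d))
      (vsQ i m (kF i m) (fun _ => 1)) N1 N θ y) {z f v : P} {p : ℕ} (hp : p = 8 ∨ p = 4)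
    (S : SZ m z f v p) {y : P} (hy : y ∈ bdR (r2 (2 * m) N)) (hne : y ∉ fam m N z) {n : ℕ}
    (hn : n ≤ E p) (hn1 : n < N1) : n < Uu i (h2 (2 * m) N θ) z y := by
  have him := W.him
  have L := W.td_light S T.i_lt T.hHL (T.pm p)
  have hlv : lev v = 2 * m := by
    have := (W.gt.H.covBy_iff.mp S.zv).2
    have := S.lev
    omega
  have e1 := W.ct_fold S.fd (kF i m)
  have e2 := ct_prof (i := i) (by omega) hlv S.pr (kF i m)
  have e3 := T.eE p hp
  have e4 := T.c1 p hp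
  have e5 := T.c2
  refine W.U_star T.hk S (W.star_lab S L.2.1) (fun f hf => W.ct_fold hf _)
    (fun v hv => W.ct_ge hv _) ?_ ?_ (hAl y hy) (mem_of_not_fam hy hne) ?_ hn1
  · rw [e2]
    exact e4
  · omega
  · rw [e1, e2, e3]
    exact hn

/-- the first pole of a star join -/
theorem WC.star_fz (W : WC r i m K N b θ) (hst : StarT i m K N b θ) {E : ℕ → ℕ} (T : StN i m E)
    {N1 : ℕ} (hN1 : N1 + 1 ≤ K)
    (hAl : ∀ y ∈ bdR (r2 (2 * m) N), Al i m (kF i m) (vsQ i m (kF i m) (fun d => 1 + pF m d))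
      (vsQ i m (kF i m) (fun _ => 1)) N1 N θ y) {z : P} {p : ℕ} (hp : p = 8 ∨ p = 4)
    (S : St m p z) : FzT i m N θ z (E p)
      ((-1) ^ (below P i + (kF i m + 1 + nsQ i m (kF i m) (fun d => 1 + pF m d)))) N1 := by
  have him := W.him
  obtain ⟨f, v, S⟩ := S
  have L := W.td_light S T.i_lt T.hHL (T.pm p)
  have hlv : lev v = 2 * m := by
    have := (W.gt.H.covBy_iff.mp S.zv).2
    have := S.lev
    omega
  have e1 := W.ct_fold S.fd (kF i m)
  have e2 := ct_prof (i := i) (by omega) hlv S.pr (kF i m)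
  have e3 := T.eE p hp
  have hE : ct i (kF i m) f + ct i (kF i m) v + kF i m + p = E p := by rw [e1, e2, e3]
  have h1 := hst N1 hN1 z f v p S (W.jn_mem S.lev S.ne S.zf S.zv) L.1 L.2.1 L.2.2.1 L.2.2.2
    (fun z' hz' y hy hne n hn hn1 => by
      have h2 := mem_fam.mp hz'
      rw [← fam_eq hz'] at hne
      exact W.star_U T hAl hp (S.same h2.2) hy hne (by rw [← hE]; exact hn) hn1)
  rw [hE, W.nst_fold S.fd (by have := T.hk; omega)] at h1
  rwa [show below P i + kF i m + 1 + nsQ i m (kF i m) (fun d => 1 + pF m d) =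
    below P i + (kF i m + 1 + nsQ i m (kF i m) (fun d => 1 + pF m d)) by ring] at h1

lemma Uu_comm (h : P → ℕ) (z z' : P) : Uu i h z z' = Uu i h z' z := by
  unfold Uu
  exact Finset.sum_congr rfl fun x _ => max_comm _ _

end Pool.Agent.GaussPoset.Fi
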