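import Pool.Agent.W_448s8f_h76.FiB
import Pool.Agent.W_448s8_h61.DD

/-!
The context with profiles; fold ends; the elements of level `2 m + 1` below a fold end
(MP_448cb3_co, S8, small `m`).
-/

namespace Pool.Agent.GaussPoset.Fi

set_option linter.unusedSectionVars false

open Polynomial Finset

universe u

variable {P : Type u} [Fintype P] [PartialOrder P] [DecidableEq P] {r i m K : ℕ}
  {N : Tops P → Finset P} {b : Tops P → ℕ} {θ : Tops P → P → ℕ}

/-- the profile of an element of level `2 m`: extras by depth -/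
def Prof (m : ℕ) (v : P) (p : ℕ → ℕ) : Prop := ∀ d, d ≤ 2 * m → nab (2 * m - d) v = 1 + p d

/-- profiles given by lists -/
def gD (p : List ℕ) (d : ℕ) : ℕ := p.getD d 0

/-- the profile of a fold end -/
def pF (m d : ℕ) : ℕ := (2 * m - d) / 2 - (m - d)

/-- one extra at the depth 7 -/
def q7 : List ℕ := [0, 0, 0, 0, 0, 0, 0, 1]

/-- the end `(5;25)` -/
def p5 : List ℕ := [0, 0, 0, 1, 1, 1, 1, 1]

/-- the profiles of the ends with full thresholds at window `i` -/
def PL (i m : ℕ) : List (List ℕ) := [[], [0, 0, 1, 1, 1], [0, 0, 1, 1, 1, 1, 1], p5] ++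
  (List.range' 1 (2 * m - i - 1)).map (fun d => List.replicate d 0 ++ [1])

/-- the profiles of the heavy ends (window `m` only) -/
def HL (i m : ℕ) : List (List ℕ) := if i = m then (List.replicate m 0 ++ [1]) ::
  (if m = 8 then [[0, 0, 0, 0, 1, 1, 1, 1, 2, 1, 1, 1, 1]] else []) else []

/-- the data of a star end: first pole `p` at the window `2 m - 7` -/
structure TD (m : ℕ) (t : Tops P) (v : P) (p : ℕ) : Prop where
  le : v ≤ (t : P)
  lev : Pool.Agent.GaussPoset.lev v = 2 * m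
  pos : 1 ≤ p
  p_le : p ≤ 8
  cn : ∀ l, l < 2 * m - 7 → cn l (t : P) = 1
  cl : ∀ L : Finset P, L ⊆ lowPart (2 * m) (t : P) → (∀ x ∈ L, ∀ y, x ≤ y → y ∈ L) → v ∈ L →
    ∀ n < p, (1 + X : ℤ[X]) ^ 2 ∣ Z {x // x ∈ L} (2 * m - 7) n
  ld : ∀ L : Finset P, (∀ x, x ∈ L ↔ v ≤ x) →
    (1 + X : ℤ[X]) ^ 2 ∣ Z {x // x ∈ L} (2 * m - 7) p + X ^ (2 * m - 7 + 2) * (1 + X)
  ot : ∀ x ≤ (t : P), Pool.Agent.GaussPoset.lev x = 2 * m → x ≠ v →
    ∀ S : Finset P, (∀ w, w ∈ S ↔ x ≤ w ∧ ¬ v ≤ w) → p ≤ 1 + S.card ∧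
      ((Win.uc x).card = 1 → p < 1 + S.card)
  out : ∀ x ≤ (t : P), Pool.Agent.GaussPoset.lev x ≤ 2 * m → ¬ v ≤ x →
    2 * m - 7 < Pool.Agent.GaussPoset.lev x

/-- the types of the components at window `i` -/
inductive Tc (i m : ℕ) (t : Tops P) (b : ℕ) (N : Finset P) (θ : P → ℕ) : Prop
  | light (h1 : N = onlyB t) (h2 : θ = fun x => lev x - i) (h3 : b = 1)
      (h5 : ∀ x, x ≤ (t : P) → lev x ≤ 2 * m → x ∈ onlyB t) (h6 : ∃ x ≤ (t : P), lev x = i)
      (h7 : ∀ v, v ≤ (t : P) → lev v = 2 * m → (Win.uc v).card = 1 → ∃ p ∈ PL i m,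
        Prof m v (gD p) ∧ (gD p 7 = 1 → (p = q7 ∧ TD m t v 8) ∨ (p = p5 ∧ TD m t v 4)))
      (h8 : cn 2 (t : P) ≤ 1)
  | rect (Nc : Finset P) (co : P → ℕ × ℕ) (h0 : RectNat (2 * m) i t b Nc co)
      (h1 : N = natR Nc co) (h2 : θ = thR i b Nc co) (h3 : NopT m t)
  | stair (Nc : Finset P) (co : P → ℕ × ℕ) (h0 : StairNat (2 * m) i t Nc co)
      (h1 : N = natS Nc co) (h2 : θ = thS i Nc co) (h3 : b = i / 2 + 1) (h4 : NopT m t)
  | heavy (h1 : N = lowPart (2 * m) (t : P)) (h2 : ∀ x, lev x ≤ 2 * m → θ x = 0)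
      (h3 : ∃ B, NatTop i t b N θ B)
      (h4 : ∀ v w, v ≤ (t : P) → w ≤ (t : P) → lev v = 2 * m → lev w = 2 * m → v = w)
      (h5 : ∀ v, v ≤ (t : P) → lev v = 2 * m → (Win.uc v).card = 1 ∧ ∃ p ∈ HL i m,
        Prof m v (gD p))
      (h8 : cn 2 (t : P) ≤ 1)

lemma Tc.ty {t : Tops P} {b : ℕ} {N : Finset P} {θ : P → ℕ} (h : Tc i m t b N θ) :
    Ty i m t b N θ := by
  rcases h with ⟨h1, h2, h3, h5, h6, h7, h8⟩ | ⟨Nc, co, h0, h1, h2, h3⟩ |
    ⟨Nc, co, h0, h1, h2, h3, h4⟩ | ⟨h1, h2, h3, h4, h5, h8⟩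
  · exact Ty.light h1 h2 h3 h5 h6
  · exact Ty.rect Nc co h0 h1 h2 h3
  · exact Ty.stair Nc co h0 h1 h2 h3 h4
  · refine Ty.heavy h1 h3 fun x z hx hl h2 => ?_
    have := (h5 x hx hl).1
    omega

/-- the context with profiles -/
structure WC (r i m K : ℕ) (N : Tops P → Finset P) (b : Tops P → ℕ) (θ : Tops P → P → ℕ) :
    Prop where
  gt : Win.GoodTo P r (2 * m)
  hr : 2 * m + 1 ≤ r
  hi : 4 ≤ i
  him : i ≤ m
  hmi : m ≤ i + 1
  tc : ∀ t, Tc i m t (b t) (N t) (θ t)
  sum_b : ∑ t, b t = (lv P i).card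
  kapR : KapR i m K
  kapS : KapS i m K
  K_le : K ≤ (2 * m + 1 - i) ^ 2 + 1

theorem WC.wi (W : WC r i m K N b θ) : WI r i m K N b θ :=
  ⟨W.gt, W.hr, W.hi, W.him, W.hmi, fun t => (W.tc t).ty, W.sum_b, W.kapR, W.kapS, W.K_le⟩

/-- fold ends -/
def Fd (m : ℕ) (x : P) : Prop := lev x = 2 * m ∧ (Win.uc x).card = 1 ∧ nab 2 x = 2

/-- the type of the component of a fold end -/
structure FI (i m : ℕ) (N : Tops P → Finset P) (b : Tops P → ℕ) (θ : Tops P → P → ℕ) (x : P)
    (Nc : Finset P) (co : P → ℕ × ℕ) : Prop where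
  stair : StairNat (2 * m) i (topOf x) Nc co
  nat : N (topOf x) = natS Nc co
  th : θ (topOf x) = thS i Nc co
  b : b (topOf x) = i / 2 + 1
  mem : x ∈ Nc
  cell : co x = (m, m)
  nop : NopT m (topOf x)

lemma WI.nab_le_cn (W : WI r i m K N b θ) {v : P} (hl : lev v ≤ 2 * m) (l : ℕ) :
    nab l v ≤ cn l (topOf v : P) := by
  classical
  unfold nab cn
  refine Finset.card_le_card fun x hx => ?_
  rw [mem_filter] at hx ⊢
  refine ⟨hx.1, ?_⟩
  rw [W.natSys.cp v x hx.2 (W.low hl)]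
  exact le_topOf x

theorem WC.fold_typ (W : WC r i m K N b θ) {x : P} (hx : Fd m x) :
    ∃ Nc co, FI i m N b θ x Nc co := by
  have H := W.gt.H
  have h4 := W.hi
  have him := W.him
  obtain ⟨hl, hu, h2⟩ := hx
  have hc := W.wi.nab_le_cn hl.le 2
  have hxl : x ∈ lowPart (2 * m) (topOf x : P) := mem_lowPart.mpr ⟨le_topOf x, hl.le⟩
  rcases W.tc (topOf x) with ⟨g1, g2, g3, g5, g6, g7, g8⟩ | ⟨Nc, co, g0, g1, g2, g3⟩ |
    ⟨Nc, co, g0, g1, g2, g3, g4⟩ | ⟨g1, g2, g3, g4, g5, g8⟩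
  · omega
  · exfalso
    have hxN := g0.strip hxl
    have hcl := g0.chart.lev x hxN
    have h0 : (co x).1 = 0 ∨ (co x).2 = 0 := by
      by_contra hcon
      have := chart_inner_uc g0.chart H hxN (by omega) (by omega)
      omega
    rw [nab_chart g0.chart hxN] at h2
    have := card_cellsAt_true (l := 2) (p := co x) (by omega)
    omega
  · have hxN := g0.strip hxl
    have hcl := g0.chart.lev x hxN
    have hS : (co x).1 ≤ (co x).2 := g0.chart.mem x hxN
    have h5 : (co x).1 ≠ 0 := by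
      intro h5
      rw [nab_chart g0.chart hxN] at h2
      have := card_cellsAt_shift (l := 2) (p := co x) hS (by omega)
      omega
    have h6 : (co x).1 = (co x).2 := by
      by_contra hcon
      have := chartS_inner_uc g0.chart H hxN (by omega) (by omega)
      omega
    exact ⟨Nc, co, g0, g1, g2, g3, hxN, Prod.ext (by simp only; omega) (by simp only; omega), g4⟩
  · omega

lemma WC.fold_th (W : WC r i m K N b θ) {x : P} (hx : Fd m x) :
    θ (topOf x) x = (m - 2 * (i / 2)) + (m - i) := by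
  obtain ⟨Nc, co, h⟩ := W.fold_typ hx
  have him := W.him
  have h4 := W.hi
  rw [h.th]
  unfold thS
  rw [if_neg (fold_not_junk h.stair.chart h.mem (by rw [h.cell]; show 1 ≤ m; omega)), h.cell]

lemma WC.fold_prof (W : WC r i m K N b θ) {x : P} (hx : Fd m x) : Prof m x (pF m) := by
  obtain ⟨Nc, co, h⟩ := W.fold_typ hx
  intro d hd
  rw [nab_chart h.stair.chart h.mem, h.cell]
  have := card_cellsAt_shift (l := 2 * m - d) (p := (m, m)) le_rfl (by simp only; omega)
  simp only at this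
  unfold pF
  omega

/-- one fold end per top -/
lemma WC.fold_unique (W : WC r i m K N b θ) {x x' : P} (hx : Fd m x) (hx' : Fd m x')
    (ht : topOf x = topOf x') : x = x' := by
  have him := W.him
  have h4 := W.hi
  have H := W.gt.H
  obtain ⟨Nc, co, h⟩ := W.fold_typ hx
  have h2 : x' ∈ Nc := h.stair.strip (mem_lowPart.mpr ⟨by rw [ht]; exact le_topOf x', hx'.1.le⟩)
  have h3 := h.stair.chart.lev x' h2
  have hS : (co x').1 ≤ (co x').2 := h.stair.chart.mem x' h2
  have h5 : (co x').1 ≠ 0 := by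
    intro h5
    have h6 := hx'.2.2
    rw [nab_chart h.stair.chart h2] at h6
    have := card_cellsAt_shift (l := 2) (p := co x') hS (by have := hx'.1; omega)
    omega
  have h6 : (co x').1 = (co x').2 := by
    by_contra hcon
    have := chartS_inner_uc h.stair.chart H h2 (by omega) (by omega)
    have := hx'.2.1
    omega
  have h7 := hx'.1
  refine h.stair.chart.inj x h.mem x' h2 ?_
  rw [h.cell]
  exact Prod.ext (by simp only; omega) (by simp only; omega)

/-- natural elements below a fold end -/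
lemma WC.nat_child (W : WC r i m K N b θ) {f : P} {Nc : Finset P} {co : P → ℕ × ℕ}
    (T : FI i m N b θ f Nc co) {y : P} (hy : y ∉ unnat N) (hyf : y ⋖ f) :
    ∃ x' ∈ Nc, co x' = (m - 1, m + 1) ∧ y ⋖ x' := by
  have H := W.gt.H
  have HN := W.wi.natSys
  have him := W.him
  have h4 := W.hi
  have h1 : y ∈ N (topOf y) := HN.mem_iff.mpr ⟨hy, rfl⟩
  rw [HN.cp y f hyf.1.le hy, T.nat, mem_natS] at h1
  have hyN : y ∈ Nc := by
    rcases h1 with h | h
    · exact h
    · exfalso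
      obtain ⟨x1, hE, hj⟩ := mem_junk.mp h
      have hj2 := (mem_jset.mp hj).2
      have e3 := hE.lt f T.mem (by rw [T.cell]; show 1 ≤ m; omega)
      rw [T.cell] at e3
      simp only at e3
      rcases hj2 f hyf.1.le with h3 | h3
      · have e1 := (T.stair.chart.le_iff f T.mem x1 hE.mem).mp h3
        rw [T.cell] at e1
        have e2 := e1.2
        simp only at e2
        omega
      · have e1 := (T.stair.chart.le_iff x1 hE.mem f T.mem).mp h3
        rw [T.cell] at e1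
        have e2 := e1.1
        have h0 := hE.fst
        simp only at e2
        omega
  have hS : (co y).1 ≤ (co y).2 := T.stair.chart.mem y hyN
  have hp := (chart_cov T.stair.chart H hyN T.mem).mp hyf
  rw [T.cell] at hp
  have hcy : co y = (m, m + 1) := by
    rcases hp with ⟨p1, p2⟩ | ⟨p1, p2⟩
    · simp only at p1 p2
      omega
    · simp only at p1 p2
      exact Prod.ext (by simp only; omega) (by simp only; omega)
  obtain ⟨x', hx', hcx'⟩ := T.stair.chart.low y hyN (m - 1, m + 1) (by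
    rw [hcy]
    exact ⟨Nat.sub_le _ _, le_rfl⟩) (show m - 1 ≤ m + 1 by omega)
  refine ⟨x', hx', hcx', ?_⟩
  rw [chart_cov T.stair.chart H hyN hx', hcx', hcy]
  exact Or.inl ⟨by simp only; omega, rfl⟩

/-- natural elements and twins below a fold end -/
theorem WC.fold_child (W : WC r i m K N b θ) {z f : P} (hf : Fd m f) (hzf : z ⋖ f)
    (hz : z ∉ r2 (2 * m) N) : ∃ Nc co x', FI i m N b θ f Nc co ∧ x' ∈ Nc ∧
      co x' = (m - 1, m + 1) ∧ z ⋖ x' := by
  obtain ⟨Nc, co, T⟩ := W.fold_typ hf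
  have W' := W.wi
  by_cases hY : z ∈ twY (2 * m) N
  · obtain ⟨x', h2, h3, h4⟩ := W.nat_child T (W'.twSys.nat z hY) ((W'.twSys.cov hY).mpr hzf)
    exact ⟨Nc, co, x', T, h2, h3, (W'.twSys.cov hY).mp h4⟩
  · obtain ⟨x', h2, h3, h4⟩ := W.nat_child T (fun h => hz (mem_sdiff.mpr ⟨h, hY⟩)) hzf
    exact ⟨Nc, co, x', T, h2, h3, h4⟩

/-- pendants below a fold end are in `r2` -/
theorem WC.pend_r2 (W : WC r i m K N b θ) {z f : P} (hf : Fd m f) (hp : Pend z f) :
    z ∈ r2 (2 * m) N := by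
  have him := W.him
  have h4 := W.hi
  by_contra hz
  obtain ⟨Nc, co, x', T, h1, h2, h3⟩ := W.fold_child hf hp.1 hz
  have h5 := hp.2 x' h3
  rw [h5, T.cell] at h2
  simp only [Prod.mk.injEq] at h2
  omega

/-- joins below different tops are in `r2` -/
theorem WC.join_r2 (W : WC r i m K N b θ) {z x x' : P} (ht : topOf x ≠ topOf x') (hzx : z ⋖ x)
    (hzx' : z ⋖ x') : z ∈ r2 (2 * m) N := by
  have HN := W.wi.natSys
  have W' := W.wi
  refine mem_sdiff.mpr ⟨?_, fun hY => ?_⟩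
  · by_contra h
    exact ht ((HN.cp z x hzx.1.le h).symm.trans (HN.cp z x' hzx'.1.le h))
  · have h := W'.twSys.nat z hY
    exact ht ((HN.cp _ x ((W'.twSys.cov hY).mpr hzx).1.le h).symm.trans
      (HN.cp _ x' ((W'.twSys.cov hY).mpr hzx').1.le h))

/-- joins of a fold end with a single-up end of the same component are in `r2` -/
theorem WC.cc_r2 (W : WC r i m K N b θ) {z f x' : P} (hf : Fd m f) (hu : (Win.uc x').card = 1)
    (hne : f ≠ x') (hzx : z ⋖ f) (hzx' : z ⋖ x') : z ∈ r2 (2 * m) N := by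
  have H := W.gt.H
  have him := W.him
  have h4 := W.hi
  by_contra hz
  obtain ⟨Nc, co, y, T, h1, h2, h3⟩ := W.fold_child hf hzx hz
  have hyf : y ≠ f := by
    rintro rfl
    rw [T.cell] at h2
    simp only [Prod.mk.injEq] at h2
    omega
  have hyx : y = x' := (uc_pair H hzx hzx' hne h3).resolve_left hyf
  subst hyx
  have := chartS_inner_uc T.stair.chart H h1 (by rw [h2]; show 1 ≤ m - 1; omega)
    (by rw [h2]; show m - 1 < m + 1; omega)
  omega

end Pool.Agent.GaussPoset.Fi
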