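import Pool.Agent.W_448s8_h76.SaT

/-!
The natural system at window `i`, level `2 m`, `i ≤ m` (MP_448cb3_co, S8, small `m`): types,
context, kinds of natural elements.
-/

namespace Pool.Agent.GaussPoset.Fi

set_option linter.unusedSectionVars false

open Polynomial Finset

universe u

variable {P : Type u} [Fintype P] [PartialOrder P] [DecidableEq P] {r i m K : ℕ}
  {N : Tops P → Finset P} {b : Tops P → ℕ} {θ : Tops P → P → ℕ}

/-- the bound below the inner cells of a rectangle -/
def KapR (i m K : ℕ) : Prop := ∀ s ∈ Icc 1 m,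
  K ≤ ((s - i) + (2 * m + 1 - s - i) + 1) + ∑ a ∈ range (s + 1),
    rowW false (fun k => min ((s - i) + (2 * m + 1 - s - i) + 1) (k - i)) (2 * m + 1 - s)
      (2 * m + 1) a

/-- the bound below the inner cells of a stair -/
def KapS (i m K : ℕ) : Prop := ∀ s ∈ Icc 1 m,
  K ≤ ((s - 2 * (i / 2)) + (2 * m + 1 - s - i) + 1) + ∑ a ∈ range (s + 1),
    rowW true (fun k => min ((s - 2 * (i / 2)) + (2 * m + 1 - s - i) + 1) (k - i)) (2 * m + 1 - s)
      (2 * m + 1) a

/-- the types at window `i` -/
inductive Ty (i m : ℕ) (t : Tops P) (b : ℕ) (N : Finset P) (θ : P → ℕ) : Prop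
  | light (h1 : N = onlyB t) (h2 : θ = fun x => lev x - i) (h3 : b = 1)
      (h5 : ∀ x, x ≤ (t : P) → lev x ≤ 2 * m → x ∈ onlyB t) (h6 : ∃ x ≤ (t : P), lev x = i)
  | rect (Nc : Finset P) (co : P → ℕ × ℕ) (h0 : RectNat (2 * m) i t b Nc co)
      (h1 : N = natR Nc co) (h2 : θ = thR i b Nc co) (h3 : NopT m t)
  | stair (Nc : Finset P) (co : P → ℕ × ℕ) (h0 : StairNat (2 * m) i t Nc co)
      (h1 : N = natS Nc co) (h2 : θ = thS i Nc co) (h3 : b = i / 2 + 1) (h4 : NopT m t)
  | heavy (h1 : N = lowPart (2 * m) (t : P)) (h2 : ∃ B, NatTop i t b N θ B) (h3 : NopT m t)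

/-- the context -/
structure WI (r i m K : ℕ) (N : Tops P → Finset P) (b : Tops P → ℕ) (θ : Tops P → P → ℕ) :
    Prop where
  gt : Win.GoodTo P r (2 * m)
  hr : 2 * m + 1 ≤ r
  hi : 4 ≤ i
  him : i ≤ m
  hmi : m ≤ i + 1
  typ : ∀ t, Ty i m t (b t) (N t) (θ t)
  sum_b : ∑ t, b t = (lv P i).card
  kapR : KapR i m K
  kapS : KapS i m K
  K_le : K ≤ (2 * m + 1 - i) ^ 2 + 1

lemma WI.lowUp (W : WI r i m K N b θ) (t : Tops P) :
    ∀ x ∈ lowPart (2 * m) (t : P), ∀ y, x ≤ y → y ∈ lowPart (2 * m) (t : P) := by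
  intro x hx y hxy
  rw [mem_lowPart] at hx ⊢
  refine ⟨Cp.up_le W.gt.H W.gt.good t.2 hx.1 hx.2 hxy, ?_⟩
  rcases eq_or_lt_of_le hxy with h | h
  · rw [← h]; exact hx.2
  · have := lev_strictAnti h; omega

theorem WI.natTop (W : WI r i m K N b θ) (t : Tops P) :
    ∃ B, NatTop i t (b t) (N t) (θ t) B := by
  have h4 := W.hi
  have him := W.him
  have hgr := W.gt.H.gradedBelow
  rcases W.typ t with ⟨h1, h2, h3, h5, h6⟩ | ⟨Nc, co, h0, h1, h2, h3⟩ |
    ⟨Nc, co, h0, h1, h2, h3, h4⟩ | ⟨h1, h2, h3⟩
  · rw [h1, h2, h3]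
    exact ⟨_, natTop_light hgr (fun x hx hxi => h5 x hx (by omega)) h6⟩
  · rw [h1, h2]
    exact ⟨_, h0.natTop hgr (by omega)⟩
  · rw [h1, h2, h3]
    exact ⟨_, h0.natTop hgr (by omega) (by omega)⟩
  · exact h2

lemma WI.natSys (W : WI r i m K N b θ) : NatSys N := by
  choose B hB using W.natTop
  exact natSys_of_tops hB

lemma WI.low (W : WI r i m K N b θ) {x : P} (hx : lev x ≤ 2 * m) : x ∉ unnat N := by
  intro h
  refine mem_unnat.mp h (topOf x) ?_
  rcases W.typ (topOf x) with ⟨h1, h2, h3, h5, h6⟩ | ⟨Nc, co, h0, h1, h2, h3⟩ |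
    ⟨Nc, co, h0, h1, h2, h3, h4⟩ | ⟨h1, h2, h3⟩
  · rw [h1]; exact h5 x (le_topOf x) hx
  · rw [h1]; exact mem_natR.mpr (Or.inl (h0.strip (mem_lowPart.mpr ⟨le_topOf x, hx⟩)))
  · rw [h1]; exact mem_natS.mpr (Or.inl (h0.strip (mem_lowPart.mpr ⟨le_topOf x, hx⟩)))
  · rw [h1]; exact mem_lowPart.mpr ⟨le_topOf x, hx⟩

lemma WI.lt_lev (W : WI r i m K N b θ) {x : P} (hx : x ∈ unnat N) : 2 * m < lev x := by
  by_contra hcon
  exact W.low (not_lt.mp hcon) hx

/-- natural elements with full threshold -/
structure Full (i m : ℕ) (N : Tops P → Finset P) (θ : Tops P → P → ℕ) (x : P) : Prop where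
  th : θ (topOf x) x = lev x - i
  two : ∀ z ∈ unnat N, z ≤ x → ∀ k, 2 ≤ k → k ≤ lev x → 2 ≤ nab k z
  tw : ∀ z ∈ unnat N, ¬ ∀ w, x < w ↔ z < w

/-- inner cells of rectangle-like components -/
structure InR (i m : ℕ) (N : Tops P → Finset P) (b : Tops P → ℕ) (θ : Tops P → P → ℕ) (x : P)
    (Nc : Finset P) (co : P → ℕ × ℕ) : Prop where
  rect : RectNat (2 * m) i (topOf x) (b (topOf x)) Nc co
  nat : N (topOf x) = natR Nc co
  mem : x ∈ Nc
  fst : 1 ≤ (co x).1
  snd : 1 ≤ (co x).2
  th : θ (topOf x) x = ((co x).1 - i) + ((co x).2 - i)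
  nop : NopT m (topOf x)

/-- inner cells of stair-like components -/
structure InS (i m : ℕ) (N : Tops P → Finset P) (b : Tops P → ℕ) (θ : Tops P → P → ℕ) (x : P)
    (Nc : Finset P) (co : P → ℕ × ℕ) : Prop where
  stair : StairNat (2 * m) i (topOf x) Nc co
  nat : N (topOf x) = natS Nc co
  thf : θ (topOf x) = thS i Nc co
  bb : b (topOf x) = i / 2 + 1
  mem : x ∈ Nc
  fst : 1 ≤ (co x).1
  th : θ (topOf x) x = ((co x).1 - 2 * (i / 2)) + ((co x).2 - i)
  nop : NopT m (topOf x)

/-- elements of heavy components -/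
structure Hv (m : ℕ) (N : Tops P → Finset P) (x : P) : Prop where
  nat : N (topOf x) = lowPart (2 * m) (topOf x : P)
  lev : Pool.Agent.GaussPoset.lev x ≤ 2 * m
  nop : NopT m (topOf x)

/-- the kinds of natural elements -/
theorem WI.cases (W : WI r i m K N b θ) {x : P} (hx : x ∉ unnat N) : Full i m N θ x ∨
    (∃ Nc co, InR i m N b θ x Nc co) ∨ (∃ Nc co, InS i m N b θ x Nc co) ∨ Hv m N x := by
  have H := W.gt.H
  have HN := W.natSys
  have hxt : x ∈ N (topOf x) := HN.mem_iff.mpr ⟨hx, rfl⟩
  have h4 := W.hi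
  have him := W.him
  have hT := W.typ (topOf x)
  generalize ht : topOf x = t at hxt hT
  rcases hT with ⟨h1, h2, h3, h5, h6⟩ | ⟨Nc, co, h0, h1, h2, h3⟩ |
    ⟨Nc, co, h0, h1, h2, h3, h4⟩ | ⟨h1, h2, h3⟩
  · left
    have hs : ∀ z ∈ unnat N, ∃ s : P, lev s = 0 ∧ z ≤ s ∧ s ≠ t := by
      intro z hz
      have h7 : z ∉ onlyB t := by
        rw [← h1]
        exact mem_unnat.mp hz t
      rw [mem_onlyB] at h7
      push Not at h7
      exact h7
    refine ⟨by rw [ht, h2], ?_, ?_⟩
    · intro z hz hzx k _ hk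
      obtain ⟨s, hs1, hs2, hs3⟩ := hs z hz
      exact two_le_nab_join HN H.gradedBelow hxt hzx hs1 hs3 hs2 hk
    · intro z hz h
      obtain ⟨s, hs1, hs2, hs3⟩ := hs z hz
      have h7 := W.lt_lev hz
      have h8 : z < s := lt_of_le_of_ne hs2 (by rintro rfl; omega)
      exact hs3 (HN.top_eq hxt hs1 ((h s).mpr h8).le)
  · -- rectangles
    by_cases hJ : x ∈ junk (fun _ => True) Nc co ∨ x ∈ junk (fun _ => True) Nc (swp co)
    · left
      refine ⟨?_, ?_, ?_⟩
      · rw [ht, h2]
        unfold thR
        rw [if_pos hJ]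
      · intro z hz hzx k hk hkx
        refine rect_two_le_nab H h0 h1 hz hzx ?_ (by omega) hkx
        rcases hJ with h | h
        · exact Or.inl h
        · exact Or.inr (Or.inl h)
      · intro z hz h
        refine mem_unnat.mp hz t ?_
        rw [h1, mem_natR]
        rcases hJ with h' | h'
        · exact Or.inr (Or.inl (junk_twin h' h))
        · exact Or.inr (Or.inr (junk_twin h' h))
    · have hxN : x ∈ Nc := by
        rw [h1, mem_natR] at hxt
        rcases hxt with h | h | h
        · exact h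
        · exact absurd (Or.inl h) hJ
        · exact absurd (Or.inr h) hJ
      have hl := h0.chart.lev x hxN
      have hb1 := h0.b_two
      have hb2 := h0.b_le
      have hrow : b t = i + 1 ∨ (co x).1 ≤ b t - 1 := by
        rcases h0.rows with h | h
        · exact Or.inl h
        · exact Or.inr (h x hxN)
      by_cases h7 : (co x).1 = 0 ∨ (co x).2 = 0
      · left
        refine ⟨?_, ?_, ?_⟩
        · rw [ht, h2]
          unfold thR
          rw [if_neg hJ]
          omega
        · intro z hz hzx k hk hkx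
          exact rect_two_le_nab H h0 h1 hz hzx (Or.inr (Or.inr ⟨hxN, h7⟩)) (by omega) hkx
        · intro z hz h
          have h8 := W.lt_lev hz
          rw [← lev_eq_of_up h] at h8
          rcases h7 with h7 | h7
          · obtain ⟨u, hu, hcu⟩ := h0.chart.low x hxN (0, (co x).2 - 1)
              ⟨Nat.zero_le _, Nat.sub_le _ _⟩ trivial
            refine straight_twin H h0 h1 hxN hu ?_ ?_ ?_ hz h
            · rw [hcu]
              exact Or.inr ⟨by simp only; omega, by simp only; omega⟩
            · intro y hy hp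
              rw [hcu]
              rcases hp with hp | hp
              · omega
              · exact Prod.ext (by simp only; omega) (by simp only; omega)
            · rw [hcu]
              exact Or.inl rfl
          · obtain ⟨u, hu, hcu⟩ := h0.chart.low x hxN ((co x).1 - 1, 0)
              ⟨Nat.sub_le _ _, Nat.zero_le _⟩ trivial
            refine straight_twin H h0 h1 hxN hu ?_ ?_ ?_ hz h
            · rw [hcu]
              exact Or.inl ⟨by simp only; omega, by simp only; omega⟩
            · intro y hy hp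
              rw [hcu]
              rcases hp with hp | hp
              · exact Prod.ext (by simp only; omega) (by simp only; omega)
              · omega
            · rw [hcu]
              exact Or.inr rfl
      · right; left
        refine ⟨Nc, co, ?_, ?_, hxN, by omega, by omega, ?_, ?_⟩
        · rw [ht]; exact h0
        · rw [ht]; exact h1
        · rw [ht, h2]
          unfold thR
          rw [if_neg hJ]
          omega
        · rw [ht]; exact h3
  · -- stairs
    by_cases hJ : x ∈ junk (fun c => c.1 ≤ c.2) Nc co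
    · left
      refine ⟨?_, ?_, ?_⟩
      · rw [ht, h2]
        unfold thS
        rw [if_pos hJ]
      · intro z hz hzx k hk hkx
        exact stair_two_le_nab H h0 h1 hz hzx (Or.inl hJ) hk hkx
      · intro z hz h
        refine mem_unnat.mp hz t ?_
        rw [h1, mem_natS]
        exact Or.inr (junk_twin hJ h)
    · have hxN : x ∈ Nc := by
        rw [h1, mem_natS] at hxt
        rcases hxt with h | h
        · exact h
        · exact absurd h hJ
      have hl := h0.chart.lev x hxN
      by_cases h7 : (co x).1 = 0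
      · left
        refine ⟨?_, ?_, ?_⟩
        · rw [ht, h2]
          unfold thS
          rw [if_neg hJ]
          omega
        · intro z hz hzx k hk hkx
          exact stair_two_le_nab H h0 h1 hz hzx (Or.inr ⟨hxN, h7⟩) hk hkx
        · intro z hz h
          have h8 := W.lt_lev hz
          rw [← lev_eq_of_up h] at h8
          obtain ⟨u, hu, hcu⟩ := h0.chart.low x hxN (0, (co x).2 - 1)
            ⟨Nat.zero_le _, Nat.sub_le _ _⟩ (Nat.zero_le _)
          refine straight_twinS H h0 (by omega) h1 hxN hu ?_ ?_ ?_ hz h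
          · rw [hcu]
            exact Or.inr ⟨by simp only; omega, by simp only; omega⟩
          · intro y hy hp
            rw [hcu]
            rcases hp with hp | hp
            · omega
            · exact Prod.ext (by simp only; omega) (by simp only; omega)
          · rw [hcu]
      · right; right; left
        refine ⟨Nc, co, ?_, ?_, ?_, ?_, hxN, by omega, ?_, ?_⟩
        · rw [ht]; exact h0
        · rw [ht]; exact h1
        · rw [ht]; exact h2
        · rw [ht]; exact h3
        · rw [ht, h2]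
          unfold thS
          rw [if_neg hJ]
        · rw [ht]; exact h4
  · right; right; right
    rw [h1, mem_lowPart] at hxt
    exact ⟨by rw [ht]; exact h1, hxt.2, by rw [ht]; exact h3⟩

end Pool.Agent.GaussPoset.Fi
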