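import Pool.Agent.W_448s8f_h76.FiD

/-!
The ladder with abstract blockers (MP_448cb3_co, S8, small `m`).
-/

namespace Pool.Agent.GaussPoset.Fi

set_option linter.unusedSectionVars false

open Polynomial Finset

universe u

variable {P : Type u} [Fintype P] [PartialOrder P] [DecidableEq P] {r i m K N0 : ℕ}
  {N : Tops P → Finset P} {b : Tops P → ℕ} {θ : Tops P → P → ℕ}

/-- first pole of a family of blockers, energies below `N1` -/
structure FzT (i m : ℕ) (N : Tops P → Finset P) (θ : Tops P → P → ℕ) (z : P) (E : ℕ) (σ : ℤ)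
    (N1 : ℕ) : Prop where
  clean : ∀ n, n < E → n < N1 →
    (1 + X : ℤ[X]) ^ (lv P i).card ∣ ZF i (h2 (2 * m) N θ) (fam m N z) n
  lead : E < N1 → ∃ k : P → ℕ,
    (1 + X : ℤ[X]) ^ (lv P i).card ∣ ZF i (h2 (2 * m) N θ) (fam m N z) E -
    ∑ y ∈ fam m N z, (X : ℤ[X]) ^ (k y) * (1 + X) ^ ((lv P i).card - 1) ∧
    ∀ y ∈ fam m N z, (-1 : ℤ) ^ (k y) = σ

lemma FzT.mono {z : P} {E : ℕ} {σ : ℤ} {N1 N2 : ℕ} (h : FzT i m N θ z E σ N1) (h2 : N2 ≤ N1) :
    FzT i m N θ z E σ N2 :=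
  ⟨fun n hn hn2 => h.clean n hn (by omega), fun hE => h.lead (by omega)⟩

/-- the data of a ladder -/
structure Lad (i m K : ℕ) (N : Tops P → Finset P) (θ : Tops P → P → ℕ) (N0 : ℕ) (Bk : P → Prop)
    (pl : P → ℕ) (s1 s2 : ℕ → ℤ) : Prop where
  N0_le : N0 + 1 ≤ K
  same : ∀ z y, Bk z → (∀ w, z < w ↔ y < w) → Bk y ∧ pl y = pl z
  lev : ∀ z ∈ bdR (r2 (2 * m) N), Bk z → Pool.Agent.GaussPoset.lev z = 2 * m + 1
  ne1 : ∀ n, s1 n ≠ 0
  ne2 : ∀ n, s2 n ≠ 0
  fz : ∀ z ∈ bdR (r2 (2 * m) N), Bk z → FzT i m N θ z (pl z) (s1 (pl z)) N0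
  U : ∀ z ∈ bdR (r2 (2 * m) N), Bk z → ∀ z' ∈ bdR (r2 (2 * m) N), Bk z' → z' ∉ fam m N z →
    ∀ n, n < N0 → n ≤ pl z → n ≤ pl z' → n < Uu i (h2 (2 * m) N θ) z z'
  row : ∀ z ∈ bdR (r2 (2 * m) N), ¬ Bk z → Pool.Agent.GaussPoset.lev z = 2 * m + 1 →
    N0 ≤ cst i (h2 (2 * m) N θ) z ∨
    (nab i z = nab (i + h2 (2 * m) N θ z) z + 1 ∧
      (-1 : ℤ) ^ (below P i + nst i (h2 (2 * m) N θ) z) = s1 (cst i (h2 (2 * m) N θ) z)) ∨
    (nab i z = nab (i + h2 (2 * m) N θ z) z + 2 ∧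
      (-1 : ℤ) ^ (below P i + nst i (h2 (2 * m) N θ) z) = s2 (cst i (h2 (2 * m) N θ) z))

lemma Uu_add {h : P → ℕ} {z z' : P} (hne : ¬ z' ≤ z) (h1 : h z ≤ lev z - i) :
    cst i h z' + h z ≤ Uu i h z z' := by
  classical
  have h2 : cst i h z' + h z = ∑ x : P, (ez i h z' x + if x = z then h z else 0) := by
    rw [Finset.sum_add_distrib, Finset.sum_ite_eq' univ z, if_pos (mem_univ z)]
    rfl
  rw [h2]
  unfold Uu
  refine Finset.sum_le_sum fun x _ => ?_
  by_cases hx : x = z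
  · subst hx
    rw [if_pos rfl]
    refine le_trans ?_ (le_max_left _ _)
    unfold ez
    rw [if_neg hne, if_pos le_rfl, Nat.zero_add]
    omega
  · rw [if_neg hx, Nat.add_zero]
    exact le_max_right _ _

variable {Bk : P → Prop} {pl : P → ℕ} {s1 s2 : ℕ → ℤ}

/-- the step at the energy `n` -/
theorem WI.stepG (W : WI r i m K N b θ) (L : Lad i m K N θ N0 Bk pl s1 s2) {n : ℕ} (hn : n < N0)
    (hB : ∀ z ∈ bdR (r2 (2 * m) N), Bk z → n ≤ pl z)
    (hC : ∀ z ∈ bdR (r2 (2 * m) N), ¬ Bk z → n ≤ cst i (h2 (2 * m) N θ) z) :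
    (∀ z ∈ bdR (r2 (2 * m) N), Bk z → pl z ≠ n) ∧
      ∀ z ∈ bdR (r2 (2 * m) N), ¬ Bk z → cst i (h2 (2 * m) N θ) z ≠ n := by
  classical
  have hK := L.N0_le
  have him := W.him
  have hi4 := W.hi
  set Bs := (bdR (r2 (2 * m) N)).filter Bk with hBs
  have hBs1 : ∀ z ∈ Bs, z ∈ bdR (r2 (2 * m) N) ∧ Bk z := fun z hz => mem_filter.mp hz
  have hcl : ∀ z ∈ Bs, ∀ y ∈ fam m N z, y ∈ Bs := by
    intro z hz y hy
    have h2 := mem_fam.mp hy
    exact mem_filter.mpr ⟨h2.1, (L.same z y (hBs1 z hz).2 h2.2).1⟩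
  have hplf : ∀ z ∈ Bs, ∀ y ∈ fam m N z, pl y = pl z := by
    intro z hz y hy
    exact (L.same z y (hBs1 z hz).2 (mem_fam.mp hy).2).2
  have F := W.farT
  have hP := F.plusF (n := n) (by omega) (Bs.image (fam m N)) (by
    intro A hA z hz
    obtain ⟨y, hy, rfl⟩ := mem_image.mp hA
    exact (mem_fam.mp hz).1) (by
    intro z hz hzA
    refine hC z hz fun hb => hzA (fam m N z) ?_ (self_mem_fam hz)
    exact mem_image_of_mem _ (mem_filter.mpr ⟨hz, hb⟩)) (by
    intro A hA z hz z' hz' hne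
    obtain ⟨y, hy, rfl⟩ := mem_image.mp hA
    have h2 := fam_eq hz
    rw [← h2] at hne
    have h3 := hBs1 z (hcl y hy z hz)
    have hlz := L.lev z h3.1 h3.2
    by_cases hb : Bk z'
    · exact L.U z h3.1 h3.2 z' hz' hb hne n hn (hB z h3.1 h3.2) (hB z' hz' hb)
    · have h4 := hC z' hz' hb
      have h5 := F.one_le z h3.1
      have h6 := F.le_lev z h3.1
      rcases W.bd hz' with h7 | h7
      · have h8 : ¬ z' ≤ z := by
          intro h8
          rcases eq_or_lt_of_le h8 with h9 | h9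
          · subst h9
            exact hb h3.2
          · have := lev_strictAnti h9
            omega
        have h9 := Uu_add (h := Pool.Agent.GaussPoset.h2 (2 * m) N θ) h8 h6
        unfold Uu at h9
        omega
      · have h9 := Uu_right i (Pool.Agent.GaussPoset.h2 (2 * m) N θ) z z'
        unfold Uu at h9
        omega) (by
    intro A hA A' hA' hne z hz hz'
    obtain ⟨y, hy, rfl⟩ := mem_image.mp hA
    obtain ⟨y', hy', rfl⟩ := mem_image.mp hA'
    exact hne ((fam_eq hz).symm.trans (fam_eq hz')))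
  have hZ := dvd_Z W.gt.H.gauss i n
  set T := (bdR (r2 (2 * m) N)).filter (fun z => (∀ A ∈ Bs.image (fam m N), z ∉ A) ∧
    cst i (h2 (2 * m) N θ) z = n) with hTdef
  have hTm : ∀ z, z ∈ T ↔ z ∈ bdR (r2 (2 * m) N) ∧ ¬ Bk z ∧ cst i (h2 (2 * m) N θ) z = n := by
    intro z
    rw [hTdef, mem_filter]
    constructor
    · rintro ⟨h2, h3, h4⟩
      refine ⟨h2, fun hb => h3 (fam m N z) ?_ (self_mem_fam h2), h4⟩
      exact mem_image_of_mem _ (mem_filter.mpr ⟨h2, hb⟩)
    · rintro ⟨h2, h3, h4⟩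
      refine ⟨h2, fun A hA hz => ?_, h4⟩
      obtain ⟨y, hy, rfl⟩ := mem_image.mp hA
      exact h3 (hBs1 z (hcl y hy z hz)).2
  have hmain0 : (1 + X : ℤ[X]) ^ (lv P i).card ∣
      ∑ A ∈ Bs.image (fam m N), ZF i (h2 (2 * m) N θ) A n +
        ∑ z ∈ T, Lt i (h2 (2 * m) N θ) z := by
    have g2 := dvd_sub hZ hP
    rwa [sub_sub_cancel] at g2
  have hTrow : ∀ z ∈ T, (nab i z = nab (i + h2 (2 * m) N θ z) z + 1 ∧
      (-1 : ℤ) ^ (below P i + nst i (h2 (2 * m) N θ) z) = s1 n) ∨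
      (nab i z = nab (i + h2 (2 * m) N θ z) z + 2 ∧
      (-1 : ℤ) ^ (below P i + nst i (h2 (2 * m) N θ) z) = s2 n) := by
    intro z hz
    obtain ⟨h3, h4, h5⟩ := (hTm z).mp hz
    have hlz : Pool.Agent.GaussPoset.lev z = 2 * m + 1 := by
      rcases W.bd h3 with h | h
      · exact h
      · omega
    rcases L.row z h3 h4 hlz with h | h | h
    · omega
    · rw [h5] at h
      exact Or.inl h
    · rw [h5] at h
      exact Or.inr h
  have hB1 : ∀ z : P, i ≤ Pool.Agent.GaussPoset.lev z → 1 ≤ (lv P i).card := by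
    intro z hz
    have h2 := one_le_nab (z := z) (l := i) hz
    unfold nab at h2
    exact h2.trans (Finset.card_filter_le _ _)
  have hlevz : ∀ z ∈ bdR (r2 (2 * m) N), i ≤ Pool.Agent.GaussPoset.lev z := by
    intro z hz
    have := W.lt_lev (mem_sdiff.mp (bd_mem hz)).1
    omega
  -- the elements with drop 2
  have hdvdF : ∀ A ∈ Bs.image (fam m N), (1 + X : ℤ[X]) ^ ((lv P i).card - 1) ∣
      ZF i (h2 (2 * m) N θ) A n := by
    intro A hA
    obtain ⟨y, hy, rfl⟩ := mem_image.mp hA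
    have h3 := hBs1 y hy
    have h4 := L.fz y h3.1 h3.2
    rcases Nat.lt_or_ge n (pl y) with h5 | h5
    · exact (pow_dvd_pow _ (Nat.sub_le _ _)).trans (h4.clean n h5 hn)
    · have h6 : pl y = n := le_antisymm h5 (hB y h3.1 h3.2)
      obtain ⟨k, h7, -⟩ := h4.lead (by omega)
      rw [h6] at h7
      have h8 : (1 + X : ℤ[X]) ^ ((lv P i).card - 1) ∣ ∑ y' ∈ fam m N y,
          (X : ℤ[X]) ^ (k y') * (1 + X) ^ ((lv P i).card - 1) :=
        Finset.dvd_sum fun _ _ => Dvd.intro_left _ rfl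
      have h9 := dvd_add ((pow_dvd_pow _ (Nat.sub_le _ _)).trans h7) h8
      rwa [sub_add_cancel] at h9
  have hT2 : ∀ z ∈ T, ¬ (nab i z = nab (i + h2 (2 * m) N θ z) z + 2 ∧
      (-1 : ℤ) ^ (below P i + nst i (h2 (2 * m) N θ) z) = s2 n) := by
    intro z0 hz0 hcon
    set D2 : P → Prop := fun z => nab i z = nab (i + h2 (2 * m) N θ z) z + 2 ∧
      (-1 : ℤ) ^ (below P i + nst i (h2 (2 * m) N θ) z) = s2 n with hD2
    have hB2 : 2 ≤ (lv P i).card := by
      have h6 := nab_le z0 i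
      have h7 := hcon.1
      omega
    have h3 : (1 + X : ℤ[X]) ^ ((lv P i).card - 1) ∣ ∑ z ∈ T.filter D2,
        (X : ℤ[X]) ^ (below P i + nst i (h2 (2 * m) N θ) z) *
          (1 + X) ^ (((lv P i).card - 1) - 1) := by
      have h4 : ∑ z ∈ T.filter D2, (X : ℤ[X]) ^ (below P i + nst i (h2 (2 * m) N θ) z) *
          (1 + X) ^ (((lv P i).card - 1) - 1) =
          ∑ z ∈ T.filter D2, Lt i (h2 (2 * m) N θ) z := by
        refine Finset.sum_congr rfl fun z hz => ?_
        have h5 := (mem_filter.mp hz).2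
        rw [hD2] at h5
        have h6 := nab_le z i
        unfold Lt
        rw [show (lv P i).card + nab (i + Pool.Agent.GaussPoset.h2 (2 * m) N θ z) z - nab i z =
          (lv P i).card - 1 - 1 by omega]
      rw [h4]
      have h5 : (1 + X : ℤ[X]) ^ ((lv P i).card - 1) ∣
          ∑ z ∈ T.filter (fun z => ¬ D2 z), Lt i (h2 (2 * m) N θ) z := by
        refine Finset.dvd_sum fun z hz => ?_
        rw [mem_filter] at hz
        have h6 := (hTrow z hz.1).resolve_right hz.2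
        have h7 := nab_le z i
        unfold Lt
        rw [show (lv P i).card + nab (i + Pool.Agent.GaussPoset.h2 (2 * m) N θ z) z - nab i z =
          (lv P i).card - 1 by omega]
        exact Dvd.intro_left _ rfl
      have h6 := (pow_dvd_pow (1 + X : ℤ[X]) (Nat.sub_le (lv P i).card 1)).trans hmain0
      have h7 := dvd_sub (dvd_sub h6 (Finset.dvd_sum hdvdF)) h5
      rw [← Finset.sum_filter_add_sum_filter_not T D2] at h7
      have h8 : ∀ a b c : ℤ[X], a + (b + c) - a - c = b := fun a b c => by ring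
      rwa [h8] at h7
    have h9 := sum_empty (by omega) _ _ (L.ne2 n) (fun y hy => (mem_filter.mp hy).2.2) h3
    have h10 : z0 ∈ T.filter D2 := mem_filter.mpr ⟨hz0, hcon⟩
    rw [h9] at h10
    exact absurd h10 (Finset.notMem_empty z0)
  have hT1 : ∀ z ∈ T, nab i z = nab (i + h2 (2 * m) N θ z) z + 1 ∧
      (-1 : ℤ) ^ (below P i + nst i (h2 (2 * m) N θ) z) = s1 n :=
    fun z hz => (hTrow z hz).resolve_right (hT2 z hz)
  -- the elements with drop 1
  obtain ⟨kk, hk1, hk2⟩ := fam_sum (p := (1 + X : ℤ[X]) ^ (lv P i).card) (Bs := Bs)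
    (fun z hz => (hBs1 z hz).1) hcl (fun A => ZF i (h2 (2 * m) N θ) A n) (fun z => pl z = n)
    (c := (lv P i).card - 1) (σ := s1 n)
    (fun z hz y hy h => (hplf z hz y hy).trans h)
    (fun z hz h => by
      have h3 := hBs1 z hz
      refine (L.fz z h3.1 h3.2).clean n ?_ hn
      exact lt_of_le_of_ne (hB z h3.1 h3.2) (Ne.symm h))
    (fun z hz h => by
      have h3 := hBs1 z hz
      have h4 := (L.fz z h3.1 h3.2).lead (by omega)
      rw [h] at h4
      exact h4)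
  set kx : P → ℕ := fun y => if Bk y then kk y else below P i + nst i (h2 (2 * m) N θ) y with hkx
  have hdis : Disjoint (Bs.filter (fun z => pl z = n)) T := by
    rw [Finset.disjoint_left]
    intro y hy hy'
    exact ((hTm y).mp hy').2.1 (hBs1 y (mem_filter.mp hy).1).2
  have hsum : ∑ y ∈ Bs.filter (fun z => pl z = n) ∪ T,
      (X : ℤ[X]) ^ (kx y) * (1 + X) ^ ((lv P i).card - 1) =
      ∑ y ∈ Bs.filter (fun z => pl z = n), (X : ℤ[X]) ^ (kk y) * (1 + X) ^ ((lv P i).card - 1) +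
      ∑ z ∈ T, Lt i (h2 (2 * m) N θ) z := by
    rw [Finset.sum_union hdis]
    congr 1
    · refine Finset.sum_congr rfl fun y hy => ?_
      rw [hkx]
      simp only
      rw [if_pos (hBs1 y (mem_filter.mp hy).1).2]
    · refine Finset.sum_congr rfl fun y hy => ?_
      obtain ⟨g2, h3, h4⟩ := (hTm y).mp hy
      have h5 := (hT1 y hy).1
      rw [hkx]
      simp only
      rw [if_neg h3]
      unfold Lt
      have h6 := nab_le y i
      rw [show (lv P i).card + nab (i + Pool.Agent.GaussPoset.h2 (2 * m) N θ y) y - nab i y =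
        (lv P i).card - 1 by omega]
  have hmain : (1 + X : ℤ[X]) ^ (lv P i).card ∣
      ∑ y ∈ Bs.filter (fun z => pl z = n) ∪ T,
        (X : ℤ[X]) ^ (kx y) * (1 + X) ^ ((lv P i).card - 1) := by
    rw [hsum]
    have h3 := dvd_sub hmain0 hk1
    have h4 : ∀ a b c : ℤ[X], a + b - (a - c) = c + b := fun a b c => by ring
    rwa [h4] at h3
  have hsig : ∀ y ∈ Bs.filter (fun z => pl z = n) ∪ T, (-1 : ℤ) ^ (kx y) = s1 n := by
    intro y hy
    rw [mem_union] at hy
    rcases hy with hy | hy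
    · rw [hkx]
      simp only
      rw [if_pos (hBs1 y (mem_filter.mp hy).1).2]
      exact hk2 y hy
    · have h3 := (hTm y).mp hy
      rw [hkx]
      simp only
      rw [if_neg h3.2.1]
      exact (hT1 y hy).2
  have hempty : ∀ y ∈ Bs.filter (fun z => pl z = n) ∪ T, False := by
    intro y hy
    have hyb : y ∈ bdR (r2 (2 * m) N) := by
      rw [mem_union] at hy
      rcases hy with hy | hy
      · exact (hBs1 y (mem_filter.mp hy).1).1
      · exact ((hTm y).mp hy).1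
    have h2 := sum_empty (hB1 y (hlevz y hyb)) _ kx (L.ne1 n) hsig hmain
    rw [h2] at hy
    exact absurd hy (Finset.notMem_empty y)
  constructor
  · intro z hz hb hc
    exact hempty z (mem_union_left _ (mem_filter.mpr ⟨mem_filter.mpr ⟨hz, hb⟩, hc⟩))
  · intro z hz hb hc
    exact hempty z (mem_union_right _ ((hTm z).mpr ⟨hz, hb, hc⟩))

/-- **The ladder.** -/
theorem WI.ladder (W : WI r i m K N b θ) (L : Lad i m K N θ N0 Bk pl s1 s2) :
    (∀ z ∈ bdR (r2 (2 * m) N), Bk z → N0 ≤ pl z) ∧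
      ∀ z ∈ bdR (r2 (2 * m) N), ¬ Bk z → N0 ≤ cst i (h2 (2 * m) N θ) z := by
  have key : ∀ n, n < N0 → (∀ z ∈ bdR (r2 (2 * m) N), Bk z → pl z ≠ n) ∧
      ∀ z ∈ bdR (r2 (2 * m) N), ¬ Bk z → cst i (h2 (2 * m) N θ) z ≠ n := by
    intro n
    induction n using Nat.strong_induction_on with
    | _ n ih =>
    intro hn
    refine W.stepG L hn (fun z hz hb => ?_) (fun z hz hb => ?_)
    · by_contra hcon
      exact (ih _ (not_le.mp hcon) (by omega)).1 z hz hb rfl
    · by_contra hcon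
      exact (ih _ (not_le.mp hcon) (by omega)).2 z hz hb rfl
  constructor
  · intro z hz hb
    by_contra hcon
    exact (key _ (not_le.mp hcon)).1 z hz hb rfl
  · intro z hz hb
    by_contra hcon
    exact (key _ (not_le.mp hcon)).2 z hz hb rfl

end Pool.Agent.GaussPoset.Fi
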