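import Pool.Agent.W_448s8f_h76.FiF

/-!
Blockers: (C) joins and star joins; unions of the cheapest excess functions
(MP_448cb3_co, S8, small `m`).
-/

namespace Pool.Agent.GaussPoset.Fi

set_option linter.unusedSectionVars false

open Polynomial Finset

universe u

variable {P : Type u} [Fintype P] [PartialOrder P] [DecidableEq P] {r i m K N0 : ℕ}
  {N : Tops P → Finset P} {b : Tops P → ℕ} {θ : Tops P → P → ℕ}

/-- (C) joins -/
def CC (m : ℕ) (z : P) : Prop := lev z = 2 * m + 1 ∧ ∃ x x', Fd m x ∧ (Win.uc x').card = 1 ∧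
  topOf x' = topOf x ∧ x ≠ x' ∧ z ⋖ x ∧ z ⋖ x'

/-- the profile of a star end with first pole `p` -/
def pp (p : ℕ) : List ℕ := if p = 8 then q7 else p5

/-- a star join -/
structure SZ (m : ℕ) (z f v : P) (p : ℕ) : Prop where
  lev : Pool.Agent.GaussPoset.lev z = 2 * m + 1
  fd : Fd m f
  u1 : (Win.uc v).card = 1
  ne : topOf f ≠ topOf v
  zf : z ⋖ f
  zv : z ⋖ v
  td : TD m (topOf v) v p
  pr : Prof m v (gD (pp p))

/-- star joins with first pole `p` -/
def St (m p : ℕ) (z : P) : Prop := ∃ f v, SZ m z f v p

lemma CC.same {z y : P} (h : CC m z) (hy : ∀ w, z < w ↔ y < w) : CC m y := by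
  obtain ⟨hl, x, x', h1, h2, h3, h4, h5, h6⟩ := h
  exact ⟨by rw [← lev_eq_of_up hy]; exact hl, x, x', h1, h2, h3, h4,
    (cov_of_up hy).mp h5, (cov_of_up hy).mp h6⟩

lemma SZ.same {z y f v : P} {p : ℕ} (h : SZ m z f v p) (hy : ∀ w, z < w ↔ y < w) :
    SZ m y f v p :=
  ⟨by rw [← lev_eq_of_up hy]; exact h.lev, h.fd, h.u1, h.ne, (cov_of_up hy).mp h.zf,
    (cov_of_up hy).mp h.zv, h.td, h.pr⟩

lemma St.same {z y : P} {p : ℕ} (h : St m p z) (hy : ∀ w, z < w ↔ y < w) : St m p y := by
  obtain ⟨f, v, h⟩ := h
  exact ⟨f, v, h.same hy⟩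

/-- natural elements of different tops have no common upper bound -/
lemma WI.disjL (W : WI r i m K N b θ) {x x' y : P} (hx : lev x ≤ 2 * m) (hx' : lev x' ≤ 2 * m)
    (ht : topOf x ≠ topOf x') (h1 : x ≤ y) (h2 : x' ≤ y) : False :=
  ht ((W.natSys.cp x y h1 (W.low hx)).trans (W.natSys.cp x' y h2 (W.low hx')).symm)

/-- lower bound of the union by a set of elements -/
lemma Uu_set {k : ℕ} {h : P → ℕ} {z z' : P} (hz : h z = k) (hz' : h z' = k) (hne : z ≠ z')
    (hlz : k ≤ lev z - i) (hlz' : k ≤ lev z' - i) (T : Finset P)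
    (hT : ∀ x ∈ T, z < x ∨ z' < x) (h1 : z ∉ T) (h2 : z' ∉ T) :
    ∑ x ∈ T, min k (lev x - i) + 2 * k ≤ Uu i h z z' := by
  classical
  have h3 : ∑ x ∈ T, min k (lev x - i) + 2 * k =
      ∑ x : P, ((if x ∈ T then min k (lev x - i) else 0) +
      ((if x = z then k else 0) + (if x = z' then k else 0))) := by
    rw [Finset.sum_add_distrib, Finset.sum_add_distrib, Finset.sum_ite_eq' univ z,
      Finset.sum_ite_eq' univ z', if_pos (mem_univ z), if_pos (mem_univ z'),
      Finset.sum_ite_mem, Finset.univ_inter]
    ring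
  rw [h3]
  unfold Uu
  refine Finset.sum_le_sum fun x _ => ?_
  by_cases hxz : x = z
  · subst hxz
    rw [if_neg h1, if_pos rfl, if_neg hne]
    refine le_trans ?_ (le_max_left _ _)
    unfold ez
    rw [if_pos le_rfl, hz]
    omega
  · by_cases hxz' : x = z'
    · subst hxz'
      rw [if_neg h2, if_neg (Ne.symm hne), if_pos rfl]
      refine le_trans ?_ (le_max_right _ _)
      unfold ez
      rw [if_pos le_rfl, hz']
      omega
    · rw [if_neg hxz, if_neg hxz']
      simp only [Nat.add_zero]
      split_ifs with hx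
      · rcases hT x hx with h4 | h4
        · refine le_trans ?_ (le_max_left _ _)
          unfold ez
          rw [if_pos h4.le, hz]
        · refine le_trans ?_ (le_max_right _ _)
          unfold ez
          rw [if_pos h4.le, hz']
      · exact Nat.zero_le _

/-- the sum over an up-set -/
lemma ct_filter (i k : ℕ) (x : P) [DecidablePred (fun y => x ≤ y)] :
    ∑ y ∈ univ.filter (fun y => x ≤ y), min k (lev y - i) = ct i k x := by
  rw [ct_eq_sum, Finset.sum_filter]
  refine Finset.sum_congr rfl fun y _ => ?_
  split_ifs <;> rfl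

/-- two elements -/
lemma Uu_pair {k : ℕ} {h : P → ℕ} {z z' f f' : P} (hz : h z = k) (hz' : h z' = k) (hne : z ≠ z')
    (hlz : lev z = 2 * m + 1) (hlz' : lev z' = 2 * m + 1) (hk : k ≤ 2 * m + 1 - i)
    (hzf : z ⋖ f) (hzf' : z' ⋖ f') (hlf : lev f = 2 * m) (hlf' : lev f' = 2 * m)
    (hdis : ∀ x, f ≤ x → f' ≤ x → False) :
    ct i k f + ct i k f' + 2 * k ≤ Uu i h z z' := by
  classical
  have hlow : ∀ a w : P, lev a = 2 * m → lev w = 2 * m + 1 → ¬ a ≤ w := by
    intro a w ha hw haw
    rcases eq_or_lt_of_le haw with h | h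
    · rw [h] at ha
      omega
    · have := lev_strictAnti h
      omega
  have hff : f ≠ f' := by
    rintro rfl
    exact hdis f le_rfl le_rfl
  have h1 := Uu_ge (i := i) (h := h) hz hz' hne (by rw [hlz]; exact hk) (by rw [hlz']; exact hk)
    {f, f'} (fun a ha => by
      rw [mem_insert, mem_singleton] at ha
      rcases ha with rfl | rfl
      · exact Or.inl hzf.1
      · exact Or.inr hzf'.1) (fun a ha => by
      rw [mem_insert, mem_singleton] at ha
      rcases ha with rfl | rfl
      · exact ⟨hlow _ _ hlf hlz, hlow _ _ hlf hlz'⟩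
      · exact ⟨hlow _ _ hlf' hlz, hlow _ _ hlf' hlz'⟩) (fun a ha a' ha' hne' x _ h2 h3 => by
      rw [mem_insert, mem_singleton] at ha ha'
      rcases ha with rfl | rfl <;> rcases ha' with rfl | rfl
      · exact hne' rfl
      · exact hdis x h2 h3
      · exact hdis x h3 h2
      · exact hne' rfl)
  rwa [Finset.sum_pair hff] at h1

/-- three elements -/
lemma Uu_triple {k : ℕ} {h : P → ℕ} {z z' f v v' : P} (hz : h z = k) (hz' : h z' = k)
    (hne : z ≠ z') (hlz : lev z = 2 * m + 1) (hlz' : lev z' = 2 * m + 1) (hk : k ≤ 2 * m + 1 - i)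
    (hzf : z ⋖ f) (hzv : z ⋖ v) (hzv' : z' ⋖ v') (hlf : lev f = 2 * m) (hlv : lev v = 2 * m)
    (hlv' : lev v' = 2 * m) (hd1 : ∀ x, f ≤ x → v ≤ x → False)
    (hd2 : ∀ x, f ≤ x → v' ≤ x → False) (hd3 : ∀ x, v ≤ x → v' ≤ x → False) :
    ct i k f + ct i k v + ct i k v' + 2 * k ≤ Uu i h z z' := by
  classical
  have hlow : ∀ a w : P, lev a = 2 * m → lev w = 2 * m + 1 → ¬ a ≤ w := by
    intro a w ha hw haw
    rcases eq_or_lt_of_le haw with h | h
    · rw [h] at ha
      omega
    · have := lev_strictAnti h
      omega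
  have hfv : f ≠ v := by
    rintro rfl
    exact hd1 f le_rfl le_rfl
  have hfv' : f ≠ v' := by
    rintro rfl
    exact hd2 f le_rfl le_rfl
  have hvv' : v ≠ v' := by
    rintro rfl
    exact hd3 v le_rfl le_rfl
  have h1 := Uu_ge (i := i) (h := h) hz hz' hne (by rw [hlz]; exact hk) (by rw [hlz']; exact hk)
    {f, v, v'} (fun a ha => by
      rw [mem_insert, mem_insert, mem_singleton] at ha
      rcases ha with rfl | rfl | rfl
      · exact Or.inl hzf.1
      · exact Or.inl hzv.1
      · exact Or.inr hzv'.1) (fun a ha => by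
      rw [mem_insert, mem_insert, mem_singleton] at ha
      rcases ha with rfl | rfl | rfl
      · exact ⟨hlow _ _ hlf hlz, hlow _ _ hlf hlz'⟩
      · exact ⟨hlow _ _ hlv hlz, hlow _ _ hlv hlz'⟩
      · exact ⟨hlow _ _ hlv' hlz, hlow _ _ hlv' hlz'⟩) (fun a ha a' ha' hne' x _ h2 h3 => by
      rw [mem_insert, mem_insert, mem_singleton] at ha ha'
      rcases ha with rfl | rfl | rfl <;> rcases ha' with rfl | rfl | rfl
      · exact hne' rfl
      · exact hd1 x h2 h3
      · exact hd2 x h2 h3
      · exact hd1 x h3 h2
      · exact hne' rfl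
      · exact hd3 x h2 h3
      · exact hd2 x h3 h2
      · exact hd3 x h3 h2
      · exact hne' rfl)
  rw [Finset.sum_insert (by
    rw [mem_insert, mem_singleton]
    exact fun h => h.elim hfv hfv'), Finset.sum_pair hvv'] at h1
  omega

/-- the boundary elements which are alive -/
inductive Al (i m k F0 L0 N1 : ℕ) (N : Tops P → Finset P) (θ : Tops P → P → ℕ) (y : P) : Prop
  | big (h : N1 ≤ cst i (h2 (2 * m) N θ) y)
  | jn (x x' : P) (hl : lev y = 2 * m + 1) (lab : h2 (2 * m) N θ y = k) (hx : Fd m x)
      (h1 : (Win.uc x').card = 1) (ht : topOf x ≠ topOf x') (hyx : y ⋖ x) (hyx' : y ⋖ x')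
  | cc (x x' : P) (hl : lev y = 2 * m + 1) (lab : h2 (2 * m) N θ y = k) (hx : Fd m x)
      (ht : topOf x' = topOf x) (hxx : x ≠ x') (hyx : y ⋖ x) (hyx' : y ⋖ x')
      (hc : F0 + L0 + k ≤ cst i (h2 (2 * m) N θ) y)

/-- the union for a star join -/
theorem WC.U_star (W : WC r i m K N b θ) {k F0 L0 N1 p : ℕ} {z f v : P} (hk : i + k + 7 = 2 * m)
    (S : SZ m z f v p) (hlab : h2 (2 * m) N θ z = k) (hF : ∀ f : P, Fd m f → ct i k f = F0)
    (hL : ∀ v : P, lev v = 2 * m → L0 ≤ ct i k v) (c1 : ct i k v + p < F0 + k)
    (c2 : p < L0 + k) {y : P} (hA : Al i m k F0 L0 N1 N θ y) (hne : ¬ ∀ w, z < w ↔ y < w) {n : ℕ}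
    (hn : n ≤ ct i k f + ct i k v + k + p) (hn1 : n < N1) :
    n < Uu i (h2 (2 * m) N θ) z y := by
  classical
  have H := W.gt.H
  have W' := W.wi
  have hi4 := W.hi
  have him := W.him
  have hzy : z ≠ y := by
    rintro rfl
    exact hne fun _ => Iff.rfl
  have hlf := S.fd.1
  have hlv : lev v = 2 * m := by
    have := (H.covBy_iff.mp S.zv).2
    have := S.lev
    omega
  have hFf := hF f S.fd
  have hk1 : 1 ≤ k := by
    have := S.td.p_le
    by_contra hcon
    have h0 : k = 0 := by omega
    subst h0
    have h1 := hcan_spec (θ := thX (twY (2 * m) N) (twT N) (fun x => θ (topOf x) x)) (z := z)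
      (R := r2 (2 * m) N)
    by_cases hb : z ∈ bdR (r2 (2 * m) N)
    · have := W'.farT.one_le z hb
      omega
    · exact hb (W'.mem_bd (W.join_r2 S.ne S.zf S.zv) S.lev)
  rcases hA with h | ⟨x, x', hl, lab, hx, h1, ht, hyx, hyx'⟩ | ⟨x, x', hl, lab, hx, ht, hxx, hyx, hyx', hc⟩
  · have := Uu_right i (h2 (2 * m) N θ) z y
    omega
  · by_cases hfx : topOf x = topOf f
    · have hxf : x = f := W.fold_unique hx S.fd hfx
      subst hxf
      have hlx' : lev x' = 2 * m := by
        have := (H.covBy_iff.mp hyx').2
        omega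
      have hvx : v ≠ x' := by
        intro h
        subst h
        exact hne fun w => (up_of_pair H S.zf S.zv hyx hyx' (fun h => ht (by rw [h])) w).symm
      by_cases hvt : topOf x' = topOf v
      · -- the same component
        set T : Finset P := (univ.filter (fun w => x ≤ w)) ∪ ((univ.filter (fun w => v ≤ w)) ∪
          (univ.filter (fun w => x' ≤ w ∧ ¬ v ≤ w))) with hT
        have hnT : ∀ a : P, lev a = 2 * m + 1 → a ∉ T := by
          intro a ha h
          have key : ∀ c : P, lev c = 2 * m → c ≤ a → False := by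
            intro c hc hca
            rcases eq_or_lt_of_le hca with h | h
            · rw [h] at hc
              omega
            · have := lev_strictAnti h
              omega
          rw [hT, mem_union, mem_union, mem_filter, mem_filter, mem_filter] at h
          rcases h with h | h | h
          · exact key x hlf h.2
          · exact key v hlv h.2
          · exact key x' hlx' h.2.1
        have h3 := Uu_set (i := i) hlab lab hzy (by rw [S.lev]; omega) (by rw [hl]; omega) T (by
          intro w hw
          rw [hT, mem_union, mem_union, mem_filter, mem_filter, mem_filter] at hw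
          rcases hw with hw | hw | hw
          · exact Or.inl (S.zf.1.trans_le hw.2)
          · exact Or.inl (S.zv.1.trans_le hw.2)
          · exact Or.inr (hyx'.1.trans_le hw.2.1)) (hnT z S.lev) (hnT y hl)
        have hW : ∀ w ∈ univ.filter (fun w => x' ≤ w ∧ ¬ v ≤ w), min k (lev w - i) = k := by
          intro w hw
          rw [mem_filter] at hw
          have h4 := S.td.out w (by
            have h5 : topOf x' = topOf w := W'.natSys.cp x' w hw.2.1 (W'.low hlx'.le)
            rw [← hvt, h5]
            exact le_topOf w) (by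
            rw [← hlx']
            rcases eq_or_lt_of_le hw.2.1 with h | h
            · rw [h]
            · exact (lev_strictAnti h).le) hw.2.2
          omega
        rw [hT, Finset.sum_union, Finset.sum_union, ct_filter, ct_filter,
          Finset.sum_congr rfl hW, Finset.sum_const, smul_eq_mul] at h3
        · have h4 := (S.td.ot x' (by rw [← hvt]; exact le_topOf x') hlx' (Ne.symm hvx)
            (univ.filter (fun w => x' ≤ w ∧ ¬ v ≤ w)) (fun w => by simp)).2 h1
          have h5 : (univ.filter (fun w => x' ≤ w ∧ ¬ v ≤ w)).card ≤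
              (univ.filter (fun w => x' ≤ w ∧ ¬ v ≤ w)).card * k :=
            Nat.le_mul_of_pos_right _ hk1
          omega
        · rw [Finset.disjoint_left]
          intro w hw hw'
          exact (mem_filter.mp hw').2.2 (mem_filter.mp hw).2
        · rw [Finset.disjoint_left]
          intro w hw hw'
          rw [mem_union] at hw'
          have h4 := (mem_filter.mp hw).2
          rcases hw' with hw' | hw'
          · exact W'.disjL hlf.le hlv.le S.ne h4 (mem_filter.mp hw').2
          · exact W'.disjL hlf.le hlx'.le ht h4 (mem_filter.mp hw').2.1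
      · have h3 := Uu_triple (i := i) hlab lab hzy S.lev hl (by omega) S.zf S.zv hyx' hlf hlv hlx'
          (fun w => W'.disjL hlf.le hlv.le S.ne) (fun w => W'.disjL hlf.le hlx'.le ht)
          (fun w => W'.disjL hlv.le hlx'.le (Ne.symm hvt))
        have h4 := hL x' hlx'
        omega
    · have h3 := Uu_pair (i := i) hlab lab hzy S.lev hl (by omega) S.zf hyx hlf hx.1
        (fun w => W'.disjL hlf.le hx.1.le (Ne.symm hfx))
      rw [hF x hx] at h3
      omega
  · by_cases hfx : topOf x = topOf f
    · -- a (C) join over the same fold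
      have hlx' : lev x' = 2 * m := by
        have := (H.covBy_iff.mp hyx').2
        omega
      set T : Finset P := (univ.filter (fun w => y < w)) ∪ (univ.filter (fun w => v ≤ w)) with hT
      have hup : ∀ w, y < w → v ≤ w → False := by
        intro w hw hvw
        obtain ⟨c, hc1, hc2⟩ := Hul.exists_cov hw
        have hlc : lev c = 2 * m := by
          have := (H.covBy_iff.mp hc1).2
          omega
        refine W'.disjL hlc.le hlv.le ?_ hc2 hvw
        rcases uc_pair H hyx hyx' hxx hc1 with e | e
        · rw [e, hfx]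
          exact S.ne
        · rw [e, ht, hfx]
          exact S.ne
      have hyT : y ∉ T := by
        rw [hT, mem_union, mem_filter, mem_filter]
        rintro (h | h)
        · exact lt_irrefl _ h.2
        · rcases eq_or_lt_of_le h.2 with h' | h'
          · rw [h'] at hlv
            omega
          · have := lev_strictAnti h'
            omega
      have hzT : z ∉ T := by
        rw [hT, mem_union, mem_filter, mem_filter]
        have hlz := S.lev
        rintro (h | h)
        · have := lev_strictAnti h.2
          omega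
        · rcases eq_or_lt_of_le h.2 with h' | h'
          · rw [h'] at hlv
            omega
          · have := lev_strictAnti h'
            omega
      have h3 := Uu_set (i := i) hlab lab hzy (by rw [S.lev]; omega) (by rw [hl]; omega) T (by
        intro w hw
        rw [hT, mem_union, mem_filter, mem_filter] at hw
        rcases hw with hw | hw
        · exact Or.inr hw.2
        · exact Or.inl (S.zv.1.trans_le hw.2)) hzT hyT
      rw [hT, Finset.sum_union, ct_filter, Finset.sum_filter] at h3
      · have h4 := ct_succ i k y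
        rw [hl, Nat.min_eq_left (by omega)] at h4
        rw [cst_ct lab, h4] at hc
        have h5 : ∑ w, (if y < w then min k (lev w - i) else 0) =
            ∑ w, (by classical exact if y < w then min k (lev w - i) else 0) := by
          refine Finset.sum_congr rfl fun w _ => ?_
          split_ifs <;> rfl
        omega
      · rw [Finset.disjoint_left]
        intro w hw hw'
        exact hup w (mem_filter.mp hw).2 (mem_filter.mp hw').2
    · have h3 := Uu_pair (i := i) hlab lab hzy S.lev hl (by omega) S.zf hyx hlf hx.1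
        (fun w => W'.disjL hlf.le hx.1.le (Ne.symm hfx))
      rw [hF x hx] at h3
      omega

end Pool.Agent.GaussPoset.Fi
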