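import Pool.Agent.W_448s8f_h76.FiG
import Pool.Agent.W_448fc_h67.FcY

/-!
The data of the blockers (MP_448cb3_co, S8, small `m`).
-/

namespace Pool.Agent.GaussPoset.Fi

set_option linter.unusedSectionVars false

open Polynomial Finset

universe u

variable {P : Type u} [Fintype P] [PartialOrder P] [DecidableEq P] {r i m K N0 : ℕ}
  {N : Tops P → Finset P} {b : Tops P → ℕ} {θ : Tops P → P → ℕ}

/-- the component of a star end is light -/
theorem WC.td_light (W : WC r i m K N b θ) {z f v : P} {p : ℕ} (S : SZ m z f v p)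
    (hi : i < 2 * m - 7) (hHL : ∀ p ∈ HL i m, gD p m ≠ 0) (hm : gD (pp p) m = 0) :
    N (topOf v) = onlyB (topOf v) ∧ (θ (topOf v) = fun x => lev x - i) ∧ b (topOf v) = 1 ∧
    ∀ x, x ≤ (topOf v : P) → lev x ≤ 2 * m → x ∈ onlyB (topOf v) := by
  have H := W.gt.H
  have h4 := W.hi
  have him := W.him
  have hlv : lev v = 2 * m := by
    have := (H.covBy_iff.mp S.zv).2
    have := S.lev
    omega
  have hc := S.td.cn i hi
  rcases W.tc (topOf v) with ⟨g1, g2, g3, g5, g6, g7, g8⟩ | ⟨Nc, co, g0, g1, g2, g3⟩ |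
    ⟨Nc, co, g0, g1, g2, g3, g4⟩ | ⟨g1, g2, g3, g4, g5, g8⟩
  · exact ⟨g1, g2, g3, g5⟩
  · have := rect_twoQ g0 (by omega)
    omega
  · have := stair_twoQ g0 (by omega)
    omega
  · exfalso
    obtain ⟨q, hq, hpr⟩ := (g5 v (le_topOf v) hlv).2
    have h1 := hpr m (by omega)
    have h2 := S.pr m (by omega)
    have h3 := hHL q hq
    omega

/-- the label of a star join -/
theorem WC.star_lab (W : WC r i m K N b θ) {z f v : P} {p : ℕ} (S : SZ m z f v p)
    (hθ : θ (topOf v) = fun x => lev x - i) : h2 (2 * m) N θ z = kF i m := by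
  have H := W.gt.H
  have h4 := W.hi
  have him := W.him
  have hlv : lev v = 2 * m := by
    have := (H.covBy_iff.mp S.zv).2
    have := S.lev
    omega
  have hfv : f ≠ v := fun h => S.ne (by rw [h])
  rw [W.wi.h2_eqI (W.join_r2 S.ne S.zf S.zv) S.lev S.zf (fun y hy => ?_), W.fold_th S.fd]
  · rfl
  · rcases uc_pair H S.zf S.zv hfv hy with e | e
    · rw [e]
    · rw [e, W.fold_th S.fd, hθ]
      show (m - 2 * (i / 2)) + (m - i) ≤ lev v - i
      omega

/-- a fold end is a cell of a stair -/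
lemma WC.inS (W : WC r i m K N b θ) {x : P} {Nc : Finset P} {co : P → ℕ × ℕ} (hx : Fd m x)
    (h : FI i m N b θ x Nc co) : InS i m N b θ x Nc co where
  stair := h.stair
  nat := h.nat
  thf := h.th
  bb := h.b
  mem := h.mem
  fst := by
    have := W.hi
    have := W.him
    rw [h.cell]
    show 1 ≤ m
    omega
  th := by
    rw [W.fold_th hx, h.cell]
  nop := h.nop

/-- the other single-up end of the component of a fold end is unique -/
theorem WC.cc_unique (W : WC r i m K N b θ) {x x' y' : P} (hx : Fd m x) (hlx' : lev x' = 2 * m)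
    (hxt : topOf x' = topOf x) (hne : x ≠ x') (h1 : (Win.uc x').card = 1)
    (hly' : lev y' = 2 * m) (hyt : topOf y' = topOf x) (hne' : x ≠ y')
    (h1' : (Win.uc y').card = 1) : x' = y' := by
  have H := W.gt.H
  have h4 := W.hi
  have him := W.him
  obtain ⟨-, Nc, co, h, h2, h3⟩ := W.stair_single hx hlx' hxt hne h1
  have h5 : y' ∈ Nc := h.stair.strip (mem_lowPart.mpr ⟨by rw [← hyt]; exact le_topOf y', hly'.le⟩)
  have h6 := h.stair.chart.lev y' h5
  have h7 : (co y').1 ≤ (co y').2 := h.stair.chart.mem y' h5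
  have h8 : (co y').1 = 0 := by
    by_contra h8
    by_cases h9 : (co y').1 = (co y').2
    · refine hne' (h.stair.chart.inj x h.mem y' h5 ?_)
      rw [h.cell]
      exact Prod.ext (by simp only; omega) (by simp only; omega)
    · have := chartS_inner_uc h.stair.chart H h5 (by omega) (by omega)
      omega
  refine h.stair.chart.inj x' h2 y' h5 ?_
  rw [h3]
  exact Prod.ext (by simp only; omega) (by simp only; omega)

/-- the union of two (C) joins -/
theorem WC.U_cc (W : WC r i m K N b θ) {k F0 : ℕ} {z y : P} (hk : k ≤ 2 * m + 1 - i)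
    (hz : CC m z) (hy : CC m y) (hlz : h2 (2 * m) N θ z = k) (hly : h2 (2 * m) N θ y = k)
    (hF : ∀ f : P, Fd m f → ct i k f = F0) (hne : ¬ ∀ w, z < w ↔ y < w) :
    2 * F0 + 2 * k ≤ Uu i (h2 (2 * m) N θ) z y := by
  have H := W.gt.H
  have W' := W.wi
  obtain ⟨hl, x, x', hx, h1, ht, hxx, hzx, hzx'⟩ := hz
  obtain ⟨hl', a, a', ha, h1', ht', haa, hya, hya'⟩ := hy
  have hlx' : lev x' = 2 * m := by
    have := (H.covBy_iff.mp hzx').2
    omega
  have hla' : lev a' = 2 * m := by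
    have := (H.covBy_iff.mp hya').2
    omega
  have hzy : z ≠ y := by
    rintro rfl
    exact hne fun _ => Iff.rfl
  by_cases hax : topOf a = topOf x
  · exfalso
    have h3 := W.fold_unique ha hx hax
    subst h3
    have h4 := W.cc_unique hx hlx' ht hxx h1 hla' ht' haa h1'
    subst h4
    exact hne fun w => (up_of_pair H hzx hzx' hya hya' hxx w).symm
  · have h3 := Uu_pair (i := i) hlz hly hzy hl hl' hk hzx hya hx.1 ha.1
      (fun w => W'.disjL hx.1.le ha.1.le (Ne.symm hax))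
    rw [hF x hx, hF a ha] at h3
    omega

/-- the (C) joins, window `m` -/
theorem WC.cc_data (W : WC r m m K N b θ) {z : P} (hz : z ∈ r2 (2 * m) N) (h : CC m z) :
    CcI m N b θ z ∧ h2 (2 * m) N θ z = kF m m ∧ cst m (h2 (2 * m) N θ) z = E0 m := by
  have H := W.gt.H
  obtain ⟨hl, x, x', hx, h1, ht, hxx, hzx, hzx'⟩ := h
  have hlx' : lev x' = 2 * m := by
    have := (H.covBy_iff.mp hzx').2
    omega
  obtain ⟨-, Nc, co, hF, h2, h3⟩ := W.stair_single hx hlx' ht hxx h1
  have h5 := W.inS hx hF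
  have h6 := W.wi.cc_lab hz hl h5 hF.cell h2 h3 hzx hzx'
  refine ⟨⟨hl, x, x', Nc, co, h5, hF.cell, h2, h3, hzx, hzx'⟩, ?_, ?_⟩
  · rw [h6.1]
    unfold hh kF
    omega
  · rw [cst_ct h6.1]
    exact h6.2

/-- first pole of the (C) joins -/
theorem WC.fz_cc (W : WC r m m K N b θ) {z : P} (hz : z ∈ bdR (r2 (2 * m) N)) (h : CC m z)
    (N1 : ℕ) : FzT m m N θ z (E0 m + hh m ^ 2) (sg1 P m) N1 := by
  have h1 := W.wi.fz_cc hz (W.cc_data (bd_mem hz) h).1
  exact ⟨fun n hn _ => h1.clean n hn, fun _ => h1.lead⟩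

/-- (C) joins are boundary elements -/
lemma WC.cc_mem (W : WC r i m K N b θ) {z : P} (h : CC m z) : z ∈ bdR (r2 (2 * m) N) := by
  obtain ⟨hl, x, x', hx, h1, ht, hxx, hzx, hzx'⟩ := h
  exact W.wi.mem_bd (W.cc_r2 hx h1 hxx hzx hzx') hl

/-- joins of different tops are boundary elements -/
lemma WC.jn_mem (W : WC r i m K N b θ) {z x x' : P} (hl : lev z = 2 * m + 1)
    (ht : topOf x ≠ topOf x') (hzx : z ⋖ x) (hzx' : z ⋖ x') : z ∈ bdR (r2 (2 * m) N) :=
  W.wi.mem_bd (W.join_r2 ht hzx hzx') hl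

end Pool.Agent.GaussPoset.Fi
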