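import Pool.Agent.W_448s8f_h76.FiI

/-!
No elements below a fold end, `m = 8` (MP_448cb3_co, S8).
-/

namespace Pool.Agent.GaussPoset.Fi

set_option linter.unusedSectionVars false

open Polynomial Finset

universe u

variable {P : Type u} [Fintype P] [PartialOrder P] [DecidableEq P] {r i m K N0 : ℕ}
  {N : Tops P → Finset P} {b : Tops P → ℕ} {θ : Tops P → P → ℕ}

/-- fold ends are not full -/
lemma WC.fd_not_full (W : WC r i m K N b θ) {x : P} (hx : Fd m x)
    (h : Full i m N θ x) : False := by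
  have h2 := W.fold_th hx
  have h3 := h.th
  have := W.hi
  have := W.him
  have := hx.1
  omega

/-- the pole energies -/
noncomputable def plz (m : ℕ) (a b c : ℕ) (z : P) : ℕ := by
  classical exact if CC m z then a else if St m 8 z then b else c

/-- blockers -/
def Bz (m : ℕ) (z : P) : Prop := CC m z ∨ St m 8 z ∨ St m 4 z

lemma plz_cc {a b c : ℕ} {z : P} (h : CC m z) : plz m a b c z = a := by
  unfold plz
  exact if_pos h

lemma plz_8 (H : Gr P r) {a b c : ℕ} {z : P} (h : St m 8 z) : plz m a b c z = b := by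
  unfold plz
  rw [if_neg (fun h' => CC.not_st H h' h), if_pos h]

lemma plz_4 (H : Gr P r) {a b c : ℕ} {z : P} (h : St m 4 z) (h8 : ¬ St m 8 z) :
    plz m a b c z = c := by
  unfold plz
  rw [if_neg (fun h' => CC.not_st H h' h), if_neg h8]

lemma plz_same {a b c : ℕ} {z y : P} (h : ∀ w, z < w ↔ y < w) :
    plz m a b c y = plz m a b c z := by
  have h' : ∀ w, y < w ↔ z < w := fun w => (h w).symm
  unfold plz
  by_cases h1 : CC m z
  · rw [if_pos h1, if_pos (h1.same h)]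
  · rw [if_neg h1, if_neg (fun h2 => h1 (CC.same h2 h'))]
    by_cases h3 : St m 8 z
    · rw [if_pos h3, if_pos (h3.same h)]
    · rw [if_neg h3, if_neg (fun h2 => h3 (St.same h2 h'))]

lemma Bz.same {z y : P} (h : Bz m z) (hy : ∀ w, z < w ↔ y < w) : Bz m y :=
  h.imp (fun h => h.same hy) (fun h => h.imp (fun h => h.same hy) (fun h => h.same hy))

lemma Bz.lev {z : P} (h : Bz m z) : Pool.Agent.GaussPoset.lev z = 2 * m + 1 := by
  rcases h with h | ⟨f, v, h⟩ | ⟨f, v, h⟩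
  · exact h.1
  · exact h.lev
  · exact h.lev

/-- stage A: no pendants below fold ends and heavy ends, `m = 8` -/
theorem pens8 (W : WC r 8 8 K N b θ) (hK : 43 ≤ K) (S7 : S7F P 8) :
    ∀ z ∈ bdR (r2 (2 * 8) N), 22 ≤ cst 8 (h2 (2 * 8) N θ) z := by
  have L : Lad 8 8 K N θ 22 (fun _ : P => False) (fun _ => 0)
      (sg P 8 (fun n => if n = 9 then 0 else 1)) (sg P 8 (fun _ => 0)) := by
    refine ⟨by omega, fun z y h _ => h.elim, fun z _ h => h.elim, sg_ne _, sg_ne _,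
      fun z _ h => h.elim, fun z _ h => h.elim, ?_⟩
    intro z hz _ hl
    rcases W.rows S7 (by decide) (bd_mem hz) hl with ⟨x, hx, hp, hn⟩ | ⟨x, hx, hp, p, hp', hn⟩ |
      ⟨x, x', hx, hx', ht, hzx, hzx', p, hp, hpr, hn⟩ | ⟨x, x', hx, hx', ht, hzx, hzx', hn⟩ |
      ⟨x, x', hx, hx', h1, ht, hzx, hzx', p, hp, hpr, htd, hn⟩ | ⟨x, x', hx, h1, ht, hne, hzx, hzx'⟩ |
      ⟨hF, h⟩
    · exact nq_ok hn (by decide)
    · refine nq_ok hn ?_
      have h3 : ∀ p ∈ HL 8 8, okR 8 8 1 22 (fun n => if n = 9 then 0 else 1) (fun _ => 0)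
        (fun d => 1 + gD p d) := by decide
      exact h3 p hp'
    · refine nq_ok hn ?_
      have h3 : ∀ p ∈ HL 8 8, okR 8 8 1 22 (fun n => if n = 9 then 0 else 1) (fun _ => 0)
        (fun d => 1 + pF 8 d + (1 + gD p d)) := by decide
      exact h3 p hp
    · exact nq_ok hn (by decide)
    · refine nq_ok hn ?_
      have h3 : ∀ p ∈ PL 8 8, 22 ≤ vsQ 8 8 (kF 8 8) (fun d => (1 + pF 8 d) + (1 + gD p d)) +
        kF 8 8 := by decide
      exact Or.inl (h3 p hp)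
    · left
      rw [(W.cc_data (bd_mem hz) ⟨hl, x, x', hx, h1, ht, hne, hzx, hzx'⟩).2.2]
      decide
    · left
      refine le_trans ?_ h
      norm_num
  exact fun z hz => (W.wi.ladder L).2 z hz (fun h => h)

/-- the elements alive after stage A -/
theorem al8 (W : WC r 8 8 K N b θ) (hK : 43 ≤ K) (S7 : S7F P 8) :
    ∀ y ∈ bdR (r2 (2 * 8) N), Al 8 8 (kF 8 8) (vsQ 8 8 (kF 8 8) (fun d => 1 + pF 8 d))
      (vsQ 8 8 (kF 8 8) (fun _ => 1)) 42 N θ y := by
  intro z hz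
  have hA := pens8 W hK S7 z hz
  rcases W.wi.bd hz with hl | h
  swap
  · exact Al.big (by omega)
  rcases W.rows S7 (by decide) (bd_mem hz) hl with ⟨x, hx, hp, hn⟩ | ⟨x, hx, hp, p, hp', hn⟩ |
    ⟨x, x', hx, hx', ht, hzx, hzx', p, hp, hpr, hn⟩ | ⟨x, x', hx, hx', ht, hzx, hzx', hn⟩ |
    ⟨x, x', hx, hx', h1, ht, hzx, hzx', p, hp, hpr, htd, hn⟩ | ⟨x, x', hx, h1, ht, hne, hzx, hzx'⟩ |
    ⟨hF, h⟩
  · rw [hn.cst] at hA
    exact absurd hA (by decide)
  · rw [hn.cst] at hA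
    have h3 : ∀ p ∈ HL 8 8, ¬ 22 ≤ vsQ 8 8 1 (fun d => 1 + gD p d) + 1 := by decide
    exact absurd hA (h3 p hp')
  · exact Al.jn x x' hl (hn.lab.trans (by decide)) hx hx'.up1 ht hzx hzx'
  · exact Al.jn x x' hl hn.lab hx hx'.2.1 ht hzx hzx'
  · exact Al.jn x x' hl hn.lab hx h1 ht hzx hzx'
  · have h5 := W.cc_data (bd_mem hz) ⟨hl, x, x', hx, h1, ht, hne, hzx, hzx'⟩
    refine Al.cc x x' hl h5.2.1 hx ht hne hzx hzx' ?_
    rw [h5.2.2]
    decide
  · exact Al.big (le_trans (by norm_num) h)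

theorem stN8 : StN 8 8 (fun _ => 38) where
  hk := by decide
  i_lt := by norm_num
  hHL := by decide
  pm := by
    intro p
    unfold pp
    split_ifs <;> decide
  eE := by
    rintro p (rfl | rfl) <;> decide
  c1 := by
    rintro p (rfl | rfl) <;> decide
  c2 := by decide

/-- the ladder, `m = 8` -/
theorem lad8 (W : WC r 8 8 K N b θ) (hK : 43 ≤ K) (S7 : S7F P 8) (hst : StarT 8 8 K N b θ) :
    Lad 8 8 K N θ 42 (Bz 8) (plz 8 30 38 38) (sg P 8 (fun n => if n = 38 then 1 else 0))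
      (sg P 8 (fun n => if n = 29 then 1 else 0)) := by
  have H := W.gt.H
  have hAl := al8 W hK S7
  have hSt : ∀ z p, p = 8 ∨ p = 4 → St 8 p z → FzT 8 8 N θ z 38
      (sg P 8 (fun n => if n = 38 then 1 else 0) 38) 42 := by
    intro z p hp h
    have h1 := W.star_fz hst stN8 (N1 := 42) (by omega) hAl hp h
    rwa [sg_of (q1 := fun n => if n = 38 then 1 else 0) (n := 38) (by decide)] at h1
  have hpl : ∀ z : P, St 8 8 z ∨ St 8 4 z → plz 8 30 38 38 z = 38 := by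
    intro z h
    by_cases h8 : St 8 8 z
    · exact plz_8 H h8
    · exact plz_4 H (h.resolve_left h8) h8
  have hUst : ∀ z z' : P, St 8 8 z ∨ St 8 4 z → z' ∈ bdR (r2 (2 * 8) N) → z' ∉ fam 8 N z → ∀ n,
      n < 42 → n ≤ 38 → n < Uu 8 (h2 (2 * 8) N θ) z z' := by
    intro z z' h hz' hne n hn hn2
    rcases h with ⟨f, v, S⟩ | ⟨f, v, S⟩
    · exact W.star_U stN8 hAl (Or.inl rfl) S hz' hne hn2 hn
    · exact W.star_U stN8 hAl (Or.inr rfl) S hz' hne hn2 hn
  refine ⟨by omega, fun z y h hy => ⟨h.same hy, plz_same hy⟩, fun z _ h => h.lev, sg_ne _,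
    sg_ne _, ?_, ?_, ?_⟩
  · intro z hz h
    rcases h with h | h | h
    · rw [plz_cc h]
      have h1 := W.fz_cc hz h 42
      rw [show E0 8 + hh 8 ^ 2 = 30 by decide] at h1
      have h2 : sg1 P 8 = sg P 8 (fun n => if n = 38 then 1 else 0) 30 := by
        unfold sg1
        rw [Nat.add_assoc]
        exact sg_of (by decide)
      rwa [h2] at h1
    · rw [hpl z (Or.inl h)]
      exact hSt z 8 (Or.inl rfl) h
    · rw [hpl z (Or.inr h)]
      exact hSt z 4 (Or.inr rfl) h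
  · intro z hz h z' hz' h' hne n hn hn1 hn2
    by_cases hs : St 8 8 z ∨ St 8 4 z
    · rw [hpl z hs] at hn1
      exact hUst z z' hs hz' hne n hn hn1
    · by_cases hs' : St 8 8 z' ∨ St 8 4 z'
      · rw [hpl z' hs'] at hn2
        rw [Uu_comm]
        refine hUst z' z hs' hz ?_ n hn hn2
        intro h3
        rw [fam_eq h3] at hne
        exact hne (self_mem_fam hz')
      · have h1 : CC 8 z := h.resolve_right hs
        have h2 : CC 8 z' := h'.resolve_right hs'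
        have h3 := W.U_cc (k := kF 8 8) (by decide) h1 h2 (W.cc_data (bd_mem hz) h1).2.1
          (W.cc_data (bd_mem hz') h2).2.1 (fun f hf => W.ct_fold hf _)
          (mem_of_not_fam hz' hne)
        rw [plz_cc h1] at hn1
        have h4 : 30 < 2 * vsQ 8 8 (kF 8 8) (fun d => 1 + pF 8 d) + 2 * kF 8 8 := by decide
        omega
  · intro z hz hb hl
    have hA := pens8 W hK S7 z hz
    rcases W.rows S7 (by decide) (bd_mem hz) hl with ⟨x, hx, hp, hn⟩ | ⟨x, hx, hp, p, hp', hn⟩ |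
      ⟨x, x', hx, hx', ht, hzx, hzx', p, hp, hpr, hn⟩ | ⟨x, x', hx, hx', ht, hzx, hzx', hn⟩ |
      ⟨x, x', hx, hx', h1, ht, hzx, hzx', p, hp, hpr, htd, hn⟩ | ⟨x, x', hx, h1, ht, hne, hzx, hzx'⟩ |
      ⟨hF, h⟩
    · rw [hn.cst] at hA
      exact absurd hA (by decide)
    · rw [hn.cst] at hA
      have h3 : ∀ p ∈ HL 8 8, ¬ 22 ≤ vsQ 8 8 1 (fun d => 1 + gD p d) + 1 := by decide
      exact absurd hA (h3 p hp')
    · refine nq_ok hn ?_
      have h3 : ∀ p ∈ HL 8 8, okR 8 8 1 42 (fun n => if n = 38 then 1 else 0)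
        (fun n => if n = 29 then 1 else 0) (fun d => 1 + pF 8 d + (1 + gD p d)) := by decide
      exact h3 p hp
    · exact nq_ok hn (by decide)
    · refine nq_ok hn ?_
      have h3 : ∀ p ∈ PL 8 8, gD p 7 ≠ 1 → okR 8 8 (kF 8 8) 42 (fun n => if n = 38 then 1 else 0)
        (fun n => if n = 29 then 1 else 0) (fun d => (1 + pF 8 d) + (1 + gD p d)) := by decide
      refine h3 p hp fun h7 => hb (Or.inr ?_)
      rcases htd h7 with ⟨e1, e2⟩ | ⟨e1, e2⟩
      · subst e1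
        exact Or.inl ⟨x, x', hl, hx, h1, ht, hzx, hzx', e2, hpr⟩
      · subst e1
        exact Or.inr ⟨x, x', hl, hx, h1, ht, hzx, hzx', e2, hpr⟩
    · exact absurd (Or.inl ⟨hl, x, x', hx, h1, ht, hne, hzx, hzx'⟩) hb
    · left
      exact le_trans (by norm_num) h

/-- **No element below a fold end, `m = 8`.** -/
theorem below8 (W : WC r 8 8 K N b θ) (hK : 43 ≤ K) (S7 : S7F P 8) (hst : StarT 8 8 K N b θ)
    {z x0 : P} (hz : z ∈ r2 (2 * 8) N) (hl : lev z = 2 * 8 + 1) (hx0 : Fd 8 x0)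
    (hzx0 : z ⋖ x0) : False := by
  have H := W.gt.H
  have hzb := W.wi.mem_bd hz hl
  obtain ⟨k1, k2⟩ := W.wi.ladder (lad8 W hK S7 hst)
  have hnb : ¬ Bz 8 z := by
    intro h
    have h1 := k1 z hzb h
    have h2 : plz 8 30 38 38 z ≤ 38 := by
      unfold plz
      split_ifs <;> omega
    omega
  have hc := k2 z hzb hnb
  rcases W.rows S7 (by decide) hz hl with ⟨x, hx, hp, hn⟩ | ⟨x, hx, hp, p, hp', hn⟩ |
    ⟨x, x', hx, hx', ht, hzx, hzx', p, hp, hpr, hn⟩ | ⟨x, x', hx, hx', ht, hzx, hzx', hn⟩ |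
    ⟨x, x', hx, hx', h1, ht, hzx, hzx', p, hp, hpr, htd, hn⟩ | ⟨x, x', hx, h1, ht, hne, hzx, hzx'⟩ |
    ⟨hF, h⟩
  · rw [hn.cst] at hc
    exact absurd hc (by decide)
  · rw [hn.cst] at hc
    have h3 : ∀ p ∈ HL 8 8, ¬ 42 ≤ vsQ 8 8 1 (fun d => 1 + gD p d) + 1 := by decide
    exact absurd hc (h3 p hp')
  · rw [hn.cst] at hc
    have h3 : ∀ p ∈ HL 8 8, ¬ 42 ≤ vsQ 8 8 1 (fun d => 1 + pF 8 d + (1 + gD p d)) + 1 := by
      decide
    exact absurd hc (h3 p hp)
  · rw [hn.cst] at hc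
    exact absurd hc (by decide)
  · rw [hn.cst] at hc
    have h3 : ∀ p ∈ PL 8 8, ¬ 42 ≤ vsQ 8 8 (kF 8 8) (fun d => (1 + pF 8 d) + (1 + gD p d)) +
      kF 8 8 := by decide
    exact absurd hc (h3 p hp)
  · exact hnb (Or.inl ⟨hl, x, x', hx, h1, ht, hne, hzx, hzx'⟩)
  · exact W.fd_not_full hx0 (hF x0 hzx0)

end Pool.Agent.GaussPoset.Fi
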