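import Pool.Agent.W_448s8f_h76.FiJ

/-!
No elements below a fold end except below two fold ends, `m = 9`: window 9, first part
(MP_448cb3_co, S8).
-/

namespace Pool.Agent.GaussPoset.Fi

set_option linter.unusedSectionVars false

open Polynomial Finset

universe u

variable {P : Type u} [Fintype P] [PartialOrder P] [DecidableEq P] {r i m K N0 : ℕ}
  {N : Tops P → Finset P} {b : Tops P → ℕ} {θ : Tops P → P → ℕ}

/-- the profile `(5;20)` -/
def p20 : List ℕ := [0, 0, 1, 1, 1, 1, 1]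

/-- stage A: window 9 -/
theorem pens9 (W : WC r 9 9 K N b θ) (hK : 91 ≤ K) (S7 : S7F P 9) :
    ∀ z ∈ bdR (r2 (2 * 9) N), 48 ≤ cst 9 (h2 (2 * 9) N θ) z := by
  have L : Lad 9 9 K N θ 48 (fun _ : P => False) (fun _ => 0)
      (sg P 9 (fun n => if n = 35 then 1 else 0)) (sg P 9 (fun _ => 0)) := by
    refine ⟨by omega, fun z y h _ => h.elim, fun z _ h => h.elim, sg_ne _, sg_ne _,
      fun z _ h => h.elim, fun z _ h => h.elim, ?_⟩
    intro z hz _ hl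
    rcases W.rows S7 (by decide) (bd_mem hz) hl with ⟨x, hx, hp, hn⟩ | ⟨x, hx, hp, p, hp', hn⟩ |
      ⟨x, x', hx, hx', ht, hzx, hzx', p, hp, hpr, hn⟩ | ⟨x, x', hx, hx', ht, hzx, hzx', hn⟩ |
      ⟨x, x', hx, hx', h1, ht, hzx, hzx', p, hp, hpr, htd, hn⟩ | ⟨x, x', hx, h1, ht, hne, hzx, hzx'⟩ |
      ⟨hF, h⟩
    · exact nq_ok hn (by decide)
    · refine nq_ok hn ?_
      have h3 : ∀ p ∈ HL 9 9, okR 9 9 1 48 (fun n => if n = 35 then 1 else 0) (fun _ => 0)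
        (fun d => 1 + gD p d) := by decide
      exact h3 p hp'
    · refine nq_ok hn ?_
      have h3 : ∀ p ∈ HL 9 9, okR 9 9 1 48 (fun n => if n = 35 then 1 else 0) (fun _ => 0)
        (fun d => 1 + pF 9 d + (1 + gD p d)) := by decide
      exact h3 p hp
    · exact nq_ok hn (by decide)
    · refine nq_ok hn ?_
      have h3 : ∀ p ∈ PL 9 9, 48 ≤ vsQ 9 9 (kF 9 9) (fun d => (1 + pF 9 d) + (1 + gD p d)) +
        kF 9 9 := by decide
      exact Or.inl (h3 p hp)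
    · left
      rw [(W.cc_data (bd_mem hz) ⟨hl, x, x', hx, h1, ht, hne, hzx, hzx'⟩).2.2]
      decide
    · left
      refine le_trans ?_ h
      norm_num
  exact fun z hz => (W.wi.ladder L).2 z hz (fun h => h)

/-- the table after stage A -/
inductive R9 (N : Tops P → Finset P) (θ : Tops P → P → ℕ) (z : P) : Prop
  | ff (x x' : P) (hx : Fd 9 x) (hx' : Fd 9 x') (ht : topOf x ≠ topOf x') (hzx : z ⋖ x)
      (hzx' : z ⋖ x') (hn : NQ 9 9 N θ z (kF 9 9) (fun d => (1 + pF 9 d) + (1 + pF 9 d)))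
  | fv (x x' : P) (hx : Fd 9 x) (hx' : Full 9 9 N θ x') (h1 : (Win.uc x').card = 1)
      (ht : topOf x ≠ topOf x') (hzx : z ⋖ x) (hzx' : z ⋖ x') (p : List ℕ) (hp : p ∈ PL 9 9)
      (hpr : Prof 9 x' (gD p))
      (htd : gD p 7 = 1 → (p = q7 ∧ TD 9 (topOf x') x' 8) ∨ (p = p5 ∧ TD 9 (topOf x') x' 4))
      (hn : NQ 9 9 N θ z (kF 9 9) (fun d => (1 + pF 9 d) + (1 + gD p d)))
  | cc (x x' : P) (hx : Fd 9 x) (h1 : (Win.uc x').card = 1) (ht : topOf x' = topOf x)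
      (hne : x ≠ x') (hzx : z ⋖ x) (hzx' : z ⋖ x')
  | full (hF : ∀ y, z ⋖ y → Full 9 9 N θ y) (h : 100 ≤ cst 9 (h2 (2 * 9) N θ) z)

theorem rows9 (W : WC r 9 9 K N b θ) (hK : 91 ≤ K) (S7 : S7F P 9) {z : P}
    (hz : z ∈ bdR (r2 (2 * 9) N)) (hl : lev z = 2 * 9 + 1) : R9 N θ z := by
  have hA := pens9 W hK S7 z hz
  rcases W.rows S7 (by decide) (bd_mem hz) hl with ⟨x, hx, hp, hn⟩ | ⟨x, hx, hp, p, hp', hn⟩ |
    ⟨x, x', hx, hx', ht, hzx, hzx', p, hp, hpr, hn⟩ | ⟨x, x', hx, hx', ht, hzx, hzx', hn⟩ |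
    ⟨x, x', hx, hx', h1, ht, hzx, hzx', p, hp, hpr, htd, hn⟩ | ⟨x, x', hx, h1, ht, hne, hzx, hzx'⟩ |
    ⟨hF, h⟩
  · rw [hn.cst] at hA
    exact absurd hA (by decide)
  · rw [hn.cst] at hA
    have h3 : ∀ p ∈ HL 9 9, ¬ 48 ≤ vsQ 9 9 1 (fun d => 1 + gD p d) + 1 := by decide
    exact absurd hA (h3 p hp')
  · rw [hn.cst] at hA
    have h3 : ∀ p ∈ HL 9 9, ¬ 48 ≤ vsQ 9 9 1 (fun d => 1 + pF 9 d + (1 + gD p d)) + 1 := by
      decide
    exact absurd hA (h3 p hp)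
  · exact R9.ff x x' hx hx' ht hzx hzx' hn
  · exact R9.fv x x' hx hx' h1 ht hzx hzx' p hp hpr htd hn
  · exact R9.cc x x' hx h1 ht hne hzx hzx'
  · exact R9.full hF (le_trans (by norm_num) h)

/-- the elements alive after stage A -/
theorem al9 (W : WC r 9 9 K N b θ) (hK : 91 ≤ K) (S7 : S7F P 9) :
    ∀ y ∈ bdR (r2 (2 * 9) N), Al 9 9 (kF 9 9) (vsQ 9 9 (kF 9 9) (fun d => 1 + pF 9 d))
      (vsQ 9 9 (kF 9 9) (fun _ => 1)) 90 N θ y := by
  intro z hz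
  rcases W.wi.bd hz with hl | h
  swap
  · exact Al.big (by omega)
  rcases rows9 W hK S7 hz hl with ⟨x, x', hx, hx', ht, hzx, hzx', hn⟩ |
    ⟨x, x', hx, hx', h1, ht, hzx, hzx', p, hp, hpr, htd, hn⟩ | ⟨x, x', hx, h1, ht, hne, hzx, hzx'⟩ |
    ⟨hF, h⟩
  · exact Al.jn x x' hl hn.lab hx hx'.2.1 ht hzx hzx'
  · exact Al.jn x x' hl hn.lab hx h1 ht hzx hzx'
  · have h5 := W.cc_data (bd_mem hz) ⟨hl, x, x', hx, h1, ht, hne, hzx, hzx'⟩
    refine Al.cc x x' hl h5.2.1 hx ht hne hzx hzx' ?_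
    rw [h5.2.2]
    decide
  · exact Al.big (by omega)

lemma Al.mono {k F0 L0 N1 N2 : ℕ} {y : P} (h : Al i m k F0 L0 N1 N θ y) (h2 : N2 ≤ N1) :
    Al i m k F0 L0 N2 N θ y := by
  rcases h with h | ⟨x, x', hl, lab, hx, h1, ht, hyx, hyx'⟩ | ⟨x, x', hl, lab, hx, ht, hxx, hyx, hyx', hc⟩
  · exact Al.big (h2.trans h)
  · exact Al.jn x x' hl lab hx h1 ht hyx hyx'
  · exact Al.cc x x' hl lab hx ht hxx hyx hyx' hc

/-- the poles at window 9 -/
def E9 (p : ℕ) : ℕ := if p = 8 then 74 else 78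

theorem stN9 : StN 9 9 E9 where
  hk := by decide
  i_lt := by norm_num
  hHL := by decide
  pm := by
    intro p
    unfold pp
    split_ifs <;> decide
  eE := by
    rintro p (rfl | rfl) <;> decide
  c1 := by
    rintro p (rfl | rfl) <;> decide
  c2 := by decide

/-- stage 1: the ladder below 74, window 9 -/
theorem lad9a (W : WC r 9 9 K N b θ) (hK : 91 ≤ K) (S7 : S7F P 9) (hst : StarT 9 9 K N b θ) :
    Lad 9 9 K N θ 74 (Bz 9) (plz 9 68 74 74) (sg P 9 (fun n => if n = 65 then 1 else 0))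
      (sg P 9 (fun _ => 0)) := by
  have H := W.gt.H
  have hAl : ∀ y ∈ bdR (r2 (2 * 9) N), Al 9 9 (kF 9 9) (vsQ 9 9 (kF 9 9) (fun d => 1 + pF 9 d))
      (vsQ 9 9 (kF 9 9) (fun _ => 1)) 74 N θ y := fun y hy => (al9 W hK S7 y hy).mono (by norm_num)
  have hE : ∀ p, p = 8 ∨ p = 4 → 74 ≤ E9 p := by
    rintro p (rfl | rfl) <;> decide
  have hSt : ∀ z p, p = 8 ∨ p = 4 → St 9 p z → FzT 9 9 N θ z 74
      (sg P 9 (fun n => if n = 65 then 1 else 0) 74) 74 := by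
    intro z p hp h
    have h1 := W.star_fz hst stN9 (N1 := 74) (by omega) hAl hp h
    exact ⟨fun n hn hn2 => h1.clean n (lt_of_lt_of_le hn (hE p hp)) hn2, fun h => by omega⟩
  have hpl : ∀ z : P, St 9 8 z ∨ St 9 4 z → plz 9 68 74 74 z = 74 := by
    intro z h
    by_cases h8 : St 9 8 z
    · exact plz_8 H h8
    · exact plz_4 H (h.resolve_left h8) h8
  have hUst : ∀ z z' : P, St 9 8 z ∨ St 9 4 z → z' ∈ bdR (r2 (2 * 9) N) → z' ∉ fam 9 N z → ∀ n,
      n < 74 → n < Uu 9 (h2 (2 * 9) N θ) z z' := by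
    intro z z' h hz' hne n hn
    rcases h with ⟨f, v, S⟩ | ⟨f, v, S⟩
    · exact W.star_U stN9 hAl (Or.inl rfl) S hz' hne
        (le_trans hn.le (hE 8 (Or.inl rfl))) hn
    · exact W.star_U stN9 hAl (Or.inr rfl) S hz' hne
        (le_trans hn.le (hE 4 (Or.inr rfl))) hn
  refine ⟨by omega, fun z y h hy => ⟨h.same hy, plz_same hy⟩, fun z _ h => h.lev, sg_ne _,
    sg_ne _, ?_, ?_, ?_⟩
  · intro z hz h
    rcases h with h | h | h
    · rw [plz_cc h]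
      have h1 := W.fz_cc hz h 74
      rw [show E0 9 + hh 9 ^ 2 = 68 by decide] at h1
      have h2 : sg1 P 9 = sg P 9 (fun n => if n = 65 then 1 else 0) 68 := by
        unfold sg1
        rw [Nat.add_assoc]
        exact sg_of (by decide)
      rwa [h2] at h1
    · rw [hpl z (Or.inl h)]
      exact hSt z 8 (Or.inl rfl) h
    · rw [hpl z (Or.inr h)]
      exact hSt z 4 (Or.inr rfl) h
  · intro z hz h z' hz' h' hne n hn hn1 hn2
    by_cases hs : St 9 8 z ∨ St 9 4 z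
    · exact hUst z z' hs hz' hne n hn
    · by_cases hs' : St 9 8 z' ∨ St 9 4 z'
      · rw [Uu_comm]
        refine hUst z' z hs' hz ?_ n hn
        intro h3
        rw [fam_eq h3] at hne
        exact hne (self_mem_fam hz')
      · have h1 : CC 9 z := h.resolve_right hs
        have h2 : CC 9 z' := h'.resolve_right hs'
        have h3 := W.U_cc (k := kF 9 9) (by decide) h1 h2 (W.cc_data (bd_mem hz) h1).2.1
          (W.cc_data (bd_mem hz') h2).2.1 (fun f hf => W.ct_fold hf _)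
          (mem_of_not_fam hz' hne)
        rw [plz_cc h1] at hn1
        have h4 : 68 < 2 * vsQ 9 9 (kF 9 9) (fun d => 1 + pF 9 d) + 2 * kF 9 9 := by decide
        omega
  · intro z hz hb hl
    rcases rows9 W hK S7 hz hl with ⟨x, x', hx, hx', ht, hzx, hzx', hn⟩ |
      ⟨x, x', hx, hx', h1, ht, hzx, hzx', p, hp, hpr, htd, hn⟩ |
      ⟨x, x', hx, h1, ht, hne, hzx, hzx'⟩ | ⟨hF, h⟩
    · exact nq_ok hn (by decide)
    · refine nq_ok hn ?_
      have h3 : ∀ p ∈ PL 9 9, gD p 7 ≠ 1 → okR 9 9 (kF 9 9) 74 (fun n => if n = 65 then 1 else 0)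
        (fun _ => 0) (fun d => (1 + pF 9 d) + (1 + gD p d)) := by decide
      refine h3 p hp fun h7 => hb (Or.inr ?_)
      rcases htd h7 with ⟨e1, e2⟩ | ⟨e1, e2⟩
      · subst e1
        exact Or.inl ⟨x, x', hl, hx, h1, ht, hzx, hzx', e2, hpr⟩
      · subst e1
        exact Or.inr ⟨x, x', hl, hx, h1, ht, hzx, hzx', e2, hpr⟩
    · exact absurd (Or.inl ⟨hl, x, x', hx, h1, ht, hne, hzx, hzx'⟩) hb
    · left
      omega

/-- after stage 1 -/
theorem after9a (W : WC r 9 9 K N b θ) (hK : 91 ≤ K) (S7 : S7F P 9) (hst : StarT 9 9 K N b θ) :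
    (∀ z : P, ¬ CC 9 z) ∧ ∀ z x x' : P, lev z = 2 * 9 + 1 → Fd 9 x → (Win.uc x').card = 1 →
      topOf x ≠ topOf x' → z ⋖ x → z ⋖ x' →
      Fd 9 x' ∨ Prof 9 x' (gD p20) ∨ St 9 8 z ∨ St 9 4 z := by
  have H := W.gt.H
  obtain ⟨k1, k2⟩ := W.wi.ladder (lad9a W hK S7 hst)
  have hcc : ∀ z : P, ¬ CC 9 z := by
    intro z h
    have h1 := k1 z (W.cc_mem h) (Or.inl h)
    rw [plz_cc h] at h1
    omega
  refine ⟨hcc, ?_⟩
  intro z x x' hl hx h1 ht hzx hzx'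
  by_contra hcon
  rw [not_or, not_or] at hcon
  obtain ⟨c1, c2, c3⟩ := hcon
  have hzb := W.jn_mem hl ht hzx hzx'
  have hnb : ¬ Bz 9 z := by
    rintro (h | h)
    · exact hcc z h
    · exact c3 h
  have hc := k2 z hzb hnb
  have hxx : x ≠ x' := fun h => ht (by rw [h])
  rcases rows9 W hK S7 hzb hl with ⟨y, y', hy, hy', ht', hzy, hzy', hn⟩ |
    ⟨y, y', hy, hy', h1', ht', hzy, hzy', p, hp, hpr, htd, hn⟩ |
    ⟨y, y', hy, h1', ht', hne, hzy, hzy'⟩ | ⟨hF, h⟩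
  · rcases uc_pair H hzy hzy' (fun h => ht' (by rw [h])) hzx' with e | e
    · rw [e] at c1
      exact c1 hy
    · rw [e] at c1
      exact c1 hy'
  · have e : x' = y' := by
      rcases uc_pair H hzy hzy' (fun h => ht' (by rw [h])) hzx' with e | e
      · rw [e] at c1
        exact absurd hy c1
      · exact e
    subst e
    rw [hn.cst] at hc
    have h3 : ∀ p ∈ PL 9 9, gD p 7 ≠ 1 → 74 ≤ vsQ 9 9 (kF 9 9)
      (fun d => (1 + pF 9 d) + (1 + gD p d)) + kF 9 9 → p = p20 := by decide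
    by_cases h7 : gD p 7 = 1
    · refine c3 ?_
      rcases htd h7 with ⟨e1, e2⟩ | ⟨e1, e2⟩
      · subst e1
        exact Or.inl ⟨y, x', hl, hy, h1', ht', hzy, hzy', e2, hpr⟩
      · subst e1
        exact Or.inr ⟨y, x', hl, hy, h1', ht', hzy, hzy', e2, hpr⟩
    · have h4 := h3 p hp h7 hc
      subst h4
      exact c2 hpr
  · exact hcc z ⟨hl, y, y', hy, h1', ht', hne, hzy, hzy'⟩
  · exact W.fd_not_full hx (hF x hzx)

end Pool.Agent.GaussPoset.Fi
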