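import Pool.Agent.W_448s8f_h76.FiK

/-!
`m = 9`: window 8 and the second part of window 9 (MP_448cb3_co, S8).
-/

namespace Pool.Agent.GaussPoset.Fi

set_option linter.unusedSectionVars false

open Polynomial Finset

universe u

variable {P : Type u} [Fintype P] [PartialOrder P] [DecidableEq P] {r i m K N0 : ℕ}
  {N : Tops P → Finset P} {b : Tops P → ℕ} {θ : Tops P → P → ℕ}

/-- pendants below a fold end are dead -/
theorem noPen9 (W : WC r 9 9 K N b θ) (hK : 91 ≤ K) (S7 : S7F P 9) {z x : P}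
    (hl : lev z = 2 * 9 + 1) (hx : Fd 9 x) (hp : Pend z x) : False := by
  have hzb := W.wi.mem_bd (W.pend_r2 hx hp) hl
  rcases rows9 W hK S7 hzb hl with ⟨y, y', hy, hy', ht', hzy, hzy', hn⟩ |
    ⟨y, y', hy, hy', h1', ht', hzy, hzy', p, hpp, hpr, htd, hn⟩ |
    ⟨y, y', hy, h1', ht', hne, hzy, hzy'⟩ | ⟨hF, h⟩
  · exact ht' (by rw [hp.2 y hzy, hp.2 y' hzy'])
  · exact ht' (by rw [hp.2 y hzy, hp.2 y' hzy'])
  · exact hne (by rw [hp.2 y hzy, hp.2 y' hzy'])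
  · exact W.fd_not_full hx (hF x hp.1)

/-- the facts from window 9 -/
structure F9 (P : Type u) [Fintype P] [PartialOrder P] [DecidableEq P] : Prop where
  pen : ∀ z x : P, lev z = 2 * 9 + 1 → Fd 9 x → Pend z x → False
  cc : ∀ z : P, ¬ CC 9 z
  jn : ∀ z x x' : P, lev z = 2 * 9 + 1 → Fd 9 x → (Win.uc x').card = 1 →
      topOf x ≠ topOf x' → z ⋖ x → z ⋖ x' →
      Fd 9 x' ∨ Prof 9 x' (gD p20) ∨ St 9 8 z ∨ St 9 4 z

/-- the table of window 8 -/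
inductive R8 (N : Tops P → Finset P) (θ : Tops P → P → ℕ) (z : P) : Prop
  | ff (x x' : P) (hx : Fd 9 x) (hx' : Fd 9 x') (ht : topOf x ≠ topOf x') (hzx : z ⋖ x)
      (hzx' : z ⋖ x') (hn : NQ 8 9 N θ z (kF 8 9) (fun d => (1 + pF 9 d) + (1 + pF 9 d)))
  | fv (x x' : P) (hx : Fd 9 x) (h1 : (Win.uc x').card = 1)
      (ht : topOf x ≠ topOf x') (hzx : z ⋖ x) (hzx' : z ⋖ x')
      (hpr : Prof 9 x' (gD p20))
      (hn : NQ 8 9 N θ z (kF 8 9) (fun d => (1 + pF 9 d) + (1 + gD p20 d)))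
  | st (x x' : P) (hx : Fd 9 x) (h1 : (Win.uc x').card = 1)
      (ht : topOf x ≠ topOf x') (hzx : z ⋖ x) (hzx' : z ⋖ x')
      (h : St 9 8 z ∨ St 9 4 z) (hn : h2 (2 * 9) N θ z = kF 8 9)
  | full (hF : ∀ y, z ⋖ y → Full 8 9 N θ y) (h : 121 ≤ cst 8 (h2 (2 * 9) N θ) z)

theorem rows98 (W : WC r 8 9 K N b θ) (S7 : S7F P 9) (F : F9 P) {z : P}
    (hz : z ∈ bdR (r2 (2 * 9) N)) (hl : lev z = 2 * 9 + 1) : R8 N θ z := by
  rcases W.rows S7 (by decide) (bd_mem hz) hl with ⟨x, hx, hp, hn⟩ | ⟨x, hx, hp, p, hp', hn⟩ |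
    ⟨x, x', hx, hx', ht, hzx, hzx', p, hp, hpr, hn⟩ | ⟨x, x', hx, hx', ht, hzx, hzx', hn⟩ |
    ⟨x, x', hx, hx', h1, ht, hzx, hzx', p, hp, hpr, htd, hn⟩ | ⟨x, x', hx, h1, ht, hne, hzx, hzx'⟩ |
    ⟨hF, h⟩
  · exact (F.pen z x hl hx hp).elim
  · rw [show HL 8 9 = [] by decide] at hp'
    exact absurd hp' List.not_mem_nil
  · rw [show HL 8 9 = [] by decide] at hp
    exact absurd hp List.not_mem_nil
  · exact R8.ff x x' hx hx' ht hzx hzx' hn
  · rcases F.jn z x x' hl hx h1 ht hzx hzx' with h | h | h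
    · exact (W.fd_not_full h hx').elim
    · have h4 : ∀ p ∈ PL 8 9, (∀ d, d ≤ 18 → gD p d = gD p20 d) → p = p20 := by decide
      have h5 := h4 p hp (fun d hd => by
        have e1 := hpr d hd
        have e2 := h d hd
        omega)
      subst h5
      exact R8.fv x x' hx h1 ht hzx hzx' hpr hn
    · exact R8.st x x' hx h1 ht hzx hzx' h hn.lab
  · exact (F.cc z ⟨hl, x, x', hx, h1, ht, hne, hzx, hzx'⟩).elim
  · exact R8.full hF (le_trans (by norm_num) h)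

/-- the elements alive at window 8 -/
theorem al98 (W : WC r 8 9 K N b θ) (hK : 122 ≤ K) (S7 : S7F P 9) (F : F9 P) :
    ∀ y ∈ bdR (r2 (2 * 9) N), Al 8 9 (kF 8 9) (vsQ 8 9 (kF 8 9) (fun d => 1 + pF 9 d))
      (vsQ 8 9 (kF 8 9) (fun _ => 1)) 121 N θ y := by
  intro z hz
  rcases W.wi.bd hz with hl | h
  swap
  · exact Al.big (by omega)
  rcases rows98 W S7 F hz hl with ⟨x, x', hx, hx', ht, hzx, hzx', hn⟩ |
    ⟨x, x', hx, h1, ht, hzx, hzx', hpr, hn⟩ | ⟨x, x', hx, h1, ht, hzx, hzx', h, hn⟩ | ⟨hF, h⟩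
  · exact Al.jn x x' hl hn.lab hx hx'.2.1 ht hzx hzx'
  · exact Al.jn x x' hl hn.lab hx h1 ht hzx hzx'
  · exact Al.jn x x' hl hn hx h1 ht hzx hzx'
  · exact Al.big h

/-- the poles at window 8 -/
def E98 (p : ℕ) : ℕ := if p = 8 then 116 else 124

theorem stN98 : StN 8 9 E98 where
  hk := by decide
  i_lt := by norm_num
  hHL := by decide
  pm := by
    intro p
    unfold pp
    split_ifs <;> decide
  eE := by
    rintro p (rfl | rfl) <;> decide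
  c1 := by
    rintro p (rfl | rfl) <;> decide
  c2 := by decide

/-- stage 2: the ladder at window 8 -/
theorem lad98 (W : WC r 8 9 K N b θ) (hK : 122 ≤ K) (S7 : S7F P 9) (F : F9 P)
    (hst : StarT 8 9 K N b θ) :
    Lad 8 9 K N θ 121 (Bz 9) (plz 9 0 116 121) (sg P 8 (fun n => if n = 116 then 1 else 0))
      (sg P 8 (fun _ => 0)) := by
  have H := W.gt.H
  have hAl := al98 W hK S7 F
  have hUst : ∀ z z' : P, St 9 8 z ∨ St 9 4 z → z' ∈ bdR (r2 (2 * 9) N) → z' ∉ fam 9 N z → ∀ n,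
      n < 121 → n ≤ plz 9 0 116 121 z → n < Uu 8 (h2 (2 * 9) N θ) z z' := by
    intro z z' h hz' hne n hn hn1
    by_cases h8 : St 9 8 z
    · rw [plz_8 H h8] at hn1
      obtain ⟨f, v, S⟩ := h8
      exact W.star_U stN98 hAl (Or.inl rfl) S hz' hne hn1 hn
    · obtain ⟨f, v, S⟩ := h.resolve_left h8
      exact W.star_U stN98 hAl (Or.inr rfl) S hz' hne (hn.le.trans (by decide)) hn
  refine ⟨by omega, fun z y h hy => ⟨h.same hy, plz_same hy⟩, fun z _ h => h.lev, sg_ne _,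
    sg_ne _, ?_, ?_, ?_⟩
  · intro z hz h
    have h' : St 9 8 z ∨ St 9 4 z := h.resolve_left (F.cc z)
    by_cases h8 : St 9 8 z
    · rw [plz_8 H h8]
      have h1 := W.star_fz hst stN98 (N1 := 121) (by omega) hAl (Or.inl rfl) h8
      rwa [sg_of (q1 := fun n => if n = 116 then 1 else 0) (n := 116) (by decide)] at h1
    · have h4 := h'.resolve_left h8
      rw [plz_4 H h4 h8]
      have h1 := W.star_fz hst stN98 (N1 := 121) (by omega) hAl (Or.inr rfl) h4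
      exact ⟨fun n hn hn2 => h1.clean n (lt_of_lt_of_le hn (by decide)) hn2, fun h => by omega⟩
  · intro z hz h z' hz' h' hne n hn hn1 hn2
    exact hUst z z' (h.resolve_left (F.cc z)) hz' hne n hn hn1
  · intro z hz hb hl
    rcases rows98 W S7 F hz hl with ⟨x, x', hx, hx', ht, hzx, hzx', hn⟩ |
      ⟨x, x', hx, h1, ht, hzx, hzx', hpr, hn⟩ | ⟨x, x', hx, h1, ht, hzx, hzx', h, hn⟩ | ⟨hF, h⟩
    · exact nq_ok hn (by decide)
    · exact nq_ok hn (by decide)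
    · exact absurd (Or.inr h) hb
    · exact Or.inl h

/-- after window 8 -/
theorem after98 (W : WC r 8 9 K N b θ) (hK : 122 ≤ K) (S7 : S7F P 9) (F : F9 P)
    (hst : StarT 8 9 K N b θ) : (∀ z : P, ¬ St 9 8 z) ∧ ∀ z x x' : P, lev z = 2 * 9 + 1 →
      Fd 9 x → (Win.uc x').card = 1 → topOf x ≠ topOf x' → z ⋖ x → z ⋖ x' →
      Fd 9 x' ∨ St 9 4 z := by
  have H := W.gt.H
  obtain ⟨k1, k2⟩ := W.wi.ladder (lad98 W hK S7 F hst)
  have h8 : ∀ z : P, ¬ St 9 8 z := by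
    intro z h
    have h2 := h
    obtain ⟨f, v, S⟩ := h2
    have h1 := k1 z (W.jn_mem S.lev S.ne S.zf S.zv) (Or.inr (Or.inl h))
    rw [plz_8 H h] at h1
    omega
  refine ⟨h8, ?_⟩
  intro z x x' hl hx h1 ht hzx hzx'
  by_contra hcon
  rw [not_or] at hcon
  obtain ⟨c1, c2⟩ := hcon
  have hzb := W.jn_mem hl ht hzx hzx'
  have hnb : ¬ Bz 9 z := by
    rintro (h | h | h)
    · exact F.cc z h
    · exact h8 z h
    · exact c2 h
  have hc := k2 z hzb hnb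
  rcases rows98 W S7 F hzb hl with ⟨y, y', hy, hy', ht', hzy, hzy', hn⟩ |
      ⟨y, y', hy, h1', ht', hzy, hzy', hpr, hn⟩ | ⟨y, y', hy, h1', ht', hzy, hzy', h, hn⟩ | ⟨hF, h⟩
  · rcases uc_pair H hzy hzy' (fun h => ht' (by rw [h])) hzx' with e | e
    · rw [e] at c1
      exact c1 hy
    · rw [e] at c1
      exact c1 hy'
  · rw [hn.cst] at hc
    exact absurd hc (by decide)
  · rcases h with h | h
    · exact h8 z h
    · exact c2 h
  · exact W.fd_not_full hx (hF x hzx)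

/-- stage 3: the ladder below 90, window 9 -/
theorem lad9b (W : WC r 9 9 K N b θ) (hK : 91 ≤ K) (S7 : S7F P 9) (hst : StarT 9 9 K N b θ)
    (hcc : ∀ z : P, ¬ CC 9 z) (h8 : ∀ z : P, ¬ St 9 8 z)
    (hj : ∀ z x x' : P, lev z = 2 * 9 + 1 →
      Fd 9 x → (Win.uc x').card = 1 → topOf x ≠ topOf x' → z ⋖ x → z ⋖ x' →
      Fd 9 x' ∨ St 9 4 z) :
    Lad 9 9 K N θ 90 (fun z => St 9 4 z) (fun _ => 78) (sg P 9 (fun _ => 1))
      (sg P 9 (fun _ => 0)) := by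
  have H := W.gt.H
  have hAl := al9 W hK S7
  refine ⟨by omega, fun z y h hy => ⟨h.same hy, rfl⟩, ?_, sg_ne _,
    sg_ne _, ?_, ?_, ?_⟩
  · rintro z - ⟨f, v, S⟩
    exact S.lev
  · intro z hz h
    have h1 := W.star_fz hst stN9 (N1 := 90) (by omega) hAl (Or.inr rfl) h
    rwa [sg_of (q1 := fun _ => 1) (n := 78) (by decide)] at h1
  · intro z hz h z' hz' h' hne n hn hn1 hn2
    obtain ⟨f, v, S⟩ := h
    exact W.star_U stN9 hAl (Or.inr rfl) S hz' hne hn1 hn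
  · intro z hz hb hl
    rcases rows9 W hK S7 hz hl with ⟨x, x', hx, hx', ht, hzx, hzx', hn⟩ |
      ⟨x, x', hx, hx', h1, ht, hzx, hzx', p, hp, hpr, htd, hn⟩ |
      ⟨x, x', hx, h1, ht, hne, hzx, hzx'⟩ | ⟨hF, h⟩
    · exact nq_ok hn (by decide)
    · rcases hj z x x' hl hx h1 ht hzx hzx' with h | h
      · exact (W.fd_not_full h hx').elim
      · exact absurd h hb
    · exact (hcc z ⟨hl, x, x', hx, h1, ht, hne, hzx, hzx'⟩).elim
    · left
      omega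

/-- only joins of two fold ends are left -/
theorem after9b (W : WC r 9 9 K N b θ) (hK : 91 ≤ K) (S7 : S7F P 9) (hst : StarT 9 9 K N b θ)
    (hcc : ∀ z : P, ¬ CC 9 z) (h8 : ∀ z : P, ¬ St 9 8 z)
    (hj : ∀ z x x' : P, lev z = 2 * 9 + 1 →
      Fd 9 x → (Win.uc x').card = 1 → topOf x ≠ topOf x' → z ⋖ x → z ⋖ x' →
      Fd 9 x' ∨ St 9 4 z) : ∀ z x x' : P, lev z = 2 * 9 + 1 →
      Fd 9 x → (Win.uc x').card = 1 → topOf x ≠ topOf x' → z ⋖ x → z ⋖ x' → Fd 9 x' := by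
  intro z x x' hl hx h1 ht hzx hzx'
  refine (hj z x x' hl hx h1 ht hzx hzx').resolve_right fun h => ?_
  have h3 := (W.wi.ladder (lad9b W hK S7 hst hcc h8 hj)).1 z (W.jn_mem hl ht hzx hzx') h
  omega

/-- **`m = 9`: everything below a fold end is dead except the joins of two fold ends.** -/
theorem below9 {K' : ℕ} {N' : Tops P → Finset P} {b' : Tops P → ℕ} {θ' : Tops P → P → ℕ}
    (W : WC r 9 9 K N b θ) (hK : 91 ≤ K) (W' : WC r 8 9 K' N' b' θ') (hK' : 122 ≤ K')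
    (S7 : S7F P 9) (hst : StarT 9 9 K N b θ) (hst' : StarT 8 9 K' N' b' θ') :
    (∀ z x : P, lev z = 2 * 9 + 1 → Fd 9 x → Pend z x → False) ∧ (∀ z : P, ¬ CC 9 z) ∧
    ∀ z x x' : P, lev z = 2 * 9 + 1 → Fd 9 x → (Win.uc x').card = 1 → topOf x ≠ topOf x' →
      z ⋖ x → z ⋖ x' → Fd 9 x' := by
  obtain ⟨hcc, hj⟩ := after9a W hK S7 hst
  have F : F9 P := ⟨fun z x hl hx hp => noPen9 W hK S7 hl hx hp, hcc, hj⟩
  obtain ⟨h8, hj'⟩ := after98 W' hK' S7 F hst'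
  exact ⟨F.pen, hcc, after9b W hK S7 hst hcc h8 hj'⟩

end Pool.Agent.GaussPoset.Fi
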