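import Pool.Agent.W_448s8f_h76.FiL

/-!
The seventh step for `j = 18` in the form of S8 (MP_448cb3_co).
-/

namespace Pool.Agent.GaussPoset.Fi

set_option linter.unusedSectionVars false

open Polynomial Finset

universe u

variable {P : Type u} [Fintype P] [PartialOrder P] [DecidableEq P] {r i m j K : ℕ}

/-- the last cell of a complete stair is a fold end -/
lemma fd_of_stair (G : Win.GoodTo P r (2 * m)) (hm : 2 ≤ m) {t : Tops P} {lo hi : ℕ → ℕ}
    {e : ℕ → ℕ → P} (C : Cp.Comp (2 * m) (t : P) lo hi e) (S : StairShape (2 * m) lo hi) {x : P}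
    (hx : x ≤ (t : P)) (hl : lev x = 2 * m) (hu : (Win.uc x).card = 1)
    (hn : ¬ ∀ k, k ≤ 2 * m → nab k x = 1) : Fd m x := by
  have Ch := chart_stair C G.H G.good S
  have hxN : x ∈ lowPart (2 * m) (t : P) := mem_lowPart.mpr ⟨hx, hl.le⟩
  have hc := Ch.lev x hxN
  have hS : (ccoord lo hi e x).1 ≤ (ccoord lo hi e x).2 := Ch.mem x hxN
  refine ⟨hl, hu, ?_⟩
  by_cases h0 : (ccoord lo hi e x).1 = 0
  · exfalso
    apply hn
    intro k hk
    rw [nab_chart Ch hxN]
    have := card_cellsAt_shift (l := k) (p := ccoord lo hi e x) hS (by omega)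
    omega
  · have h3 : (ccoord lo hi e x).1 = (ccoord lo hi e x).2 := by
      by_contra hcon
      have := chartS_inner_uc Ch G.H hxN (by omega) (by omega)
      omega
    rw [nab_chart Ch hxN]
    have := card_cellsAt_shift (l := 2) (p := ccoord lo hi e x) hS (by omega)
    omega

/-- the seventh step, `2 m ≥ 17` -/
theorem s7F_of (hm : 9 ≤ m) (G : Win.GoodTo P r (2 * m))
    {lo hi : Tops P → ℕ → ℕ} {e : Tops P → ℕ → ℕ → P}
    (C : ∀ t : Tops P, Cp.Comp (2 * m) (t : P) (lo t) (hi t) (e t))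
    (hS : ∀ t, Wd.Shape (2 * m) (lo t) (hi t)) : S7F P m := by
  intro z x x' hl hzx hzx' hne
  by_contra hcon
  rw [not_or] at hcon
  obtain ⟨h1, h2⟩ := single_of_join G (by omega) hl hzx hzx' hne
  have l1 := (G.H.covBy_iff.mp hzx).2
  have l2 := (G.H.covBy_iff.mp hzx').2
  have key : ∀ x : P, lev x = 2 * m → (Win.uc x).card = 1 → ¬ Fd m x →
      (RectShape (2 * m) (lo (topOf x)) (hi (topOf x)) ∨
        StairShape (2 * m) (lo (topOf x)) (hi (topOf x))) → ∀ k, k ≤ 2 * m → nab k x = 1 := by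
    intro x hlx hu hnf hsh
    rcases hsh with hsh | hsh
    · exact straight_rect G (C (topOf x)) hsh (le_topOf x) hlx hu
    · by_contra hcn
      exact hnf (fd_of_stair G (by omega) (C (topOf x)) hsh (le_topOf x) hlx hu hcn)
  exact no_end_join G (by omega) C hS hl hzx hzx' hne (key x (by omega) h1 hcon.1)
    (key x' (by omega) h2 hcon.2)

end Pool.Agent.GaussPoset.Fi
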