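import Pool.Agent.W_448s8f_h76.FiN
import Pool.Agent.W_448s8f_h94.DgC

/-!
`m = 9`: no joins at all (MP_448cb3_co, S8).
-/

namespace Pool.Agent.GaussPoset.Fi

set_option linter.unusedSectionVars false

open Polynomial Finset

universe u

variable {P : Type u} [Fintype P] [PartialOrder P] [DecidableEq P] {r i m j K : ℕ}
  {N : Tops P → Finset P} {b : Tops P → ℕ} {θ : Tops P → P → ℕ}

/-- heavy ends have no natural elements below them -/
lemma WC.he_r2 (W : WC r i m K N b θ) {z x : P} (hl : lev z = 2 * m + 1) (hx : He i m N θ x)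
    (hzx : z ⋖ x) : z ∈ r2 (2 * m) N := by
  have HN := W.wi.natSys
  have key : ∀ y : P, lev y = 2 * m + 1 → y ∉ unnat N → y ⋖ x → False := by
    intro y hly hy hyx
    have h1 : y ∈ N (topOf y) := HN.mem_iff.mpr ⟨hy, rfl⟩
    rw [HN.cp y x hyx.1.le hy, hx.nat, mem_lowPart] at h1
    omega
  refine mem_sdiff.mpr ⟨?_, fun hY => ?_⟩
  · by_contra h
    exact key z hl h hzx
  · have T := W.wi.twSys
    have h2 := (T.cov hY).mpr hzx
    refine key _ ?_ (T.nat z hY) h2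
    have := (W.gt.H.covBy_iff.mp h2).2
    have := (W.gt.H.covBy_iff.mp hzx).2
    omega

/-- no elements below the end of a complete quadric, `m = 9` -/
theorem noHe9 (W : WC r 9 9 K N b θ) (hK : 91 ≤ K) (S7 : S7F P 9) {z x : P}
    (hl : lev z = 2 * 9 + 1) (hx : He 9 9 N θ x) (hzx : z ⋖ x) : False := by
  have H := W.gt.H
  have hzb := W.wi.mem_bd (W.he_r2 hl hx hzx) hl
  have hFH : ∀ y : P, Fd 9 y → He 9 9 N θ y → False := by
    intro y h1 h2
    have h3 := W.fold_th h1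
    have h4 := h2.th
    omega
  have hUH : ∀ y : P, Full 9 9 N θ y → He 9 9 N θ y → False := by
    intro y h1 h2
    have h3 := h1.th
    have h4 := h2.th
    have h5 := h2.lev
    omega
  rcases rows9 W hK S7 hzb hl with ⟨y, y', hy, hy', ht, hzy, hzy', hn⟩ |
    ⟨y, y', hy, hy', h1, ht, hzy, hzy', p, hp, hpr, htd, hn⟩ |
    ⟨y, y', hy, h1, ht, hne, hzy, hzy'⟩ | ⟨hF, h⟩
  · rcases uc_pair H hzy hzy' (fun h => ht (by rw [h])) hzx with e | e
    · rw [e] at hx
      exact hFH y hy hx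
    · rw [e] at hx
      exact hFH y' hy' hx
  · rcases uc_pair H hzy hzy' (fun h => ht (by rw [h])) hzx with e | e
    · rw [e] at hx
      exact hFH y hy hx
    · rw [e] at hx
      exact hUH y' hy' hx
  · rcases uc_pair H hzy hzy' hne hzx with e | e
    · rw [e] at hx
      exact hFH y hy hx
    · rw [e] at hx
      exact hne (hx.uniq y (by rw [ht]; exact le_topOf y) hy.1)
  · exact hUH x (hF x hzx) hx

/-- `m = 9`: no joins -/
theorem no_cross18' {K' : ℕ} {N' : Tops P → Finset P} {b' : Tops P → ℕ} {θ' : Tops P → P → ℕ}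
    (W : WC r 9 9 K N b θ) (hK : 91 ≤ K) (W' : WC r 8 9 K' N' b' θ') (hK' : 122 ≤ K')
    (S7 : S7F P 9) (hst : StarT 9 9 K N b θ) (hst' : StarT 8 9 K' N' b' θ')
    {z x x' : P} (hl : lev z = 2 * 9 + 1) (hzx : z ⋖ x)
    (hzx' : z ⋖ x') : topOf x = topOf x' := by
  have H := W.gt.H
  obtain ⟨-, hcc, hB⟩ := below9 W hK W' hK' S7 hst hst'
  refine no_cross18 W hK W' hK' S7 hst hst' ?_ hl hzx hzx'
  refine W.no_ff_odd (by norm_num) le_rfl ?_ (fun z x hl hx hzx => noHe9 W hK S7 hl hx hzx) S7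
  intro z x hl hz hx hzx
  rcases rows9 W hK S7 (W.wi.mem_bd hz hl) hl with ⟨y, y', hy, hy', ht, hzy, hzy', hn⟩ |
    ⟨y, y', hy, hy', h1, ht, hzy, hzy', p, hp, hpr, htd, hn⟩ |
    ⟨y, y', hy, h1, ht, hne, hzy, hzy'⟩ | ⟨hF, h⟩
  · rcases uc_pair H hzy hzy' (fun h => ht (by rw [h])) hzx with e | e
    · rw [e]
      exact ⟨y', hy', ht, hzy'⟩
    · rw [e]
      exact ⟨y, hy, Ne.symm ht, hzy⟩
  · exact (W.fd_not_full (hB z y y' hl hy h1 ht hzy hzy') hy').elim
  · exact (hcc z ⟨hl, y, y', hy, h1, ht, hne, hzy, hzy'⟩).elim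
  · exact (W.fd_not_full hx (hF x hzx)).elim

end Pool.Agent.GaussPoset.Fi
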