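import Pool.Agent.W_448s8f_h76.FiO
import Pool.Agent.W_448s8f_h15.StF

/-!
No joins on the levels 17 and 19, from the weight systems (MP_448cb3_co, S8).
-/

namespace Pool.Agent.GaussPoset.Fi

set_option linter.unusedSectionVars false

open Polynomial Finset

universe u

variable {P : Type u} [Fintype P] [PartialOrder P] [DecidableEq P] {r i m j K : ℕ}

/-- `j = 16` -/
theorem no_jn16_of (G : Win.GoodTo P r 16) {b : Tops P → ℕ}
    (h : ∃ (N : Tops P → Finset P) (θ : Tops P → P → ℕ), WC r 8 8 43 N b θ)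
    (S7 : S7F P 8) (z : P) (hl : lev z = 16 + 1) : ¬ Hul.Jn z := by
  obtain ⟨N, θ, W⟩ := h
  exact no_jn_of G (fun _ _ _ hl hzx hzx' =>
    no_cross16 W le_rfl S7 (W.starT_three (Or.inl ⟨rfl, rfl⟩)) hl hzx hzx') z hl

/-- `j = 18` -/
theorem no_jn18_of (G : Win.GoodTo P r 18) {b b' : Tops P → ℕ}
    (h : ∃ (N : Tops P → Finset P) (θ : Tops P → P → ℕ), WC r 9 9 91 N b θ)
    (h' : ∃ (N : Tops P → Finset P) (θ : Tops P → P → ℕ), WC r 8 9 122 N b' θ)
    (S7 : S7F P 9) (z : P) (hl : lev z = 18 + 1) : ¬ Hul.Jn z := by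
  obtain ⟨N, θ, W⟩ := h
  obtain ⟨N', θ', W'⟩ := h'
  exact no_jn_of G (fun _ _ _ hl hzx hzx' =>
    no_cross18' W le_rfl W' le_rfl S7 (W.starT_three (Or.inr (Or.inl ⟨rfl, rfl⟩)))
      (W'.starT_three (Or.inr (Or.inr ⟨rfl, rfl⟩))) hl hzx hzx') z hl

end Pool.Agent.GaussPoset.Fi
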