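import Pool.Agent.W_448s8f_h76.FjB

/-!
# The numbers of the fold joins (MP_448cb3_co, S8, `j = 12, 14`)
-/

namespace Pool.Agent.GaussPoset.Sm

set_option linter.unusedSectionVars false

open Finset Wd W4

universe u

variable {P : Type u} [Fintype P] [PartialOrder P] [DecidableEq P] {r j w : ℕ}
  {lo hi : Tops P → ℕ → ℕ} {e : Tops P → ℕ → ℕ → P}

/-- the cost of a straight end with the label `j - w - 1` -/
def stF (w j : ℕ) : ℕ := ∑ n ∈ range (j - w + 1), min (j - w - 1) n

lemma fjn_nab (H : Gr P r) {z x x' : P} (h : FJn j z x x') {k : ℕ} (hk : k ≤ j) :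
    nab k z = nab k x + nab k x' := h.1.sum H (by have := h.2.1; omega)

lemma fold_nab_min {x : P} (h : Fold j x) {k : ℕ} (hk : k ≤ j) :
    nab k x = min (k / 2) (j / 2) + 1 - (k - j / 2) := by
  have h1 := h.2.2 k hk
  omega

/-- the cost of a fold join with the label `j - w - 1` -/
lemma fjn_cst (H : Gr P r) {z x x' : P} (h : FJn j z x x') (hw : w + 2 ≤ j) :
    cst w (fun _ => j - w - 1) z = foC w j +
      ∑ n ∈ range (j - w + 1), min (j - w - 1) n * nab (w + n) x' := by
  have h2 := h.2.1
  rw [cst_shift (i := w) (a := j - w + 1) (by omega), Finset.sum_range_succ,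
    show w + (j - w + 1) = lev z by omega, nab_self]
  unfold foC
  rw [Finset.sum_congr rfl (g := fun n => min (j - w - 1) n *
    (min ((w + n) / 2) (j / 2) + 1 - ((w + n) - j / 2)) + min (j - w - 1) n * nab (w + n) x')
    (fun n hn => by
      rw [mem_range] at hn
      rw [fjn_nab H h (by omega), fold_nab_min h.2.2 (by omega)]
      ring), Finset.sum_add_distrib]
  have : min (j - w - 1) (j - w + 1) = j - w - 1 := by omega
  rw [this]
  ring

/-- the cost of a fold join of two fold ends -/
lemma fjn_FF (H : Gr P r) {z x x' : P} (h : FJn j z x x') (hf : Fold j x')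
    (hw : w + 2 ≤ j) : GaussPoset.cst w (fun _ => j - w - 1) z + (j - w - 1) = 2 * foC w j := by
  rw [fjn_cst H h hw, Finset.sum_congr rfl (g := fun n => min (j - w - 1) n *
    (min ((w + n) / 2) (j / 2) + 1 - ((w + n) - j / 2))) (fun n hn => by
      rw [mem_range] at hn
      rw [fold_nab_min hf (by omega)])]
  unfold foC
  ring

/-- the cost of a fold join of a partner with known extras -/
lemma fjn_cost (H : Gr P r) {z x x' : P} (h : FJn j z x x') (hw : w + 2 ≤ j)
    (hlow : ∀ k, k < w → GaussPoset.nab k x' = 1) :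
    (GaussPoset.cst w (fun _ => j - w - 1) z : ℤ) = foC w j + stF w j +
      (((j : ℤ) - w) * mX j x' - cX j x') := by
  have hl' : lev x' = j := by
    have := (h.1.lev_eq H).2
    have := h.2.1
    omega
  have h1 : ((∑ n ∈ range (j - w + 1), min (j - w - 1) n * GaussPoset.nab (w + n) x' : ℕ) : ℤ) =
      stF w j + ∑ n ∈ range (j - w), (n : ℤ) * ((GaussPoset.nab (w + n) x' : ℤ) - 1) := by
    unfold stF
    rw [Finset.sum_range_succ, Finset.sum_range_succ, show w + (j - w) = lev x' by omega, nab_self]
    push_cast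
    have h2 : ∀ n ∈ range (j - w), ((min (j - w - 1) n : ℕ) : ℤ) *
        (GaussPoset.nab (w + n) x' : ℤ) = ((min (j - w - 1) n : ℕ) : ℤ) +
          (n : ℤ) * ((GaussPoset.nab (w + n) x' : ℤ) - 1) := by
      intro n hn
      rw [mem_range] at hn
      rw [Nat.min_eq_right (by omega)]
      ring
    have h3 := Finset.sum_congr (s₁ := range (j - w)) rfl h2
    push_cast at h3
    rw [h3, Finset.sum_add_distrib]
    ring
  have h4 : ((j : ℤ) - w) * mX j x' - cX j x' =
      ∑ n ∈ range (j - w), (n : ℤ) * ((GaussPoset.nab (w + n) x' : ℤ) - 1) := by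
    unfold GaussPoset.mX GaussPoset.cX
    rw [Finset.mul_sum, ← Finset.sum_sub_distrib, show j = w + (j - w) by omega,
      Finset.sum_range_add, Finset.sum_eq_zero, zero_add, Nat.add_sub_cancel_left]
    · refine Finset.sum_congr rfl fun n hn => ?_
      push_cast
      ring
    · intro k hk
      rw [mem_range] at hk
      rw [hlow k (by omega)]
      norm_num
  rw [h4, fjn_cst H h hw]
  push_cast at h1 ⊢
  rw [h1]
  ring

/-- the parity of a fold join -/
lemma fjn_nst (H : Gr P r) {z x x' : P} (h : FJn j z x x') (hw : w + 2 ≤ j) :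
    nst w (fun _ => j - w - 1) z = foN w j + ∑ n ∈ range (j - w - 1), GaussPoset.nab (w + n) x' := by
  have h2 := h.2.1
  rw [nst_eq]
  unfold foN
  rw [← Finset.sum_add_distrib]
  refine Finset.sum_congr rfl fun n hn => ?_
  rw [mem_range] at hn
  rw [fjn_nab H h (by omega), fold_nab_min h.2.2 (by omega)]

/-- the parity of a fold join of a partner with known extras -/
lemma fjn_par (H : Gr P r) {z x x' : P} (h : FJn j z x x') (hw : w + 2 ≤ j)
    (hlow : ∀ k, k < w → GaussPoset.nab k x' = 1) (h1 : GaussPoset.nab (j - 1) x' = 1) :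
    (GaussPoset.nst w (fun _ => j - w - 1) z : ℤ) = foN w j + (j - w - 1 : ℕ) + mX j x' := by
  rw [fjn_nst H h hw]
  have h4 : mX j x' = ∑ n ∈ range (j - w - 1), ((GaussPoset.nab (w + n) x' : ℤ) - 1) := by
    unfold GaussPoset.mX
    rw [show j = w + (j - w - 1 + 1) by omega, Finset.sum_range_add, Finset.sum_eq_zero, zero_add,
      show w + (j - w - 1 + 1) - w - 1 = j - w - 1 by omega, Finset.sum_range_succ,
      show w + (j - w - 1) = j - 1 by omega, h1]
    · norm_num
    · intro k hk
      rw [mem_range] at hk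
      rw [hlow k (by omega)]
      norm_num
  rw [h4, Finset.sum_sub_distrib]
  simp only [Finset.sum_const, card_range]
  push_cast
  ring

/-- ends have one element of level `j - 1` above -/
lemma nab_end (H : Gr P r) {x : P} (hj : 1 ≤ j) (hl : lev x = j) (h1 : (Win.uc x).card = 1) :
    nab (j - 1) x = 1 := by
  classical
  rw [← h1]
  unfold nab
  congr 1
  ext y
  rw [mem_filter, mem_lv, Win.mem_uc]
  constructor
  · rintro ⟨g1, g2⟩
    refine H.covBy_iff.mpr ⟨lt_of_le_of_ne g2 (by rintro rfl; omega), by omega⟩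
  · intro g
    have := (H.covBy_iff.mp g).2
    exact ⟨by omega, g.1.le⟩

end Pool.Agent.GaussPoset.Sm
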