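import Pool.Agent.W_448s7s_h5.SrE

/-!
# S8 for `j = 12`, stage 1: the naive windows `0, …, 3`, no fold sides (MP_448cb3_co)
-/

namespace Pool.Agent.GaussPoset.Sm

set_option linter.unusedSectionVars false

open Finset Wd

universe u

variable {P : Type u} [Fintype P] [PartialOrder P] [DecidableEq P] {r : ℕ}

/-- ends -/
def Ef12 : List (ℕ × ℕ × ℕ) :=
    [(0, 0, 0), (1, 2, 1), (1, 3, 0), (1, 4, 0), (1, 5, 0), (1, 6, 0), (3, 9, 1), (5, 20, 1),
    (5, 25, 0), (8, 39, 1)]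

/-- sides, one level deeper -/
def Sf12a : List (ℕ × ℕ × ℕ) :=
    [(0, 0, 0), (0, 0, 1), (1, 1, 0), (1, 1, 1), (1, 2, 0), (1, 3, 0), (1, 4, 0), (1, 5, 0),
    (1, 6, 0), (2, 3, 1), (3, 6, 0), (3, 6, 1), (3, 9, 0), (4, 7, 1), (4, 10, 1), (5, 12, 1),
    (5, 15, 0), (5, 15, 1), (5, 20, 0), (5, 25, 0), (6, 13, 1), (6, 16, 1), (6, 21, 1),
    (7, 23, 1), (8, 24, 1), (8, 31, 0), (8, 31, 1), (8, 39, 0), (9, 33, 0), (9, 40, 1),
    (10, 34, 1)]

/-- sides, two or more levels deeper -/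
def Sf12b : List (ℕ × ℕ × ℕ) :=
    [(0, 0, 0), (0, 0, 1), (1, 1, 0), (1, 1, 1), (1, 1, 2), (1, 2, 0), (1, 3, 0), (1, 4, 0),
    (1, 5, 0), (1, 6, 0), (2, 3, 0), (2, 3, 1), (2, 3, 2), (3, 6, 0), (3, 6, 1), (3, 9, 0),
    (4, 7, 1), (4, 7, 2), (4, 7, 3), (4, 10, 0), (4, 10, 1), (4, 10, 2), (5, 12, 0),
    (5, 12, 1), (5, 15, 0), (5, 15, 1), (5, 20, 0), (5, 25, 0), (6, 13, 1), (6, 13, 2),
    (6, 13, 3), (6, 16, 1), (6, 16, 2), (6, 21, 0), (6, 21, 1), (7, 23, 0), (7, 23, 1),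
    (8, 24, 1), (8, 24, 2), (8, 24, 3), (8, 31, 0), (8, 31, 1), (8, 39, 0), (9, 33, 0),
    (9, 40, 0), (9, 40, 1), (10, 34, 1), (10, 34, 2)]

lemma chkEf12 : ChkE 12 Ef12 := by decide +kernel

lemma chkSf12a : ChkT 12 Sf12a := by decide +kernel

lemma chkSf12b : ChkS 12 2 Sf12b := by decide +kernel

/-- caps -/
def cf12 (w : ℕ) : ℤ :=
  if w = 0 then cap0 12 else if w = 1 then ((12 * (12 - 1) / 2 : ℕ) : ℤ) - 1 else if w = 2 then ((45 : ℕ) : ℤ) else ((35 : ℕ) : ℤ)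

/-- even noise -/
def nef12 (w : ℕ) (V : ℤ) : Bool :=
  if w = 0 then false else if w = 1 then nz 12 V else if w = 2 then (nz ((12 + 1 - 2 : ℕ) : ℤ) V || ([2] : List ℤ).elem V) else (nz ((12 + 1 - 3 : ℕ) : ℤ) V || ([-2] : List ℤ).elem V)

/-- odd noise -/
def nof12 (w : ℕ) (V : ℤ) : Bool :=
  if w = 0 then false else if w = 1 then false else if w = 2 then ([] : List ℤ).elem V else ([] : List ℤ).elem V

/-- lower bounds -/
def lwf12 (w : ℕ) : ℤ :=
  if w = 0 then 0 else if w = 1 then 0 else if w = 2 then (0) else (-2)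

lemma balf12 {lo hi : Tops P → ℕ → ℕ} {e : Tops P → ℕ → ℕ → P} (K : Ctx P r 12 lo hi e)
    (hF : NoFo P 12) (hJ : ∃ z : P, Hul.Jn z) :
    ∀ w ≤ 3, ∃ V, WinB P 12 w (cf12 w) (nof12 w) (nef12 w) (lwf12 w) V := by
  intro w hw
  have : w = 0 ∨ w = 1 ∨ w = 2 ∨ w = 3 := by omega
  rcases this with rfl | rfl | rfl | rfl
  · exact K.win0 hJ
  · exact K.win1 (by norm_num) chkEf12 (by decide +kernel) (by decide +kernel) hJ
  · exact K.win23' (w := 2) (cT := 45) (LE := [2]) (LO := []) (lb := 0) hF (by norm_num)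
      (by norm_num) chkEf12 (by decide +kernel)
      (fun h => absurd h (by norm_num))
      (by decide +kernel) (by decide +kernel)
      (fun h => absurd h (by norm_num))
      (fun _ => by decide +kernel)
      (fun _ => Or.inl ⟨by decide +kernel, by decide +kernel⟩)
      (by norm_num) (by norm_num) (by norm_num) (by decide +kernel) (by decide +kernel) hJ
  · exact K.win23' (w := 3) (cT := 35) (LE := [-2]) (LO := []) (lb := -2) hF (by norm_num)
      (by norm_num) chkEf12 (by decide +kernel)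
      (fun h => absurd h (by norm_num))
      (by decide +kernel) (by decide +kernel)
      (fun h => absurd h (by norm_num))
      (fun _ => by decide +kernel)
      (fun _ => Or.inl ⟨by decide +kernel, by decide +kernel⟩)
      (by norm_num) (by norm_num) (by norm_num) (by decide +kernel) (by decide +kernel) hJ

/-- caps as a list -/
def cfl12 : List (ℕ × ℕ) := [(12, 80), (11, 65), (10, 45), (9, 35)]

lemma capf12 : CapL 12 3 cf12 cfl12 := by decide +kernel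

/-- lines with `g + 300`, by `κ` -/
def tf12 : List (List ℕ) :=
  [[300], [294, 295, 296, 297, 298], [288, 289, 290, 291, 292, 293, 294, 295, 296, 303], [291,
    297, 298, 299, 300, 301, 302, 303], [285, 286, 287, 288, 289, 291, 292, 293, 294, 295, 296,
    297, 298, 299, 300, 301, 302, 303, 308], [275, 280, 294, 296, 297, 298, 299, 300, 301, 302,
    303, 304, 305, 306, 307, 308, 309], [269, 270, 271, 272, 273, 274, 275, 276, 277, 278, 282,
    288, 289, 290, 291, 292, 293, 294, 295, 296, 297, 298, 299, 300, 301, 302, 303, 304, 305,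
    306, 307, 308], [278, 283, 288, 291, 292, 293, 294, 295, 296], [261, 266, 271, 272, 273,
    274, 275, 276, 277, 278, 279, 280, 281, 282, 283, 284], [255, 256, 257, 258, 259], [250,
    255, 260]]

/-- lines with `g`, by `κ` -/
def Lf12 : List (List ℤ) :=
  [[0], [-6, -5, -4, -3, -2], [-12, -11, -10, -9, -8, -7, -6, -5, -4, 3], [-9, -3, -2, -1, 0,
    1, 2, 3], [-15, -14, -13, -12, -11, -9, -8, -7, -6, -5, -4, -3, -2, -1, 0, 1, 2, 3, 8],
    [-25, -20, -6, -4, -3, -2, -1, 0, 1, 2, 3, 4, 5, 6, 7, 8, 9], [-31, -30, -29, -28, -27,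
    -26, -25, -24, -23, -22, -18, -12, -11, -10, -9, -8, -7, -6, -5, -4, -3, -2, -1, 0, 1, 2,
    3, 4, 5, 6, 7, 8], [-22, -17, -12, -9, -8, -7, -6, -5, -4], [-39, -34, -29, -28, -27, -26,
    -25, -24, -23, -22, -21, -20, -19, -18, -17, -16], [-45, -44, -43, -42, -41], [-50, -45,
    -40]]

lemma Lf12_eq : Lf12 = tabI tf12 := by decide +kernel

lemma ff12a : fst1 cfl12 tf12 Sf12a = true := by decide +kernel

lemma ff12b : fst2 cfl12 tf12 Sf12b = true := by decide +kernel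

theorem tabf12 : Tab' 12 3 cf12 Lf12 Ef12 Sf12a Sf12b X0 := by
  refine ⟨by norm_num, chkEf12, chkSf12a, chkSf12b, ?_, ?_, ?_, ?_, ?_, ?_, ?_⟩
  · decide +kernel
  · decide +kernel
  · decide +kernel
  · decide +kernel
  · rw [Lf12_eq]
    exact chk1_of capf12 ff12a
  · rw [Lf12_eq]
    exact chk2_of (by norm_num) capf12 ff12b
  · decide +kernel

/-- the pairs of ends which are left -/
def Rf12 : List ((ℕ × ℕ × ℕ) × (ℕ × ℕ × ℕ)) :=
    [((1, 2, 1), (8, 39, 1)), ((1, 3, 0), (8, 39, 1)), ((1, 4, 0), (8, 39, 1)),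
    ((1, 5, 0), (8, 39, 1)), ((3, 9, 1), (5, 20, 1)), ((3, 9, 1), (8, 39, 1)),
    ((5, 20, 1), (3, 9, 1)), ((5, 20, 1), (5, 20, 1)), ((5, 20, 1), (5, 25, 0)),
    ((5, 20, 1), (8, 39, 1)), ((5, 25, 0), (5, 20, 1)), ((5, 25, 0), (5, 25, 0)),
    ((5, 25, 0), (8, 39, 1)), ((8, 39, 1), (1, 2, 1)), ((8, 39, 1), (1, 3, 0)),
    ((8, 39, 1), (1, 4, 0)), ((8, 39, 1), (1, 5, 0)), ((8, 39, 1), (3, 9, 1)),
    ((8, 39, 1), (5, 20, 1)), ((8, 39, 1), (5, 25, 0)), ((8, 39, 1), (8, 39, 1))]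

lemma restf12 : rest 12 Ef12 X0 (ubd 12 3 cf12 lwf12 Lf12 nof12 nef12 250 8) = Rf12 := by
  decide +kernel

/-- the sides of a join of level `13` which is no fold join -/
theorem leftf12 {lo hi : Tops P → ℕ → ℕ} {e : Tops P → ℕ → ℕ → P} (K : Ctx P r 12 lo hi e)
    {z x x' : P} (h : Cg z x x') (hl : lev z = 13) (hx : ¬ Fold 12 x) (hx' : ¬ Fold 12 x') :
    ∃ s s', (s, s') ∈ Rf12 ∧ Dt 12 x s ∧ Dt 12 x' s' := by
  have hok : ∀ y : P, lev y = 12 → ¬ Fold 12 y → Sok 12 y := fun y hy hf =>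
    ⟨fun hh => by have := hh.1; omega, fun _ => hf⟩
  obtain ⟨l1, l2⟩ := h.lev_eq K.gt.H
  have h1 := K.left' (noP_zero 12) (noFo_big le_rfl) tabf12
    (balf12 K (noFo_big le_rfl) ⟨z, h.jn⟩) 250 8 h hl (hok x (by omega) hx) (hok x' (by omega) hx')
  rw [restf12] at h1
  exact h1

end Pool.Agent.GaussPoset.Sm
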