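import Pool.Agent.W_448s7_h27.PhB
import Pool.Agent.W_448s8f_h76.FkA
import Pool.Agent.W_448s8f_h76.FjD

/-!
# The profiles of the ends for `j = 12` (MP_448cb3_co, S8)
-/

namespace Pool.Agent.GaussPoset.Sm

set_option linter.unusedSectionVars false

open Finset Wd W4

universe u

variable {P : Type u} [Fintype P] [PartialOrder P] [DecidableEq P] {r j w : ℕ}

/-- extra elements on the level `k` -/
def xL (w : List Ltr) (A : Finset ℕ) (a k : ℕ) : ℕ := if a ≤ k then xA w A (k - a) else 0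

/-- extra elements on the levels `7, …, 11` -/
def sL (w : List Ltr) (A : Finset ℕ) (a : ℕ) : ℕ :=
  xL w A a 7 + xL w A a 8 + xL w A a 9 + xL w A a 10 + xL w A a 11

/-- the profiles of the ends of level `12` -/
def ChkP12 (S : List (ℕ × ℕ × ℕ × ℕ × ℕ × ℕ)) : Prop :=
  ∀ a ∈ range 13, 4 ≤ a → ∀ w ∈ wds 12 a, w.length = 12 - a →
    ∀ A ∈ (Icc (Lw w (w.length + 3)) (Hw w (w.length + 3))).powerset, A.Nonempty →
      condA 0 w A → (mA w A, dA w A, rhA w A, xL w A a 6, xL w A a 7, sL w A a) ∈ S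

instance (S : List (ℕ × ℕ × ℕ × ℕ × ℕ × ℕ)) : Decidable (ChkP12 S) := by
  unfold ChkP12; infer_instance

/-- the profiles -/
def P12 : List (ℕ × ℕ × ℕ × ℕ × ℕ × ℕ) :=
  [(0, 0, 0, 0, 0, 0), (1, 2, 1, 0, 0, 1), (1, 3, 0, 0, 0, 1), (1, 4, 0, 0, 0, 1),
   (1, 5, 0, 0, 1, 1), (1, 6, 0, 1, 0, 0), (3, 9, 1, 0, 0, 3), (5, 20, 1, 1, 1, 4),
   (5, 25, 0, 1, 1, 3), (8, 39, 1, 1, 1, 5)]

lemma chkP12 : ChkP12 P12 := by decide +kernel

section

variable {t : Tops P} {lo hi : ℕ → ℕ} {e : ℕ → ℕ → P} {a : ℕ}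

/-- the side of a late component, with all levels -/
theorem late_prof (G : Win.GoodTo P r j) (hj : 5 ≤ j) (C : Cp.Comp j (t : P) lo hi e)
    (h0 : 2 ≤ a) (h1 : a ≤ j) (h2 : ∀ k, k < a → lo k = 0 ∧ hi k = 0) (h3 : lo a = 0 ∧ hi a = 1)
    {x : P} (hx : x ∈ onlyB t) (hl : j ≤ lev x) (hend : lev x = j → (Win.uc x).card = 1)
    {W : List Ltr} (hW : word lo hi a (j - a) = W) :
    ∃ A ∈ (Icc (Lw W (W.length + 3)) (Hw W (W.length + 3))).powerset, A.Nonempty ∧
      (∀ q, lev x = j + q → condA q W A) ∧ (lev x = j + 1 → condB W A) ∧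
      mX j x = mA W A ∧ cX j x = dA W A ∧
      (nab j x : ℤ) - 1 = ((A.card - 1 : ℕ) : ℤ) ∧ nab (j - 2) x = rhA W A + 1 ∧
      (∀ k, k < j → nab k x = xL W A a k + 1) := by
  classical
  have H := G.H
  have hg := G.good
  obtain ⟨d, rfl⟩ : ∃ d, j = a + d := ⟨j - a, by omega⟩
  rw [Nat.add_sub_cancel_left] at hW
  have hlen : W.length = d := by rw [← hW, word_length]
  have hL : ∀ n, n ≤ d → Lw W (n + 3) = lo (a + n) := by
    rw [← hW]
    exact lo_word (a := a) (d := d) C.lo_step h3.1 (hi := hi) le_rfl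
  have hH : ∀ n, n ≤ d → Hw W (n + 3) = hi (a + n) := by
    rw [← hW]
    exact hi_word (a := a) (d := d) C.hi_step h3.2 (lo := lo) le_rfl
  have hL' : ∀ n, n ≤ d + 3 → Lw W n = lo (a + n - 3) := by
    intro n hn
    rcases Nat.lt_or_ge n 3 with h | h
    · rw [(h2 (a + n - 3) (by omega)).1]
      unfold Lw
      rw [show n - 3 = 0 by omega]
      simp
    · obtain ⟨n', rfl⟩ : ∃ n', n = n' + 3 := ⟨n - 3, by omega⟩
      rw [hL n' (by omega)]
      rfl
  have hH' : ∀ n, n ≤ d + 3 → Hw W n = hi (a + n - 3) := by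
    intro n hn
    rcases Nat.lt_or_ge n 3 with h | h
    · rw [(h2 (a + n - 3) (by omega)).2]
      unfold Hw
      rw [if_pos h]
    · obtain ⟨n', rfl⟩ : ∃ n', n = n' + 3 := ⟨n - 3, by omega⟩
      rw [hH n' (by omega)]
      rfl
  have hpl : Lw W (W.length + 2) = lo (a + d - 1) := by
    rw [hlen, hL' _ (by omega)]
    rfl
  have hph : Hw W (W.length + 2) = hi (a + d - 1) := by
    rw [hlen, hH' _ (by omega)]
    rfl
  have hone : ∀ k, k < a → (nab k x : ℤ) - 1 = 0 := by
    intro k hk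
    rw [nab_one_of_eq C hx (by omega) (by omega) (by rw [(h2 k hk).1, (h2 k hk).2])]
    norm_num
  set A := posA (a + d) lo hi e x with hA
  have hxA : ∀ n, n < d → (nab (a + n) x : ℤ) - 1 = xA W A n := by
    intro n hn
    have h4 := nab_pos H hg C hx hl (k := a + n) (by omega)
    have h5 := one_le_nab (l := a + n) (z := x) (by omega)
    unfold xA
    rw [hL n hn.le, hH n hn.le, hlen, h4, ← hA, show a + d - (a + n) = d - n by omega]
    rw [h4, ← hA, show a + d - (a + n) = d - n by omega] at h5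
    omega
  have hcard := card_posA C hx
  have hnj := one_le_nab (l := a + d) (z := x) hl
  rw [hcard, ← hA] at hnj
  obtain ⟨c1, c2⟩ := pos_cond G (by omega) C hx hl hend
  rw [← hA] at c1 c2
  refine ⟨A, ?_, Finset.card_pos.mp hnj, ?_, ?_, ?_, ?_, ?_, ?_, ?_⟩
  · rw [Finset.mem_powerset, hlen, hL d le_rfl, hH d le_rfl]
    intro s hs
    rw [hA, mem_posA] at hs
    exact mem_Icc.mpr hs.1
  · intro q hq
    refine ⟨fun hq0 => ?_, fun hq1 => ?_⟩
    · obtain ⟨g1, g2⟩ := c1 (by omega)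
      refine ⟨g1, fun s hs => ?_⟩
      unfold EndP
      rw [hpl, hph]
      exact g2 s hs
    · obtain ⟨g1, g2⟩ := c2 (by omega)
      refine ⟨g1, g2.imp id fun g s hs => ?_⟩
      unfold EndP
      rw [hpl, hph]
      exact g s hs
  · intro hlx hc s hs
    have g := pos_pen G (by omega) C hx hlx hc s hs
    unfold PenP EndP LCw RCw
    rw [hlen, hL' _ (by omega), hL' _ (by omega), hL' _ (by omega), hH' _ (by omega),
      hH' _ (by omega), hH' _ (by omega)]
    rcases g with g | ⟨⟨g1, g2, g3, g4⟩, g5⟩ | ⟨⟨g1, g2, g3, g4⟩, g5⟩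
    · exact Or.inl g
    · right; left
      rw [show a + (d + 1) - 3 = a + d - 1 - 1 by omega, show a + d - 3 = a + d - 1 - 2 by omega,
        show a + (d + 2) - 3 = a + d - 1 by omega]
      exact ⟨⟨g2, g3⟩, g5⟩
    · right; right
      rw [show a + (d + 1) - 3 = a + d - 1 - 1 by omega, show a + d - 3 = a + d - 1 - 2 by omega,
        show a + (d + 2) - 3 = a + d - 1 by omega]
      exact ⟨⟨g2, g3⟩, g5⟩
  · unfold mX mA
    rw [Finset.sum_range_add, Finset.sum_eq_zero fun k hk => hone k (mem_range.mp hk), zero_add,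
      hlen, Nat.cast_sum]
    exact Finset.sum_congr rfl fun n hn => hxA n (mem_range.mp hn)
  · unfold cX dA
    rw [Finset.sum_range_add, Finset.sum_eq_zero fun k hk => by
      rw [hone k (mem_range.mp hk), zero_mul], zero_add, hlen, Nat.cast_sum]
    refine Finset.sum_congr rfl fun n hn => ?_
    rw [hxA n (mem_range.mp hn), Nat.cast_mul]
    rw [mem_range] at hn
    congr 1
    omega
  · rw [hcard, ← hA]
    omega
  · unfold rhA
    rw [hlen]
    split_ifs with hd
    · have h4 := hxA (d - 2) (by omega)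
      rw [show a + (d - 2) = a + d - 2 by omega] at h4
      omega
    · have h4 := hone (a + d - 2) (by omega)
      omega
  · intro k hk
    unfold xL
    split_ifs with hd
    · have h4 := hxA (k - a) (by omega)
      rw [show a + (k - a) = k by omega] at h4
      omega
    · have h4 := hone k (by omega)
      omega

end

end Pool.Agent.GaussPoset.Sm
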