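import Pool.Agent.W_448s8f_h76.FkE
import Pool.Agent.W_448s7_h27.PhF

/-!
# The inputs and the output of window `6` for `j = 12`, energies `23`, `24`, `25`
(MP_448cb3_co, S8)
-/

namespace Pool.Agent.GaussPoset.Sm

set_option linter.unusedSectionVars false

open Finset Wd W4

universe u

variable {P : Type u} [Fintype P] [PartialOrder P] [DecidableEq P] {r j w : ℕ}
  {lo hi : Tops P → ℕ → ℕ} {e : Tops P → ℕ → ℕ → P}

lemma p12_d : ∀ q ∈ P12, (q.1, q.2.1, q.2.2.1) ∈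
    ([(5, 20, 1), (8, 39, 1)] : List (ℕ × ℕ × ℕ)) →
    q.2.2.2.1 = 1 ∧ q.2.2.2.2.1 = 1 ∧ (q.2.2.2.2.2 = 4 ∨ q.2.2.2.2.2 = 5) := by
  decide +kernel

/-- the data are unique -/
lemma dt_uni {x : P} {m c b m' c' b' : ℕ} (h : Dt j x (m, c, b)) (h' : Dt j x (m', c', b')) :
    m = m' ∧ c = c' ∧ b = b' := by
  have e1 : (m : ℤ) = m' := h.1.symm.trans h'.1
  have e2 : (c : ℤ) = c' := h.2.1.symm.trans h'.2.1
  have e3 := h.2.2.symm.trans h'.2.2
  simp only at e3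
  refine ⟨by exact_mod_cast e1, by exact_mod_cast e2, by omega⟩

/-- **the hypothesis of window `6`, energies `23`, `24`, `25`** -/
theorem Ctx.hJ2 (K : Ctx P r 12 lo hi e) (hL : FoL P 12 [(5, 20, 1), (8, 39, 1)])
    {z x x' : P} (hz : lev z = 13) (hzx : z ⋖ x)
    (hzx' : z ⋖ x') (hne : topOf x ≠ topOf x')
    (hx : (nab 6 x = 2 ∧ nab 7 x = 1) ∨ 3 ≤ nab 6 x) :
    (nab 6 z = 6 ∧ nab 7 z = 5 ∧
      (nab 7 z + nab 8 z + nab 9 z + nab 10 z + nab 11 z + nab 12 z + 1 = 23 ∨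
        nab 7 z + nab 8 z + nab 9 z + nab 10 z + nab 11 z + nab 12 z + 1 = 24)) ∨
    (nab 6 z = 8 ∧ nab 7 z = 6 ∧
      nab 7 z + nab 8 z + nab 9 z + nab 10 z + nab 11 z + nab 12 z + 1 = 25) := by
  have H := K.gt.H
  have h := K.cg hz hzx hzx' hne
  have hl := (h.lev_eq H).1
  have hl' := (h.lev_eq H).2
  obtain ⟨u1, u2⟩ := K.ends h hz
  obtain ⟨s1, s2, s3⟩ := cg_sum H h hz
  have key : ∀ y y' : P, Cg z y y' → Fold 12 y → (Win.uc y').card = 1 → lev y' = 12 →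
      nab 6 z = nab 6 y + nab 6 y' → nab 7 z = nab 7 y + nab 7 y' →
      nab 7 z + nab 8 z + nab 9 z + nab 10 z + nab 11 z + nab 12 z =
        (nab 7 y + nab 8 y + nab 9 y + nab 10 y + nab 11 y + nab 12 y) +
        (nab 7 y' + nab 8 y' + nab 9 y' + nab 10 y' + nab 11 y' + nab 12 y') →
      (nab 6 z = 6 ∧ nab 7 z = 5 ∧
      (nab 7 z + nab 8 z + nab 9 z + nab 10 z + nab 11 z + nab 12 z + 1 = 23 ∨
        nab 7 z + nab 8 z + nab 9 z + nab 10 z + nab 11 z + nab 12 z + 1 = 24)) ∨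
    (nab 6 z = 8 ∧ nab 7 z = 6 ∧
      nab 7 z + nab 8 z + nab 9 z + nab 10 z + nab 11 z + nab 12 z + 1 = 25) := by
    intro y y' hy hf uy ly t1 t2 t3
    obtain ⟨f1, f2, f3⟩ := fold_n12 hf
    rcases hL z y y' ⟨hy, hz, hf⟩ with hf' | ⟨⟨m', c', b'⟩, g0, g0'⟩
    · obtain ⟨f1', f2', f3'⟩ := fold_n12 hf'
      omega
    by_cases hf' : Fold 12 y'
    · obtain ⟨f1', f2', f3'⟩ := fold_n12 hf'
      omega
    · obtain ⟨m, c, b, p, q, s, g1, g1', g2, g3, g4⟩ := K.endP hy.only' ly uy hf'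
      obtain ⟨rfl, rfl, rfl⟩ := dt_uni g1' g0'
      have g5 := p12_d _ g1 g0
      simp only at g5
      omega
  by_cases hf : Fold 12 x
  · exact key x x' h hf u2 (by omega) s1 s2 s3
  by_cases hf' : Fold 12 x'
  · exact key x' x h.symm hf' u1 (by omega) (by omega) (by omega) (by omega)
  exfalso
  obtain ⟨s, s', g1, g2, g3⟩ := leftf12 K h hz hf hf'
  obtain ⟨m, c, b, p, q, t, k1, k2, k3, k4, k5⟩ := K.endP h.only (by omega) u1 hf
  obtain ⟨m', c', b'⟩ := s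
  obtain ⟨rfl, rfl, rfl⟩ := dt_uni k2 g2
  have g4 := p12_b _ g1 _ k1 rfl rfl
  simp only at g4
  omega

/-- no fold joins -/
theorem nf_of_six (hL : ∀ z x x' : P, lev z = 13 → z ⋖ x → z ⋖ x' → topOf x ≠ topOf x' →
      3 ≤ nab 6 x → False) : Sm.NF P 12 := by
  intro z x x' h hz hf
  obtain ⟨f1, f2, f3⟩ := fold_n12 hf
  exact hL z x x' hz h.cov h.cov' h.ne (by omega)

end Pool.Agent.GaussPoset.Sm
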