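import Pool.Agent.W_448s8f_h76.FkF
import Pool.Agent.W_448w6_h53.WeF

/-!
# Level `12` after window `6`, energies at most `20` (MP_448cb3_co, S8)
-/

namespace Pool.Agent.GaussPoset.Sm

set_option linter.unusedSectionVars false

open Finset Wd W4

universe u

variable {P : Type u} [Fintype P] [PartialOrder P] [DecidableEq P] {r j w : ℕ}
  {lo hi : Tops P → ℕ → ℕ} {e : Tops P → ℕ → ℕ → P}

/-- **after the windows `0, …, 3` (naive) and window `6` up to energy `20`** -/
theorem Ctx.st2 (K : Ctx P r 12 lo hi e) :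
    NoCC P 12 ∧ FoL P 12 [(1, 5, 0), (3, 9, 1), (5, 20, 1), (5, 25, 0), (8, 39, 1)] := by
  obtain ⟨h1, -, h3⟩ := W6.level12a K fun z x x' hz hzx hzx' hne hx => by
    have := K.hJ1 hz hzx hzx' hne hx
    unfold W6.S13
    exact this
  refine ⟨K.noCC_of h1, K.foL_20 fun z x x' hz hzx hzx' hne hx => ?_⟩
  obtain ⟨k1, k2⟩ := h3 z x x' hz hzx hzx' hne hx
  unfold W6.S13 at k1 k2
  refine ⟨k1, fun h => k2 ⟨h.1, h.2.1, by have := h.2.2; omega⟩⟩

/-- **after the kills of the pairs with `(1, 5)`, `(3, 9)`, `(5, 25)`: no fold joins** -/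
theorem Ctx.st7 (K : Ctx P r 12 lo hi e) (hL : FoL P 12 [(5, 20, 1), (8, 39, 1)]) :
    Sm.NF P 12 := by
  obtain ⟨h1, -, -, -⟩ := W6.level12 K fun z x x' hz hzx hzx' hne hx => by
    have := K.hJ2 hL hz hzx hzx' hne hx
    unfold W6.S13
    exact this
  exact nf_of_six fun z x x' hz hzx hzx' hne hx => h1 z x x' hz hzx hzx' hne (Or.inr hx)

end Pool.Agent.GaussPoset.Sm
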