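import Pool.Agent.W_448f4_h70.GT
import Pool.Agent.W_448s8f_h76.FkG

/-!
# The windows `2`, `3` with the larger labels at the value of the own pair of level `j + 3`
(MP_448cb3_co, S8)
-/

namespace Pool.Agent.GaussPoset.Sm

set_option linter.unusedSectionVars false

open Polynomial Finset W4 Cp

universe u

variable {P : Type u} [Fintype P] [PartialOrder P] [DecidableEq P] {r j w K0 K : ℕ}
  {N : Tops P → Finset P} {b : Tops P → ℕ} {θ : Tops P → P → ℕ} {XE XO : ℕ → Prop}

/-- the outcomes for a cheapest element, without the even own values -/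
def OutR (j w K : ℕ) (XE XO : ℕ → Prop) (h : P → ℕ) (z : P) (v : ℕ) : Prop :=
  K < v ∨ (nab w z = nab (w + h z) z + 1 ∧
    ((Even (nst w h z) ∧ XE v) ∨ (Odd (nst w h z) ∧ (OdN j w v ∨ XO v)) ∨
      (∃ x x', Cg z x x' ∧ Sok j x ∧ Sok j x') ∧ v = ful w z ∧ h z = lev z - w))

/-- the outcomes of a twin, without the even own values -/
def OutTR (j w K : ℕ) (XE XO : ℕ → Prop) (N : Tops P → Finset P) (b : Tops P → ℕ)
    (θ : Tops P → P → ℕ) (x : P) : Prop :=
  K < tcS j w N b θ x ∨ ∃ L, TmS j w N b θ x = Lt w (fun _ => L) x ∧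
    nab w x = nab (w + L) x + 1 ∧
    ((Even (nst w (fun _ => L) x) ∧ XE (tcS j w N b θ x)) ∨
      (Odd (nst w (fun _ => L) x) ∧ (OdN j w (tcS j w N b θ x) ∨ XO (tcS j w N b θ x))))

lemma outR_congr {h h' : P → ℕ} {z : P} {v : ℕ} (e : h z = h' z)
    (H : OutR j w K XE XO h z v) : OutR j w K XE XO h' z v := by
  unfold OutR at H ⊢
  rw [nst_eq, e] at H
  rw [nst_eq]
  exact H

/-- the outcome of an admissible value -/
lemma Okv.outR {n u : ℕ} (h : Okv K XE XO n u) {g : P → ℕ} {z : P}
    (hn : nst w g z = n) (hd : nab w z = nab (w + g z) z + 1) : OutR j w K XE XO g z u := by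
  rcases h with h | h | h
  · exact Or.inl h
  · exact Or.inr ⟨hd, Or.inl ⟨by rw [hn]; exact h.1, h.2⟩⟩
  · exact Or.inr ⟨hd, Or.inr (Or.inl ⟨by rw [hn]; exact h.1, Or.inr h.2⟩)⟩

/-- **elements below a deep cell of level at least `j + 1`** -/
theorem Wk.dp_cellsR (W : Wk r j w K0 N b θ) (hw2 : 2 ≤ w) (hj6 : 6 ≤ j)
    (hC : CellsN P j w K0 K N b θ XE XO) {v : ℕ} {z x : P} (hz : z ∈ bdR (rA N))
    (hc : cst w (hS j w N b θ) z = v) (hx : x ∉ rA N) (hzx : z ⋖ x) (hlx : j + 1 ≤ lev x)
    (hD : Dk j w K0 N θ (GaussPoset.bs N x)) (hR : ¬ Row1 j w N θ (GaussPoset.bs N x)) :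
    OutR j w K XE XO (hS j w N b θ) z v := by
  classical
  have H := W.gt.H.gradedBelow
  have hj := W.hj
  have hw := W.hw
  obtain ⟨x1, h1, h2, h3, hR1, h4⟩ := W.deep_minN hz hx hzx hlx hD hR
  have g7 := W.bs h1
  have e1 := H.lev_covBy hzx
  have e2 := H.lev_covBy h2
  have e4 := g7.lev
  have hth := h3.th
  have hcells := hC _ g7.nat (by omega) h3 hR1
  have hcg : ∀ L, cst w (fun _ => L) (GaussPoset.bs N x1) = cst w (fun _ => L) x1 := fun L =>
    cst_const_congr g7.lev g7.nab
  by_cases hp : PenS j w N b θ z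
  · -- below a special cell
    obtain ⟨p1, p2, p3⟩ := W.penS hp
    obtain ⟨-, x2, q1, q2, q3, q4⟩ := hp
    have hpS : PenS j w N b θ z := ⟨(mem_bdR.mp hz).1, x2, q1, q2, q3, q4⟩
    have hx12 := q3 x1 h2
    subst hx12
    have hS1 := hS_of hpS
    have hv : v = cst w (fun _ => j - w + 1) (GaussPoset.bs N x1) + (j - w + 1) := by
      rw [← hc, cst_const, hS1, p1, cst_only (h := fun _ => j - w + 1) H h2 q3, hcg,
        Nat.min_eq_left (by omega)]
    rcases hcells with h | h | ⟨-, h⟩ | h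
    · left
      rw [hv]
      unfold C1 at h
      have h5 : θ (topOf (GaussPoset.bs N x1)) (GaussPoset.bs N x1) + 1 = j - w := by omega
      rw [h5] at h
      have h6 : cst w (fun _ => j - w) (GaussPoset.bs N x1) ≤
          cst w (fun _ => j - w + 1) (GaussPoset.bs N x1) := by
        unfold cst ez
        refine Finset.sum_le_sum fun y _ => ?_
        split_ifs
        · simp only
          omega
        · exact le_rfl
      omega
    · exact absurd q4 (h.not_spc hw2 hw hj6)
    · rw [hv]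
      refine h.pen.outR ?_ ?_
      · refine nst_bs (by rw [hS1, p1]) g7.nab (by omega) fun k hk => ?_
        exact nab_only q3 h2 (by omega)
      · obtain ⟨Nc, co, C⟩ := q4
        have a1 := C.nab (by omega) (k := w) (by omega)
        rw [hS1, p1, nab_only q3 h2 (by omega), nab_only q3 h2 (by omega),
          show w + (j - w + 1) = lev x1 by omega, nab_self]
        rcases g7.nab w with h6 | h6
        · omega
        · omega
    · exfalso
      have e9 := W.bs_self h.ntw
      obtain ⟨y, hy, hne⟩ := h.nop z hz (by rw [e9]; exact h2)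
      rw [e9] at hne
      exact hne (q3 y hy)
  · -- the canonical label
    have hnc : ¬ CEl j w N θ z := by
      rintro ⟨-, h, -⟩
      omega
    have hS1 : hS j w N b θ z = θ (topOf (GaussPoset.bs N x1)) (GaussPoset.bs N x1) + 1 := by
      rw [hS_not hp, hC_not hnc, h4]
    by_cases honly : ∀ y, z ⋖ y → y = x1
    · have hns : ¬ Spc j w N b θ (GaussPoset.bs N x1) := fun hs =>
        hp ⟨(mem_bdR.mp hz).1, x1, h1, h2, honly, hs⟩
      have hv : v = C1 w θ (GaussPoset.bs N x1) := by
        unfold C1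
        rw [← hc, cst_const, hS1, cst_only (h := fun _ =>
          θ (topOf (GaussPoset.bs N x1)) (GaussPoset.bs N x1) + 1) H h2 honly, hcg,
          Nat.min_eq_left (by omega)]
      rcases hcells with h | h | ⟨h, -⟩ | h
      · left
        omega
      · rw [hv]
        refine h.pen.outR ?_ ?_
        · refine nst_bs hS1 g7.nab (by omega) fun k hk => ?_
          exact nab_only honly h2 (by omega)
        · have a1 := h.drop
          have a2 := h.th
          rw [hS1, nab_only honly h2 (by omega), nab_only honly h2 (by omega)]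
          rcases g7.nab w with h6 | h6
          · rcases g7.nab (w + (θ (topOf (GaussPoset.bs N x1)) (GaussPoset.bs N x1) + 1)) with
              h7 | h7
            · omega
            · omega
          · omega
      · exact absurd h hns
      · exfalso
        have e9 := W.bs_self h.ntw
        obtain ⟨y, hy, hne⟩ := h.nop z hz (by rw [e9]; exact h2)
        rw [e9] at hne
        exact hne (honly y hy)
    · push Not at honly
      obtain ⟨y, hy, hne⟩ := honly
      left
      have h5 := cst_two (w := w)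
        (h := θ (topOf (GaussPoset.bs N x1)) (GaussPoset.bs N x1) + 1) H h2 hy (Ne.symm hne)
        (by omega) (by omega)
      have h6 : C1 w θ (GaussPoset.bs N x1) +
          (θ (topOf (GaussPoset.bs N x1)) (GaussPoset.bs N x1) + 1) ≤ v := by
        rw [← hc, cst_const, hS1]
        unfold C1
        rw [hcg]
        exact h5
      rcases hcells with h | h | ⟨hs, h⟩ | h
      · omega
      · rcases h.two with h7 | ⟨h7, h8⟩
        · omega
        · have e9 := W.bs_self h7
          have h9 := h8 z y (by rw [e9]; exact h2) hy (by rw [e9]; exact hne)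
          rw [← hS1, ← cst_const, hc] at h9
          exact h9
      · have a1 := h.two
        obtain ⟨Nc, co, C⟩ := hs
        have a2 := C.th
        omega
      · rcases h.two with h7 | h8
        · omega
        · have e9 := W.bs_self h.ntw
          have h9 := h8 z y (by rw [e9]; exact h2) hy (by rw [e9]; exact hne)
          rw [← hS1, ← cst_const, hc] at h9
          exact h9

/-- **the twins of deep cells** -/
theorem Wk.dt_cellsR (W : Wk r j w K0 N b θ) (hw2 : 2 ≤ w) (hj6 : 6 ≤ j)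
    (hC : CellsN P j w K0 K N b θ XE XO) {x : P} (hx : x ∈ twA N)
    (hD : Dk j w K0 N θ (twT N x)) (hR : ¬ Row1 j w N θ (twT N x)) :
    OutTR j w K XE XO N b θ x := by
  classical
  have H := W.gt.H.gradedBelow
  have hj := W.hj
  have hw := W.hw
  have hl := (W.tw_cases hx).1
  have T := W.twn hx
  have hup := W.twSys.up x hx
  have hll : lev (twT N x) = lev x := lev_eq_of_up hup
  have hnb : ∀ k, k < lev x → nab k (twT N x) = nab k x := fun k hk => nab_congr_up hup hk
  have hth := hD.th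
  have hnat := W.twSys.nat x hx
  have e1 : thA N θ (twT N x) = θ (topOf (twT N x)) (twT N x) := W.thA_nat hnat
  have hlv : j + 1 ≤ lev (twT N x) := by
    have := W.lt_lev (mem_twA.mp hx).1
    omega
  have e2 : tcst w (thA N θ) (twT N x, x) = C1 w θ (twT N x) - 1 := by
    rw [tcst_cst T]
    unfold C1
    simp only
    rw [e1]
    omega
  by_cases hs : Spc j w N b θ (twT N x)
  · have h1 : tcS j w N b θ x = tcst w (thA N θ) (twT N x, x) + 2 := W.tcS_spc hx hs
    have T' := W.twnS hx hs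
    rcases hC _ hnat hlv hD hR with h | h | ⟨-, h⟩ | h
    · left
      omega
    · exact absurd hs (h.not_spc hw2 hw hj6)
    · have h2 : tcS j w N b θ x = cst w (fun _ => j - w + 1) (twT N x) + (j - w) := by
        unfold tcS
        rw [if_pos hs, tcst_cst T']
      have h3 : TmS j w N b θ x = Lt w (fun _ => j - w + 1) x := by
        unfold TmS
        rw [if_pos hs, Tm_gen H T']
      obtain ⟨Nc, co, C⟩ := hs
      have hlC := C.lev (by omega)
      have a1 := C.nab (by omega) (k := w) (by omega)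
      have hn : nst w (fun _ => j - w + 1) x = nst w (fun _ => j - w + 1) (twT N x) := by
        rw [nst_eq, nst_eq]
        refine Finset.sum_congr rfl fun k hk => ?_
        rw [mem_range] at hk
        exact (hnb _ (by omega)).symm
      rcases h.twn with (h4 | h4 | h4) | h4
      · left
        omega
      · right
        refine ⟨j - w + 1, h3, ?_, Or.inl ⟨by rw [hn]; exact h4.1, by rw [h2]; exact h4.2⟩⟩
        rw [← hnb w (by omega), show w + (j - w + 1) = lev x by omega, nab_self]
        omega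
      · right
        refine ⟨j - w + 1, h3, ?_, Or.inr ⟨by rw [hn]; exact h4.1, Or.inr (by rw [h2]; exact h4.2)⟩⟩
        rw [← hnb w (by omega), show w + (j - w + 1) = lev x by omega, nab_self]
        omega
      · exact absurd hup (h4 x T.ne.symm)
    · exact absurd hup (h.ntw x T.ne.symm)
  · have h2 : tcS j w N b θ x = C1 w θ (twT N x) - 1 := by
      unfold tcS
      rw [if_neg hs, e2]
    rcases hC _ hnat hlv hD hR with h | h | ⟨h, -⟩ | h
    · left
      omega
    · have h3 : TmS j w N b θ x = Lt w (fun _ => θ (topOf (twT N x)) (twT N x) + 1) x := by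
        unfold TmS
        rw [if_neg hs, Tm_gen H T]
        simp only
        rw [e1]
      have a1 := h.drop
      have a2 := h.th
      have hn : nst w (fun _ => θ (topOf (twT N x)) (twT N x) + 1) x =
          nst w (fun _ => θ (topOf (twT N x)) (twT N x) + 1) (twT N x) := by
        rw [nst_eq, nst_eq]
        refine Finset.sum_congr rfl fun k hk => ?_
        rw [mem_range] at hk
        exact (hnb _ (by omega)).symm
      rcases h.twn with (h4 | h4 | h4) | h4
      · left
        omega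
      · right
        refine ⟨_, h3, ?_, Or.inl ⟨by rw [hn]; exact h4.1, by rw [h2]; exact h4.2⟩⟩
        rw [← hnb w (by omega), ← hnb (w + (θ (topOf (twT N x)) (twT N x) + 1)) (by omega)]
        exact a1
      · right
        refine ⟨_, h3, ?_, Or.inr ⟨by rw [hn]; exact h4.1, Or.inr (by rw [h2]; exact h4.2)⟩⟩
        rw [← hnb w (by omega), ← hnb (w + (θ (topOf (twT N x)) (twT N x) + 1)) (by omega)]
        exact a1
      · exact absurd hup (h4 x T.ne.symm)
    · exact absurd h hs
    · exact absurd hup (h.ntw x T.ne.symm)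

/-- **elements of level `j + 1` below a deep cell** -/
theorem Wk.dj_R (W : Wk r j w K0 N b θ) (hw2 : 2 ≤ w) (hj8 : 8 ≤ j)
    (hfl : j % 2 = 1 → K < flC w j ∨ NoFlip P j)
    (hcc : j % 2 = 0 → NoCC P j)
    (hFo : j % 2 = 0 → ∀ z x x' : P, FJn j z x x' → K < cst w (fun _ => j - w - 1) z)
    (hfv : j % 2 = 0 → Okv K XE XO (foN w j) (foC w j))
    {v : ℕ} {z x : P} (hz : z ∈ bdR (rA N))
    (hc : cst w (hS j w N b θ) z = v) (hlz : lev z = j + 1) (hzx : z ⋖ x)
    (hD : Dk j w K0 N θ x) : OutR j w K XE XO (hS j w N b θ) z v := by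
  have hj := W.hj
  have hp : ¬ PenS j w N b θ z := fun h => by
    have := (W.penS h).2.1
    omega
  by_cases hC : CEl j w N θ z
  · have hev := (W.cel_nab hw2 hC).2.1
    exact absurd hC ((hcc hev).not_cel W hw2)
  · have hS1 : hS j w N b θ z = hA N θ z := by rw [hS_not hp, hC_not hC]
    have hcA : cst w (hA N θ) z = v := by
      rw [← hc, cst_const w (hA N θ) z, cst_const w (hS j w N b θ) z, hS1]
    refine outR_congr (h := hA N θ) hS1.symm ?_
    rcases W.deep_jS hw2 hj8 hfl hz hlz hzx hD with h | ⟨h1, h2, h3, h4, -⟩ | ⟨⟨x', h1⟩, h2⟩ | h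
    · left
      omega
    · rw [← hcA, h2]
      exact (hfv h1).outR h3 h4
    · left
      have h3 := hFo h1.2.2.2.1 z x x' h1
      have h4 : cst w (hA N θ) z = cst w (fun _ => j - w - 1) z := by
        rw [cst_const, h2]
      omega
    · exact absurd h hC

/-- the inputs at the value of the own pair -/
structure LkR (P : Type u) [Fintype P] [PartialOrder P] [DecidableEq P] (j w K0 K : ℕ)
    (N : Tops P → Finset P) (b : Tops P → ℕ) (θ : Tops P → P → ℕ) (XE XO : ℕ → Prop) : Prop where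
  dj : ∀ (v : ℕ) (z x : P), MnS j w N b θ v → z ∈ bdR (rA N) → cst w (hS j w N b θ) z = v →
    lev z = j + 1 → z ⋖ x → Dk j w K0 N θ x → OutR j w K XE XO (hS j w N b θ) z v
  dp : ∀ (v : ℕ) (z x : P), MnS j w N b θ v → z ∈ bdR (rA N) → cst w (hS j w N b θ) z = v →
    x ∉ rA N → z ⋖ x → j + 1 ≤ lev x → Dk j w K0 N θ (GaussPoset.bs N x) →
    ¬ Row1 j w N θ (GaussPoset.bs N x) → OutR j w K XE XO (hS j w N b θ) z v
  dt : ∀ x ∈ twA N, Dk j w K0 N θ (twT N x) → ¬ Row1 j w N θ (twT N x) →
    OutTR j w K XE XO N b θ x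

lemma sq_ne_mul (a c : ℕ) (ha : 1 ≤ a) : c ^ 2 ≠ a * a + a := by
  intro h
  rcases Nat.lt_or_ge a c with h1 | h1
  · have h2 : (a + 1) ^ 2 ≤ c ^ 2 := Nat.pow_le_pow_left h1 2
    nlinarith
  · have h2 : c ^ 2 ≤ a ^ 2 := Nat.pow_le_pow_left h1 2
    nlinarith

lemma sq_ne_mul' (a c : ℕ) (ha : 2 ≤ a) : c ^ 2 + 1 ≠ a * a + a := by
  intro h
  rcases Nat.lt_or_ge a c with h1 | h1
  · have h2 : (a + 1) ^ 2 ≤ c ^ 2 := Nat.pow_le_pow_left h1 2
    nlinarith
  · have h2 : c ^ 2 ≤ a ^ 2 := Nat.pow_le_pow_left h1 2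
    nlinarith

/-- a flat cheapest element below a cell of row `1` -/
theorem Wk.row1_outR (W : Wk r j w K0 N b θ)
    (hKK : 2 * K < 3 * (j + 1 - w) ^ 2 + 3 * (j + 1 - w)) {v c3 : ℕ} (hv : v = c3 ^ 2) {z : P} (hz : z ∈ bdR (rA N))
    (hc : cst w (hA N θ) z = v) (hF : Flat j w N θ z) (hge : lev z ≤ hA N θ z + 1 + w) {x : P}
    (hzx : z ⋖ x) (hR : Row1 j w N θ x) : OutR j w K XE XO (hA N θ) z v := by
  classical
  have H := W.gt.H
  have hj := W.hj
  have hw := W.hw
  have hzR := (mem_bdR.mp hz).1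
  have hlz := W.bd_lev hz
  have e1 := (H.covBy_iff.mp hzx).2
  have hx := (hF x hzx).1
  have hbs : GaussPoset.bs N x = x := by
    unfold GaussPoset.bs
    rw [if_neg (W.not_tw hx)]
  have hle := W.hA_le (not_mem_rA.mpr (Or.inl hx)) hzx
  rw [hbs] at hle
  have hRt := hR.th
  obtain ⟨a, ha⟩ : ∃ a, lev x = w + a := ⟨lev x - w, by omega⟩
  have hha : hA N θ z = a := by omega
  have h1w := hR.one_le
  by_cases honly : ∀ y, z ⋖ y → y = x
  · -- a pendant
    have hlx : lev x ≠ j := fun h => hR.nopen h z hzx honly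
    exfalso
    refine sq_ne_mul a c3 (by omega) ?_
    rw [← hv, ← hc, cst_only H.gradedBelow hzx honly, hha, cst_eq_ful (by omega),
      ful_two ha (fun k hk1 hk2 => hR.nab k hk1.le hk2), Nat.min_eq_left (by omega)]
    ring
  · -- a pair
    push Not at honly
    obtain ⟨x', hzx', hne'⟩ := honly
    have hne : x ≠ x' := Ne.symm hne'
    have e2 := (H.covBy_iff.mp hzx').2
    have hx' := (hF x' hzx').1
    have hlx : lev x ≠ j := by
      intro h
      have := (W.near hzR (by omega) hzx hzx' hne).1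
      have := hR.dbl
      omega
    left
    have h3 : ∀ k, 2 ≤ k → w ≤ k → k < lev x → 3 ≤ nab k z := fun k hk1 hk2 hk3 =>
      W.row1_three hzR hx hx' hzx hzx' hne hR (hF x' hzx').2 hk1 hk2 hk3
    have h4 : 2 ≤ nab (lev x) z := two_le_nab hzx.1.le hzx'.1.le rfl (by omega) hne
    have h5 : ∑ n ∈ range a, n * 3 + a * 2 + a ≤ v := by
      rw [← hc, cst_shift (a := a + 1) (by omega), Finset.sum_range_succ
        (fun n => min (hA N θ z) n * nab (w + n) z), Finset.sum_range_succ
        (fun n => min (hA N θ z) n * nab (w + n) z), hha]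
      refine Nat.add_le_add (Nat.add_le_add ?_ ?_) ?_
      · refine Finset.sum_le_sum fun n hn => ?_
        rw [mem_range] at hn
        rw [Nat.min_eq_right hn.le]
        rcases Nat.eq_zero_or_pos n with h0 | h0
        · subst h0; simp
        · exact Nat.mul_le_mul_left _ (h3 _ (by omega) (by omega) (by omega))
      · rw [Nat.min_self, ← ha]
        exact Nat.mul_le_mul_left _ h4
      · rw [show w + (a + 1) = lev z by omega, nab_self, mul_one]
        exact Nat.le_min.mpr ⟨le_rfl, by omega⟩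
    have h6 := Finset.sum_range_id_mul_two a
    rw [← Finset.sum_mul] at h5
    have hK := hKK
    have h7 : (j + 1 - w) ^ 2 ≤ a ^ 2 := Nat.pow_le_pow_left (by omega) 2
    have h8 : a * (a - 1) + a = a ^ 2 := by
      obtain ⟨c, rfl⟩ : ∃ c, a = c + 1 := ⟨a - 1, by omega⟩
      rw [Nat.add_sub_cancel]
      ring
    omega

/-- straight covers below two tops -/
theorem Wk.cross_outR (W : Wk r j w K0 N b θ) (L : Unq P w b)
    (F : ∀ z x x' : P, Cg z x x' → j + 1 ≤ lev z → nab w x = 1 → ¬ Sok j x → K < ful w z)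
    {v : ℕ} {z : P}
    (hz : z ∈ bdR (rA N)) (hh : hA N θ z = lev z - w) (hc : cst w (hA N θ) z = v) {x x' : P}
    (hx : x ∉ unnat N) (hx' : x' ∉ unnat N) (hS : Str w N θ x) (hS' : Str w N θ x')
    (hzx : z ⋖ x) (hzx' : z ⋖ x') (htt : topOf x ≠ topOf x') :
    OutR j w K XE XO (hA N θ) z v := by
  classical
  have H := W.gt.H
  have HN := W.natSys
  have hj := W.hj
  have hw := W.hw
  have hlz := W.bd_lev hz
  have e1 := (H.covBy_iff.mp hzx).2
  have e2 := (H.covBy_iff.mp hzx').2
  have hxt : x ∈ N (topOf x) := HN.mem_iff.mpr ⟨hx, rfl⟩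
  have hxt' : x' ∈ N (topOf x') := HN.mem_iff.mpr ⟨hx', rfl⟩
  have n1 := W.str_nab L hx hS (by omega)
  have n2 := W.str_nab L hx' hS' (by omega)
  have hv : v = ful w z := by
    rw [← hc]
    exact cst_eq_ful (by omega)
  have C : Cg z x x' := Cg.mk' hzx hzx' (mem_onlyB.mpr fun s hs hxs => HN.top_eq hxt hs hxs)
    (mem_onlyB.mpr fun s hs hxs => HN.top_eq hxt' hs hxs) htt
  by_cases s1 : Sok j x
  · by_cases s2 : Sok j x'
    · right
      refine ⟨?_, Or.inr (Or.inr ⟨⟨x, x', C, s1, s2⟩, hv, hh⟩)⟩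
      rw [nab_join_eq HN H hxt hxt' htt hzx hzx' (by omega), n1, n2, hh,
        show w + (lev z - w) = lev z by omega, nab_self]
    · left
      rw [hv]
      exact F z x' x C.symm (by omega) n2 s2
  · left
    rw [hv]
    exact F z x x' C (by omega) n1 s1

/-- the outcomes for a cheapest boundary element -/
theorem Wk.outR (W : Wk r j w K0 N b θ) (hw2 : 2 ≤ w) (L : LkS P j w K0 K N b θ XE XO)
    (R : LkR P j w K0 K N b θ XE XO) (hO : ∀ z : P, lev z = j + 3 → ¬ OwP z) {v : ℕ}
    (hv : v = (j + 3 - w) ^ 2)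
    (M : MnS j w N b θ v) {z : P} (hz : z ∈ bdR (rA N)) (hc : cst w (hS j w N b θ) z = v) :
    OutR j w K XE XO (hS j w N b θ) z v := by
  classical
  have H := W.gt.H
  have hj := W.hj
  have hw := W.hw
  have hlz := W.bd_lev hz
  by_cases hd : ∃ x, x ∉ rA N ∧ z ⋖ x ∧ Dk j w K0 N θ (GaussPoset.bs N x) ∧
      ¬ Row1 j w N θ (GaussPoset.bs N x)
  · obtain ⟨x, hx, hzx, hD, hnR⟩ := hd
    have e1 := (H.covBy_iff.mp hzx).2
    by_cases hl : j + 1 ≤ lev x
    · exact R.dp v z x M hz hc hx hzx hl hD hnR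
    · have hxu : x ∉ unnat N := W.low (by omega)
      have hbs : GaussPoset.bs N x = x := by
        unfold GaussPoset.bs
        rw [if_neg (W.not_tw hxu)]
      rw [hbs] at hD
      exact R.dj v z x M hz hc (by omega) hzx hD
  · push Not at hd
    have hSA := W.hS_eq hw2 hd
    obtain ⟨hF, hge⟩ := W.flatS hw2 M hz hc hd
    have hc' : cst w (hA N θ) z = v := by
      rw [← hc, cst_const w (hA N θ) z, cst_const w (hS j w N b θ) z, hSA]
    refine outR_congr hSA.symm ?_
    by_cases hR : ∃ x, z ⋖ x ∧ Row1 j w N θ x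
    · obtain ⟨x, hzx, hR⟩ := hR
      exact W.row1_outR L.hK hv hz hc' hF hge hzx hR
    · push Not at hR
      have hStr : ∀ x, z ⋖ x → x ∉ unnat N ∧ Str w N θ x := fun x hx =>
        ⟨(hF x hx).1, (hF x hx).2.resolve_right (hR x hx)⟩
      have hh : hA N θ z = lev z - w := by
        obtain ⟨x0, f1, f2, f3⟩ := W.hA_spec hz
        obtain ⟨g1, g2⟩ := hStr x0 f2
        have hbs : GaussPoset.bs N x0 = x0 := by
          unfold GaussPoset.bs
          rw [if_neg (W.not_tw g1)]
        rw [hbs, g2.th] at f3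
        have := (H.covBy_iff.mp f2).2
        omega
      by_cases hT : ∃ x x', z ⋖ x ∧ z ⋖ x' ∧ topOf x ≠ topOf x'
      · obtain ⟨x, x', h1, h2, h3⟩ := hT
        exact W.cross_outR L.unq L.nsk hz hh hc' (hStr x h1).1 (hStr x' h2).1 (hStr x h1).2
          (hStr x' h2).2 h1 h2 h3
      · push Not at hT
        obtain ⟨x, hzx, -⟩ := Hul.exists_cov (w := z) (v := (topOf z : P))
          (lt_of_le_of_ne (le_topOf z) (by
            intro h
            have := (topOf z).2
            rw [← h] at this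
            omega))
        obtain ⟨g1, g2⟩ := W.own_owp2 hz hh (hc'.trans hv) hStr (t := topOf x)
          fun x' hx' => hT x' x hx' hzx
        exact absurd g1 (hO z g2)

/-- the outcome for the twins -/
theorem Wk.out_twR (W : Wk r j w K0 N b θ) (R : LkR P j w K0 K N b θ XE XO) {x : P}
    (hx : x ∈ twA N) {c3 : ℕ} (hv : tcS j w N b θ x = c3 ^ 2) : OutTR j w K XE XO N b θ x := by
  classical
  have hj := W.hj
  have hw := W.hw
  obtain ⟨hl, hk⟩ := W.tw_cases hx
  have hl2 := W.twSys.lev hx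
  have hup := W.twSys.up x hx
  by_cases hnR : Row1 j w N θ (twT N x)
  swap
  · exact R.dt x hx (hk.resolve_left hnR) hnR
  · clear hk
    have hk := hnR
    have hns : ¬ Spc j w N b θ (twT N x) := by
      rintro ⟨Nc, co, C⟩
      have := C.th
      have := C.lev (by omega)
      have := hk.th
      omega
    have e0 : tcS j w N b θ x = tcst w (thA N θ) (twT N x, x) := by
      unfold tcS; rw [if_neg hns]
    have e0' : TmS j w N b θ x = Tm w (thA N θ) (twT N x, x) := by
      unfold TmS; rw [if_neg hns]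
    obtain ⟨a, ha⟩ : ∃ a, lev x = w + a := ⟨lev x - w, by omega⟩
    have h1 := W.tcst_row1 hx hk ha
    have hn : ∀ k, w ≤ k → k < lev x → nab k x = 2 := fun k h1 h2 => by
      rw [← nab_congr_up hup h2]
      exact hk.nab k h1 (by omega)
    have e1 : thA N θ (twT N x) = θ (topOf (twT N x)) (twT N x) :=
      W.thA_nat (W.twSys.nat x hx)
    have hth := hk.th
    exfalso
    refine sq_ne_mul' a c3 (by omega) ?_
    rw [← hv, e0]
    have h9 : a ^ 2 = a * a := by ring
    omega

/-- **The cheapest class at window `w` has both signs.** -/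
theorem Wk.bothR (W : Wk r j w K0 N b θ) (h7 : 7 ≤ j) (h12 : j % 2 = 0 → 12 ≤ j)
    (hw2 : 2 ≤ w)
    (L : LkS P j w K0 K N b θ XE XO) (R : LkR P j w K0 K N b θ XE XO)
    (hO : ∀ z : P, lev z = j + 3 → ¬ OwP z) {v : ℕ} (hv : v = (j + 3 - w) ^ 2)
    (M : MnS j w N b θ v) (hex : (∃ z ∈ bdR (rA N), cst w (hS j w N b θ) z = v) ∨
      ∃ x ∈ twA N, tcS j w N b θ x = v) (hcap : v ≤ K) :
    ((∃ z x x' : P, Cg z x x' ∧ Sok j x ∧ Sok j x' ∧ ful w z = v ∧
      Odd (nst w (fun z => lev z - w) z)) ∨ OdN j w v ∨ XO v) ∧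
    ((∃ z x x' : P, Cg z x x' ∧ Sok j x ∧ Sok j x' ∧ ful w z = v ∧
      Even (nst w (fun z => lev z - w) z)) ∨ XE v) := by
  classical
  have H := W.gt.H
  have hj := W.hj
  have hw := W.hw
  set T1 := (bdR (rA N)).filter (fun z => cst w (hS j w N b θ) z = v) with hT1
  set T2 := (twA N).filter (fun x => tcS j w N b θ x = v) with hT2
  have hout2' : ∀ x : P, ∃ l : ℕ, x ∈ T2 → TmS j w N b θ x = Lt w (fun _ => l) x ∧
      nab w x = nab (w + l) x + 1 ∧
      ((Even (nst w (fun _ => l) x) ∧ XE v) ∨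
      (Odd (nst w (fun _ => l) x) ∧ (OdN j w v ∨ XO v))) := by
    intro x
    by_cases hx : x ∈ T2
    · have hx' := hx
      rw [hT2, mem_filter] at hx'
      have h1 := (W.out_twR R hx'.1 (hx'.2.trans hv)).resolve_left (by rw [hx'.2]; omega)
      rw [hx'.2] at h1
      obtain ⟨l, h2⟩ := h1
      exact ⟨l, fun _ => h2⟩
    · exact ⟨0, fun h => absurd h hx⟩
  choose lb hlb using hout2'
  -- labels on the whole class
  let hh : P → ℕ := fun z => if z ∈ twA N then lb z else hS j w N b θ z
  have hh1 : ∀ z ∈ twA N, hh z = lb z := fun z hz => if_pos hz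
  have hh2 : ∀ z, z ∉ twA N → hh z = hS j w N b θ z := fun z hz => if_neg hz
  have hn1 : ∀ z ∈ T1, z ∉ twA N := by
    intro z hz
    rw [hT1, mem_filter] at hz
    exact (mem_rA.mp (mem_bdR.mp hz.1).1).2
  have hm2 : ∀ z ∈ T2, z ∈ twA N := fun z hz => by
    rw [hT2, mem_filter] at hz
    exact hz.1
  have hdisj : Disjoint T1 T2 := by
    rw [Finset.disjoint_left]
    intro z hz hz'
    exact hn1 z hz (hm2 z hz')
  have hout1 : ∀ z ∈ T1, nab w z = nab (w + hh z) z + 1 ∧
      ((Even (nst w hh z) ∧ XE v) ∨ (Odd (nst w hh z) ∧ (OdN j w v ∨ XO v)) ∨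
      (∃ x x', Cg z x x' ∧ Sok j x ∧ Sok j x') ∧ v = ful w z ∧ hh z = lev z - w) := by
    intro z hz
    have hzt := hn1 z hz
    rw [hT1, mem_filter] at hz
    have h1 := W.outR hw2 L R hO hv M hz.1 hz.2
    have h2 : nst w hh z = nst w (hS j w N b θ) z := by
      rw [nst_eq, nst_eq, hh2 z hzt]
    rw [h2, hh2 z hzt]
    exact h1.resolve_left (by omega)
  have hnst2 : ∀ x ∈ T2, nst w hh x = nst w (fun _ => lb x) x := fun x hx => by
    rw [nst_eq, nst_eq, hh1 x (hm2 x hx)]
  have hout2 : ∀ x ∈ T2, nab w x = nab (w + hh x) x + 1 ∧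
      ((Even (nst w hh x) ∧ XE v) ∨
      (Odd (nst w hh x) ∧ (OdN j w v ∨ XO v))) := by
    intro x hx
    have h1 := (hlb x hx).2
    rw [hnst2 x hx, hh1 x (hm2 x hx)]
    exact h1
  -- the exact far window theorem
  have F := W.farS h7 h12 hw2 v M.tw M.bd
  have hd := F.lead M.bd
  have hZ := dvd_Z H.gauss w v
  have hsum2 : ∑ x ∈ (twA N).filter (fun x => tcS j w N b θ x = v), TmS j w N b θ x =
      ∑ x ∈ T2, Lt w hh x := by
    refine Finset.sum_congr rfl fun x hx => ?_
    rw [(hlb x hx).1]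
    unfold Lt
    rw [hnst2 x hx, hh1 x (hm2 x hx)]
  have hsum1 : ∑ z ∈ (bdR (rA N)).filter (fun z => cst w (hS j w N b θ) z = v),
      Lt w (hS j w N b θ) z = ∑ z ∈ T1, Lt w hh z := by
    refine Finset.sum_congr rfl fun z hz => ?_
    unfold Lt
    rw [nst_eq, nst_eq, hh2 z (hn1 z hz)]
  rw [hsum2, hsum1, ← Finset.sum_union hdisj] at hd
  have hdrop : ∀ z ∈ T1 ∪ T2, nab w z = nab (w + hh z) z + 1 := by
    intro z hz
    rcases mem_union.mp hz with h | h
    · exact (hout1 z h).1
    · exact (hout2 z h).1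
  have hTne : (T1 ∪ T2).Nonempty := by
    rcases hex with ⟨z, hz, h⟩ | ⟨x, hx, h⟩
    · exact ⟨z, mem_union_left _ (mem_filter.mpr ⟨hz, h⟩)⟩
    · exact ⟨x, mem_union_right _ (mem_filter.mpr ⟨hx, h⟩)⟩
  have hcard : 1 ≤ (lv P w).card := by
    obtain ⟨z, hz⟩ := hTne
    have h1 := hdrop z hz
    have h2 := nab_le z w
    omega
  have hs := sign_sum_of_dvd (T1 ∪ T2) hZ hd (c0 := (lv P w).card - 1) (by omega) (by
    intro z hz
    have := hdrop z hz
    omega)
  rw [Finset.filter_true_of_mem (fun z hz => by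
    have := hdrop z hz
    omega)] at hs
  obtain ⟨⟨z1, hz1, he⟩, z2, hz2, ho⟩ := both_signs _ _ hs hTne
  have hcls : ∀ z ∈ T1 ∪ T2, (Even (nst w hh z) ∧ XE v) ∨
      (Odd (nst w hh z) ∧ (OdN j w v ∨ XO v)) ∨
      (∃ x x', Cg z x x' ∧ Sok j x ∧ Sok j x') ∧ v = ful w z ∧
        nst w hh z = nst w (fun z => lev z - w) z := by
    intro z hz
    rcases mem_union.mp hz with h | h
    · rcases (hout1 z h).2 with h1 | h1 | h1
      · exact Or.inl h1
      · exact Or.inr (Or.inl h1)
      · refine Or.inr (Or.inr ⟨h1.1, h1.2.1, ?_⟩)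
        rw [nst_eq, nst_eq, h1.2.2]
    · rcases (hout2 z h).2 with h1 | h1
      · exact Or.inl h1
      · exact Or.inr (Or.inl h1)
  constructor
  · rcases hcls z2 hz2 with h | h | ⟨⟨x, x', h, s1, s2⟩, h1, h2⟩
    · exact absurd h.1 (Nat.not_even_iff_odd.mpr ho)
    · exact Or.inr h.2
    · rw [h2] at ho
      exact Or.inl ⟨z2, x, x', h, s1, s2, h1.symm, ho⟩
  · rcases hcls z1 hz1 with h | h | ⟨⟨x, x', h, s1, s2⟩, h1, h2⟩
    · exact Or.inr h.2
    · exact absurd h.1 (Nat.not_odd_iff_even.mpr he)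
    · rw [h2] at he
      exact Or.inl ⟨z1, x, x', h, s1, s2, h1.symm, he⟩


end Pool.Agent.GaussPoset.Sm
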