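import Pool.Agent.W_448s8f_h76.FmA

/-!
# The balances at the windows `2`, `3` without the own pair of level `j + 3` (MP_448cb3_co, S8)
-/

namespace Pool.Agent.GaussPoset.Sm

set_option linter.unusedSectionVars false

open Polynomial Finset W4 Cp

universe u

/-- the values of the even own classes, relative to `y ^ 2`, without the pair of level `j + 3` -/
def nzP (y V : ℤ) : Bool := nz y V && !decide (V = 4 * y + 4)

section

variable {P : Type u} [Fintype P] [PartialOrder P] [DecidableEq P] {r j w K0 K : ℕ}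
  {N : Tops P → Finset P} {b : Tops P → ℕ} {θ : Tops P → P → ℕ} {XE XO : ℕ → Prop}

/-- the inputs at the value of the own pair -/
theorem Wk.lkR (W : Wk r j w K0 N b θ) (hw2 : 2 ≤ w) (h10 : 10 ≤ j)
    (hCC : j % 2 = 0 → NoCC P j) (I : InS P j w K XE XO) (C : CellsN P j w K0 K N b θ XE XO) :
    LkR P j w K0 K N b θ XE XO where
  dj := fun v z x _ hz hc hl hzx hD =>
    W.dj_R hw2 (by omega) I.hfl hCC I.hFo I.hfv hz hc hl hzx hD
  dp := fun v z x _ hz hc hx hzx hl hD hR => W.dp_cellsR hw2 (by omega) C hz hc hx hzx hl hD hR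
  dt := fun x hx hD hR => W.dt_cellsR hw2 (by omega) C hx hD hR

/-- **The balance at window `w`.** -/
theorem Wk.winBR (W : Wk r j w K0 N b θ) (h7 : 7 ≤ j) (h12 : j % 2 = 0 → 12 ≤ j)
    (hw2 : 2 ≤ w) {LE LO : List ℤ}
    (L : LkS P j w K0 K N b θ (XL (j + 1 - w) LE) (XL (j + 1 - w) LO))
    (R : LkR P j w K0 K N b θ (XL (j + 1 - w) LE) (XL (j + 1 - w) LO))
    (hO : ∀ z : P, lev z = j + 3 → ¬ OwP z) (h16 : j ≤ 16) {cT lb : ℤ}
    (hK : (K : ℤ) = ((j + 1 - w : ℕ) : ℤ) ^ 2 + cT) (hT : cT < 7 * ((j + 1 - w : ℕ) : ℤ) + 10)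
    (hl0 : lb ≤ 0) (hlE : ∀ x ∈ LE, lb ≤ x) (hlO : ∀ x ∈ LO, lb ≤ x)
    (hlow : ∀ z x x' : P, Cg z x x' → Sok j x → Sok j x' → j + 1 ≤ lev z →
      ∀ k, k < w → nab k z = 2)
    (hPen : OnePen P j (fun t => 2 ≤ b t) ∨ ∃ z : P, Hul.Jn z ∧
      ful w z ≤ (j + 1 - w) ^ 2 + 5 * (j - w))
    (hJ : ∃ z : P, Hul.Jn z) :
    ∃ v, MnS j w N b θ v ∧
      WinB P j w cT (fun V => LO.elem V) (fun V => nzP ((j + 1 - w : ℕ) : ℤ) V || LE.elem V)
      lb ((v : ℤ) - ((j + 1 - w : ℕ) : ℤ) ^ 2) := by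
  classical
  have HN := W.natSys
  have hj := W.hj
  have hw := W.hw
  have H := W.gt.H
  -- joins are in the far set
  have hjoin : ∀ z : P, Hul.Jn z → z ∈ rA N := by
    rintro z ⟨t1, t2, h1, h2, hne, hz1, hz2⟩
    have key : ∀ y, y ∉ unnat N → (y ≤ t1 → y ≤ t2 → False) := by
      intro y hy g1 g2
      have h3 : y ∈ N (topOf y) := HN.mem_iff.mpr ⟨hy, rfl⟩
      exact hne ((HN.top_eq h3 h1 g1).trans (HN.top_eq h3 h2 g2).symm)
    have hzu : z ∈ unnat N := by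
      by_contra hcon
      exact key z hcon hz1 hz2
    refine mem_rA.mpr ⟨hzu, fun h => ?_⟩
    obtain ⟨-, y, hy, hup⟩ := mem_twA.mp h
    have hl := W.lt_lev hzu
    refine key y hy ((hup t1).mpr ?_).le ((hup t2).mpr ?_).le
    · exact lt_of_le_of_ne hz1 (by rintro rfl; omega)
    · exact lt_of_le_of_ne hz2 (by rintro rfl; omega)
  have hpos : ∀ x ∈ rA N, 0 < lev x := fun x hx => by
    have := W.lt_lev (mem_rA.mp hx).1
    omega
  have hbd : (bdR (rA N)).Nonempty := by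
    obtain ⟨z, hz⟩ := hJ
    obtain ⟨z', hz', -⟩ := exists_bd_above hpos (hjoin z hz)
    exact ⟨z', hz'⟩
  obtain ⟨v, M, hex⟩ := exists_minS (j := j) (w := w) (b := b) (θ := θ) hbd
  have hmin : ∀ z, Hul.Jn z → v ≤ ful w z := fun z hz => min_le_ful hpos M.bd (hjoin z hz)
  have hPen' : OnePen P j (fun t => 2 ≤ b t) ∨ v ≤ (j + 1 - w) ^ 2 + 5 * (j - w) := by
    rcases hPen with h | ⟨z, hz, h⟩
    · exact Or.inl h
    · exact Or.inr ((hmin z hz).trans h)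
  have hlev : ∀ z x x' : P, Cg z x x' → j + 1 ≤ lev z := by
    intro z x x' h
    by_contra hcon
    exact W.gt.no_join z (by omega) h.jn
  have hyc : ((j + 1 - w : ℕ) : ℤ) = (j : ℤ) + 1 - w := by
    rw [Nat.cast_sub (by omega)]
    push_cast
    ring
  have hline : ∀ z x x' : P, Cg z x x' → Sok j x → Sok j x' →
      (ful w z : ℤ) = ((j + 1 - w : ℕ) : ℤ) ^ 2 + (kapZ j z * ((j : ℤ) - w) + gZ j z) := by
    intro z x x' h hs hs'
    have hl := hlev z x x' h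
    rw [hyc]
    exact ful_line (by omega) (by omega) (hlow z x x' h hs hs' hl)
  have hpar : ∀ {z x x' : P}, Cg z x x' → Sok j x → Sok j x' →
      anc z = 2 * w + nst w (fun z => lev z - w) z := by
    intro z x x' h hs hs'
    have hl := hlev z x x' h
    have h2 := hlow z x x' h hs hs' hl
    unfold anc
    obtain ⟨c, hc⟩ : ∃ c, lev z = w + c := ⟨lev z - w, by omega⟩
    rw [nst_eq, hc, Finset.sum_range_add, Nat.add_sub_cancel_left,
      Finset.sum_congr rfl (g := fun _ => 2) (fun k hk => h2 k (by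
        rw [mem_range] at hk
        omega)), Finset.sum_const, card_range, smul_eq_mul, Nat.mul_comm]
  have hkp : ∀ {z : P}, (Odd (anc z) → Odd (kapZ j z)) ∧ (Even (anc z) → Even (kapZ j z)) :=
    kap_parity
  refine ⟨v, M, ?_⟩
  have hmn : ∀ z x x' : P, Cg z x x' → Sok j x → Sok j x' →
      (v : ℤ) - ((j + 1 - w : ℕ) : ℤ) ^ 2 ≤ kapZ j z * (j - w) + gZ j z := by
    intro z x x' h hs hs'
    have h1 : (v : ℤ) ≤ ful w z := by exact_mod_cast hmin z h.jn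
    rw [hline z x x' h hs hs'] at h1
    linarith
  by_cases hcap : K < v
  · have hcap' : (K : ℤ) < v := by exact_mod_cast hcap
    exact ⟨fun h => by linarith, hmn, fun h => by linarith, fun h => by linarith⟩
  have hcv : (v : ℤ) ≤ ((j + 1 - w : ℕ) : ℤ) ^ 2 + cT := by
    rw [← hK]
    exact_mod_cast not_lt.mp hcap
  obtain ⟨ho, he⟩ := W.bothS h7 h12 hw2 L hPen' M hex (not_lt.mp hcap)
  have he' : (∃ z x x' : P, Cg z x x' ∧ Sok j x ∧ Sok j x' ∧ ful w z = v ∧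
      Even (nst w (fun z => lev z - w) z)) ∨ (EvN j w v ∧ v ≠ (j + 3 - w) ^ 2) ∨
      XL (j + 1 - w) LE v := by
    by_cases hs : v = (j + 3 - w) ^ 2
    · rcases (W.bothR h7 h12 hw2 L R hO hs M hex (not_lt.mp hcap)).2 with h | h
      · exact Or.inl h
      · exact Or.inr (Or.inr h)
    · rcases he with h | h | h
      · exact Or.inl h
      · exact Or.inr (Or.inl ⟨h, hs⟩)
      · exact Or.inr (Or.inr h)
  have hsq : ∀ z x x' : P, Cg z x x' → ful w z = v → 0 ≤ (v : ℤ) - ((j + 1 - w : ℕ) : ℤ) ^ 2 := by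
    intro z x x' h he
    have hl := hlev z x x' h
    obtain ⟨c, hc⟩ : ∃ c, lev z = w + c := ⟨lev z - w, by omega⟩
    have h4 := ful_ge (w := w) (z := z) (c := c) (fun _ => 0) hc
      (fun n hn1 hn2 => h.two_le H (k := w + n) (by omega))
    simp only [mul_zero, Finset.sum_const_zero, add_zero] at h4
    have h5 : (j + 1 - w) ^ 2 ≤ c ^ 2 := Nat.pow_le_pow_left (by omega) 2
    have h6 : (j + 1 - w) ^ 2 ≤ v := by rw [← he]; exact h5.trans h4
    have h7 : (((j + 1 - w) ^ 2 : ℕ) : ℤ) ≤ v := by exact_mod_cast h6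
    push_cast at h7
    linarith
  have hnzpos : ∀ {V : ℤ}, nz ((j + 1 - w : ℕ) : ℤ) V = true → 0 ≤ V := by
    intro V hV
    unfold nz at hV
    rw [List.any_eq_true] at hV
    obtain ⟨t, -, ht⟩ := hV
    rw [decide_eq_true_eq] at ht
    have h1 : (0 : ℤ) ≤ t := Int.natCast_nonneg t
    have h2 : (1 : ℤ) ≤ ((j + 1 - w : ℕ) : ℤ) := by
      have : 1 ≤ j + 1 - w := by omega
      exact_mod_cast this
    rcases ht with ht | ht | ht <;> nlinarith
  refine ⟨fun _ => ?_, hmn, fun _ => ?_, fun _ => ?_⟩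
  · rcases ho with ⟨z, x, x', h1, h2, h3, h4, h5⟩ | h | h
    · exact hl0.trans (hsq z x x' h1 h4)
    · exact (od_false h (by omega) h16 hcv hT).elim
    · exact hlO _ h
  · rcases ho with ⟨z, x, x', h1, h2, h3, h4, h5⟩ | h | h
    · left
      refine ⟨z, x, x', h1, h2, h3, hkp.1 (by
        rw [hpar h1 h2 h3]
        exact (even_two_mul w).add_odd h5), ?_⟩
      have := hline z x x' h1 h2 h3
      rw [h4] at this
      linarith
    · exact (od_false h (by omega) h16 hcv hT).elim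
    · right
      exact List.elem_iff.mpr h
  · rcases he' with ⟨z, x, x', h1, h2, h3, h4, h5⟩ | h | h
    · left
      refine ⟨z, x, x', h1, h2, h3, hkp.2 (by
        rw [hpar h1 h2 h3]
        exact (even_two_mul w).add h5), ?_⟩
      have := hline z x x' h1 h2 h3
      rw [h4] at this
      linarith
    · right
      rw [Bool.or_eq_true]
      refine Or.inl ?_
      unfold nzP
      rw [Bool.and_eq_true, Bool.not_eq_true', decide_eq_false_iff_not]
      refine ⟨ev_nz h.1 (by omega) hcv hT, fun h6 => h.2 ?_⟩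
      obtain ⟨y, hy⟩ : ∃ y, y = j + 1 - w := ⟨_, rfl⟩
      rw [← hy] at h6
      rw [show j + 3 - w = y + 2 by omega]
      have h7 : (v : ℤ) = ((y : ℤ) + 2) ^ 2 := by linarith
      exact_mod_cast h7
    · right
      rw [Bool.or_eq_true]
      exact Or.inr (List.elem_iff.mpr h)

end

section

variable {P : Type u} [Fintype P] [PartialOrder P] [DecidableEq P] {r j : ℕ}
  {lo hi : Tops P → ℕ → ℕ} {e : Tops P → ℕ → ℕ → P}

/-- **the balance at the window `3` for the system, with the larger labels; the least raised cost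
`V` and the least cost** -/
theorem Ctx.winSyR (K : Ctx P r j lo hi e) (h12 : 12 ≤ j) {N : Tops P → Finset P}
    {θ3 θ4 : Tops P → P → ℕ} (S : Sy P j lo hi N θ3 θ4) {c0 cT : ℕ}
    {LE LO : List ℤ} {lb : ℤ} {E : List (ℕ × ℕ × ℕ)} (hE : ChkE j E) (h0 : (0, 0, 0) ∈ E)
    (hb : j % 2 = 1 → ∀ s ∈ E, (s.1 : ℤ) * ((j : ℤ) - 3) - s.2.1 ≤ 5 * ((j : ℤ) - 3))
    (c1 : ∀ a ∈ Finset.Icc 2 ((j + 1) / 2), (j + 1 - 3) ^ 2 + c0 + 1 < stC 3 (j + 1) a)
    (c2 : ∀ a ∈ Finset.Icc 2 (j - 1), (j + 1 - 3) ^ 2 + c0 + 1 < reC 3 (j + 1) a)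
    (hc : c0 ≤ cT)
    (hcell : ∀ (N : Tops P → Finset P) (b : Tops P → ℕ) (θ : Tops P → P → ℕ),
      Wk r j 3 ((j + 1 - 3) ^ 2 + c0) N b θ →
      CellsN P j 3 ((j + 1 - 3) ^ 2 + c0) ((j + 1 - 3) ^ 2 + cT) N b θ
        (XL (j + 1 - 3) LE) (XL (j + 1 - 3) LO))
    (I : InS P j 3 ((j + 1 - 3) ^ 2 + cT) (XL (j + 1 - 3) LE) (XL (j + 1 - 3) LO))
    (c6 : 2 * ((j + 1 - 3) ^ 2 + cT) < 3 * (j + 1 - 3) ^ 2 + 3 * (j + 1 - 3))
    (c7 : cT < 7 * (j + 1 - 3) + 10)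
    (hl0 : lb ≤ 0) (hlE : ∀ x ∈ LE, lb ≤ x) (hlO : ∀ x ∈ LO, lb ≤ x)
    (hCC : j % 2 = 0 → NoCC P j) (hO : ∀ z : P, lev z = j + 3 → ¬ OwP z)
    (hJ : ∃ z : P, Hul.Jn z) :
    ∃ V : ℕ, MnS j 3 N (fun t => hi t 3 - lo t 3 + 1) θ3 V ∧
      Wk r j 3 ((j + 1 - 3) ^ 2 + c0) N (fun t => hi t 3 - lo t 3 + 1) θ3 ∧
      WinB P j 3 cT (fun V => LO.elem V) (fun V => nzP ((j + 1 - 3 : ℕ) : ℤ) V || LE.elem V)
        lb ((V : ℤ) - ((j + 1 - 3 : ℕ) : ℤ) ^ 2) := by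
  have H := K.gt.H
  have h16 := K.h16
  have W : Wk r j 3 ((j + 1 - 3) ^ 2 + c0) N (fun t => hi t 3 - lo t 3 + 1) θ3 :=
    { gt := K.gt, hj := by omega, hw1 := by omega, hw := by omega, typ := S.typ3, top := S.top3
      sum_b := S.sum3
      hK := by omega
      rdeep := fun C _ hx _ h1 h2 h3 h4 => rdeep_of (by omega) (by omega) c2 C hx h1 h2 h3 h4
      sdeep := fun _ _ _ _ C _ hx _ h1 h3 h4 => sdeep_of (by omega) (by omega) c1 C hx h1 h3 h4 }
  have L := W.lkN (by omega) (by omega) c6 S.unq3 I (hcell _ _ _ W)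
  have R := W.lkR (by omega) (by omega) hCC I (hcell _ _ _ W)
  have hlow : ∀ z x x' : P, Cg z x x' → Sok j x → Sok j x' → j + 1 ≤ lev z →
      ∀ k, k < 3 → nab k z = 2 := by
    intro z x x' h hs hs' hl k hk
    obtain ⟨l1, l2⟩ := h.lev_eq H
    have hend : lev x = j → (Win.uc x).card = 1 := fun hh => (K.ends h (by omega)).1
    have hend' : lev x' = j → (Win.uc x').card = 1 := fun hh => (K.ends h (by omega)).2
    rw [h.sum H (by omega), K.low_one h12 h.only (by omega) hend hs (by omega),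
      K.low_one h12 h.only' (by omega) hend' hs' (by omega)]
  have hpen : OnePen P j (fun t => 2 ≤ hi t 3 - lo t 3 + 1) ∨ ∃ z : P, Hul.Jn z ∧
      ful 3 z ≤ (j + 1 - 3) ^ 2 + 5 * (j - 3) := by
    rcases K.pen_or with h | ⟨hodd, z, x, x', h1, h2, h3, h4⟩
    · left
      intro e e' p p' hB
      refine h e e' p p' ?_
      rcases shape_cases (K.comp (topOf e)) (by omega) (K.shape (topOf e)) with h | h | ⟨a, h, h3⟩
      · have := h 3 (by omega)
        omega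
      · exact h
      · have h4 := h.four (by omega)
        have e1 := h.low 3 (by omega)
        omega
    · right
      have hs : Sok j x := ⟨fun hf => by
        have := hf.1
        have := (h1.lev_eq H).1
        omega, fun _ hf => by
        have := hf.2.1
        omega⟩
      have hs' : Sok j x' := ⟨fun hf => by
        have := hf.1
        have := (h1.lev_eq H).2
        omega, fun _ hf => by
        have := hf.2.1
        omega⟩
      exact ⟨z, h1.jn, K.cheap (w := 3) (by omega) hodd hE h0 (hb hodd) h1 h2 h3 h4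
        (hlow z x x' h1 hs hs' h2.ge)⟩
  obtain ⟨V, M, h⟩ := W.winBR (by omega) (fun _ => h12) (by omega) L R hO h16 (cT := (cT : ℤ))
    (lb := lb) (by push_cast; ring) (by exact_mod_cast c7) hl0 hlE hlO hlow hpen hJ
  exact ⟨V, M, W, h⟩

/-- **helper27's form of the window `3`** -/
theorem Ctx.w3RR (K : Ctx P r j lo hi e) (h12 : 12 ≤ j) {c0 cT : ℕ}
    {LE LO : List ℤ} {lb : ℤ} {E : List (ℕ × ℕ × ℕ)} (hE : ChkE j E) (h0 : (0, 0, 0) ∈ E)
    (hb : j % 2 = 1 → ∀ s ∈ E, (s.1 : ℤ) * ((j : ℤ) - 3) - s.2.1 ≤ 5 * ((j : ℤ) - 3))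
    (c1 : ∀ a ∈ Finset.Icc 2 ((j + 1) / 2), (j + 1 - 3) ^ 2 + c0 + 1 < stC 3 (j + 1) a)
    (c2 : ∀ a ∈ Finset.Icc 2 (j - 1), (j + 1 - 3) ^ 2 + c0 + 1 < reC 3 (j + 1) a)
    (hc : c0 ≤ cT)
    (hcell : ∀ (N : Tops P → Finset P) (b : Tops P → ℕ) (θ : Tops P → P → ℕ),
      Wk r j 3 ((j + 1 - 3) ^ 2 + c0) N b θ →
      CellsN P j 3 ((j + 1 - 3) ^ 2 + c0) ((j + 1 - 3) ^ 2 + cT) N b θ
        (XL (j + 1 - 3) LE) (XL (j + 1 - 3) LO))
    (I : InS P j 3 ((j + 1 - 3) ^ 2 + cT) (XL (j + 1 - 3) LE) (XL (j + 1 - 3) LO))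
    (hCC : j % 2 = 0 → NoCC P j) (hO : ∀ z : P, lev z = j + 3 → ¬ OwP z)
    (c6 : 2 * ((j + 1 - 3) ^ 2 + cT) < 3 * (j + 1 - 3) ^ 2 + 3 * (j + 1 - 3))
    (c7 : cT < 7 * (j + 1 - 3) + 10)
    (hl0 : lb ≤ 0) (hlE : ∀ x ∈ LE, lb ≤ x) (hlO : ∀ x ∈ LO, lb ≤ x) :
    W3R P r j lo hi cT (fun V => LO.elem V)
      (fun V => nzP ((j + 1 - 3 : ℕ) : ℤ) V || LE.elem V) lb (stC 3 (j + 1) 2 - 1) := by
  intro N θ3 θ4 S hJ
  obtain ⟨V, M, W, h⟩ := K.winSyR h12 S hE h0 hb c1 c2 hc hcell I c6 c7 hl0 hlE hlO hCC hO hJ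
  have hcc : ∀ z, ¬ CEl j 3 N θ3 z := fun z hz =>
    (hCC (W.cel_nab (by omega) hz).2.1).not_cel W (by omega) hz
  obtain ⟨v, M', hex⟩ := exists_minK W (bdR_nonempty W hJ)
  obtain ⟨h1, h2⟩ := W.mn_of_mnS hcc M hex
  exact ⟨_, v, V, M', h1, h2, W, h⟩

end

end Pool.Agent.GaussPoset.Sm
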