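import Pool.Agent.W_448s7_h27.PnA
import Pool.Agent.W_448w4_h70.WH
import Pool.Agent.W_448s8f_h76.FkG

/-!
# The window `1` and the own pair of level `j + 3` (MP_448cb3_co, S8)
-/

namespace Pool.Agent.GaussPoset.Sm

set_option linter.unusedSectionVars false

open Polynomial Finset W4 Cp

universe u

variable {P : Type u} [Fintype P] [PartialOrder P] [DecidableEq P] {r j : ℕ}
  {lo hi : Tops P → ℕ → ℕ} {e : Tops P → ℕ → ℕ → P}

/-- **the balance at window `1`**; the bound on the ends is needed for odd `j` only -/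
theorem Ctx.win1P (K : Ctx P r j lo hi e) (hj7 : 6 ≤ j) {E : List (ℕ × ℕ × ℕ)} (hE : ChkE j E)
    (h0 : (0, 0, 0) ∈ E)
    (hb : j % 2 = 1 → ∀ s ∈ E, (s.1 : ℤ) * ((j : ℤ) - 1) - s.2.1 ≤ 5 * ((j : ℤ) - 1))
    (hJ : ∃ z : P, Hul.Jn z) :
    ∃ V, WinB P j 1 (((j * (j - 1) / 2 : ℕ) : ℤ) - 1) (fun _ => false) (nz j) 0 V ∧
      (4 * (j : ℤ) + 4 < V → ∀ z : P, lev z = j + 3 → ¬ OwP z) := by
  have H := K.gt.H
  have h16 := K.h16
  have hsh : ∀ t : Tops P, lo t 1 = hi t 1 ∨ RectShape j (lo t) (hi t) ∨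
      StairShape j (lo t) (hi t) ∨ StairShape j (fun k => k - hi t k) (fun k => k - lo t k) := by
    intro t
    rcases shape_cases (K.comp t) (by omega) (K.shape t) with h | h | ⟨a, h, h3⟩
    · exact Or.inl (h 1 (by omega))
    · exact Or.inr (by tauto)
    · left
      rw [(h.low 1 (by have := h.two; omega)).1, (h.low 1 (by have := h.two; omega)).2]
  obtain ⟨N, θ, t1, t2, hs, hu⟩ := K.types (w := 1) (by omega) hsh
  have hKc : 2 * K1 j < 3 * (j + 1 - 1) ^ 2 + 3 * (j + 1 - 1) := by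
    unfold K1
    obtain ⟨i, rfl⟩ : ∃ i, j = i + 1 := ⟨j - 1, by omega⟩
    rw [show i + 1 - 1 = i by omega, show i + 1 + 1 - 1 = i + 1 by omega]
    have e1 : (i + 1) ^ 2 = i * i + 2 * i + 1 := by ring
    have e2 : (i + 1) * i = i * i + i := by ring
    rw [e1, e2]
    omega
  have W : Wk r j 1 (K1 j) N (fun t => hi t 1 - lo t 1 + 1) θ :=
    { gt := K.gt, hj := hj7, hw1 := le_rfl, hw := by norm_num, typ := t1, top := t2, sum_b := hs
      hK := hKc
      rdeep := fun C _ hx _ h1 h2 h3 h4 => rect_deep1 C hj7 hx h1 h2 h3 h4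
      sdeep := fun h => absurd h (by norm_num) }
  have L : Lk P j 1 (K1 j) N (fun t => hi t 1 - lo t 1 + 1) θ (XL (j + 1 - 1) [])
      (XL (j + 1 - 1) []) :=
    { unq := hu
      nsk := fun z x x' h hl _ hn => nsk1 H hj7 h16 h hl hn
      dj := fun v z x hz _ hl hzx hD => (W.deep_j1 hz hl hzx hD).elim }
  have hy : ((j + 1 - 1 : ℕ) : ℤ) = j := by
    rw [Nat.add_sub_cancel]
  have hpen : OnePen P j (fun t => 2 ≤ hi t 1 - lo t 1 + 1) ∨ ∃ z : P, Hul.Jn z ∧
      ful 1 z ≤ (j + 1 - 1) ^ 2 + 5 * (j - 1) := by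
    rcases K.pen_or with h | ⟨hodd, z, x, x', h1, h2, h3, h4⟩
    · left
      intro e e' p p' hB
      refine h e e' p p' ?_
      rcases shape_cases (K.comp (topOf e)) (by omega) (K.shape (topOf e)) with h | h | ⟨a, h, h3⟩
      · have := h 1 (by omega)
        omega
      · exact h
      · have e1 := h.low 1 (by have := h.two; omega)
        omega
    · right
      refine ⟨z, h1.jn, K.cheap (by omega) hodd hE h0 (by exact_mod_cast hb hodd) h1 h2 h3 h4
        fun k hk => ?_⟩
      obtain rfl : k = 0 := by omega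
      rw [h1.sum H (by omega), nab_zero_only h1.only, nab_zero_only h1.only']
  obtain ⟨v, M, hex⟩ := exists_minK W (bdR_nonempty W hJ)
  have hV := winB_of W L h16 (cT := ((j * (j - 1) / 2 : ℕ) : ℤ) - 1) (lb := 0)
    (by rw [hy]; exact K1_cast hj7)
    (by
      rw [hy]
      have h1 : j * (j - 1) / 2 < 7 * j + 11 := by
        have h2 : j * (j - 1) ≤ j * 15 := Nat.mul_le_mul_left _ (by omega)
        omega
      have : ((j * (j - 1) / 2 : ℕ) : ℤ) < 7 * j + 11 := by exact_mod_cast h1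
      linarith)
    le_rfl (fun x hx => absurd hx List.not_mem_nil) (fun x hx => absurd hx List.not_mem_nil)
    (fun z x x' h _ _ hl k hk => by
      obtain rfl : k = 0 := by omega
      rw [h.sum H (by omega), nab_zero_only h.only, nab_zero_only h.only'])
    hpen M hex
  refine ⟨_, ⟨hV.lo, hV.mn, fun h => ?_, fun h => ?_⟩, fun h z hz hw => ?_⟩
  · rcases hV.od h with h' | h'
    · exact Or.inl h'
    · simp at h'
  · rcases hV.ev h with h' | h'
    · exact Or.inl h'
    · right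
      rw [hy] at h'
      simpa using h'
  · rw [hy] at h
    have h1 := W.owp_min hu M (by omega) hw
    rw [hz, show j + 3 - 1 = j + 2 by omega] at h1
    have h2 : (v : ℤ) ≤ ((j : ℤ) + 2) ^ 2 := by exact_mod_cast h1
    nlinarith

end Pool.Agent.GaussPoset.Sm
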