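import Pool.Agent.W_448s8f_h76.FmC
import Pool.Agent.W_448s8f_h76.FmD
import Pool.Agent.W_448s8f_h76.FkH
import Pool.Agent.W_448s7_h27.PhH

/-!
# S8 for `j = 12`: the windows `0, …, 3` after window `6` (MP_448cb3_co)
-/

namespace Pool.Agent.GaussPoset.Sm

set_option linter.unusedSectionVars false

open Finset Wd Ec W4

universe u

variable {P : Type u} [Fintype P] [PartialOrder P] [DecidableEq P] {r : ℕ}

/-- ends -/
def Er12 : List (ℕ × ℕ × ℕ) :=
    [(0, 0, 0), (1, 2, 1), (1, 3, 0), (1, 4, 0), (1, 5, 0), (1, 6, 0), (3, 9, 1), (5, 20, 1),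
     (5, 25, 0), (8, 39, 1)]

lemma chkEr12 : ChkE 12 Er12 := by decide +kernel

/-- ends -/
def Ef12x : List (ℕ × ℕ × ℕ × ℕ) :=
    [(0, 0, 0, 0), (1, 2, 1, 0), (1, 3, 0, 0), (1, 4, 0, 0), (1, 5, 0, 0), (1, 6, 0, 0),
     (3, 9, 1, 0), (5, 20, 1, 0), (5, 25, 0, 0), (8, 39, 1, 1)]

/-- sides, one level deeper -/
def Sf12x : List (ℕ × ℕ × ℕ × ℕ) :=
    [(0, 0, 0, 0), (0, 0, 1, 0), (1, 1, 0, 0), (1, 1, 1, 0), (1, 2, 0, 0), (1, 3, 0, 0),
     (1, 4, 0, 0), (1, 5, 0, 0), (1, 6, 0, 0), (2, 3, 1, 0), (3, 6, 0, 0), (3, 6, 1, 0),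
     (3, 9, 0, 0), (4, 7, 1, 0), (4, 10, 1, 0), (5, 12, 1, 0), (5, 15, 0, 0), (5, 15, 1, 0),
     (5, 20, 0, 0), (5, 25, 0, 0), (6, 13, 1, 0), (6, 16, 1, 0), (6, 21, 1, 0), (7, 23, 1, 0),
     (8, 24, 1, 0), (8, 31, 0, 0), (8, 31, 1, 0), (8, 39, 0, 1), (9, 33, 0, 0), (9, 40, 1, 1),
     (10, 34, 1, 0)]

/-- sides, two or more levels deeper -/
def Sf12y : List (ℕ × ℕ × ℕ × ℕ) :=
    [(0, 0, 0, 0), (0, 0, 1, 0), (1, 1, 0, 0), (1, 1, 1, 0), (1, 1, 2, 0), (1, 2, 0, 0),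
     (1, 3, 0, 0), (1, 4, 0, 0), (1, 5, 0, 0), (1, 6, 0, 0), (2, 3, 0, 0), (2, 3, 1, 0),
     (2, 3, 2, 0), (3, 6, 0, 0), (3, 6, 1, 0), (3, 9, 0, 0), (4, 7, 1, 0), (4, 7, 2, 0),
     (4, 7, 3, 0), (4, 10, 0, 0), (4, 10, 1, 0), (4, 10, 2, 0), (5, 12, 0, 0), (5, 12, 1, 0),
     (5, 15, 0, 0), (5, 15, 1, 0), (5, 20, 0, 0), (5, 25, 0, 0), (6, 13, 1, 0), (6, 13, 2, 0),
     (6, 13, 3, 0), (6, 16, 1, 0), (6, 16, 2, 0), (6, 21, 0, 0), (6, 21, 1, 0), (7, 23, 0, 0),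
     (7, 23, 1, 0), (8, 24, 1, 0), (8, 24, 2, 0), (8, 24, 3, 0), (8, 31, 0, 0), (8, 31, 1, 0),
     (8, 39, 0, 1), (9, 33, 0, 0), (9, 40, 0, 1), (9, 40, 1, 1), (10, 34, 1, 0),
     (10, 34, 2, 0)]

lemma chkEf12x : ChkE4 12 Ef12x := by decide +kernel

lemma chkSf12x : ChkT4 12 Sf12x := by decide +kernel

lemma chkSf12y : ChkS4 12 Sf12y := by decide +kernel

/-- lines with `g + 300`, two elements above on the level `4` -/
def tAg12 : List (List ℕ) :=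
  [[300], [294, 295, 296, 297, 298], [288, 289, 290, 291, 292, 293, 294, 295, 296, 303], [291,
   297, 298, 299, 300, 301, 302, 303], [285, 286, 287, 288, 289, 291, 292, 293, 294, 295, 296,
   297, 298, 299, 300, 301, 302, 303, 308], [275, 280, 294, 296, 297, 298, 299, 300, 301, 302,
   303, 304, 305, 306, 307, 308, 309], [269, 270, 271, 272, 273, 274, 275, 276, 277, 278, 282,
   288, 289, 290, 291, 292, 293, 294, 295, 296, 297, 298, 299, 300, 301, 302, 303, 304, 305,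
   306, 307, 308], [278, 283, 288, 291, 292, 293, 294, 295, 296], [266, 271, 272, 273, 274, 275,
   276, 277, 278, 279, 280, 281, 282, 283, 284], [], [250, 255, 260], [], [], []]

/-- lines with `g + 300`, at least three elements above on the level `4` -/
def tBg12 : List (List ℕ) :=
  [[], [], [], [], [], [], [], [], [261], [255, 256, 257, 258, 259], [264], [252, 258], [],
   [236, 241]]

/-- lines -/
def LAg12 : List (List ℤ) :=
  [[0], [-6, -5, -4, -3, -2], [-12, -11, -10, -9, -8, -7, -6, -5, -4, 3], [-9, -3, -2, -1, 0, 1,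
   2, 3], [-15, -14, -13, -12, -11, -9, -8, -7, -6, -5, -4, -3, -2, -1, 0, 1, 2, 3, 8], [-25,
   -20, -6, -4, -3, -2, -1, 0, 1, 2, 3, 4, 5, 6, 7, 8, 9], [-31, -30, -29, -28, -27, -26, -25,
   -24, -23, -22, -18, -12, -11, -10, -9, -8, -7, -6, -5, -4, -3, -2, -1, 0, 1, 2, 3, 4, 5, 6,
   7, 8], [-22, -17, -12, -9, -8, -7, -6, -5, -4], [-34, -29, -28, -27, -26, -25, -24, -23, -22,
   -21, -20, -19, -18, -17, -16], [], [-50, -45, -40], [], [], []]

/-- lines -/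
def LBg12 : List (List ℤ) :=
  [[], [], [], [], [], [], [], [], [-39], [-45, -44, -43, -42, -41], [-36], [-48, -42], [],
   [-64, -59]]

lemma LAg12_eq : LAg12 = tabI tAg12 := by decide +kernel

lemma LBg12_eq : LBg12 = tabI tBg12 := by decide +kernel

/-- caps -/
def cg12 (w : ℕ) : ℤ :=
  if w = 0 then cap0 12 else if w = 1 then ((12 * (12 - 1) / 2 : ℕ) : ℤ) - 1
  else if w = 2 then 51 else if w = 3 then 41 else 46

/-- even noise -/
def neg12 (w : ℕ) (V : ℤ) : Bool :=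
  if w = 0 then false else if w = 1 then nz 12 V
  else if w = 2 then (nz ((12 + 1 - 2 : ℕ) : ℤ) V || ([2] : List ℤ).elem V)
  else (nz ((12 + 1 - 3 : ℕ) : ℤ) V || ([-2] : List ℤ).elem V)

/-- even noise without the own pair of level `15` -/
def neh12 (w : ℕ) (V : ℤ) : Bool :=
  if w = 0 then false else if w = 1 then nz 12 V
  else if w = 2 then (nzP ((12 + 1 - 2 : ℕ) : ℤ) V || ([2] : List ℤ).elem V)
  else (nzP ((12 + 1 - 3 : ℕ) : ℤ) V || ([-2] : List ℤ).elem V)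

/-- odd noise -/
def nog12 (w : ℕ) (V : ℤ) : Bool :=
  if w = 0 then false else if w = 1 then false else ([] : List ℤ).elem V

/-- lower bounds -/
def lwg12 (w : ℕ) : ℤ := if w = 3 then -2 else 0

/-- caps as a list -/
def cgl12 : List (ℕ × ℕ) := [(12, 80), (11, 65), (10, 51), (9, 41), (8, 46)]

lemma capg12 : CapL 12 4 cg12 cgl12 := by decide +kernel

lemma fg12a : fst1F cgl12 tAg12 tBg12 Sf12x = true := by decide +kernel

lemma fg12b : fst2F cgl12 tAg12 tBg12 Sf12y = true := by decide +kernel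

theorem tabg12 : TabF 12 4 cg12 LAg12 LBg12 Ef12x Sf12x Sf12y XN := by
  refine ⟨by norm_num, by norm_num, chkEf12x, chkSf12x, chkSf12y, ?_, ?_, ?_, ?_, ?_, ?_, ?_, ?_⟩
  · decide +kernel
  · decide +kernel
  · decide +kernel
  · decide +kernel
  · decide +kernel
  · rw [LAg12_eq, LBg12_eq]
    exact chk1F_of capg12 fg12a
  · rw [LAg12_eq, LBg12_eq]
    exact chk2F_of (by norm_num) capg12 fg12b
  · decide +kernel

/-- rounds -/
def rg12 (ne : ℕ → ℤ → Bool) (u : List ℤ) : List ℤ :=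
  rnds (aX LAg12 LBg12 [] ((12 : ℕ) : ℤ)) nog12 ne cg12 (odds LAg12.length)
    (evens LAg12.length) ((12 : ℕ) : ℤ) 300 4 12 u

/-- the windows `0, …, 3` -/
lemma swg12_1 : rg12 neg12 ((List.range 4).map fun w => min (lwg12 w) (cg12 w + 1)) = [61, 55, 48, 40] := by
  decide +kernel

/-- the windows `0, …, 3` without the own pair of level `15` -/
lemma swg12_2 : rg12 neh12 ((List.range 4).map fun w => min (lwg12 w) (cg12 w + 1)) = [66, 60, 52, 42] := by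
  decide +kernel

/-- the pairs of ends which are left -/
def Rg12 : List ((ℕ × ℕ × ℕ) × (ℕ × ℕ × ℕ)) :=
    [((3, 9, 1), (8, 39, 1)), ((5, 20, 1), (5, 20, 1)), ((5, 20, 1), (5, 25, 0)),
     ((5, 20, 1), (8, 39, 1)), ((5, 25, 0), (5, 20, 1)), ((5, 25, 0), (8, 39, 1)),
     ((8, 39, 1), (3, 9, 1)), ((8, 39, 1), (5, 20, 1)), ((8, 39, 1), (5, 25, 0)),
     ((8, 39, 1), (8, 39, 1))]

lemma restg12 : restF 12 Ef12x XN [66, 60, 52, 42] [] = Rg12 := by
  decide +kernel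

end Pool.Agent.GaussPoset.Sm
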