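import Pool.Agent.W_448s8f_h76.FpA

/-!
# S8 for `j = 12`: no own pair of level `15`; the balances without it (MP_448cb3_co)
-/

namespace Pool.Agent.GaussPoset.Sm

set_option linter.unusedSectionVars false

open Finset Wd Ec W4

universe u

variable {P : Type u} [Fintype P] [PartialOrder P] [DecidableEq P] {r : ℕ}
  {lo hi : Tops P → ℕ → ℕ} {e : Tops P → ℕ → ℕ → P}

/-- the partners of the fold ends after window `6`, energies at most `20` -/
def EFa : List (ℕ × ℕ × ℕ) := [(1, 5, 0), (3, 9, 1), (5, 20, 1), (5, 25, 0), (8, 39, 1)]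

/-- the partners of the fold ends after the kill at `32` -/
def EFb : List (ℕ × ℕ × ℕ) := [(3, 9, 1), (5, 20, 1), (5, 25, 0), (8, 39, 1)]

/-- the partners of the fold ends after the kill at `44` -/
def EFc : List (ℕ × ℕ × ℕ) := [(5, 20, 1), (8, 39, 1)]

/-- fold joins above a bound -/
lemma Ctx.fo_gt {j w : ℕ} (K : Ctx P r j lo hi e) (h12 : 12 ≤ j) (hw : w ≤ 4)
    {EF : List (ℕ × ℕ × ℕ)} (hL : FoL P j EF) {n : ℕ} (h1 : (n : ℤ) + 1 ≤ cFF w j)
    (h2 : ∀ s ∈ EF, (n : ℤ) + 1 ≤ cF w j s) :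
    ∀ z x x' : P, FJn j z x x' → n < cst w (fun _ => j - w - 1) z := by
  intro z x x' h
  have h3 := K.fo_ge h12 hw hL h1 h2 h
  have h4 : ((n + 1 : ℕ) : ℤ) ≤ (cst w (fun _ => j - w - 1) z : ℤ) := by
    push_cast
    exact h3
  exact_mod_cast h4

/-- the inputs of the windows `2`, `3` -/
lemma Ctx.inS12 {w K' : ℕ} {XE XO : ℕ → Prop} (K : Ctx P r 12 lo hi e) (hw : w ≤ 4)
    (hCC : NoCC P 12) {EF : List (ℕ × ℕ × ℕ)} (hL : FoL P 12 EF)
    (h1 : (K' : ℤ) + 1 ≤ cFF w 12) (h2 : ∀ s ∈ EF, (K' : ℤ) + 1 ≤ cF w 12 s)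
    (h3 : Okv K' XE XO (foN w 12) (foC w 12)) : InS P 12 w K' XE XO where
  hfl := fun h => absurd h (by norm_num)
  hcc := fun _ => Or.inl hCC
  hFo := fun _ => K.fo_gt le_rfl hw hL h1 h2
  hfv := fun _ => h3

/-- the balances before the exclusion of the own pair of level `15` -/
theorem balg12 (K : Ctx P r 12 lo hi e) (hJ : ∃ z : P, Hul.Jn z) :
    ∃ V : ℕ → ℤ, Bals P 12 cg12 nog12 neg12 lwg12 V ∧
      (4 * ((12 : ℕ) : ℤ) + 4 < V 1 → ∀ z : P, lev z = 12 + 3 → ¬ OwP z) := by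
  obtain ⟨hCC, hL⟩ := K.st2
  obtain ⟨V0, h0⟩ : ∃ V, WinB P 12 0 (cg12 0) (nog12 0) (neg12 0) (lwg12 0) V := K.win0 hJ
  obtain ⟨V1, h1, h1'⟩ := K.win1P (by norm_num) chkEr12 (by decide +kernel)
    (fun h => absurd h (by norm_num)) hJ
  obtain ⟨V2, h2⟩ := K.winN (w := 2) (c0 := 51) (cT := 51) (LE := [2]) (LO := []) (lb := 0)
    (noFo_big le_rfl) (by norm_num) (fun _ => le_rfl) (Or.inl rfl) chkEr12 (by decide +kernel)
    (fun h => absurd h (by norm_num)) (by decide +kernel) (by decide +kernel) le_rfl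
    (fun _ _ _ _ => Wk.cells_naive)
    (K.inS12 (by norm_num) hCC hL (by decide +kernel) (by decide +kernel)
      (Or.inr (Or.inl ⟨by decide +kernel, by unfold XL; decide +kernel⟩)))
    (by norm_num) (by norm_num) (by norm_num) (by decide +kernel) (by decide +kernel) hJ
  obtain ⟨V3, h3⟩ := K.winN (w := 3) (c0 := 41) (cT := 41) (LE := [-2]) (LO := []) (lb := -2)
    (noFo_big le_rfl) (by norm_num) (fun _ => le_rfl) (Or.inr ⟨rfl, by norm_num⟩) chkEr12
    (by decide +kernel)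
    (fun h => absurd h (by norm_num)) (by decide +kernel) (by decide +kernel) le_rfl
    (fun _ _ _ _ => Wk.cells_naive)
    (K.inS12 (by norm_num) hCC hL (by decide +kernel) (by decide +kernel)
      (Or.inr (Or.inl ⟨by decide +kernel, by unfold XL; decide +kernel⟩)))
    (by norm_num) (by norm_num) (by norm_num) (by decide +kernel) (by decide +kernel) hJ
  refine ⟨fun w => if w = 0 then V0 else if w = 1 then V1 else if w = 2 then V2 else V3, ?_, h1'⟩
  intro w hw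
  have : w = 0 ∨ w = 1 ∨ w = 2 ∨ w = 3 := by omega
  rcases this with rfl | rfl | rfl | rfl
  · exact h0
  · exact h1
  · exact h2
  · exact h3

/-- **no own pair of level `15`** -/
theorem noOwP12 (K : Ctx P r 12 lo hi e) (hJ : ∃ z : P, Hul.Jn z) :
    ∀ z : P, lev z = 12 + 3 → ¬ OwP z := by
  obtain ⟨V, hB, h⟩ := balg12 K hJ
  have s1 : StF P 12 V [61, 55, 48, 40] [] :=
    swg12_1 ▸ K.sweepF (noP_XN (P := P) 12) tabg12 hB (StF.start hB) 300 12
  refine h ?_
  have h1 := s1.bel.2 1 (by norm_num)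
  have h2 : (([61, 55, 48, 40] : List ℤ).getD 1 0) = 55 := rfl
  rw [h2] at h1
  push_cast
  linarith

end Pool.Agent.GaussPoset.Sm
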