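import Pool.Agent.W_448s8f_h76.FpB
import Pool.Agent.W_448s8f_h76.FjE
import Pool.Agent.W_448s8f_h76.GqG
import Pool.Agent.W_448s7_h27.EwR

/-!
# S8 for `j = 12`: no joins of two pendants, the fold joins with `(1, 5)` (MP_448cb3_co)
-/

namespace Pool.Agent.GaussPoset.Sm

set_option linter.unusedSectionVars false

open Finset Wd Ec W4

universe u

variable {P : Type u} [Fintype P] [PartialOrder P] [DecidableEq P] {r : ℕ}
  {lo hi : Tops P → ℕ → ℕ} {e : Tops P → ℕ → ℕ → P}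

/-- the balance at the window `3` -/
theorem w3_12b (K : Ctx P r 12 lo hi e) (hJ : ∃ z : P, Hul.Jn z) :
    W3R P r 12 lo hi (cg12 3) (nog12 3) (neh12 3) (lwg12 3) 143 := by
  obtain ⟨hCC, hL⟩ := K.st2
  exact K.w3RR (c0 := 41) (cT := 41) (LE := [-2]) (LO := []) (lb := -2)
    le_rfl chkEr12 (by decide +kernel)
    (fun h => absurd h (by norm_num)) (by decide +kernel) (by decide +kernel) le_rfl
    (fun _ _ _ _ => Wk.cells_naive)
    (K.inS12 (by norm_num) hCC hL (by decide +kernel) (by decide +kernel)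
      (Or.inr (Or.inl ⟨by decide +kernel, by unfold XL; decide +kernel⟩)))
    (fun _ => hCC) (noOwP12 K hJ)
    (by norm_num) (by norm_num) (by norm_num) (by decide +kernel) (by decide +kernel)

/-- the balances at the windows `0, 1, 2` -/
theorem b3_12b (K : Ctx P r 12 lo hi e) (hJ : ∃ z : P, Hul.Jn z) :
    ∀ w < 3, ∃ V, WinB P 12 w (cg12 w) (nog12 w) (neh12 w) (lwg12 w) V := by
  obtain ⟨hCC, hL⟩ := K.st2
  intro w hw
  have : w = 0 ∨ w = 1 ∨ w = 2 := by omega
  rcases this with rfl | rfl | rfl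
  · exact K.win0 hJ
  · obtain ⟨V1, h1, -⟩ := K.win1P (by norm_num) chkEr12 (by decide +kernel)
      (fun h => absurd h (by norm_num)) hJ
    exact ⟨V1, h1⟩
  · exact K.winR (w := 2) (c0 := 51) (cT := 51) (LE := [2]) (LO := []) (lb := 0)
      (noFo_big le_rfl) (by norm_num) (fun _ => le_rfl) (Or.inl rfl) chkEr12 (by decide +kernel)
      (fun h => absurd h (by norm_num)) (by decide +kernel) (by decide +kernel) le_rfl
      (fun _ _ _ _ => Wk.cells_naive)
      (K.inS12 (by norm_num) hCC hL (by decide +kernel) (by decide +kernel)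
        (Or.inr (Or.inl ⟨by decide +kernel, by unfold XL; decide +kernel⟩)))
      (by norm_num) (by norm_num) (by norm_num) (by decide +kernel) (by decide +kernel)
      (fun _ => hCC) (noOwP12 K hJ) hJ

/-- the state without the own pair of level `15` -/
theorem bal3b (K : Ctx P r 12 lo hi e) (hJ : ∃ z : P, Hul.Jn z)
    {N : Tops P → Finset P} {θ3 θ4 : Tops P → P → ℕ} (S : Sy P 12 lo hi N θ3 θ4) :
    ∃ (K3 v v' : ℕ) (V : ℕ → ℤ), Mn 12 3 N θ3 v ∧ min v' 143 ≤ v ∧ (143 + 4 ≤ v' → v' ≤ v) ∧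
      Wk r 12 3 K3 N (fun t => hi t 3 - lo t 3 + 1) θ3 ∧
      Bals P 12 cg12 nog12 neh12 lwg12 V ∧ V 3 = (v' : ℤ) - ((12 + 1 - 3 : ℕ) : ℤ) ^ 2 ∧
      StF P 12 V [66, 60, 52, 42] [] := by
  obtain ⟨K3, v, v', V, M, q1, q2, W, hB, hV3⟩ := (w3_12b K hJ).bals S hJ (b3_12b K hJ)
  exact ⟨K3, v, v', V, M, q1, q2, W, hB, hV3,
    swg12_2 ▸ K.sweepF (noP_XN (P := P) 12) tabg12 hB (StF.start hB) 300 12⟩

/-- the data of the fold ends -/
lemma fold_dt12 {x : P} (hf : Fold 12 x) : mX 12 x = 15 := by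
  have h1 := hf.mX.1
  rw [h1]
  decide +kernel

/-- the sides with few elements above them are no fold ends -/
lemma sok_of_dt {x : P} {s : ℕ × ℕ × ℕ} (hl : lev x = 12) (hs : Dt 12 x s) (h : s.1 ≠ 15) :
    Sok 12 x := by
  refine ⟨fun hf => ?_, fun _ hf => ?_⟩
  · have := hf.1
    omega
  · have h1 := fold_dt12 hf
    have h2 := hs.1
    rw [h2] at h1
    exact h (by exact_mod_cast h1)

/-- **no joins of two ends with two elements above them on the level `10`** -/
theorem noPD12 (K : Ctx P r 12 lo hi e) : ∀ z x x' : P, Cg z x x' → lev z = 12 + 1 →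
    nab (12 - 2) x = 2 → nab (12 - 2) x' = 2 → False := by
  refine Gq.no_pdpd K Gq.gq12 ?_
  intro z x x' hz hlz s s' hs hs' hD hD'
  have H := K.gt.H
  obtain ⟨l1, l2⟩ := hz.lev_eq H
  obtain ⟨N, θ3, θ4, Nf, θf, D, S, F⟩ := exists_fs K (by norm_num)
  obtain ⟨K3, v, v', V, M, q1, q2, W, hB, hV3, hS⟩ := bal3b K ⟨z, hz.jn⟩ S
  have hs1 : s = (3, 9, 1) := by simpa using hs
  have hs2 : s' = (3, 9, 1) ∨ s' = (5, 20, 1) ∨ s' = (1, 2, 1) := by
    rcases hs' with h | h
    · exact Or.inl (by simpa using h)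
    · exact Or.inr (by simpa using h)
  have k1 : Sok 12 x := sok_of_dt (by omega) hD (by rw [hs1]; norm_num)
  have k2 : Sok 12 x' := by
    refine sok_of_dt (by omega) hD' ?_
    rcases hs2 with h | h | h <;> rw [h] <;> norm_num
  obtain ⟨p, p', g1, g2, g3⟩ := K.leftS (noP_XN (P := P) 12) tabg12 hB hS hz hlz k1 k2
  rw [restg12] at g1
  have e1 : p = s := by
    obtain ⟨a1, a2, a3⟩ := g2
    obtain ⟨b1, b2, b3⟩ := hD
    have c1 : p.1 = s.1 := by rw [a1] at b1; exact_mod_cast b1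
    have c2 : p.2.1 = s.2.1 := by rw [a2] at b2; exact_mod_cast b2
    have c3 : p.2.2 = s.2.2 := by omega
    exact Prod.ext c1 (Prod.ext c2 c3)
  have e2 : p' = s' := by
    obtain ⟨a1, a2, a3⟩ := g3
    obtain ⟨b1, b2, b3⟩ := hD'
    have c1 : p'.1 = s'.1 := by rw [a1] at b1; exact_mod_cast b1
    have c2 : p'.2.1 = s'.2.1 := by rw [a2] at b2; exact_mod_cast b2
    have c3 : p'.2.2 = s'.2.2 := by omega
    exact Prod.ext c1 (Prod.ext c2 c3)
  rw [e1, e2, hs1] at g1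
  revert g1
  rcases hs2 with h | h | h <;> rw [h] <;> decide +kernel

/-- fold ends have two elements above them on the level `10` -/
lemma fold_pd12 {x : P} (hf : Fold 12 x) : nab (12 - 2) x = 2 := by
  have := hf.2.2 10 (by norm_num)
  have e : 12 - 2 = 10 := by norm_num
  rw [e]
  omega

/-- **the partners of the fold ends** -/
theorem foL12b (K : Ctx P r 12 lo hi e) : FoL P 12 [(1, 5, 0), (5, 25, 0)] := by
  obtain ⟨-, hL⟩ := K.st2
  intro z x x' h
  have hpd : nab (12 - 2) x' ≠ 2 := fun h2 => noPD12 K z x x' h.1 h.2.1 (fold_pd12 h.2.2) h2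
  rcases hL z x x' h with h1 | ⟨s, hs, hD⟩
  · exact absurd (fold_pd12 h1) hpd
  · right
    have h3 := hD.2.2
    refine ⟨s, ?_, hD⟩
    simp only [List.mem_cons, List.not_mem_nil, or_false] at hs ⊢
    rcases hs with rfl | rfl | rfl | rfl | rfl
    · exact Or.inl rfl
    · exact absurd h3 hpd
    · exact absurd h3 hpd
    · exact Or.inr rfl
    · exact absurd h3 hpd

lemma nm12_113 : Nm 12 ((12 - 3) ^ 2 + 32) 142 := by constructor <;> decide +kernel

lemma low12_32 : lowC LAg12 LBg12 [] ((12 : ℕ) : ℤ) [66, 60, 52, 42] ((32 : ℕ) : ℤ) = true := by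
  decide +kernel

lemma par12_32 : parC LBg12 ((12 : ℕ) : ℤ) [66, 60, 52, 42] ((32 : ℕ) : ℤ) ((0 : ℕ) : ℤ) = true := by
  decide +kernel

/-- **the fold joins with `(1, 5)` are excluded** -/
theorem foL12c (K : Ctx P r 12 lo hi e) : FoL P 12 [(5, 25, 0)] := by
  classical
  by_cases hJ : ∃ z : P, Hul.Jn z
  swap
  · intro z x x' h
    exact absurd ⟨z, h.1.jn⟩ hJ
  have hL := foL12b K
  obtain ⟨N, θ3, θ4, Nf, θf, D, S, F⟩ := exists_fs K (by norm_num)
  obtain ⟨K3, v, v', V, M, q1, q2, W, hB, hV3, hS⟩ := bal3b K hJ S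
  have hv : 142 ≤ v := hS.v3R hV3 q1 q2 (Or.inl (by norm_num)) (Or.inl (by norm_num))
  have Y : Y4 r 12 K3 ((12 - 3) ^ 2 + 32) 142 N _ θ3 θ4 := y4_of S W M hv nm12_113
  have hFo : FoB P 12 ((12 - 3) ^ 2 + 32 + 1) := by
    intro z x x' hz hl hf
    have h3 := K.fo_ge (by norm_num) (by norm_num : 4 ≤ 4) hL (n := 113) (by decide +kernel)
      (by decide +kernel) (⟨hz, hl, hf⟩ : FJn 12 z x x')
    have h4 := Ec.cst_lt_ful (z := z) (k := 12 - 4 - 1) (by omega)
    have h5 : (113 : ℤ) ≤ (cst 4 (fun _ => 12 - 4 - 1) z : ℤ) := h3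
    have h6 : 113 ≤ cst 4 (fun _ => 12 - 4 - 1) z := by exact_mod_cast h5
    omega
  have hj := K.costF (noP_XN (P := P) 12) tabg12 hB hS (T0 := 32) (hFo.mono (Nat.le_succ _))
    (by decide +kernel) low12_32 (by decide +kernel) (fun _ => by decide +kernel)
  have hp : ∀ z x x' : P, Cg z x x' → ful 4 z = (12 - 3) ^ 2 + 32 → 3 ≤ nab 4 z →
      nst 4 (fun z => lev z - 4) z % 2 = 0 := by
    intro y w w' hy hfy h3
    obtain ⟨g1, g2, g3⟩ := K.sokN le_rfl hFo (by decide +kernel) (fun _ => by decide +kernel)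
      hy hfy
    have h4 := K.par4 le_rfl hy g1 g2
    have h5 := K.parV (noP_XN (P := P) 12) tabg12 hB hS (T0 := ((32 : ℕ) : ℤ)) (by decide +kernel)
      par12_32 hy g1 g2 g3 h3
    rw [h5] at h4
    exact_mod_cast h4
  have hk := (F.killF12 K Y (by norm_num) le_rfl (by norm_num) hj hL (by decide +kernel)
    (p := 0) (by decide +kernel) (F.hdv_Gd12 K Y (fun x hx => Y.out_tw hx)) hp).2
  have he : ([(1, 5, 0), (5, 25, 0)] : List (ℕ × ℕ × ℕ)).filter
      (fun s => decide (cF 4 12 s ≠ (((12 - 3) ^ 2 + 32 : ℕ) : ℤ))) = [(5, 25, 0)] := by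
    decide +kernel
  rw [he] at hk
  exact hk

end Pool.Agent.GaussPoset.Sm
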