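import Pool.Agent.W_448s8f_h76.FpC

/-!
# `j = 12`: the fold joins with `(5, 25)` at window `6`, energy `22` (MP_448cb3_co, S8)
-/

namespace Pool.Agent.GaussPoset.W6

set_option linter.unusedSectionVars false

open Polynomial Finset Dd Wd Cl J8

universe u

variable {P : Type u} [Fintype P] [PartialOrder P] [DecidableEq P] {r : ℕ}
variable {lo hi : Tops P → ℕ → ℕ} {e : Tops P → ℕ → ℕ → P}

/-- **Level 12, window 6, the energy 22.** -/
theorem level12c (K : Sm.Ctx P r 12 lo hi e)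
    (hJ3 : ∀ z x x' : P, lev z = 13 → z ⋖ x → z ⋖ x' → topOf x ≠ topOf x' →
      ((nab 6 x = 2 ∧ nab 7 x = 1) ∨ 3 ≤ nab 6 x) →
      nab 6 z = 6 ∧ nab 7 z = 5 ∧ S13 z = 22) :
    ∀ z x x' : P, lev z = 13 → z ⋖ x → z ⋖ x' → topOf x ≠ topOf x' → 3 ≤ nab 6 x → False := by
  classical
  have H := K.gt.H
  choose Y θ B ρ hts hρ hcom hcx h03 using fun t : Tops P => exists_A K.gt (K.comp t) (K.shape t)
  have W : C12 P r lo hi e 24 23 True ρ Y θ B := ⟨K, hts⟩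
  have hside : ∀ x : P, (Fp x ∨ Qp x) → ((nab 6 x = 2 ∧ nab 7 x = 1) ∨ 3 ≤ nab 6 x) := by
    intro x hx
    rcases hx with hx | hx
    · right
      have := hx.1
      omega
    · left
      exact ⟨hx.1, hx.2.1⟩
  obtain ⟨h713, hX, -⟩ := W.upto20 (by norm_num) (by norm_num) (by
    intro z x x' hj hx
    obtain ⟨-, -, h⟩ := hJ3 z x x' hj.lz hj.cov hj.cov' hj.ne (hside x hx)
    left
    omega)
  have key : ∀ z ∈ bdR (unnat (N12 Y)), 24 ≤ cst 6 (h12 Y θ) z ∨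
      (h12 Y θ z = 1 ∧ nab 6 z = 6 ∧ nab 7 z = 5 ∧ cst 6 (h12 Y θ) z = 22) := by
    intro z hz
    obtain ⟨n7, n13⟩ := h713 z hz
    rcases W.kd hz with h1 | ⟨-, h1, -⟩ | ⟨-, h1, -⟩ | ⟨h1, h2, x, x', hj, hx⟩ | ⟨-, h1⟩
    · exact Or.inl h1
    · exact absurd h1 n7
    · exact absurd h1 n13
    · obtain ⟨a, b, h⟩ := hJ3 z x x' hj.lz hj.cov hj.cov' hj.ne (hside x hx)
      exact Or.inr ⟨h1, a, b, by omega⟩
    · rw [hX] at h1
      exact absurd h1 (Finset.notMem_empty _)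
  have hX0 : ∀ z, z ∉ CX lo hi Y θ := by
    rw [hX]
    exact fun z => Finset.notMem_empty _
  have n22 : ∀ z ∈ bdR (unnat (N12 Y)), cst 6 (h12 Y θ) z ≠ 22 := by
    intro z hz hzn
    refine absurd (W.step (n := 22) (s := below P 6 + 6) (by norm_num) (by norm_num)
      (Or.inr (Or.inr hX)) (W.card_pos (topOf z)) le_rfl (fun y hy _ => ?_)
      (fun _ => 1) ?_ z hz (hX0 z) hzn) one_ne_zero
    · rcases key y hy with h1 | ⟨-, -, -, h1⟩ <;> omega
    · intro y hy _ hc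
      rcases key y hy with h1 | ⟨h1, h2, h3, -⟩
      · omega
      · have h4 := lv_lt (h := h12 Y θ) (z := y) h1 (B' := (lv P 6).card) (by omega)
        rw [h2] at h4
        rw [Nat.cast_one, one_mul]
        exact h4
  intro z x x' hlz hzx hzx' hne h3
  have l1 := (H.covBy_iff.mp hzx).2
  have l2 := (H.covBy_iff.mp hzx').2
  have hon : ∀ v : P, lev v = 12 → v ∈ onlyB (topOf v) := fun v hv =>
    only_low K.gt v (le_topOf v) hv.le
  have hcg : Sm.Cg z x x' := Sm.Cg.mk' hzx hzx' (hon x (by omega)) (hon x' (by omega)) hne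
  obtain ⟨u1, u2⟩ := K.ends hcg hlz
  have h4 := (((W.ts (topOf x)).cost.ends x (le_topOf x) (by omega) u1).1 h3).1
  obtain ⟨hh, hj⟩ := W.jn_jo hlz hzx hzx' hne h4
  have hzb := W.jn_bd hlz hzx hzx' hne
  have h5 := n22 z hzb
  rw [cst_S13 hh hlz] at h5
  exact h5 (hJ3 z x x' hlz hzx hzx' hne (Or.inr h3)).2.2

end Pool.Agent.GaussPoset.W6

namespace Pool.Agent.GaussPoset.Sm

set_option linter.unusedSectionVars false

open Finset Wd W4

universe u

variable {P : Type u} [Fintype P] [PartialOrder P] [DecidableEq P] {r j w : ℕ}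
  {lo hi : Tops P → ℕ → ℕ} {e : Tops P → ℕ → ℕ → P}

lemma p12_e : ∀ q ∈ P12, (q.1, q.2.1, q.2.2.1) ∈ ([(5, 25, 0)] : List (ℕ × ℕ × ℕ)) →
    q.2.2.2.1 = 1 ∧ q.2.2.2.2.1 = 1 ∧ q.2.2.2.2.2 = 3 := by
  decide +kernel

/-- **the hypothesis of window `6`, energy `22`** -/
theorem Ctx.hJ3 (K : Ctx P r 12 lo hi e) (hL : FoL P 12 [(5, 25, 0)])
    {z x x' : P} (hz : lev z = 13) (hzx : z ⋖ x)
    (hzx' : z ⋖ x') (hne : topOf x ≠ topOf x')
    (hx : (nab 6 x = 2 ∧ nab 7 x = 1) ∨ 3 ≤ nab 6 x) :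
    nab 6 z = 6 ∧ nab 7 z = 5 ∧
      nab 7 z + nab 8 z + nab 9 z + nab 10 z + nab 11 z + nab 12 z + 1 = 22 := by
  have H := K.gt.H
  have h := K.cg hz hzx hzx' hne
  have hl := (h.lev_eq H).1
  have hl' := (h.lev_eq H).2
  obtain ⟨u1, u2⟩ := K.ends h hz
  obtain ⟨s1, s2, s3⟩ := cg_sum H h hz
  have key : ∀ y y' : P, Cg z y y' → Fold 12 y → (Win.uc y').card = 1 → lev y' = 12 →
      nab 6 z = nab 6 y + nab 6 y' → nab 7 z = nab 7 y + nab 7 y' →
      nab 7 z + nab 8 z + nab 9 z + nab 10 z + nab 11 z + nab 12 z =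
        (nab 7 y + nab 8 y + nab 9 y + nab 10 y + nab 11 y + nab 12 y) +
        (nab 7 y' + nab 8 y' + nab 9 y' + nab 10 y' + nab 11 y' + nab 12 y') →
      nab 6 z = 6 ∧ nab 7 z = 5 ∧
      nab 7 z + nab 8 z + nab 9 z + nab 10 z + nab 11 z + nab 12 z + 1 = 22 := by
    intro y y' hy hf uy ly t1 t2 t3
    obtain ⟨f1, f2, f3⟩ := fold_n12 hf
    by_cases hf' : Fold 12 y'
    · exact (noPD12 K z y y' hy hz (fold_pd12 hf) (fold_pd12 hf')).elim
    rcases hL z y y' ⟨hy, hz, hf⟩ with hf'' | ⟨⟨m', c', b'⟩, g0, g0'⟩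
    · exact absurd hf'' hf'
    · obtain ⟨m, c, b, p, q, s, g1, g1', g2, g3, g4⟩ := K.endP hy.only' ly uy hf'
      obtain ⟨rfl, rfl, rfl⟩ := dt_uni g1' g0'
      have g5 := p12_e _ g1 g0
      simp only at g5
      omega
  by_cases hf : Fold 12 x
  · exact key x x' h hf u2 (by omega) s1 s2 s3
  by_cases hf' : Fold 12 x'
  · exact key x' x h.symm hf' u1 (by omega) (by omega) (by omega) (by omega)
  exfalso
  obtain ⟨s, s', g1, g2, g3⟩ := leftf12 K h hz hf hf'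
  obtain ⟨m, c, b, p, q, t, k1, k2, k3, k4, k5⟩ := K.endP h.only (by omega) u1 hf
  obtain ⟨m', c', b'⟩ := s
  obtain ⟨rfl, rfl, rfl⟩ := dt_uni k2 g2
  have g4 := p12_b _ g1 _ k1 rfl rfl
  simp only at g4
  omega

/-- **no fold joins at level `13`** -/
theorem nf12 (K : Ctx P r 12 lo hi e) : Sm.NF P 12 := by
  refine nf_of_six fun z x x' hz hzx hzx' hne hx => ?_
  refine W6.level12c K (fun z x x' hz hzx hzx' hne hx => ?_) z x x' hz hzx hzx' hne hx
  have := K.hJ3 (foL12c K) hz hzx hzx' hne hx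
  unfold W6.S13
  exact this

end Pool.Agent.GaussPoset.Sm
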