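import Pool.Agent.W_448s8f_h76.FpD
import Pool.Agent.W_448pg_h74.WvF
import Pool.Agent.W_448pg_h74.WuC
import Pool.Agent.W_448s7_h27.PoH
import Pool.Agent.W_448f4_h70.GX

/-!
# S8 for `j = 12`: the tables after the fold joins are excluded (MP_448cb3_co)
-/

namespace Pool.Agent.GaussPoset.Sm

set_option linter.unusedSectionVars false

open Finset Wd Ec W4

universe u

variable {P : Type u} [Fintype P] [PartialOrder P] [DecidableEq P] {r : ℕ}

/-- the pairs with third entries `1`, `1` -/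
def XPd (s s' : ℕ × ℕ × ℕ) : Bool := s.2.2 == 1 && s'.2.2 == 1

/-- the pairs with two elements above on level `10` on both sides are excluded -/
theorem noP_XPd {lo hi : Tops P → ℕ → ℕ} {e : Tops P → ℕ → ℕ → P} (K : Ctx P r 12 lo hi e) :
    NoP P 12 XPd := by
  intro z x x' h hl s s' d d'
  unfold XPd
  rw [Bool.and_eq_false_iff]
  by_contra hcon
  push Not at hcon
  obtain ⟨h1, h2⟩ := hcon
  simp only [ne_eq, Bool.not_eq_false, beq_iff_eq] at h1 h2
  have d3 := d.2.2
  have d3' := d'.2.2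
  exact noPD12 K z x x' h hl (by omega) (by omega)

/-- lines with `g + 300`, two elements above on the level `4` -/
def tAq12 : List (List ℕ) :=
  [[300], [294, 295, 296, 297, 298], [288, 289, 290, 291, 292, 293, 294, 295, 303], [291, 297,
   298, 299, 300, 301, 302, 303], [285, 286, 287, 288, 291, 292, 293, 294, 295, 296, 297, 298,
   299, 300, 301, 302, 303, 308], [275, 280, 294, 296, 297, 298, 299, 300, 301, 302, 303, 304,
   305, 306, 307, 308, 309], [269, 270, 271, 272, 273, 274, 275, 276, 277, 288, 289, 290, 291,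
   292, 293, 294, 295, 296, 297, 298, 299, 300, 301, 302, 303, 304, 305, 306, 307, 308], [278,
   283, 288, 291, 292, 293, 294, 295, 296], [266, 272, 273, 274, 275, 276, 277, 278, 279, 280,
   281, 282, 283, 284], [], [250, 255], [], [], []]

/-- lines with `g + 300`, at least three elements above on the level `4` -/
def tBq12 : List (List ℕ) :=
  [[], [], [], [], [], [], [], [], [261], [255, 256, 257, 258], [264], [258], [], [236]]

/-- lines -/
def LAq12 : List (List ℤ) :=
  [[0], [-6, -5, -4, -3, -2], [-12, -11, -10, -9, -8, -7, -6, -5, 3], [-9, -3, -2, -1, 0, 1, 2,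
   3], [-15, -14, -13, -12, -9, -8, -7, -6, -5, -4, -3, -2, -1, 0, 1, 2, 3, 8], [-25, -20, -6,
   -4, -3, -2, -1, 0, 1, 2, 3, 4, 5, 6, 7, 8, 9], [-31, -30, -29, -28, -27, -26, -25, -24, -23,
   -12, -11, -10, -9, -8, -7, -6, -5, -4, -3, -2, -1, 0, 1, 2, 3, 4, 5, 6, 7, 8], [-22, -17,
   -12, -9, -8, -7, -6, -5, -4], [-34, -28, -27, -26, -25, -24, -23, -22, -21, -20, -19, -18,
   -17, -16], [], [-50, -45], [], [], []]

/-- lines -/
def LBq12 : List (List ℤ) :=
  [[], [], [], [], [], [], [], [], [-39], [-45, -44, -43, -42], [-36], [-42], [], [-64]]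

lemma LAq12_eq : LAq12 = tabI tAq12 := by decide +kernel

lemma LBq12_eq : LBq12 = tabI tBq12 := by decide +kernel

/-- caps -/
def cq12 (c1 c2 c3 : ℤ) (w : ℕ) : ℤ :=
  if w = 0 then cap0 12 else if w = 1 then c1 else if w = 2 then c2 else if w = 3 then c3 else 46

/-- even noise -/
def neq12 (L2 L3 : List ℤ) (w : ℕ) (V : ℤ) : Bool :=
  if w = 0 then false else if w = 1 then nz 12 V
  else if w = 2 then (nzP ((12 + 1 - 2 : ℕ) : ℤ) V || L2.elem V)
  else ((nz ((12 + 1 - 3 : ℕ) : ℤ) V && !(([44] : List ℤ).elem V)) || L3.elem V)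

/-- odd noise -/
def noq12 (L3 : List ℤ) (w : ℕ) (V : ℤ) : Bool :=
  if w = 0 then false else if w = 1 then false else if w = 2 then ([] : List ℤ).elem V
  else L3.elem V

/-- rounds -/
def rq12 (cap : ℕ → ℤ) (nO nE : ℕ → ℤ → Bool) (XL : List ℤ) (u : List ℤ) : List ℤ :=
  rnds (aX LAq12 LBq12 XL ((12 : ℕ) : ℤ)) nO nE cap (odds LAq12.length)
    (evens LAq12.length) ((12 : ℕ) : ℤ) 300 4 16 u

end Pool.Agent.GaussPoset.Sm
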