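import Pool.Agent.W_448s8f_h76.FqA

/-!
# S8 for `j = 12`: the phases (MP_448cb3_co)
-/

namespace Pool.Agent.GaussPoset.Sm

set_option linter.unusedSectionVars false

open Finset Wd Ec W4

universe u

variable {P : Type u} [Fintype P] [PartialOrder P] [DecidableEq P] {r : ℕ}

/-- caps as a list -/
def clqa12 : List (ℕ × ℕ) := [(12, 80), (11, 65), (10, 52), (9, 45), (8, 46)]

lemma capqa12 : CapL 12 4 (cq12 65 52 45) clqa12 := by decide +kernel

lemma fqa12a : fst1F clqa12 tAq12 tBq12 Sf12x = true := by decide +kernel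

lemma fqa12b : fst2F clqa12 tAq12 tBq12 Sf12y = true := by decide +kernel

theorem tabqa12 : TabF 12 4 (cq12 65 52 45) LAq12 LBq12 Ef12x Sf12x Sf12y XPd := by
  refine ⟨by norm_num, by norm_num, chkEf12x, chkSf12x, chkSf12y, ?_, ?_, ?_, ?_, ?_, ?_, ?_, ?_⟩
  · decide +kernel
  · decide +kernel
  · decide +kernel
  · decide +kernel
  · decide +kernel
  · rw [LAq12_eq, LBq12_eq]
    exact chk1F_of capqa12 fqa12a
  · rw [LAq12_eq, LBq12_eq]
    exact chk2F_of (by norm_num) capqa12 fqa12b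
  · decide +kernel

lemma swqa12 : rq12 (cq12 65 52 45) (noq12 [43, 44]) (neq12 [2] [-2, 45]) []
    [0, 0, 0, -2] = [66, 60, 53, 46] := by
  decide +kernel

/-- the pairs of ends which are left -/
def Rqa12 : List ((ℕ × ℕ × ℕ) × (ℕ × ℕ × ℕ)) :=
    [((5, 25, 0), (8, 39, 1)), ((8, 39, 1), (5, 25, 0))]

lemma restqa12 : restF 12 Ef12x XPd [66, 60, 53, 46] [] = Rqa12 := by decide +kernel

/-- caps as a list -/
def clqb12 : List (ℕ × ℕ) := [(12, 80), (11, 65), (10, 53), (9, 46), (8, 46)]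

lemma capqb12 : CapL 12 4 (cq12 65 53 46) clqb12 := by decide +kernel

lemma fqb12a : fst1F clqb12 tAq12 tBq12 Sf12x = true := by decide +kernel

lemma fqb12b : fst2F clqb12 tAq12 tBq12 Sf12y = true := by decide +kernel

theorem tabqb12 : TabF 12 4 (cq12 65 53 46) LAq12 LBq12 Ef12x Sf12x Sf12y XPd := by
  refine ⟨by norm_num, by norm_num, chkEf12x, chkSf12x, chkSf12y, ?_, ?_, ?_, ?_, ?_, ?_, ?_, ?_⟩
  · decide +kernel
  · decide +kernel
  · decide +kernel
  · decide +kernel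
  · decide +kernel
  · rw [LAq12_eq, LBq12_eq]
    exact chk1F_of capqb12 fqb12a
  · rw [LAq12_eq, LBq12_eq]
    exact chk2F_of (by norm_num) capqb12 fqb12b
  · decide +kernel

lemma swqb12 : rq12 (cq12 65 53 46) (noq12 [44]) (neq12 [2] [-2, 46]) []
    [0, 0, 0, -2] = [72, 65, 54, 47] := by
  decide +kernel

/-- the pairs of ends which are left -/
def Rqb12 : List ((ℕ × ℕ × ℕ) × (ℕ × ℕ × ℕ)) :=
    [((5, 25, 0), (8, 39, 1)), ((8, 39, 1), (5, 25, 0))]

lemma restqb12 : restF 12 Ef12x XPd [72, 65, 54, 47] [] = Rqb12 := by decide +kernel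

end Pool.Agent.GaussPoset.Sm
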