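import Pool.Agent.W_448s8f_h76.FqB

/-!
# S8 for `j = 12`: no twins of the cells `(2, 11)` (MP_448cb3_co)
-/

namespace Pool.Agent.GaussPoset.Sm

set_option linter.unusedSectionVars false

open Polynomial Finset Wd Ec W4 Cp

universe u

variable {P : Type u} [Fintype P] [PartialOrder P] [DecidableEq P] {r : ℕ}
  {lo hi : Tops P → ℕ → ℕ} {e : Tops P → ℕ → ℕ → P}

section

variable {K0 : ℕ} {N : Tops P → Finset P} {b : Tops P → ℕ} {θ : Tops P → P → ℕ}

/-- no own elements of the cost `10 ^ 2 + 44` at the window `3` -/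
theorem hk44 {K3 : ℕ} (hO : ∀ z : P, lev z = 12 + 3 → ¬ OwP z) (W : Wk r 12 3 K0 N b θ) :
    HkS P 12 3 K3 N b θ (XL (12 + 1 - 3) [44]) := by
  have hB : ∀ v, XL (12 + 1 - 3) [44] v → v = 144 := by
    intro v hv
    unfold XL at hv
    simp only [List.mem_singleton] at hv
    norm_num at hv
    omega
  refine ⟨?_, ?_, ?_⟩
  · intro v a z x _ _ _ hv _ _ _ _ _ h
    have h1 := hB v hv
    have ha : a ≤ 12 := by
      by_contra hcon
      have : 13 ^ 2 ≤ a ^ 2 := Nat.pow_le_pow_left (by omega) 2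
      omega
    interval_cases a <;> omega
  · intro v z _ hz hc hv _ hF ht hh
    have hv1 := hB v hv
    obtain ⟨x0, hx0, -⟩ := Hul.exists_cov (w := z) (v := (topOf z : P))
      (lt_of_le_of_ne (le_topOf z) (by
        intro h
        have h1 : lev (topOf z : P) = 0 := (topOf z).2
        have h2 := W.bd_lev hz
        rw [← h] at h1
        omega))
    obtain ⟨h1, h2, h3, h4⟩ := W.own_owp hz hF (t := topOf x0) (fun x hx => ht x x0 hx hx0)
    have hlz := W.bd_lev hz
    have hful : ful 3 z = 144 := by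
      rw [← hv1, ← hc]
      exact (cst_eq_ful (by omega)).symm
    obtain ⟨c, hcz⟩ : ∃ c, lev z = 3 + c := ⟨lev z - 3, by omega⟩
    have hlow : c ^ 2 ≤ ful 3 z := by
      have := ful_ge (w := 3) (z := z) (c := c) (fun _ => 0) hcz (fun n hn1 hn2 => h4 _ (by omega)
        (by omega))
      simpa using this
    have hc12 : c ≤ 12 := by
      by_contra hcon
      have h5 : 13 ^ 2 ≤ c ^ 2 := Nat.pow_le_pow_left (by omega) 2
      omega
    by_cases h11 : c ≤ 11
    · have h5 : ful 3 z = c ^ 2 := ful_two hcz fun k hk1 hk2 => by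
        rcases Nat.lt_or_ge k 13 with h6 | h6
        · exact h2 k (by omega) (by omega)
        · rw [show k = lev z - 1 by omega]
          exact h3
      have h6 : c ^ 2 ≤ 11 ^ 2 := Nat.pow_le_pow_left h11 2
      omega
    · have hc : c = 12 := by omega
      subst hc
      have h5 : ful 3 z = ∑ k ∈ range (15 + 1), (k - 3) * nab k z := by
        unfold ful
        rw [hcz]
      have h6 : nab 15 z = 1 := by
        have := nab_self (z := z)
        rwa [hcz] at this
      have h7 : nab 14 z = 2 := by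
        rw [hcz] at h3
        exact h3
      rw [h5] at hful
      simp only [Finset.sum_range_succ, Finset.sum_range_zero, h6, h7,
        h2 4 (by norm_num) (by norm_num),
        h2 5 (by norm_num) (by norm_num), h2 6 (by norm_num) (by norm_num),
        h2 7 (by norm_num) (by norm_num), h2 8 (by norm_num) (by norm_num),
        h2 9 (by norm_num) (by norm_num), h2 10 (by norm_num) (by norm_num),
        h2 11 (by norm_num) (by norm_num), h2 12 (by norm_num) (by norm_num)] at hful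
      have h13 : nab 13 z = 2 := by omega
      refine hO z hcz ⟨h1, fun l hl1 hl2 => ?_⟩
      rcases Nat.lt_or_ge l 13 with h8 | h8
      · exact h2 l hl1 (by omega)
      · have : l = 13 ∨ l = 14 := by omega
        rcases this with rfl | rfl
        · exact h13
        · exact h7
  · intro v a x _ _ _ hv _ _ _ h
    have h1 := hB v hv
    have ha : a ≤ 12 := by
      by_contra hcon
      have : 13 ^ 2 ≤ a ^ 2 := Nat.pow_le_pow_left (by omega) 2
      omega
    interval_cases a <;> omega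

end

/-- the inputs without fold joins -/
lemma Ctx.inNF12 {w K' : ℕ} {XE XO : ℕ → Prop} (K : Ctx P r 12 lo hi e)
    (h3 : Okv K' XE XO (foN w 12) (foC w 12)) : InS P 12 w K' XE XO where
  hfl := fun h => absurd h (by norm_num)
  hcc := fun _ => Or.inl K.st2.1
  hFo := fun _ z x x' h => absurd h.2.2 (nf12 K z x x' h.1 h.2.1)
  hfv := fun _ => h3

theorem numSa12_3 : NumS 12 3 (10 ^ 2 + 45) [-2, 45] [43, 44] := by constructor <;> decide +kernel

theorem numSa12_2 : NumS 12 2 (11 ^ 2 + 52) [2] [] := by constructor <;> decide +kernel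

/-- the window `3` up to `45` -/
theorem Ctx.sys3a_12 (K : Ctx P r 12 lo hi e) {N : Tops P → Finset P}
    {θ3 θ4 : Tops P → P → ℕ} (S : Sy P 12 lo hi N θ3 θ4) (hJ : ∃ z : P, Hul.Jn z) :
    ∃ V : ℕ, MnS 12 3 N (fun t => hi t 3 - lo t 3 + 1) θ3 V ∧
      Wk r 12 3 (10 ^ 2 + 42) N (fun t => hi t 3 - lo t 3 + 1) θ3 ∧
      WinB P 12 3 45 (fun V => ([43, 44] : List ℤ).elem V)
        (fun V => (nz ((12 + 1 - 3 : ℕ) : ℤ) V && !(([44] : List ℤ).elem V)) ||
          ([-2, 45] : List ℤ).elem V) (-2) ((V : ℤ) - ((12 + 1 - 3 : ℕ) : ℤ) ^ 2) :=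
  K.winSyH le_rfl S (c0 := 42) (cT := 45) chkEr12 (by decide +kernel)
    (fun h => absurd h (by norm_num)) (by decide +kernel) (by decide +kernel) (by norm_num)
    (fun N b θ W => W.cellsS (by norm_num) numSa12_3)
    (fun N b θ W _ => hk44 (noOwP12 K hJ) W)
    (K.inNF12 (Or.inr (Or.inl ⟨by decide +kernel, by unfold XL; decide +kernel⟩)))
    (by norm_num) (by norm_num) (by norm_num) (by decide +kernel) (by decide +kernel) hJ

/-- the window `2` up to `52` -/
theorem Ctx.win2a_12 (K : Ctx P r 12 lo hi e) (hJ : ∃ z : P, Hul.Jn z) :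
    ∃ V, WinB P 12 2 52 (fun V => ([] : List ℤ).elem V)
      (fun V => nzP ((12 + 1 - 2 : ℕ) : ℤ) V || ([2] : List ℤ).elem V) 0 V :=
  K.winR (w := 2) (c0 := 51) (cT := 52) (LE := [2]) (LO := []) (lb := 0)
    (noFo_big le_rfl) (by norm_num) (fun _ => le_rfl) (Or.inl rfl) chkEr12 (by decide +kernel)
    (fun h => absurd h (by norm_num)) (by decide +kernel) (by decide +kernel) (by norm_num)
    (fun N b θ W => W.cellsS (by norm_num) numSa12_2)
    (K.inNF12 (Or.inr (Or.inl ⟨by decide +kernel, by unfold XL; decide +kernel⟩)))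
    (by norm_num) (by norm_num) (by norm_num) (by decide +kernel) (by decide +kernel)
    (fun _ => K.st2.1) (noOwP12 K hJ) hJ

/-- collecting the windows -/
lemma Ctx.bals12 (K : Ctx P r 12 lo hi e) (hJ : ∃ z : P, Hul.Jn z) {c2 c3 : ℤ}
    {L2 L3 O3 : List ℤ} {V3 : ℤ}
    (h2 : ∃ V, WinB P 12 2 c2 (fun V => ([] : List ℤ).elem V)
      (fun V => nzP ((12 + 1 - 2 : ℕ) : ℤ) V || L2.elem V) 0 V)
    (h3 : WinB P 12 3 c3 (fun V => O3.elem V)
      (fun V => (nz ((12 + 1 - 3 : ℕ) : ℤ) V && !(([44] : List ℤ).elem V)) || L3.elem V)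
      (-2) V3) :
    ∃ V : ℕ → ℤ, V 3 = V3 ∧ Bals P 12 (cq12 65 c2 c3) (noq12 O3) (neq12 L2 L3) lwg12 V := by
  obtain ⟨V0, h0⟩ : ∃ V, WinB P 12 0 (cap0 12) (fun _ => false) (fun _ => false) 0 V := K.win0 hJ
  obtain ⟨V1, h1, -⟩ := K.win1P (by norm_num) chkEr12 (by decide +kernel)
    (fun h => absurd h (by norm_num)) hJ
  obtain ⟨V2, h2'⟩ := h2
  refine ⟨fun w => if w = 0 then V0 else if w = 1 then V1 else if w = 2 then V2 else V3, rfl, ?_⟩
  intro w hw
  have : w = 0 ∨ w = 1 ∨ w = 2 ∨ w = 3 := by omega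
  rcases this with rfl | rfl | rfl | rfl
  · exact h0
  · exact h1
  · exact h2'
  · exact h3

/-- **phase A** -/
theorem phA12 (K : Ctx P r 12 lo hi e) (hJ : ∃ z : P, Hul.Jn z) :
    ∃ (N : Tops P → Finset P) (θ3 θ4 : Tops P → P → ℕ) (v : ℕ),
      Sy P 12 lo hi N θ3 θ4 ∧ MnS 12 3 N (fun t => hi t 3 - lo t 3 + 1) θ3 v ∧
      Wk r 12 3 (10 ^ 2 + 42) N (fun t => hi t 3 - lo t 3 + 1) θ3 ∧ 10 ^ 2 + 46 ≤ v := by
  obtain ⟨N, θ3, θ4, S⟩ := exists_sy K (by norm_num)
  obtain ⟨v, M, W, B3⟩ := K.sys3a_12 S hJ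
  obtain ⟨V, hV3, hB⟩ := K.bals12 hJ (K.win2a_12 hJ) B3
  have s1 : StF P 12 V [66, 60, 53, 46] [] :=
    swqa12 ▸ K.sweepF (noP_XPd K) tabqa12 hB (StF.start hB) 300 16
  exact ⟨N, θ3, θ4, v, S, M, W, s1.v3 hV3 (by norm_num)⟩

lemma ful_three12 {x : P} (hl : lev x = 12 + 1)
    (hn : ∀ k, 4 ≤ k → k + 1 ≤ 12 → nab k x = 3) (h2 : nab 12 x = 2) : ful 3 x = 136 := by
  have h3 : nab 13 x = 1 := by
    have := nab_self (z := x)
    rwa [hl] at this
  unfold ful
  rw [hl]
  simp only [Finset.sum_range_succ, Finset.sum_range_zero, h3, h2, hn 4 (by norm_num) (by norm_num),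
    hn 5 (by norm_num) (by norm_num), hn 6 (by norm_num) (by norm_num),
    hn 7 (by norm_num) (by norm_num), hn 8 (by norm_num) (by norm_num),
    hn 9 (by norm_num) (by norm_num), hn 10 (by norm_num) (by norm_num),
    hn 11 (by norm_num) (by norm_num)]
  norm_num

/-- two elements on the level `3` at least -/
lemma Ctx.nab3_12 (K : Ctx P r 12 lo hi e) {x : P} (hl : lev x = 12 + 1)
    (h3 : ∀ k, 4 ≤ k → k + 1 ≤ 12 → nab k x = 3) : nab 3 x ≠ 1 := by
  intro h
  have h4 := K.nab_one_two (x := x) (k := 3) (by norm_num) (by omega) h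
  have h5 := h3 4 le_rfl (by norm_num)
  rw [h5] at h4
  omega

/-- **no twins of the cells `(2, 11)`** -/
theorem noE2_12 (K : Ctx P r 12 lo hi e) (hJ : ∃ z : P, Hul.Jn z) : NoE2 P 12 := by
  obtain ⟨N, θ3, θ4, v, S, M, W, hv⟩ := phA12 K hJ
  intro x x' hne hl hup h3 h2
  have h6 := W.twin_ful S.unq3 M hne hup (by omega) (K.nab3_12 hl h3)
  have h7 := ful_three12 (x := x) hl h3 h2
  omega

end Pool.Agent.GaussPoset.Sm
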