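import Pool.Agent.W_448s8f_h76.FqC

/-!
# S8 for `j = 12`: no pendants below the cells `(2, 11)` (MP_448cb3_co)
-/

namespace Pool.Agent.GaussPoset.Sm

set_option linter.unusedSectionVars false

open Polynomial Finset Wd Ec W4 Cp

universe u

variable {P : Type u} [Fintype P] [PartialOrder P] [DecidableEq P] {r : ℕ}
  {lo hi : Tops P → ℕ → ℕ} {e : Tops P → ℕ → ℕ → P}

theorem numEb12_3 : NumE False 12 3 (10 ^ 2 + 46) [-2, 46] [44] := by
  constructor <;> decide +kernel

theorem numEb12_2 : NumE False 12 2 (11 ^ 2 + 53) [2] [] := by constructor <;> decide +kernel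

/-- the window `3` up to `46` -/
theorem Ctx.sys3b_12 (K : Ctx P r 12 lo hi e) {N : Tops P → Finset P}
    {θ3 θ4 : Tops P → P → ℕ} (S : Sy P 12 lo hi N θ3 θ4) (hJ : ∃ z : P, Hul.Jn z) :
    ∃ V : ℕ, MnS 12 3 N (fun t => hi t 3 - lo t 3 + 1) θ3 V ∧
      Wk r 12 3 (10 ^ 2 + 42) N (fun t => hi t 3 - lo t 3 + 1) θ3 ∧
      WinB P 12 3 46 (fun V => ([44] : List ℤ).elem V)
        (fun V => (nz ((12 + 1 - 3 : ℕ) : ℤ) V && !(([44] : List ℤ).elem V)) ||
          ([-2, 46] : List ℤ).elem V) (-2) ((V : ℤ) - ((12 + 1 - 3 : ℕ) : ℤ) ^ 2) :=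
  K.winSyH le_rfl S (c0 := 42) (cT := 46) chkEr12 (by decide +kernel)
    (fun h => absurd h (by norm_num)) (by decide +kernel) (by decide +kernel) (by norm_num)
    (fun N b θ W => W.cellsE (p := False) (by norm_num) (by norm_num) numEb12_3
      (noPT_of K.gt (by norm_num)) (noE2_12 K hJ) (fun h => h.elim))
    (fun N b θ W _ => hk44 (noOwP12 K hJ) W)
    (K.inNF12 (Or.inr (Or.inl ⟨by decide +kernel, by unfold XL; decide +kernel⟩)))
    (by norm_num) (by norm_num) (by norm_num) (by decide +kernel) (by decide +kernel) hJ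

/-- the window `2` up to `53` -/
theorem Ctx.win2b_12 (K : Ctx P r 12 lo hi e) (hJ : ∃ z : P, Hul.Jn z) :
    ∃ V, WinB P 12 2 53 (fun V => ([] : List ℤ).elem V)
      (fun V => nzP ((12 + 1 - 2 : ℕ) : ℤ) V || ([2] : List ℤ).elem V) 0 V :=
  K.winR (w := 2) (c0 := 51) (cT := 53) (LE := [2]) (LO := []) (lb := 0)
    (noFo_big le_rfl) (by norm_num) (fun _ => le_rfl) (Or.inl rfl) chkEr12 (by decide +kernel)
    (fun h => absurd h (by norm_num)) (by decide +kernel) (by decide +kernel) (by norm_num)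
    (fun N b θ W => W.cellsE (p := False) le_rfl (by norm_num) numEb12_2
      (noPT_of K.gt (by norm_num)) (noE2_12 K hJ) (fun h => h.elim))
    (K.inNF12 (Or.inr (Or.inl ⟨by decide +kernel, by unfold XL; decide +kernel⟩)))
    (by norm_num) (by norm_num) (by norm_num) (by decide +kernel) (by decide +kernel)
    (fun _ => K.st2.1) (noOwP12 K hJ) hJ

/-- **phase B** -/
theorem phB12 (K : Ctx P r 12 lo hi e) (hJ : ∃ z : P, Hul.Jn z) :
    ∃ (N : Tops P → Finset P) (θ3 θ4 : Tops P → P → ℕ) (v : ℕ),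
      Sy P 12 lo hi N θ3 θ4 ∧ MnS 12 3 N (fun t => hi t 3 - lo t 3 + 1) θ3 v ∧
      Wk r 12 3 (10 ^ 2 + 42) N (fun t => hi t 3 - lo t 3 + 1) θ3 ∧ 10 ^ 2 + 47 ≤ v := by
  obtain ⟨N, θ3, θ4, S⟩ := exists_sy K (by norm_num)
  obtain ⟨v, M, W, B3⟩ := K.sys3b_12 S hJ
  obtain ⟨V, hV3, hB⟩ := K.bals12 hJ (K.win2b_12 hJ) B3
  have s1 : StF P 12 V [72, 65, 54, 47] [] :=
    swqb12 ▸ K.sweepF (noP_XPd K) tabqb12 hB (StF.start hB) 300 16
  exact ⟨N, θ3, θ4, v, S, M, W, s1.v3 hV3 (by norm_num)⟩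

section

variable {K0 : ℕ} {N : Tops P → Finset P} {b : Tops P → ℕ} {θ : Tops P → P → ℕ}

/-- the label of a pendant below a natural element of level `13` -/
lemma hS_pen12 (W : Wk r 12 3 K0 N b θ) (L : Unq P 3 b) {z x : P} (hx : x ∉ rA N) (hzx : z ⋖ x)
    (hl : lev x = 12 + 1) (h3 : nab 3 x ≠ 1) : hS 12 3 N b θ z ≤ 10 := by
  have H := W.gt.H
  have e1 := (H.covBy_iff.mp hzx).2
  by_cases hp : PenS 12 3 N b θ z
  · have := (W.penS hp).1
    rw [hS_of hp]
    omega
  · rw [hS_not hp, hC_not (fun h => by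
      have := h.2.1
      omega)]
    have h1 := W.hA_le hx hzx
    have g6 := W.bs hx
    have e2 := g6.lev
    have h2 : θ (topOf (GaussPoset.bs N x)) (GaussPoset.bs N x) + 1 ≤
        lev (GaussPoset.bs N x) - 3 := by
      rcases W.cases g6.nat (by omega) with h | h | h
      · exfalso
        have h5 := W.str_nab L g6.nat h (by omega)
        rcases g6.nab 3 with h6 | h6
        · rw [h5] at h6
          exact h3 h6.symm
        · omega
      · exact h.th.le
      · exact h.th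
    omega

end

/-- the cost is monotone in the label -/
lemma cst_mono_labw {w : ℕ} {z : P} {h h' : P → ℕ} (hh : h z ≤ h' z) :
    cst w h z ≤ cst w h' z := by
  unfold cst ez
  refine Finset.sum_le_sum fun x _ => ?_
  split_ifs
  · exact min_le_min hh le_rfl
  · exact le_rfl

/-- the raised cost of a pendant below a cell `(2, 11)` -/
lemma pen_three12 (H : Gr P r) {z x : P} (hzx : z ⋖ x) (honly : ∀ y, z ⋖ y → y = x)
    (hl : lev x = 12 + 1)
    (hn : ∀ k, 4 ≤ k → k + 1 ≤ 12 → nab k x = 3) (h2 : nab 12 x = 2) :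
    cst 3 (fun _ => 10) z = 146 := by
  have e1 := (H.covBy_iff.mp hzx).2
  have h3 : nab 13 x = 1 := by
    have := nab_self (z := x)
    rwa [hl] at this
  have h4 : nab 14 z = 1 := by
    have := nab_self (z := z)
    rwa [e1, hl] at this
  have hnz : ∀ k, k ≤ 13 → nab k z = nab k x := fun k hk => nab_only honly hzx (by omega)
  rw [cst_shift (i := 3) (a := 11) (by omega)]
  simp only [Finset.sum_range_succ, Finset.sum_range_zero, h4, hnz 3 (by norm_num),
    hnz 4 (by norm_num), hnz 5 (by norm_num), hnz 6 (by norm_num), hnz 7 (by norm_num),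
    hnz 8 (by norm_num), hnz 9 (by norm_num), hnz 10 (by norm_num), hnz 11 (by norm_num),
    hnz 12 (by norm_num), hnz 13 (by norm_num), h3, h2, hn 4 (by norm_num) (by norm_num),
    hn 5 (by norm_num) (by norm_num), hn 6 (by norm_num) (by norm_num),
    hn 7 (by norm_num) (by norm_num), hn 8 (by norm_num) (by norm_num),
    hn 9 (by norm_num) (by norm_num), hn 10 (by norm_num) (by norm_num),
    hn 11 (by norm_num) (by norm_num)]
  norm_num

/-- **no pendants below the cells `(2, 11)`** -/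
theorem noP2_12 (K : Ctx P r 12 lo hi e) (hJ : ∃ z : P, Hul.Jn z) : NoP2 P 12 := by
  obtain ⟨N, θ3, θ4, v, S, M, W, hv⟩ := phB12 K hJ
  intro z x hl h3 h2 hzx honly
  have H := K.gt.H
  have e1 := (H.covBy_iff.mp hzx).2
  have hn3 := K.nab3_12 hl h3
  have h7 := ful_three12 (x := x) hl h3 h2
  have hnz : ∀ k, k ≤ lev x → nab k z = nab k x := fun k hk => nab_only honly hzx (by omega)
  have hzr : z ∈ rA N := W.pend_far6 S.unq3 (by norm_num) hzx (fun y hy => honly y hy) (by omega)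
    (by rw [hnz 6 (by omega), h3 6 (by norm_num) (by norm_num)])
    (by rw [hnz 3 (by omega)]; exact hn3)
  by_cases hx : x ∈ rA N
  · have h4 : v ≤ ful 3 x := min_le_ful (rA_pos W) M.bd hx
    omega
  · have hbd : z ∈ bdR (rA N) := mem_bdR.mpr ⟨hzr, x, hx, hzx⟩
    have h5 := M.bd z hbd
    have h6 := hS_pen12 W S.unq3 hx hzx hl hn3
    have h8 := cst_mono_labw (w := 3) (z := z) (h := hS 12 3 N (fun t => hi t 3 - lo t 3 + 1) θ3)
      (h' := fun _ => 10) h6
    rw [pen_three12 H hzx honly hl h3 h2] at h8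
    omega

end Pool.Agent.GaussPoset.Sm
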