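import Pool.Agent.W_448s8f_h76.FqD

/-!
# S8 for `j = 12`: the last phase (MP_448cb3_co)
-/

namespace Pool.Agent.GaussPoset.Sm

set_option linter.unusedSectionVars false

open Polynomial Finset Wd Ec W4 Cp

universe u

variable {P : Type u} [Fintype P] [PartialOrder P] [DecidableEq P] {r : ℕ}
  {lo hi : Tops P → ℕ → ℕ} {e : Tops P → ℕ → ℕ → P}

/-- even noise -/
def net12 (w : ℕ) (V : ℤ) : Bool :=
  if w = 0 then false
  else if w = 1 then (nz ((12 + 1 - 1 : ℕ) : ℤ) V || ([] : List ℤ).elem V)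
  else if w = 2 then (nz ((12 + 1 - 2 : ℕ) : ℤ) V || ([2] : List ℤ).elem V)
  else (nz ((12 + 1 - 3 : ℕ) : ℤ) V || ([-2] : List ℤ).elem V)

/-- odd noise -/
def not12 (w : ℕ) (V : ℤ) : Bool := if w = 0 then false else ([] : List ℤ).elem V

/-- caps as a list -/
def clt12 : List (ℕ × ℕ) := [(12, 80), (11, 69), (10, 61), (9, 53), (8, 46)]

lemma capt12 : CapL 12 4 (cq12 69 61 53) clt12 := by decide +kernel

lemma ft12a : fst1F clt12 tAq12 tBq12 Sf12x = true := by decide +kernel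

lemma ft12b : fst2F clt12 tAq12 tBq12 Sf12y = true := by decide +kernel

theorem tabt12 : TabF 12 4 (cq12 69 61 53) LAq12 LBq12 Ef12x Sf12x Sf12y XPd := by
  refine ⟨by norm_num, by norm_num, chkEf12x, chkSf12x, chkSf12y, ?_, ?_, ?_, ?_, ?_, ?_, ?_, ?_⟩
  · decide +kernel
  · decide +kernel
  · decide +kernel
  · decide +kernel
  · decide +kernel
  · rw [LAq12_eq, LBq12_eq]
    exact chk1F_of capt12 ft12a
  · rw [LAq12_eq, LBq12_eq]
    exact chk2F_of (by norm_num) capt12 ft12b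
  · decide +kernel

lemma swt12 : rq12 (cq12 69 61 53) not12 net12 [] [0, 0, 0, -2] = [77, 70, 62, 54] := by
  decide +kernel

lemma restt12 : restF 12 Ef12x XPd [77, 70, 62, 54] [] = [] := by decide +kernel

/-- **no joins of level `13`**, from the windows `2` up to `61` and `3` up to `53` -/
theorem no_join12_of (K : Ctx P r 12 lo hi e)
    (h2 : NoE2 P 12 → NoP2 P 12 → (∃ z : P, Hul.Jn z) → ∃ V, WinB P 12 2 61
      (fun V => ([] : List ℤ).elem V)
      (fun V => nz ((12 + 1 - 2 : ℕ) : ℤ) V || ([2] : List ℤ).elem V) 0 V)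
    (h3 : NoE2 P 12 → NoP2 P 12 → (∃ z : P, Hul.Jn z) → ∃ V, WinB P 12 3 53
      (fun V => ([] : List ℤ).elem V)
      (fun V => nz ((12 + 1 - 3 : ℕ) : ℤ) V || ([-2] : List ℤ).elem V) (-2) V)
    {z : P} (hl : lev z = 13) : ¬ Hul.Jn z := by
  intro hz
  have H := K.gt.H
  have hJ : ∃ z : P, Hul.Jn z := ⟨z, hz⟩
  obtain ⟨x, x', h⟩ := K.cross hz hl
  have hE := noE2_12 K hJ
  have hP := noP2_12 K hJ
  have hF : NF P 12 := nf12 K
  obtain ⟨V0, B0⟩ : ∃ V, WinB P 12 0 (cap0 12) (fun _ => false) (fun _ => false) 0 V := K.win0 hJ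
  obtain ⟨V1, B1⟩ := K.win1e_12 hE hP hJ
  obtain ⟨V2, B2⟩ := h2 hE hP hJ
  obtain ⟨V3, B3⟩ := h3 hE hP hJ
  obtain ⟨V, hB⟩ : ∃ V, Bals P 12 (cq12 69 61 53) not12 net12 lwg12 V := by
    refine ⟨fun w => if w = 0 then V0 else if w = 1 then V1 else if w = 2 then V2 else V3, ?_⟩
    intro w hw
    have : w = 0 ∨ w = 1 ∨ w = 2 ∨ w = 3 := by omega
    rcases this with rfl | rfl | rfl | rfl
    · exact B0
    · exact B1
    · exact B2
    · exact B3
  have s1 : StF P 12 V [77, 70, 62, 54] [] :=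
    swt12 ▸ K.sweepF (noP_XPd K) tabt12 hB (StF.start hB) 300 16
  obtain ⟨p, p', g1, -, -⟩ := K.leftS (noP_XPd K) tabt12 hB s1 h hl (hF.sok H h hl)
    (hF.sok H h.symm hl)
  rw [restt12] at g1
  exact absurd g1 List.not_mem_nil

end Pool.Agent.GaussPoset.Sm
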