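import Pool.Agent.W_448wd_h84.WdO

/-!
# The window `j - 2` with joins of level `j + 1` (MP_448cb3_co, S7, `j = 14`)

`z` is a join of level `i + 3` of two ends: above it there are exactly the five elements
`z, x, x', u, u'` of the levels `i + 3, i + 2, i + 1` and at most three sites.  A configuration of energy
at most six which excites `z` loses at most one site, except for a lower or an upper double next to the
window which does not touch the three sites.
-/

namespace Pool.Agent.GaussPoset.Win

set_option linter.unusedSectionVars false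

open Finset

universe u

variable {P : Type u} [Fintype P] [PartialOrder P] [DecidableEq P] {r i : ℕ}

/-- the elements above a join of two ends -/
structure J5 (i : ℕ) (z x x' u u' : P) : Prop where
  lz : lev z = i + 3
  ucz : uc z = {x, x'}
  ucx : uc x = {u}
  ucx' : uc x' = {u'}
  neu : u ≠ u'
  dis : Disjoint (uc u) (uc u')
  le3 : (uc u).card + (uc u').card ≤ 3

/-- label one on `U`, one more on `o` -/
def cf (U : Finset P) (o : Option P) : P → ℕ :=
  fun c => (if c ∈ U then 1 else 0) + (if o = some c then 1 else 0)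

lemma cf_pos {U : Finset P} {o : Option P} {c : P} (h : 1 ≤ cf U o c) : c ∈ U ∨ o = some c := by
  unfold cf at h
  by_contra hc
  rw [not_or] at hc
  rw [if_neg hc.1, if_neg hc.2] at h
  omega

lemma cf_two {U : Finset P} {o : Option P} {c : P} (h : 2 ≤ cf U o c) : c ∈ U ∧ o = some c := by
  unfold cf at h
  by_contra hc
  by_cases h1 : c ∈ U
  · rw [if_neg (fun h2 => hc ⟨h1, h2⟩)] at h
    split_ifs at h
    omega
  · rw [if_neg h1] at h
    split_ifs at h <;> omega

lemma cf_mem {U : Finset P} {o : Option P} {c : P} (h : c ∈ U) : 1 ≤ cf U o c := by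
  unfold cf
  rw [if_pos h]
  omega

lemma cf_mem_ne {U : Finset P} {o : Option P} {c : P} (h : c ∈ U) (h2 : o ≠ some c) :
    cf U o c = 1 := by
  unfold cf
  rw [if_pos h, if_neg h2]

lemma cf_some {U : Finset P} {c : P} : 1 ≤ cf U (some c) c := by
  unfold cf
  rw [if_pos (rfl : (some c : Option P) = some c)]
  omega

lemma cf_some_out {U : Finset P} {c : P} (h : c ∉ U) : cf U (some c) c = 1 := by
  unfold cf
  rw [if_pos (rfl : (some c : Option P) = some c), if_neg h]

lemma cf_out {U : Finset P} {o : Option P} {c : P} (h : c ∉ U) (h2 : o ≠ some c) :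
    cf U o c = 0 := by
  unfold cf
  rw [if_neg h, if_neg h2]

/-- a configuration with one more -/
lemma cf_of_sum {U : Finset P} {e : P → ℕ} (h : ∀ c ∈ U, 1 ≤ e c)
    (hs : ∑ c, e c ≤ U.card + 1) : ∃ o, e = cf U o := by
  classical
  have h1 : ∀ c, e c = (if c ∈ U then 1 else 0) + (e c - (if c ∈ U then 1 else 0)) := by
    intro c
    by_cases hc : c ∈ U
    · rw [if_pos hc]
      have := h c hc
      omega
    · rw [if_neg hc]
      omega
  have h2 : ∑ c, e c = U.card + ∑ c, (e c - (if c ∈ U then 1 else 0)) := by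
    rw [Finset.sum_congr rfl (fun c _ => h1 c), Finset.sum_add_distrib]
    congr 1
    rw [Finset.sum_ite_mem, Finset.univ_inter, Finset.sum_const, smul_eq_mul, mul_one]
  by_cases h3 : ∃ y, e y - (if y ∈ U then 1 else 0) ≠ 0
  · obtain ⟨y, hy⟩ := h3
    refine ⟨some y, ?_⟩
    have h4 := Finset.sum_erase_add (s := (univ : Finset P))
      (f := fun c => e c - (if c ∈ U then 1 else 0)) (a := y) (mem_univ y)
    have h5 : ∑ c ∈ univ.erase y, (e c - (if c ∈ U then 1 else 0)) = 0 := by omega
    have h6 : e y - (if y ∈ U then 1 else 0) = 1 := by omega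
    rw [Finset.sum_eq_zero_iff] at h5
    funext c
    rw [h1 c]
    unfold cf
    congr 1
    by_cases hc : c = y
    · subst hc
      rw [if_pos (rfl : (some c : Option P) = some c)]
      exact h6
    · rw [if_neg (fun h7 => hc (Option.some.inj h7).symm)]
      exact h5 c (mem_erase.2 ⟨hc, mem_univ c⟩)
  · push Not at h3
    refine ⟨none, ?_⟩
    funext c
    rw [h1 c]
    unfold cf
    congr 1
    rw [if_neg (show ¬ (none : Option P) = some c by simp)]
    exact h3 c

/-- at most one deficit -/
lemma dvd_trm_of {e : P → ℕ} (h : (AL i e).card + (AU i e).card ≤ pL i e + pU i e + 1) :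
    dd ^ (lv P i).card ∣ dd * trm i e := by
  unfold trm
  split_ifs with h1
  · unfold cw
    split_ifs with h2
    · have e1 : dd * (xx ^ aL i e * xi ^ (aU i e + pU i e) * dd ^ (pL i e + pU i e) *
          (xx ^ (AL i e).card * dd ^ ((lv P i).card - (AL i e).card - (AU i e).card))) =
          dd ^ (pL i e + pU i e + 1 + ((lv P i).card - (AL i e).card - (AU i e).card)) *
          (xx ^ aL i e * xi ^ (aU i e + pU i e) * xx ^ (AL i e).card) := by
        rw [show dd ^ (pL i e + pU i e + 1 + ((lv P i).card - (AL i e).card - (AU i e).card)) =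
          dd ^ (pL i e + pU i e) * dd * dd ^ ((lv P i).card - (AL i e).card - (AU i e).card) by
            rw [pow_add, pow_succ]]
        ring
      rw [e1]
      exact Dvd.dvd.mul_right (pow_dvd_pow dd (by omega)) _
    · simp
  · simp

namespace J5

variable {z x x' u u' : P}

section

variable (h : J5 i z x x' u u') (H : Gr P r)

include h

lemma symm : J5 i z x' x u' u where
  lz := h.lz
  ucz := by rw [h.ucz, pair_comm]
  ucx := h.ucx'
  ucx' := h.ucx
  neu := h.neu.symm
  dis := h.dis.symm
  le3 := by have := h.le3; omega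

lemma nex : x ≠ x' := by
  rintro rfl
  have := h.ucx.symm.trans h.ucx'
  rw [singleton_inj] at this
  exact h.neu this

include H

lemma lx : lev x = i + 2 := by
  have h1 : x ∈ uc z := by rw [h.ucz]; exact mem_insert_self _ _
  have := lev_uc H h1
  have := h.lz
  omega

lemma lx' : lev x' = i + 2 := by
  have h1 : x' ∈ uc z := by
    rw [h.ucz]
    exact mem_insert_of_mem (mem_singleton_self _)
  have := lev_uc H h1
  have := h.lz
  omega

lemma lu : lev u = i + 1 := by
  have h1 : u ∈ uc x := by rw [h.ucx]; exact mem_singleton_self _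
  have := lev_uc H h1
  have := h.lx H
  omega

lemma lu' : lev u' = i + 1 := h.symm.lu H

omit H h in
lemma mem_U {c : P} : c ∈ ({z, x, x', u, u'} : Finset P) ↔
    c = z ∨ c = x ∨ c = x' ∨ c = u ∨ c = u' := by
  simp only [mem_insert, mem_singleton]

lemma card_U : ({z, x, x', u, u'} : Finset P).card = 5 := by
  have l1 := h.lz
  have l2 := h.lx H
  have l3 := h.lx' H
  have l4 := h.lu H
  have l5 := h.lu' H
  have hn := h.nex
  have hu := h.neu
  rw [card_insert_of_notMem, card_insert_of_notMem, card_insert_of_notMem, card_pair hu]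
  · simp only [mem_insert, mem_singleton]
    rintro (rfl | rfl) <;> omega
  · simp only [mem_insert, mem_singleton]
    rintro (rfl | rfl | rfl)
    · exact hn rfl
    · omega
    · omega
  · simp only [mem_insert, mem_singleton]
    rintro (rfl | rfl | rfl | rfl) <;> omega

/-- all five elements are excited -/
lemma pos {e : P → ℕ} (hA : AdmL i e) (hz : 0 < e z) :
    ∀ c ∈ ({z, x, x', u, u'} : Finset P), 1 ≤ e c := by
  have m1 : x ∈ uc z := by rw [h.ucz]; exact mem_insert_self _ _
  have m2 : x' ∈ uc z := by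
    rw [h.ucz]
    exact mem_insert_of_mem (mem_singleton_self _)
  have m3 : u ∈ uc x := by rw [h.ucx]; exact mem_singleton_self _
  have m4 : u' ∈ uc x' := by rw [h.ucx']; exact mem_singleton_self _
  have g1 : z ≤ x := (mem_uc.1 m1).le
  have g2 : z ≤ x' := (mem_uc.1 m2).le
  have g3 : z ≤ u := g1.trans (mem_uc.1 m3).le
  have g4 : z ≤ u' := g2.trans (mem_uc.1 m4).le
  have l2 := h.lx H
  have l3 := h.lx' H
  have l4 := h.lu H
  have l5 := h.lu' H
  intro c hc
  rw [mem_U] at hc
  rcases hc with rfl | rfl | rfl | rfl | rfl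
  · exact hz
  · exact pos_above H hA (by omega) z g1 hz
  · exact pos_above H hA (by omega) z g2 hz
  · exact pos_above H hA (by omega) z g3 hz
  · exact pos_above H hA (by omega) z g4 hz

/-- `u` is free -/
lemma free_u {o : Option P} (h1 : o ≠ some x) (h2 : ∀ v ∈ uc u, o ≠ some v) :
    ¬ FD (cf {z, x, x', u, u'} o) u ∧ ¬ GU (cf {z, x, x', u, u'} o) u := by
  have l1 := h.lz
  have l2 := h.lx H
  have l3 := h.lx' H
  have l4 := h.lu H
  have l5 := h.lu' H
  have mu : u ∈ ({z, x, x', u, u'} : Finset P) := by rw [mem_U]; tauto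
  constructor
  · rintro ⟨c, hc, hlt⟩
    have g1 := cf_mem (o := o) mu
    obtain ⟨g2, g3⟩ := cf_two (U := {z, x, x', u, u'}) (o := o) (c := c) (by omega)
    have g4 := lev_uc H (mem_uc.2 hc)
    rw [mem_U] at g2
    rcases g2 with rfl | rfl | rfl | rfl | rfl
    · omega
    · exact h1 g3
    · have g5 := mem_uc.2 hc
      rw [h.ucx', mem_singleton] at g5
      exact h.neu g5
    · omega
    · omega
  · rintro ⟨v, hv, hle⟩
    have g1 := cf_mem (o := o) mu
    have g2 := cf_pos (U := {z, x, x', u, u'}) (o := o) (c := v) (by omega)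
    have g4 := lev_uc H (mem_uc.2 hv)
    rcases g2 with g2 | g2
    · rw [mem_U] at g2
      rcases g2 with rfl | rfl | rfl | rfl | rfl <;> omega
    · exact h2 v (mem_uc.2 hv) g2

/-- `x` is free when it has label two -/
lemma free_x : ¬ FD (cf {z, x, x', u, u'} (some x)) x ∧ ¬ GU (cf {z, x, x', u, u'} (some x)) x := by
  have l2 := h.lx H
  have l4 := h.lu H
  have mx : x ∈ ({z, x, x', u, u'} : Finset P) := by rw [mem_U]; tauto
  have mu : u ∈ ({z, x, x', u, u'} : Finset P) := by rw [mem_U]; tauto
  have g1 : cf {z, x, x', u, u'} (some x) x = 2 := by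
    unfold cf
    rw [if_pos mx, if_pos (rfl : (some x : Option P) = some x)]
  constructor
  · rintro ⟨c, hc, hlt⟩
    obtain ⟨-, g3⟩ := cf_two (U := {z, x, x', u, u'}) (o := some x) (c := c) (by omega)
    have g4 := lev_uc H (mem_uc.2 hc)
    have := Option.some.inj g3
    subst this
    omega
  · rintro ⟨v, hv, hle⟩
    have g2 := mem_uc.2 hv
    rw [h.ucx, mem_singleton] at g2
    subst g2
    rw [cf_mem_ne mu (fun hh => by
      have := Option.some.inj hh
      subst this
      omega), g1] at hle
    omega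

/-- a near element outside is free -/
lemma free_y {y : P} (hy : lev y = i + 1) (h1 : y ≠ u) (h2 : y ≠ u') :
    ¬ FD (cf {z, x, x', u, u'} (some y)) y ∧ ¬ GU (cf {z, x, x', u, u'} (some y)) y := by
  have l1 := h.lz
  have l2 := h.lx H
  have l3 := h.lx' H
  have l4 := h.lu H
  have l5 := h.lu' H
  have hn : y ∉ ({z, x, x', u, u'} : Finset P) := by
    rw [mem_U]
    rintro (rfl | rfl | rfl | rfl | rfl)
    · omega
    · omega
    · omega
    · exact h1 rfl
    · exact h2 rfl
  have g1 := cf_some_out hn
  constructor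
  · rintro ⟨c, hc, hlt⟩
    obtain ⟨-, g3⟩ := cf_two (U := {z, x, x', u, u'}) (o := some y) (c := c) (by omega)
    have g4 := lev_uc H (mem_uc.2 hc)
    have := Option.some.inj g3
    subst this
    omega
  · rintro ⟨v, hv, hle⟩
    have g4 := lev_uc H (mem_uc.2 hv)
    rcases cf_pos (U := {z, x, x', u, u'}) (o := some y) (c := v) (by omega) with g2 | g2
    · rw [mem_U] at g2
      rcases g2 with rfl | rfl | rfl | rfl | rfl <;> omega
    · have := Option.some.inj g2
      subst this
      omega

/-- the lower sites -/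
lemma AL_sub {o : Option P} {v : P} (hv : v ∈ AL i (cf {z, x, x', u, u'} o)) :
    (v ∈ uc u ∨ v ∈ uc u' ∨ ∃ y, o = some y ∧ v ∈ uc y ∧ lev y = i + 1) ∧ o ≠ some v := by
  have l1 := h.lz
  have l2 := h.lx H
  have l3 := h.lx' H
  have l4 := h.lu H
  have l5 := h.lu' H
  rw [NormD_mem_AL] at hv
  obtain ⟨hl, c, hc, hlt⟩ := hv
  have g4 := lev_uc H (mem_uc.2 hc)
  constructor
  · rcases cf_pos (U := {z, x, x', u, u'}) (o := o) (c := c) (by omega) with g2 | g2
    · rw [mem_U] at g2
      rcases g2 with rfl | rfl | rfl | rfl | rfl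
      · omega
      · omega
      · omega
      · exact Or.inl (mem_uc.2 hc)
      · exact Or.inr (Or.inl (mem_uc.2 hc))
    · exact Or.inr (Or.inr ⟨c, g2, mem_uc.2 hc, by omega⟩)
  · rintro rfl
    have g1 := cf_some (U := {z, x, x', u, u'}) (c := v)
    obtain ⟨-, g3⟩ := cf_two (U := {z, x, x', u, u'}) (o := some v) (c := c) (by omega)
    have := Option.some.inj g3
    subst this
    omega

/-- the upper sites -/
lemma AU_sub {o : Option P} {v : P} (hv : v ∈ AU i (cf {z, x, x', u, u'} o)) :
    ∃ y, o = some y ∧ v ∈ dc y ∧ lev y + 1 = i := by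
  have l1 := h.lz
  have l2 := h.lx H
  have l3 := h.lx' H
  have l4 := h.lu H
  have l5 := h.lu' H
  rw [NormD_mem_AU] at hv
  obtain ⟨hl, c, hc, hlt⟩ := hv
  have g4 := lev_uc H (mem_uc.2 hc)
  rcases cf_pos (U := {z, x, x', u, u'}) (o := o) (c := c) (by omega) with g2 | g2
  · rw [mem_U] at g2
    rcases g2 with rfl | rfl | rfl | rfl | rfl <;> omega
  · exact ⟨c, g2, mem_dc.2 hc, by omega⟩

end

end J5

end Pool.Agent.GaussPoset.Win
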