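import Pool.Agent.W_448s8f_h76.FrA

/-!
# The window `j - 2` with joins of level `j + 1` (MP_448cb3_co, S7, `j = 14`): the deficits
-/

namespace Pool.Agent.GaussPoset.Win

set_option linter.unusedSectionVars false

open Finset

universe u

variable {P : Type u} [Fintype P] [PartialOrder P] [DecidableEq P] {r i : ℕ}

lemma le_pL {e : P → ℕ} {F : Finset P} (hF : ∀ c ∈ F, i < lev c ∧ ¬ FD e c ∧ ¬ GU e c) :
    F.card ≤ pL i e := by
  classical
  unfold pL
  apply card_le_card
  intro c hc
  rw [mem_filter]
  exact ⟨mem_univ c, hF c hc⟩

lemma le_pU {e : P → ℕ} {F : Finset P} (hF : ∀ c ∈ F, lev c < i ∧ ¬ FU e c ∧ ¬ GD e c) :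
    F.card ≤ pU i e := by
  classical
  unfold pU
  apply card_le_card
  intro c hc
  rw [mem_filter]
  exact ⟨mem_univ c, hF c hc⟩

namespace J5

variable {z x x' u u' : P}

lemma swap_U : ({z, x', x, u', u} : Finset P) = {z, x, x', u, u'} := by
  ext c
  simp only [mem_insert, mem_singleton]
  tauto

/-- an upper near element outside is free -/
lemma free_w (h : J5 i z x x' u u') (H : Gr P r) {y : P} (hy : lev y + 1 = i) :
    ¬ FU (cf {z, x, x', u, u'} (some y)) y ∧ ¬ GD (cf {z, x, x', u, u'} (some y)) y := by
  have l1 := h.lz
  have l2 := h.lx H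
  have l3 := h.lx' H
  have l4 := h.lu H
  have l5 := h.lu' H
  have hn : y ∉ ({z, x, x', u, u'} : Finset P) := by
    rw [mem_U]
    rintro (rfl | rfl | rfl | rfl | rfl) <;> omega
  have g1 := cf_some_out hn
  constructor
  · rintro ⟨c, hc, hlt⟩
    obtain ⟨-, g3⟩ := cf_two (U := {z, x, x', u, u'}) (o := some y) (c := c) (by omega)
    have g4 := lev_uc H (mem_uc.2 hc)
    have := Option.some.inj g3
    subst this
    omega
  · rintro ⟨v, hv, hle⟩
    have g4 := lev_uc H (mem_uc.2 hv)
    rcases cf_pos (U := {z, x, x', u, u'}) (o := some y) (c := v) (by omega) with g2 | g2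
    · rw [mem_U] at g2
      rcases g2 with rfl | rfl | rfl | rfl | rfl <;> omega
    · have := Option.some.inj g2
      subst this
      omega

/-- the configuration with one more at `x` or at a site of `u` -/
lemma dvd_half (h : J5 i z x x' u u') (H : Gr P r) {o : Option P}
    (ho : o = some x ∨ ∃ v ∈ uc u, o = some v) :
    dd ^ (lv P i).card ∣ dd * trm i (cf {z, x, x', u, u'} o) := by
  classical
  have l1 := h.lz
  have l2 := h.lx H
  have l3 := h.lx' H
  have l4 := h.lu H
  have l5 := h.lu' H
  have h3 := h.le3
  have hex := h.nex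
  apply dvd_trm_of
  have hAU : (AU i (cf {z, x, x', u, u'} o)).card = 0 := by
    rw [card_eq_zero, eq_empty_iff_forall_notMem]
    intro v hv
    obtain ⟨y, hy, -, hl⟩ := h.AU_sub H hv
    rcases ho with rfl | ⟨w, hw, rfl⟩
    · have := Option.some.inj hy
      subst this
      omega
    · have := Option.some.inj hy
      subst this
      have := lev_uc H hw
      omega
  rcases ho with rfl | ⟨w, hw, rfl⟩
  · have h1 : (AL i (cf {z, x, x', u, u'} (some x))).card ≤ (uc u).card + (uc u').card := by
      refine (card_le_card ?_).trans (card_union_le _ _)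
      intro v hv
      obtain ⟨g1, -⟩ := h.AL_sub H hv
      rw [mem_union]
      rcases g1 with g1 | g1 | ⟨y, hy, -, hl⟩
      · exact Or.inl g1
      · exact Or.inr g1
      · have := Option.some.inj hy
        subst this
        omega
    have h2 : ({x, u'} : Finset P).card ≤ pL i (cf {z, x, x', u, u'} (some x)) := by
      apply le_pL
      intro c hc
      rw [mem_insert, mem_singleton] at hc
      rcases hc with rfl | rfl
      · exact ⟨by omega, h.free_x H⟩
      · refine ⟨by omega, ?_⟩
        have := h.symm.free_u H (o := some x) (fun hh => hex (Option.some.inj hh)) (by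
          intro v hv hh
          have := Option.some.inj hh
          subst this
          have := lev_uc H hv
          omega)
        rwa [swap_U] at this
    rw [card_pair (by rintro rfl; omega)] at h2
    omega
  · have lw := lev_uc H hw
    have h1 : (AL i (cf {z, x, x', u, u'} (some w))).card + 1 ≤ (uc u).card + (uc u').card := by
      have h4 : AL i (cf {z, x, x', u, u'} (some w)) ⊆ (uc u ∪ uc u').erase w := by
        intro v hv
        obtain ⟨g1, g2⟩ := h.AL_sub H hv
        rw [mem_erase, mem_union]
        refine ⟨fun hh => g2 (by rw [hh]), ?_⟩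
        rcases g1 with g1 | g1 | ⟨y, hy, -, hl⟩
        · exact Or.inl g1
        · exact Or.inr g1
        · have := Option.some.inj hy
          subst this
          omega
      have h5 := card_le_card h4
      have h6 : w ∈ uc u ∪ uc u' := mem_union_left _ hw
      rw [card_erase_of_mem h6] at h5
      have h7 := card_pos.2 ⟨w, h6⟩
      have h8 := card_union_le (uc u) (uc u')
      omega
    have h2 : ({u'} : Finset P).card ≤ pL i (cf {z, x, x', u, u'} (some w)) := by
      apply le_pL
      intro c hc
      rw [mem_singleton] at hc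
      subst hc
      refine ⟨by omega, ?_⟩
      have := h.symm.free_u H (o := some w) (fun hh => by
        have := Option.some.inj hh
        subst this
        omega) (by
        intro v hv hh
        have := Option.some.inj hh
        subst this
        exact disjoint_left.1 h.dis hw hv)
      rwa [swap_U] at this
    rw [card_singleton] at h2
    omega

/-- the exceptional positions of the additional unit -/
def Spc (i : ℕ) (S : Finset P) (y : P) : Prop :=
  (y ∈ dbL P i ∧ Disjoint (uc y) S) ∨ (y ∈ dbU P i ∧ Disjoint (dc y) S)

/-- AT MOST ONE DEFICIT, except for a double next to the window away from the three sites -/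
theorem dvd_cf (h : J5 i z x x' u u') (H : Gr P r) {o : Option P}
    (ho : ∀ y, o = some y → ¬ Spc i (uc u ∪ uc u') y) :
    dd ^ (lv P i).card ∣ dd * trm i (cf {z, x, x', u, u'} o) := by
  classical
  have l1 := h.lz
  have l2 := h.lx H
  have l3 := h.lx' H
  have l4 := h.lu H
  have l5 := h.lu' H
  have h3 := h.le3
  have hex := h.nex
  by_cases c1 : o = some x ∨ ∃ v ∈ uc u, o = some v
  · exact h.dvd_half H c1
  by_cases c2 : o = some x' ∨ ∃ v ∈ uc u', o = some v
  · have := h.symm.dvd_half H c2
    rwa [swap_U] at this
  rw [not_or] at c1 c2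
  have fu := h.free_u H (o := o) c1.1 (fun v hv hh => c1.2 ⟨v, hv, hh⟩)
  have fu' := h.symm.free_u H (o := o) c2.1 (fun v hv hh => c2.2 ⟨v, hv, hh⟩)
  rw [swap_U] at fu'
  have hsub : (∀ y, o = some y → lev y = i + 1 → y = u ∨ y = u') →
      (AL i (cf {z, x, x', u, u'} o)).card ≤ (uc u).card + (uc u').card := by
    intro hy
    refine (card_le_card ?_).trans (card_union_le _ _)
    intro v hv
    obtain ⟨g1, -⟩ := h.AL_sub H hv
    rw [mem_union]
    rcases g1 with g1 | g1 | ⟨y, hy1, hy2, hl⟩
    · exact Or.inl g1
    · exact Or.inr g1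
    · rcases hy y hy1 hl with rfl | rfl
      · exact Or.inl hy2
      · exact Or.inr hy2
  by_cases c3 : ∃ y, o = some y ∧ lev y = i + 1 ∧ y ≠ u ∧ y ≠ u'
  · obtain ⟨y, rfl, hl, hyu, hyu'⟩ := c3
    have hs := ho y rfl
    apply dvd_trm_of
    have hAU : (AU i (cf {z, x, x', u, u'} (some y))).card = 0 := by
      rw [card_eq_zero, eq_empty_iff_forall_notMem]
      intro v hv
      obtain ⟨y', hy, -, hl⟩ := h.AU_sub H hv
      have := Option.some.inj hy
      subst this
      omega
    have h4 : AL i (cf {z, x, x', u, u'} (some y)) ⊆ uc y ∪ (uc u ∪ uc u') := by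
      intro v hv
      obtain ⟨g1, -⟩ := h.AL_sub H hv
      rw [mem_union, mem_union]
      rcases g1 with g1 | g1 | ⟨y', hy, g1, -⟩
      · exact Or.inr (Or.inl g1)
      · exact Or.inr (Or.inr g1)
      · have := Option.some.inj hy
        subst this
        exact Or.inl g1
    have h5 := card_le_card h4
    have h6 := card_union_add_card_inter (uc y) (uc u ∪ uc u')
    have h7 := card_union_le (uc u) (uc u')
    have h8 := uc_card_le H y
    have h9 : (uc y ∪ (uc u ∪ uc u')).card ≤ 4 := by
      by_contra hcon
      apply hs
      refine Or.inl ⟨mem_dbL.2 ⟨hl, by omega⟩, ?_⟩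
      rw [disjoint_iff_inter_eq_empty, ← card_eq_zero]
      omega
    have h2 : ({u, u', y} : Finset P).card ≤ pL i (cf {z, x, x', u, u'} (some y)) := by
      apply le_pL
      intro c hc
      rw [mem_insert, mem_insert, mem_singleton] at hc
      rcases hc with rfl | rfl | rfl
      · exact ⟨by omega, fu⟩
      · exact ⟨by omega, fu'⟩
      · exact ⟨by omega, h.free_y H hl hyu hyu'⟩
    rw [card_insert_of_notMem, card_pair (Ne.symm hyu')] at h2
    · omega
    · rw [mem_insert, mem_singleton, not_or]
      exact ⟨h.neu, Ne.symm hyu⟩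
  have hF : ({u, u'} : Finset P).card ≤ pL i (cf {z, x, x', u, u'} o) := by
    apply le_pL
    intro c hc
    rw [mem_insert, mem_singleton] at hc
    rcases hc with rfl | rfl
    · exact ⟨by omega, fu⟩
    · exact ⟨by omega, fu'⟩
  rw [card_pair h.neu] at hF
  have hAL := hsub (by
    intro y hy hl
    by_contra hcon
    rw [not_or] at hcon
    exact c3 ⟨y, hy, hl, hcon⟩)
  by_cases c4 : ∃ y, o = some y ∧ lev y + 1 = i
  · obtain ⟨y, rfl, hl⟩ := c4
    have hs := ho y rfl
    by_cases hd : Disjoint (AL i (cf {z, x, x', u, u'} (some y)))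
        (AU i (cf {z, x, x', u, u'} (some y)))
    · apply dvd_trm_of
      have h4 : AU i (cf {z, x, x', u, u'} (some y)) ⊆ dc y := by
        intro v hv
        obtain ⟨y', hy, g1, -⟩ := h.AU_sub H hv
        have := Option.some.inj hy
        subst this
        exact g1
      have h5 := card_le_card h4
      have h8 := dc_card_le H y
      have h2 : ({y} : Finset P).card ≤ pU i (cf {z, x, x', u, u'} (some y)) := by
        apply le_pU
        intro c hc
        rw [mem_singleton] at hc
        subst hc
        exact ⟨by omega, h.free_w H hl⟩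
      rw [card_singleton] at h2
      by_cases h9 : (dc y).card = 2
      · exfalso
        apply hs
        refine Or.inr ⟨mem_dbU.2 ⟨hl, h9⟩, ?_⟩
        rw [disjoint_left]
        intro v hv hv'
        have lv' := lev_uc H (mem_uc.2 (mem_dc.1 hv))
        have hvU : v ∉ ({z, x, x', u, u'} : Finset P) := by
          rw [mem_U]
          rintro (rfl | rfl | rfl | rfl | rfl) <;> omega
        have hv0 : cf {z, x, x', u, u'} (some y) v = 0 := by
          apply cf_out hvU
          intro hh
          have := Option.some.inj hh
          subst this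
          omega
        have hyU : y ∉ ({z, x, x', u, u'} : Finset P) := by
          rw [mem_U]
          rintro (rfl | rfl | rfl | rfl | rfl) <;> omega
        refine (disjoint_left.1 hd : ∀ ⦃a⦄, _ → _ → False) (a := v) ?_ ?_
        · rw [NormD_mem_AL]
          refine ⟨by omega, ?_⟩
          rw [mem_union] at hv'
          rcases hv' with hv' | hv'
          · refine ⟨u, mem_uc.1 hv', ?_⟩
            have := cf_mem (U := ({z, x, x', u, u'} : Finset P)) (o := some y) (c := u)
              (by rw [mem_U]; tauto)
            omega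
          · refine ⟨u', mem_uc.1 hv', ?_⟩
            have := cf_mem (U := ({z, x, x', u, u'} : Finset P)) (o := some y) (c := u')
              (by rw [mem_U]; tauto)
            omega
        · rw [NormD_mem_AU]
          refine ⟨by omega, y, mem_dc.1 hv, ?_⟩
          have := cf_some (U := ({z, x, x', u, u'} : Finset P)) (c := y)
          omega
      · omega
    · unfold trm
      rw [if_neg hd, mul_zero]
      exact dvd_zero _
  · apply dvd_trm_of
    have hAU : (AU i (cf {z, x, x', u, u'} o)).card = 0 := by
      rw [card_eq_zero, eq_empty_iff_forall_notMem]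
      intro v hv
      obtain ⟨y, hy, -, hl⟩ := h.AU_sub H hv
      exact c4 ⟨y, hy, hl⟩
    omega

end J5

end Pool.Agent.GaussPoset.Win
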