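import Pool.Agent.W_448s8f_h76.FrB

/-!
# The window `j - 2` with joins of level `j + 1` (MP_448cb3_co, S7, `j = 14`): the exceptional terms
-/

namespace Pool.Agent.GaussPoset.Win

set_option linter.unusedSectionVars false

open Finset

universe u

variable {P : Type u} [Fintype P] [PartialOrder P] [DecidableEq P] {r i : ℕ}

namespace J5

variable {z x x' u u' : P}

section

variable (h : J5 i z x x' u u') (H : Gr P r)

include h H

/-- the additional unit is outside -/
lemma out {y : P} (hy : (lev y = i + 1 ∧ y ≠ u ∧ y ≠ u') ∨ lev y + 1 = i) :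
    y ∉ ({z, x, x', u, u'} : Finset P) := by
  have l1 := h.lz
  have l2 := h.lx H
  have l3 := h.lx' H
  have l4 := h.lu H
  have l5 := h.lu' H
  rw [mem_U]
  rcases hy with ⟨hy, h1, h2⟩ | hy
  · rintro (rfl | rfl | rfl | rfl | rfl)
    · omega
    · omega
    · omega
    · exact h1 rfl
    · exact h2 rfl
  · rintro (rfl | rfl | rfl | rfl | rfl) <;> omega

/-- no lower element has a child with a larger label -/
lemma noFD {y : P} (hy : (lev y = i + 1 ∧ y ≠ u ∧ y ≠ u') ∨ lev y + 1 = i) {c : P}
    (hc : i < lev c) : ¬ FD (cf {z, x, x', u, u'} (some y)) c := by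
  have l1 := h.lz
  have l2 := h.lx H
  have l3 := h.lx' H
  have l4 := h.lu H
  have l5 := h.lu' H
  have ho := h.out H hy
  rintro ⟨c', hc', hlt⟩
  have g4 := lev_uc H (mem_uc.2 hc')
  have key : ∀ w ∈ ({z, x, x', u, u'} : Finset P), c' = w → c' ⋖ c →
      c ∈ ({z, x, x', u, u'} : Finset P) := by
    intro w hw hcw hcc
    subst hcw
    have g5 := mem_uc.2 hcc
    rw [mem_U] at hw ⊢
    rcases hw with rfl | rfl | rfl | rfl | rfl
    · rw [h.ucz, mem_insert, mem_singleton] at g5
      tauto
    · rw [h.ucx, mem_singleton] at g5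
      tauto
    · rw [h.ucx', mem_singleton] at g5
      tauto
    · omega
    · omega
  rcases cf_pos (U := {z, x, x', u, u'}) (o := some y) (c := c') (by omega) with g2 | g2
  · have g6 := key c' g2 rfl hc'
    have g7 := cf_mem (o := some y) g6
    obtain ⟨g8, g9⟩ := cf_two (U := {z, x, x', u, u'}) (o := some y) (c := c') (by omega)
    have := Option.some.inj g9
    subst this
    exact ho g8
  · have := Option.some.inj g2
    subst this
    omega

/-- no upper element has an upper cover with a larger label -/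
lemma noFU {y : P} (hy : (lev y = i + 1 ∧ y ≠ u ∧ y ≠ u') ∨ lev y + 1 = i) {c : P}
    (hc : lev c < i) : ¬ FU (cf {z, x, x', u, u'} (some y)) c := by
  have l1 := h.lz
  have l2 := h.lx H
  have l3 := h.lx' H
  have l4 := h.lu H
  have l5 := h.lu' H
  rintro ⟨c', hc', hlt⟩
  have g4 := lev_uc H (mem_uc.2 hc')
  rcases cf_pos (U := {z, x, x', u, u'}) (o := some y) (c := c') (by omega) with g2 | g2
  · rw [mem_U] at g2
    rcases g2 with rfl | rfl | rfl | rfl | rfl <;> omega
  · have := Option.some.inj g2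
    subst this
    omega

lemma admL {y : P} (hy : (lev y = i + 1 ∧ y ≠ u ∧ y ≠ u') ∨ lev y + 1 = i) :
    AdmL i (cf {z, x, x', u, u'} (some y)) := fun _ hc h1 => h.noFD H hy hc h1.1

lemma admU {y : P} (hy : (lev y = i + 1 ∧ y ≠ u ∧ y ≠ u') ∨ lev y + 1 = i) :
    AdmU i (cf {z, x, x', u, u'} (some y)) := fun _ hc h1 => h.noFU H hy hc h1.1

lemma aL0 {y : P} (hy : (lev y = i + 1 ∧ y ≠ u ∧ y ≠ u') ∨ lev y + 1 = i) :
    aL i (cf {z, x, x', u, u'} (some y)) = 0 := by
  classical
  unfold aL
  rw [card_eq_zero, filter_eq_empty_iff]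
  rintro c - ⟨hc, h1⟩
  exact h.noFD H hy hc h1

lemma aU0 {y : P} (hy : (lev y = i + 1 ∧ y ≠ u ∧ y ≠ u') ∨ lev y + 1 = i) :
    aU i (cf {z, x, x', u, u'} (some y)) = 0 := by
  classical
  unfold aU
  rw [card_eq_zero, filter_eq_empty_iff]
  rintro c - ⟨hc, h1⟩
  exact h.noFU H hy hc h1

/-- the other lower elements are blocked -/
lemma isGU {y c : P} (hc : i < lev c) (h1 : c ≠ u) (h2 : c ≠ u') (h3 : c ≠ y) :
    GU (cf {z, x, x', u, u'} (some y)) c := by
  have l1 := h.lz
  have l2 := h.lx H
  have l3 := h.lx' H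
  have l4 := h.lu H
  have l5 := h.lu' H
  have hne : (some y : Option P) ≠ some c := fun hh => h3 (Option.some.inj hh).symm
  by_cases hcU : c ∈ ({z, x, x', u, u'} : Finset P)
  · have e1 := cf_mem_ne hcU hne
    have m1 : x ∈ ({z, x, x', u, u'} : Finset P) := by rw [mem_U]; tauto
    have m2 : u ∈ ({z, x, x', u, u'} : Finset P) := by rw [mem_U]; tauto
    have m3 : u' ∈ ({z, x, x', u, u'} : Finset P) := by rw [mem_U]; tauto
    rw [mem_U] at hcU
    rcases hcU with rfl | rfl | rfl | rfl | rfl
    · refine ⟨x, mem_uc.1 (by rw [h.ucz]; exact mem_insert_self _ _), ?_⟩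
      rw [e1]
      exact cf_mem m1
    · refine ⟨u, mem_uc.1 (by rw [h.ucx]; exact mem_singleton_self _), ?_⟩
      rw [e1]
      exact cf_mem m2
    · refine ⟨u', mem_uc.1 (by rw [h.ucx']; exact mem_singleton_self _), ?_⟩
      rw [e1]
      exact cf_mem m3
    · exact absurd rfl h1
    · exact absurd rfl h2
  · obtain ⟨w, hw⟩ := uc_nonempty H (x := c) (by omega)
    refine ⟨w, mem_uc.1 hw, ?_⟩
    rw [cf_out hcU hne]
    omega

/-- the other upper elements are blocked -/
lemma isGD (hir : i ≤ r) {y c : P} (hc : lev c < i) (h3 : c ≠ y) :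
    GD (cf {z, x, x', u, u'} (some y)) c := by
  have l1 := h.lz
  have l2 := h.lx H
  have l3 := h.lx' H
  have l4 := h.lu H
  have l5 := h.lu' H
  have hne : (some y : Option P) ≠ some c := fun hh => h3 (Option.some.inj hh).symm
  have hcU : c ∉ ({z, x, x', u, u'} : Finset P) := by
    rw [mem_U]
    rintro (rfl | rfl | rfl | rfl | rfl) <;> omega
  obtain ⟨w, hw⟩ := dc_nonempty H (x := c) (by omega)
  refine ⟨w, mem_dc.1 hw, ?_⟩
  rw [cf_out hcU hne]
  omega

lemma notGU_u {y : P} (hy : (lev y = i + 1 ∧ y ≠ u ∧ y ≠ u') ∨ lev y + 1 = i) :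
    ¬ GU (cf {z, x, x', u, u'} (some y)) u := by
  have l2 := h.lx H
  refine (h.free_u H (o := some y) (fun hh => ?_) (fun v hv hh => ?_)).2
  · have := Option.some.inj hh
    subst this
    omega
  · have := Option.some.inj hh
    subst this
    have l4 := h.lu H
    have := lev_uc H hv
    omega

lemma notGU_u' {y : P} (hy : (lev y = i + 1 ∧ y ≠ u ∧ y ≠ u') ∨ lev y + 1 = i) :
    ¬ GU (cf {z, x, x', u, u'} (some y)) u' := by
  have := h.symm.notGU_u H (y := y) (by tauto)
  rwa [swap_U] at this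

/-- three free lower elements -/
lemma pL3 {y : P} (hl : lev y = i + 1) (h1 : y ≠ u) (h2 : y ≠ u') :
    pL i (cf {z, x, x', u, u'} (some y)) = 3 := by
  classical
  have l4 := h.lu H
  have l5 := h.lu' H
  have hy : (lev y = i + 1 ∧ y ≠ u ∧ y ≠ u') ∨ lev y + 1 = i := Or.inl ⟨hl, h1, h2⟩
  have e1 : ({u, u', y} : Finset P).card = 3 := by
    rw [card_insert_of_notMem, card_pair (Ne.symm h2)]
    rw [mem_insert, mem_singleton, not_or]
    exact ⟨h.neu, Ne.symm h1⟩
  rw [← e1]
  unfold pL
  congr 1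
  ext c
  rw [mem_filter, mem_insert, mem_insert, mem_singleton]
  constructor
  · rintro ⟨-, g1, -, g2⟩
    by_contra hcon
    rw [not_or, not_or] at hcon
    exact g2 (h.isGU H g1 hcon.1 hcon.2.1 hcon.2.2)
  · rintro (rfl | rfl | rfl)
    · exact ⟨mem_univ _, by omega, h.noFD H hy (by omega), h.notGU_u H hy⟩
    · exact ⟨mem_univ _, by omega, h.noFD H hy (by omega), h.notGU_u' H hy⟩
    · exact ⟨mem_univ _, by omega, h.free_y H hl h1 h2⟩

/-- two free lower elements -/
lemma pL2 {y : P} (hl : lev y + 1 = i) : pL i (cf {z, x, x', u, u'} (some y)) = 2 := by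
  classical
  have l4 := h.lu H
  have l5 := h.lu' H
  have hy : (lev y = i + 1 ∧ y ≠ u ∧ y ≠ u') ∨ lev y + 1 = i := Or.inr hl
  rw [← card_pair h.neu]
  unfold pL
  congr 1
  ext c
  rw [mem_filter, mem_insert, mem_singleton]
  constructor
  · rintro ⟨-, g1, -, g2⟩
    by_contra hcon
    rw [not_or] at hcon
    exact g2 (h.isGU H g1 hcon.1 hcon.2 (by rintro rfl; omega))
  · rintro (rfl | rfl)
    · exact ⟨mem_univ _, by omega, h.noFD H hy (by omega), h.notGU_u H hy⟩
    · exact ⟨mem_univ _, by omega, h.noFD H hy (by omega), h.notGU_u' H hy⟩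

lemma pU0 (hir : i ≤ r) {y : P} (hl : lev y = i + 1) :
    pU i (cf {z, x, x', u, u'} (some y)) = 0 := by
  classical
  unfold pU
  rw [card_eq_zero, filter_eq_empty_iff]
  rintro c - ⟨hc, -, h1⟩
  exact h1 (h.isGD H hir hc (by rintro rfl; omega))

lemma pU1 (hir : i ≤ r) {y : P} (hl : lev y + 1 = i) :
    pU i (cf {z, x, x', u, u'} (some y)) = 1 := by
  classical
  rw [← card_singleton y]
  unfold pU
  congr 1
  ext c
  rw [mem_filter, mem_singleton]
  constructor
  · rintro ⟨-, g1, -, g2⟩
    by_contra hcon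
    exact g2 (h.isGD H hir g1 hcon)
  · rintro rfl
    exact ⟨mem_univ _, by omega, h.free_w H hl⟩

/-- the sites of the five elements are hit -/
lemma mem_AL {y : P} (hy : (lev y = i + 1 ∧ y ≠ u ∧ y ≠ u') ∨ lev y + 1 = i) {v : P}
    (hv : v ∈ uc u ∪ uc u') : v ∈ AL i (cf {z, x, x', u, u'} (some y)) := by
  have l1 := h.lz
  have l2 := h.lx H
  have l3 := h.lx' H
  have l4 := h.lu H
  have l5 := h.lu' H
  have hlv : lev v = i := by
    rw [mem_union] at hv
    rcases hv with hv | hv
    · have := lev_uc H hv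
      omega
    · have := lev_uc H hv
      omega
  have hv0 : cf {z, x, x', u, u'} (some y) v = 0 := by
    apply cf_out
    · rw [mem_U]
      rintro (rfl | rfl | rfl | rfl | rfl) <;> omega
    · intro hh
      have := Option.some.inj hh
      subst this
      omega
  rw [NormD_mem_AL]
  refine ⟨hlv, ?_⟩
  rw [mem_union] at hv
  rcases hv with hv | hv
  · refine ⟨u, mem_uc.1 hv, ?_⟩
    have := cf_mem (U := ({z, x, x', u, u'} : Finset P)) (o := some y) (c := u)
      (by rw [mem_U]; tauto)
    omega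
  · refine ⟨u', mem_uc.1 hv, ?_⟩
    have := cf_mem (U := ({z, x, x', u, u'} : Finset P)) (o := some y) (c := u')
      (by rw [mem_U]; tauto)
    omega

/-- the value of the lower exceptional term -/
theorem trm_low (hir : i ≤ r) {y : P} (hy : y ∈ dbL P i) (hd : Disjoint (uc y) (uc u ∪ uc u')) :
    trm i (cf {z, x, x', u, u'} (some y)) =
      xx ^ ((uc u ∪ uc u').card + 2) *
        dd ^ ((lv P i).card - ((uc u ∪ uc u').card + 2) + 3) := by
  classical
  have l1 := h.lz
  have l2 := h.lx H
  have l3 := h.lx' H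
  have l4 := h.lu H
  have l5 := h.lu' H
  rw [mem_dbL] at hy
  have hyu : y ≠ u := by
    rintro rfl
    have := disjoint_of_subset_right (subset_union_left (s₁ := uc y) (s₂ := uc u')) hd
    rw [disjoint_self, bot_eq_empty] at this
    rw [this, card_empty] at hy
    omega
  have hyu' : y ≠ u' := by
    rintro rfl
    have := disjoint_of_subset_right (subset_union_right (s₁ := uc u) (s₂ := uc y)) hd
    rw [disjoint_self, bot_eq_empty] at this
    rw [this, card_empty] at hy
    omega
  have ho : (lev y = i + 1 ∧ y ≠ u ∧ y ≠ u') ∨ lev y + 1 = i := Or.inl ⟨hy.1, hyu, hyu'⟩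
  have e1 : AL i (cf {z, x, x', u, u'} (some y)) = (uc u ∪ uc u') ∪ uc y := by
    ext v
    constructor
    · intro hv
      obtain ⟨g1, -⟩ := h.AL_sub H hv
      rw [mem_union, mem_union]
      rcases g1 with g1 | g1 | ⟨y', hy, g1, -⟩
      · exact Or.inl (Or.inl g1)
      · exact Or.inl (Or.inr g1)
      · have := Option.some.inj hy
        subst this
        exact Or.inr g1
    · intro hv
      rw [mem_union] at hv
      rcases hv with hv | hv
      · exact h.mem_AL H ho hv
      · have lv' := lev_uc H hv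
        have hv0 : cf {z, x, x', u, u'} (some y) v = 0 := by
          apply cf_out
          · rw [mem_U]
            rintro (rfl | rfl | rfl | rfl | rfl) <;> omega
          · intro hh
            have := Option.some.inj hh
            subst this
            omega
        rw [NormD_mem_AL]
        refine ⟨by omega, y, mem_uc.1 hv, ?_⟩
        have := cf_some (U := ({z, x, x', u, u'} : Finset P)) (c := y)
        omega
  have e2 : AU i (cf {z, x, x', u, u'} (some y)) = ∅ := by
    rw [eq_empty_iff_forall_notMem]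
    intro v hv
    obtain ⟨y', hy', -, hl⟩ := h.AU_sub H hv
    have := Option.some.inj hy'
    subst this
    omega
  have e3 : (AL i (cf {z, x, x', u, u'} (some y))).card = (uc u ∪ uc u').card + 2 := by
    rw [e1, card_union_of_disjoint hd.symm, hy.2]
  unfold trm
  rw [if_pos (by rw [e2]; exact disjoint_empty_right _), e3, e2, card_empty, Nat.sub_zero]
  unfold cw
  rw [if_pos ⟨h.admL H ho, h.admU H ho⟩, h.aL0 H ho, h.aU0 H ho, h.pL3 H hy.1 hyu hyu',
    h.pU0 H hir hy.1]
  rw [pow_add dd _ 3]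
  ring

/-- the value of the upper exceptional term -/
theorem trm_upp (hir : i ≤ r) {y : P} (hy : y ∈ dbU P i) (hd : Disjoint (dc y) (uc u ∪ uc u')) :
    trm i (cf {z, x, x', u, u'} (some y)) =
      xi * xx ^ (uc u ∪ uc u').card *
        dd ^ ((lv P i).card - ((uc u ∪ uc u').card + 2) + 3) := by
  classical
  have l1 := h.lz
  have l2 := h.lx H
  have l3 := h.lx' H
  have l4 := h.lu H
  have l5 := h.lu' H
  rw [mem_dbU] at hy
  have ho : (lev y = i + 1 ∧ y ≠ u ∧ y ≠ u') ∨ lev y + 1 = i := Or.inr hy.1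
  have e1 : AL i (cf {z, x, x', u, u'} (some y)) = uc u ∪ uc u' := by
    ext v
    constructor
    · intro hv
      obtain ⟨g1, -⟩ := h.AL_sub H hv
      rw [mem_union]
      rcases g1 with g1 | g1 | ⟨y', hy', g1, hl⟩
      · exact Or.inl g1
      · exact Or.inr g1
      · have := Option.some.inj hy'
        subst this
        omega
    · exact fun hv => h.mem_AL H ho hv
  have e2 : AU i (cf {z, x, x', u, u'} (some y)) = dc y := by
    ext v
    constructor
    · intro hv
      obtain ⟨y', hy', g1, -⟩ := h.AU_sub H hv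
      have := Option.some.inj hy'
      subst this
      exact g1
    · intro hv
      have lv' := lev_uc H (mem_uc.2 (mem_dc.1 hv))
      have hv0 : cf {z, x, x', u, u'} (some y) v = 0 := by
        apply cf_out
        · rw [mem_U]
          rintro (rfl | rfl | rfl | rfl | rfl) <;> omega
        · intro hh
          have := Option.some.inj hh
          subst this
          omega
      rw [NormD_mem_AU]
      refine ⟨by omega, y, mem_dc.1 hv, ?_⟩
      have := cf_some (U := ({z, x, x', u, u'} : Finset P)) (c := y)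
      omega
  unfold trm
  rw [if_pos (by rw [e1, e2]; exact hd.symm), e1, e2, hy.2]
  unfold cw
  rw [if_pos ⟨h.admL H ho, h.admU H ho⟩, h.aL0 H ho, h.aU0 H ho, h.pL2 H hy.1,
    h.pU1 H hir hy.1]
  rw [pow_add dd _ 3, Nat.sub_sub]
  ring

/-- THE TWO EXCEPTIONAL TERMS CANCEL to the order with one deficit -/
theorem dvd_two (hir : i ≤ r) {y w : P} (hy : y ∈ dbL P i)
    (hd : Disjoint (uc y) (uc u ∪ uc u')) (hw : w ∈ dbU P i) (hw' : dc w = uc y) :
    dd ^ (lv P i).card ∣ dd * (trm i (cf {z, x, x', u, u'} (some y)) +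
      trm i (cf {z, x, x', u, u'} (some w))) := by
  rw [h.trm_low H hir hy hd, h.trm_upp H hir hw (by rw [hw']; exact hd)]
  have h3 := h.le3
  have h7 := card_union_le (uc u) (uc u')
  generalize (uc u ∪ uc u').card = s at *
  have hxx : xx ^ 2 + xi = dd * (xi * (dd ^ 2 - 3 * dd + 3)) := by
    have h1 := xx_mul_xi
    have h2 : xx = dd - 1 := rfl
    have h4 : xx ^ 3 + 1 = dd * (dd ^ 2 - 3 * dd + 3) := by
      rw [h2]
      ring
    calc xx ^ 2 + xi = xi * (xx ^ 3 + 1) - xx ^ 2 * (xx * xi - 1) := by ring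
      _ = xi * (dd * (dd ^ 2 - 3 * dd + 3)) := by rw [h4, h1]; ring
      _ = _ := by ring
  have e1 : dd * (xx ^ (s + 2) * dd ^ ((lv P i).card - (s + 2) + 3) +
      xi * xx ^ s * dd ^ ((lv P i).card - (s + 2) + 3)) =
      dd ^ ((lv P i).card - (s + 2) + 3 + 2) * (xx ^ s * (xi * (dd ^ 2 - 3 * dd + 3))) := by
    rw [pow_add xx s 2, pow_add dd _ 2]
    linear_combination (dd * xx ^ s * dd ^ ((lv P i).card - (s + 2) + 3)) * hxx
  rw [e1]
  exact Dvd.dvd.mul_right (pow_dvd_pow dd (by omega)) _

end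

end J5

end Pool.Agent.GaussPoset.Win
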