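import Pool.Agent.W_448s8f_h76.FrC

/-!
# The window `j - 2` with joins of level `j + 1` (MP_448cb3_co, S7, `j = 14`): the total

If every join of level `i + 3` is a join of two ends with at most three sites above, then the
coefficients `q^n`, `n ≤ 6`, of the product of the window series of the components of the levels
`≤ i + 2` have at most one deficit.
-/

namespace Pool.Agent.GaussPoset.Win

set_option linter.unusedSectionVars false

open Finset

universe u

variable {P : Type u} [Fintype P] [PartialOrder P] [DecidableEq P] {r i : ℕ}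

variable {ι : Type*} [DecidableEq ι] {κ : P → ι}

open Classical in
/-- the lower elements above `z` -/
noncomputable def Uz (i : ℕ) (z : P) : Finset P := univ.filter (fun w => z ≤ w ∧ i < lev w)

open Classical in
/-- the sites above `z` -/
noncomputable def Sz (i : ℕ) (z : P) : Finset P := univ.filter (fun w => z ≤ w ∧ lev w = i)

lemma mem_Uz {z w : P} : w ∈ Uz i z ↔ z ≤ w ∧ i < lev w := by
  classical
  unfold Uz
  simp

lemma mem_Sz {z w : P} : w ∈ Sz i z ↔ z ≤ w ∧ lev w = i := by
  classical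
  unfold Sz
  simp

lemma le_cases {z w : P} (h : z ≤ w) : w = z ∨ ∃ c ∈ uc z, c ≤ w := by
  rcases eq_or_lt_of_le h with h | h
  · exact Or.inl h.symm
  · obtain ⟨c, h1, h2⟩ := Hul.exists_cov h
    exact Or.inr ⟨c, mem_uc.2 h1, h2⟩

namespace J5

variable {z x x' u u' : P}

lemma above (h : J5 i z x x' u u') {w : P} (hw : z ≤ w) :
    w ∈ ({z, x, x', u, u'} : Finset P) ∨ ∃ v ∈ uc u ∪ uc u', v ≤ w := by
  rw [mem_U]
  rcases le_cases hw with rfl | ⟨c, hc, hw⟩
  · tauto
  · rw [h.ucz, mem_insert, mem_singleton] at hc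
    rcases hc with rfl | rfl
    · rcases le_cases hw with rfl | ⟨c, hc, hw⟩
      · tauto
      · rw [h.ucx, mem_singleton] at hc
        subst hc
        rcases le_cases hw with rfl | ⟨c, hc, hw⟩
        · tauto
        · exact Or.inr ⟨c, mem_union_left _ hc, hw⟩
    · rcases le_cases hw with rfl | ⟨c, hc, hw⟩
      · tauto
      · rw [h.ucx', mem_singleton] at hc
        subst hc
        rcases le_cases hw with rfl | ⟨c, hc, hw⟩
        · tauto
        · exact Or.inr ⟨c, mem_union_right _ hc, hw⟩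

lemma lev_site (h : J5 i z x x' u u') (H : Gr P r) {v : P} (hv : v ∈ uc u ∪ uc u') :
    lev v = i := by
  have l4 := h.lu H
  have l5 := h.lu' H
  rw [mem_union] at hv
  rcases hv with hv | hv
  · have := lev_uc H hv
    omega
  · have := lev_uc H hv
    omega

lemma le_U (h : J5 i z x x' u u') {c : P} (hc : c ∈ ({z, x, x', u, u'} : Finset P)) : z ≤ c := by
  have m1 : x ∈ uc z := by rw [h.ucz]; exact mem_insert_self _ _
  have m2 : x' ∈ uc z := by
    rw [h.ucz]
    exact mem_insert_of_mem (mem_singleton_self _)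
  have m3 : u ∈ uc x := by rw [h.ucx]; exact mem_singleton_self _
  have m4 : u' ∈ uc x' := by rw [h.ucx']; exact mem_singleton_self _
  have g1 : z ≤ x := (mem_uc.1 m1).le
  have g2 : z ≤ x' := (mem_uc.1 m2).le
  rw [mem_U] at hc
  rcases hc with rfl | rfl | rfl | rfl | rfl
  · exact le_rfl
  · exact g1
  · exact g2
  · exact g1.trans (mem_uc.1 m3).le
  · exact g2.trans (mem_uc.1 m4).le

lemma Uz_eq (h : J5 i z x x' u u') (H : Gr P r) : Uz i z = {z, x, x', u, u'} := by
  ext w
  rw [mem_Uz]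
  constructor
  · rintro ⟨h1, h2⟩
    rcases h.above h1 with h3 | ⟨v, hv, hvw⟩
    · exact h3
    · have := h.lev_site H hv
      have : lev w ≤ lev v := by
        rcases eq_or_lt_of_le hvw with h | h
        · rw [h]
        · exact (lev_strictAnti h).le
      omega
  · intro hw
    refine ⟨h.le_U hw, ?_⟩
    have l1 := h.lz
    have l2 := h.lx H
    have l3 := h.lx' H
    have l4 := h.lu H
    have l5 := h.lu' H
    rw [mem_U] at hw
    rcases hw with rfl | rfl | rfl | rfl | rfl <;> omega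

lemma Sz_eq (h : J5 i z x x' u u') (H : Gr P r) : Sz i z = uc u ∪ uc u' := by
  have l1 := h.lz
  have l2 := h.lx H
  have l3 := h.lx' H
  have l4 := h.lu H
  have l5 := h.lu' H
  ext w
  rw [mem_Sz]
  constructor
  · rintro ⟨h1, h2⟩
    rcases h.above h1 with h3 | ⟨v, hv, hvw⟩
    · rw [mem_U] at h3
      rcases h3 with rfl | rfl | rfl | rfl | rfl <;> omega
    · have := h.lev_site H hv
      have : v = w := by
        rcases eq_or_lt_of_le hvw with h | h
        · exact h
        · have := lev_strictAnti h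
          omega
      rwa [← this]
  · intro hw
    refine ⟨?_, h.lev_site H hw⟩
    have m2 : u ∈ ({z, x, x', u, u'} : Finset P) := by rw [mem_U]; tauto
    have m3 : u' ∈ ({z, x, x', u, u'} : Finset P) := by rw [mem_U]; tauto
    rw [mem_union] at hw
    rcases hw with hw | hw
    · exact (h.le_U m2).trans (mem_uc.1 hw).le
    · exact (h.le_U m3).trans (mem_uc.1 hw).le

end J5

lemma trm_not {e : P → ℕ} (h : ¬ AdmL i e) : trm i e = 0 := by
  unfold trm
  split_ifs with h1
  · unfold cw
    rw [if_neg (fun h2 => h h2.1), zero_mul]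
  · rfl

/-- an excited element which is not below one component: there is an excited join of level
`i + 3` -/
theorem join_of (H : Gr P r) (hκ : Split (i + 2) κ) {e : P → ℕ} (hA : AdmL i e)
    (hs : ∑ x, e x ≤ 6) {z : P} (hz : z ∉ cuni (i + 2) κ) (he : e z ≠ 0) :
    ∃ w, lev w = i + 3 ∧ w ∉ cuni (i + 2) κ ∧ 0 < e w := by
  classical
  obtain ⟨hzl, h2⟩ := two_up H hκ hz
  rcases Nat.eq_or_lt_of_le (show i + 3 ≤ lev z by omega) with h1 | h1
  · exact ⟨z, h1.symm, hz, by omega⟩
  · obtain ⟨w, hw, hwl⟩ := exists_above' (x := z) (j := i + 3) h1.le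
    refine ⟨w, hwl, ?_, pos_above H hA (by omega) z hw (by omega)⟩
    by_cases h3 : 2 ≤ up (i + 3) z
    · exfalso
      have := energy_join H hA h1 (by omega) (fun k _ hk => by
        rcases Nat.lt_or_ge k (i + 3) with h | h
        · exact h2 k (by omega)
        · have : k = i + 3 := by omega
          rw [this]
          exact h3)
      omega
    · intro hwc
      apply hz
      unfold cuni at hwc ⊢
      rw [mem_biUnion] at hwc ⊢
      obtain ⟨a, ha, hwa⟩ := hwc
      refine ⟨a, ha, ?_⟩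
      rw [mem_cext] at hwa ⊢
      intro y hy hl
      obtain ⟨w', g1, g2, g3⟩ := exists_mid H hy (k := i + 3) (by omega) h1.le
      have h4 : ((lv P (i + 3)).filter (fun v => z < v)).card ≤ 1 := by
        have h5 : up (i + 3) z ≤ 1 := by omega
        unfold up at h5
        convert h5
      rw [card_le_one] at h4
      have hlt : ∀ v, z ≤ v → lev v = i + 3 → v ∈ (lv P (i + 3)).filter (fun v => z < v) := by
        intro v hv hl
        rw [mem_filter, mem_lv]
        refine ⟨hl, lt_of_le_of_ne hv ?_⟩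
        rintro rfl
        omega
      have := h4 w (hlt w hw hwl) w' (hlt w' g1 g3)
      subst this
      exact hwa y g2 hl

open Classical in
/-- the configurations which excite an element outside of the components -/
noncomputable def TT6 (i : ℕ) (κ : P → ι) (n : ℕ) : Finset (P → ℕ) :=
  ((univ : Finset P).piAntidiag n).filter (fun e => ∃ z, z ∉ cuni (i + 2) κ ∧ e z ≠ 0)

open Classical in
/-- the pairs of a join and a lower double away from its sites -/
noncomputable def SLo (i : ℕ) (κ : P → ι) : Finset (P × P) :=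
  (univ : Finset (P × P)).filter (fun p => (lev p.1 = i + 3 ∧ p.1 ∉ cuni (i + 2) κ) ∧
    p.2 ∈ dbL P i ∧ Disjoint (uc p.2) (Sz i p.1))

open Classical in
/-- the pairs of a join and an upper double away from its sites -/
noncomputable def SUp (i : ℕ) (κ : P → ι) : Finset (P × P) :=
  (univ : Finset (P × P)).filter (fun p => (lev p.1 = i + 3 ∧ p.1 ∉ cuni (i + 2) κ) ∧
    p.2 ∈ dbU P i ∧ Disjoint (dc p.2) (Sz i p.1))

lemma mem_SLo {p : P × P} : p ∈ SLo i κ ↔ (lev p.1 = i + 3 ∧ p.1 ∉ cuni (i + 2) κ) ∧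
    p.2 ∈ dbL P i ∧ Disjoint (uc p.2) (Sz i p.1) := by
  classical
  unfold SLo
  simp

lemma mem_SUp {p : P × P} : p ∈ SUp i κ ↔ (lev p.1 = i + 3 ∧ p.1 ∉ cuni (i + 2) κ) ∧
    p.2 ∈ dbU P i ∧ Disjoint (dc p.2) (Sz i p.1) := by
  classical
  unfold SUp
  simp

/-- the configuration of a pair -/
noncomputable def mcf (i : ℕ) (p : P × P) : P → ℕ := cf (Uz i p.1) (some p.2)

section total

variable (H : Gr P r) (hκ : Split (i + 2) κ)
  (hJ : ∀ z : P, lev z = i + 3 → z ∉ cuni (i + 2) κ → ∃ x x' u u' : P, J5 i z x x' u u')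

include H hJ

/-- the terms which are not exceptional -/
theorem dvd_ordinary (hκ : Split (i + 2) κ) {n : ℕ} (hn : n ≤ 6) {e : P → ℕ}
    (he : e ∈ TT6 i κ n) (hne : ∀ p, p ∈ SLo i κ ∨ p ∈ SUp i κ → e ≠ mcf i p) :
    dd ^ (lv P i).card ∣ dd * trm i e := by
  classical
  unfold TT6 at he
  rw [mem_filter, mem_piAntidiag] at he
  obtain ⟨⟨hs, -⟩, z, hz, hez⟩ := he
  by_cases hA : AdmL i e
  · obtain ⟨w, hwl, hwc, hwe⟩ := join_of H hκ hA (by rw [hs]; exact hn) hz hez
    obtain ⟨x, x', u, u', h⟩ := hJ w hwl hwc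
    obtain ⟨o, ho⟩ := cf_of_sum (h.pos H hA hwe) (by rw [h.card_U H, hs]; exact hn)
    rw [ho]
    apply h.dvd_cf H
    rintro y rfl hS
    unfold J5.Spc at hS
    rw [← h.Sz_eq H] at hS
    rcases hS with hS | hS
    · refine hne (w, y) (Or.inl (mem_SLo.2 ⟨⟨hwl, hwc⟩, hS⟩)) ?_
      rw [ho]
      unfold mcf
      rw [h.Uz_eq H]
    · refine hne (w, y) (Or.inr (mem_SUp.2 ⟨⟨hwl, hwc⟩, hS⟩)) ?_
      rw [ho]
      unfold mcf
      rw [h.Uz_eq H]
  · rw [trm_not hA, mul_zero]
    exact dvd_zero _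

/-- the energy of an exceptional configuration is six -/
lemma sum_mcf {p : P × P} (hp : p ∈ SLo i κ ∨ p ∈ SUp i κ) : ∑ c, mcf i p c = 6 := by
  classical
  have hz : lev p.1 = i + 3 ∧ p.1 ∉ cuni (i + 2) κ := by
    rcases hp with hp | hp
    · exact (mem_SLo.1 hp).1
    · exact (mem_SUp.1 hp).1
  obtain ⟨x, x', u, u', h⟩ := hJ p.1 hz.1 hz.2
  unfold mcf
  rw [h.Uz_eq H]
  unfold cf
  rw [Finset.sum_add_distrib, Finset.sum_ite_mem, Finset.univ_inter, Finset.sum_const,
    h.card_U H, smul_eq_mul, mul_one]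
  have : ∑ c : P, (if (some p.2 : Option P) = some c then 1 else 0) = 1 := by
    rw [Finset.sum_eq_single p.2]
    · rw [if_pos rfl]
    · intro b _ hb
      rw [if_neg (fun hh => hb (Option.some.inj hh).symm)]
    · intro hh
      exact absurd (mem_univ _) hh
  rw [this]

lemma mcf_mem {p : P × P} (hp : p ∈ SLo i κ ∨ p ∈ SUp i κ) : mcf i p ∈ TT6 i κ 6 := by
  classical
  have hz : lev p.1 = i + 3 ∧ p.1 ∉ cuni (i + 2) κ := by
    rcases hp with hp | hp
    · exact (mem_SLo.1 hp).1
    · exact (mem_SUp.1 hp).1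
  unfold TT6
  rw [mem_filter, mem_piAntidiag]
  refine ⟨⟨sum_mcf H hJ hp, fun c _ => mem_univ c⟩, p.1, hz.2, ?_⟩
  unfold mcf
  have : p.1 ∈ Uz i p.1 := mem_Uz.2 ⟨le_rfl, by omega⟩
  have := cf_mem (o := some p.2) this
  omega

omit hJ in
lemma mcf_inj {p q : P × P} (hp : p ∈ SLo i κ ∨ p ∈ SUp i κ) (hq : q ∈ SLo i κ ∨ q ∈ SUp i κ)
    (h : mcf i p = mcf i q) : p = q := by
  classical
  have key : ∀ p : P × P, (p ∈ SLo i κ ∨ p ∈ SUp i κ) → lev p.1 = i + 3 ∧
      (lev p.2 = i + 1 ∨ lev p.2 + 1 = i) := by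
    intro p hp
    rcases hp with hp | hp
    · obtain ⟨h1, h2, -⟩ := mem_SLo.1 hp
      exact ⟨h1.1, Or.inl (mem_dbL.1 h2).1⟩
    · obtain ⟨h1, h2, -⟩ := mem_SUp.1 hp
      exact ⟨h1.1, Or.inr (mem_dbU.1 h2).1⟩
  obtain ⟨p1, p2⟩ := key p hp
  obtain ⟨q1, q2⟩ := key q hq
  have e1 : p.1 = q.1 := by
    have h1 : p.1 ∈ Uz i p.1 := mem_Uz.2 ⟨le_rfl, by omega⟩
    have h2 := cf_mem (o := some p.2) h1
    have h3 := congrFun h p.1
    unfold mcf at h3
    rw [h3] at h2
    rcases cf_pos h2 with h4 | h4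
    · rw [mem_Uz] at h4
      rcases eq_or_lt_of_le h4.1 with h5 | h5
      · exact h5.symm
      · have := lev_strictAnti h5
        omega
    · have := Option.some.inj h4
      rw [← this] at p1
      omega
  have e2 : p.2 = q.2 := by
    have h3 := congrFun h p.2
    unfold mcf cf at h3
    rw [e1, if_pos (rfl : (some p.2 : Option P) = some p.2)] at h3
    by_contra hcon
    rw [if_neg (fun hh => hcon (Option.some.inj hh).symm)] at h3
    omega
  exact Prod.ext e1 e2

end total

end Pool.Agent.GaussPoset.Win
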