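import Pool.Agent.W_448s8f_h76.FrD

/-!
# The window `j - 2` with joins of level `j + 1` (MP_448cb3_co, S7, `j = 14`): the product
-/

namespace Pool.Agent.GaussPoset.Win

set_option linter.unusedSectionVars false

open Finset

universe u

variable {P : Type u} [Fintype P] [PartialOrder P] [DecidableEq P] {r i : ℕ}

variable {ι : Type*} [DecidableEq ι] {κ : P → ι}

variable (H : Gr P r) (hir : i ≤ r) (hg : Good P i) (hκ : Split (i + 2) κ)
  (hJ : ∀ z : P, lev z = i + 3 → z ∉ cuni (i + 2) κ → ∃ x x' u u' : P, J5 i z x x' u u')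

include H hJ

include hir hg in
/-- the exceptional terms cancel -/
theorem dvd_exc : dd ^ (lv P i).card ∣ dd * (∑ p ∈ SLo i κ, trm i (mcf i p) +
    ∑ p ∈ SUp i κ, trm i (mcf i p)) := by
  classical
  obtain ⟨psi, hM⟩ := good_mat H hg
  have e1 : ∑ p ∈ SUp i κ, trm i (mcf i p) =
      ∑ p ∈ SLo i κ, trm i (mcf i (p.1, psi p.2)) := by
    symm
    refine Finset.sum_bij' (fun p _ => (p.1, psi p.2)) (fun p _ => (p.1, psi p.2)) ?_ ?_ ?_ ?_ ?_
    · intro p hp
      obtain ⟨h1, h2, h3⟩ := mem_SLo.1 hp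
      obtain ⟨g1, g2⟩ := hM.low p.2 h2 (notMem_empty _)
      exact mem_SUp.2 ⟨h1, g1, by rw [g2]; exact h3⟩
    · intro p hp
      obtain ⟨h1, h2, h3⟩ := mem_SUp.1 hp
      obtain ⟨g1, g2⟩ := hM.upp p.2 h2 (notMem_empty _)
      exact mem_SLo.2 ⟨h1, g1, by rw [g2]; exact h3⟩
    · intro p hp
      obtain ⟨h1, h2, h3⟩ := mem_SLo.1 hp
      have := (hM.invol p.2 (mem_union_left _ h2) (notMem_empty _)).1
      exact Prod.ext rfl this
    · intro p hp
      obtain ⟨h1, h2, h3⟩ := mem_SUp.1 hp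
      have := (hM.invol p.2 (mem_union_right _ h2) (notMem_empty _)).1
      exact Prod.ext rfl this
    · intro p hp
      rfl
  rw [e1, ← Finset.sum_add_distrib, Finset.mul_sum]
  refine Finset.dvd_sum fun p hp => ?_
  obtain ⟨h1, h2, h3⟩ := mem_SLo.1 hp
  obtain ⟨x, x', u, u', h⟩ := hJ p.1 h1.1 h1.2
  obtain ⟨g1, g2⟩ := hM.low p.2 h2 (notMem_empty _)
  rw [h.Sz_eq H] at h3
  have := h.dvd_two H hir h2 h3 g1 g2
  unfold mcf
  rwa [h.Uz_eq H]

include hir hg in
/-- THE JOINED CONFIGURATIONS have at most one deficit -/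
theorem dvd_TT6 (hκ : Split (i + 2) κ) {n : ℕ} (hn : n ≤ 6) :
    dd ^ (lv P i).card ∣ dd * ∑ e ∈ TT6 i κ n, trm i e := by
  classical
  rcases Nat.lt_or_ge n 6 with h6 | h6
  · rw [Finset.mul_sum]
    refine Finset.dvd_sum fun e he => ?_
    refine dvd_ordinary H hJ hκ hn he ?_
    rintro p hp rfl
    have h1 := sum_mcf H hJ hp
    unfold TT6 at he
    rw [mem_filter, mem_piAntidiag] at he
    have h2 : ∑ c, mcf i p c = n := he.1.1
    omega
  · obtain rfl : n = 6 := by omega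
    have hsub : (SLo i κ ∪ SUp i κ).image (mcf i) ⊆ TT6 i κ 6 := by
      intro e he
      rw [mem_image] at he
      obtain ⟨p, hp, rfl⟩ := he
      rw [mem_union] at hp
      exact mcf_mem H hJ hp
    rw [← Finset.sum_sdiff hsub, mul_add]
    refine dvd_add ?_ ?_
    · rw [Finset.mul_sum]
      refine Finset.dvd_sum fun e he => ?_
      rw [mem_sdiff, mem_image] at he
      refine dvd_ordinary H hJ hκ hn he.1 ?_
      rintro p hp rfl
      exact he.2 ⟨p, mem_union.2 hp, rfl⟩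
    · rw [Finset.sum_image (fun p hp q hq h => mcf_inj H (mem_union.1 hp) (mem_union.1 hq) h),
        Finset.sum_union]
      · exact dvd_exc H hir hg hJ
      · rw [disjoint_left]
        intro p hp hq
        have h1 := mem_dbL.1 (mem_SLo.1 hp).2.1
        have h2 := mem_dbU.1 (mem_SUp.1 hq).2.1
        omega

omit hJ in
/-- the window sum is the product and the joined configurations -/
theorem sum_trm_TT6 (hil : i ≤ i + 2) (hir : i ≤ r) (hκ : Split (i + 2) κ) (n : ℕ) :
    ∑ e ∈ (univ : Finset P).piAntidiag n, trm i e =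
      PowerSeries.coeff n (∏ a ∈ univ.image κ, ZS i (cext (i + 2) κ a)) +
        ∑ e ∈ TT6 i κ n, trm i e := by
  classical
  rw [← ZS_cuni H hir hil hκ, coeff_ZS]
  unfold ZC TT6
  rw [← Finset.sum_filter_add_sum_filter_not ((univ : Finset P).piAntidiag n)
    (fun e => ∃ z, z ∉ cuni (i + 2) κ ∧ e z ≠ 0), add_comm]
  congr 1
  have hset : ((univ : Finset P).piAntidiag n).filter
      (fun e => ¬ ∃ z, z ∉ cuni (i + 2) κ ∧ e z ≠ 0) = (cuni (i + 2) κ).piAntidiag n := by
    ext e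
    rw [mem_filter, mem_piAntidiag, mem_piAntidiag]
    constructor
    · rintro ⟨⟨h1, -⟩, h2⟩
      have h3 : ∀ x, e x ≠ 0 → x ∈ cuni (i + 2) κ := by
        intro x hx
        by_contra hc
        exact h2 ⟨x, hc, hx⟩
      refine ⟨?_, h3⟩
      rw [← h1]
      refine Finset.sum_subset (subset_univ _) fun x _ hx => ?_
      by_contra h0
      exact hx (h3 x h0)
    · rintro ⟨h1, h2⟩
      refine ⟨⟨?_, fun x _ => mem_univ x⟩, ?_⟩
      · rw [← h1]
        symm
        refine Finset.sum_subset (subset_univ _) fun x _ hx => ?_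
        by_contra h0
        exact hx (h2 x h0)
      · rintro ⟨x, hx, hx0⟩
        exact hx (h2 x hx0)
  rw [hset]
  refine Finset.sum_congr rfl fun e _ => ?_
  unfold tC trm
  rw [st_cuni hil hκ]

include hir hg in
/-- THE TOTAL HAS AT MOST ONE DEFICIT up to energy six -/
theorem dvd_prod6 (hκ : Split (i + 2) κ) {n : ℕ} (hn : n ≤ 6) :
    dd ^ (∑ a ∈ univ.image κ, (st i (cext (i + 2) κ a)).card) ∣
      dd * PowerSeries.coeff n (∏ a ∈ univ.image κ, ZS i (cext (i + 2) κ a)) := by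
  rw [sum_card_st (by omega) hκ]
  have h1 := sum_trm_TT6 H (i := i) (by omega) hir hκ n
  have h2 : PowerSeries.coeff n (∏ a ∈ univ.image κ, ZS i (cext (i + 2) κ a)) =
      ∑ e ∈ (univ : Finset P).piAntidiag n, trm i e - ∑ e ∈ TT6 i κ n, trm i e := by
    rw [h1]
    ring
  rw [h2, mul_sub]
  exact dvd_sub (Dvd.dvd.mul_left (dvd_sum_trm H hir n) _) (dvd_TT6 H hir hg hJ hκ hn)

end Pool.Agent.GaussPoset.Win
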