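import Pool.Agent.W_448s8f_h76.FrE

/-!
# The window `j - 2` with joins of level `j + 1` (MP_448cb3_co, S7, `j = 14`): (5,2), (3,1), (6,2)
-/

namespace Pool.Agent.GaussPoset.Win.I2

set_option linter.unusedSectionVars false

open Finset

universe u

/-- `∑ ε_c β_c = 0` when the total has at most one deficit -/
theorem sum_odd1 {ι : Type*} (s : Finset ι) {e m : ℕ} (he : 1 ≤ e) (hem : e < m) (hm : m < 2 * e)
    (b : ι → ℕ) (V : ι → PowerSeries A) (h : ∀ c ∈ s, Prof e m (b c) (V c))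
    (h1 : ∀ c ∈ s, eps (b c) (V c) ^ 2 = 1)
    (hP2 : dd ^ (∑ c ∈ s, b c) ∣ dd * PowerSeries.coeff m (∏ c ∈ s, V c)) :
    ∑ c ∈ s, eps (b c) (V c) * be m (b c) (V c) = 0 := by
  obtain ⟨_, _, _, i4⟩ := prod_all s he hem hm.le b V h h1
  have hne : m ≠ 2 * e := hm.ne
  simp only [if_neg hne, zero_sub] at i4
  have e2 : be m (∑ c ∈ s, b c) (∏ c ∈ s, V c) = 0 := by
    unfold be
    apply coeff_eq_zero_of_dvd
    rw [pow_succ', pow_two, mul_assoc]
    exact mul_dvd_mul_left _ hP2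
  rw [e2, mul_zero, mul_zero, neg_zero, Finset.sum_neg_distrib, ← Finset.mul_sum] at i4
  linarith

/-- second power sum when the total at `q^(2e)` has at most one deficit -/
theorem sum_second1 {ι : Type*} (s : Finset ι) {e : ℕ} (he : 1 ≤ e) (b : ι → ℕ)
    (V : ι → PowerSeries A) (h : ∀ c ∈ s, Prof e (2 * e) (b c) (V c))
    (h1 : ∀ c ∈ s, eps (b c) (V c) ^ 2 = 1)
    (hP : dd ^ (∑ c ∈ s, b c) ∣ PowerSeries.coeff e (∏ c ∈ s, V c))
    (hP2 : dd ^ (∑ c ∈ s, b c) ∣ dd * PowerSeries.coeff (2 * e) (∏ c ∈ s, V c)) :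
    ∑ c ∈ s, ((al e (b c) (V c)) ^ 2 - 2 * (eps (b c) (V c) * be (2 * e) (b c) (V c))) = 0 := by
  obtain ⟨_, _, i3, i4⟩ := prod_all s he (by omega) le_rfl b V h h1
  simp only [if_true] at i4
  rw [← i4]
  have e1 : al e (∑ c ∈ s, b c) (∏ c ∈ s, V c) = 0 := by
    unfold al
    apply coeff_eq_zero_of_dvd
    rw [pow_succ']
    exact mul_dvd_mul_left _ hP
  have e2 : be (2 * e) (∑ c ∈ s, b c) (∏ c ∈ s, V c) = 0 := by
    unfold be
    apply coeff_eq_zero_of_dvd
    rw [pow_succ', pow_two, mul_assoc]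
    exact mul_dvd_mul_left _ hP2
  rw [e1, e2]
  ring

variable {P : Type u} [Fintype P] [PartialOrder P] [DecidableEq P] {r i : ℕ}

variable {ι : Type*} [DecidableEq ι] {κ : P → ι}

variable (H : Gr P r) (hir : i ≤ r)
    (hg : ∀ m, i ≤ m + 1 → m ≤ i + 1 → Good P m) (hκ : Split (i + 2) κ)
    (hJ : ∀ z : P, lev z = i + 3 → z ∉ cuni (i + 2) κ → ∃ x x' u u' : P, J5 i z x x' u u')

include H hir hg hκ hJ

lemma tot_dvd1 {n : ℕ} (hn : n ≤ 6) :
    dd ^ (∑ a ∈ univ.image κ, bb i (i + 2) κ a) ∣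
      dd * PowerSeries.coeff n (∏ a ∈ univ.image κ, VV i (i + 2) κ a) :=
  dvd_prod6 H hir (hg i (by omega) (by omega)) hJ hκ hn

/-- (5,2) vanishes for every component if it is nowhere positive -/
theorem be5_zero1 (hneg : ∀ a ∈ univ.image κ, 3 ≤ bb i (i + 2) κ a →
      be 5 (bb i (i + 2) κ a) (VV i (i + 2) κ a) ≤ 0) :
    ∀ a ∈ univ.image κ, be 5 (bb i (i + 2) κ a) (VV i (i + 2) κ a) = 0 := by
  have h1 := sum_odd1 (univ.image κ) (e := 3) (m := 5) (by omega) (by omega) (by omega)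
    (bb i (i + 2) κ) (VV i (i + 2) κ) (fun a ha => prof35 H hir (by omega) hg hκ ha)
    (fun a _ => eps_sq H hir a) (tot_dvd1 H hir hg hκ hJ (by omega))
  simp only [eps_VV H hir, one_mul] at h1
  have h2 : ∀ a ∈ univ.image κ, be 5 (bb i (i + 2) κ a) (VV i (i + 2) κ a) ≤ 0 := by
    intro a ha
    rcases Nat.lt_or_ge (bb i (i + 2) κ a) 3 with h | h
    · rw [be_small H hir (by omega) hκ a (by omega)]
    · exact hneg a ha h
  exact (Finset.sum_eq_zero_iff_of_nonpos h2).1 h1

/-- (3,1) and (6,2) -/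
theorem al3_sq1 (h5 : ∀ a ∈ univ.image κ, be 5 (bb i (i + 2) κ a) (VV i (i + 2) κ a) = 0)
    (hneg : ∀ a ∈ univ.image κ, 3 ≤ bb i (i + 2) κ a →
      2 * be 6 (bb i (i + 2) κ a) (VV i (i + 2) κ a) ≤
        (al 3 (bb i (i + 2) κ a) (VV i (i + 2) κ a)) ^ 2) :
    ∀ a ∈ univ.image κ, (al 3 (bb i (i + 2) κ a) (VV i (i + 2) κ a)) ^ 2 =
      2 * be 6 (bb i (i + 2) κ a) (VV i (i + 2) κ a) := by
  have h1 := sum_second1 (univ.image κ) (e := 3) (by omega)
    (bb i (i + 2) κ) (VV i (i + 2) κ)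
    (fun a ha => prof36 H hir (by omega) hg hκ ha (h5 a ha))
    (fun a _ => eps_sq H hir a) (tot_dvd H hir (by omega) hκ (by omega))
    (tot_dvd1 H hir hg hκ hJ (by omega))
  simp only [eps_VV H hir, one_mul] at h1
  have h2 : ∀ a ∈ univ.image κ, 0 ≤ (al 3 (bb i (i + 2) κ a) (VV i (i + 2) κ a)) ^ 2 -
      2 * be (2 * 3) (bb i (i + 2) κ a) (VV i (i + 2) κ a) := by
    intro a ha
    rcases Nat.lt_or_ge (bb i (i + 2) κ a) 3 with h | h
    · rw [be_small H hir (by omega) hκ a (by omega)]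
      have := sq_nonneg (al 3 (bb i (i + 2) κ a) (VV i (i + 2) κ a))
      linarith
    · have := hneg a ha h
      linarith
  intro a ha
  have h3 := (Finset.sum_eq_zero_iff_of_nonneg h2).1 h1 a ha
  linarith

end Pool.Agent.GaussPoset.Win.I2

namespace Pool.Agent.GaussPoset.Wd

set_option linter.unusedSectionVars false

open Finset Win Win.I2

universe u

variable {P : Type u} [Fintype P] [PartialOrder P] [DecidableEq P] {r j i k : ℕ}

/-- the levels less than or equal to `j` are good (no joins), the joins of level `j + 1` are joins of two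
ends with at most three elements above on the level `j - 2`; `i = j - 2` is the window -/
structure GJ (P : Type u) [Fintype P] [PartialOrder P] [DecidableEq P] (r i : ℕ) : Prop where
  g : GoodTo P r (i + 2)
  hi1 : 1 ≤ i
  hr : i + 3 ≤ r
  jn : ∀ z : P, lev z = i + 3 → Hul.Jn z → ∃ x x' u u' : P, J5 i z x x' u u'

namespace GJ

variable (h : GJ P r i)

include h

lemma nj {z : P} (hz : lev z ≤ i + 2) : ¬ Hul.Jn z := h.g.no_join z hz

theorem split : Split (i + 2) (topOf : P → Tops P) := by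
  intro v y hvy hv
  refine Subtype.ext ?_
  exact Hul.top_unique (h.nj hv) (topOf v).2 (topOf y).2 (le_topOf v) (hvy.le.trans (le_topOf y))

/-- the extended component does not depend on the level of the decomposition -/
lemma cext_eq (t : Tops P) : cext (i + 2) (topOf : P → Tops P) t = SS i t := by
  unfold SS
  ext x
  rw [mem_cext, mem_cext]
  constructor
  · intro hx y hy hl
    exact hx y hy (by omega)
  · intro hx y hy hl
    rcases Nat.lt_or_ge (lev y) i with h1 | h1
    · exact hx y hy h1.le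
    · obtain ⟨y', hy', hl'⟩ := exists_above' (x := y) (j := i) h1
      rw [Split.le h.split (y := y') y hy' hl]
      exact hx y' (hy.trans hy') hl'.le

lemma mem (t : Tops P) {y : P} (hy : lev y ≤ i + 2) : y ∈ SS i t ↔ y ≤ (t : P) := by
  rw [← h.cext_eq t, mem_cext]
  constructor
  · intro h1
    have h2 := h1 y le_rfl hy
    rw [← h2]
    exact le_topOf y
  · intro h1 z hz hlz
    refine Subtype.ext ?_
    exact Hul.top_unique (h.nj hy) (topOf z).2 t.2 (hz.trans (le_topOf z)) h1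

/-- an element with one upper cover belongs to the part of its cover -/
lemma mem_one {t : Tops P} {z w : P} (hz : uc z = {w}) (hl : i < lev z) (hw : w ∈ SS i t) :
    z ∈ SS i t := by
  unfold SS at hw ⊢
  rw [mem_cext] at hw ⊢
  intro y hy hly
  rcases le_cases hy with rfl | ⟨c, hc, hcy⟩
  · omega
  · rw [hz, mem_singleton] at hc
    subst hc
    exact hw y hcy hly

lemma part (hk : k ≤ i + 2) (t : Tops P) : Part k (SS i t) := by
  rw [← h.cext_eq t]
  exact part_cext h.g.H hk h.split t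

lemma bb_eq (t : Tops P) : bb i (i + 2) (topOf : P → Tops P) t = (st i (SS i t)).card := by
  unfold bb
  rw [h.cext_eq t]

lemma VV_eq (t : Tops P) : VV i (i + 2) (topOf : P → Tops P) t = ZS i (SS i t) := by
  unfold VV
  rw [h.cext_eq t]

lemma jn' (z : P) (hz : lev z = i + 3) (hc : z ∉ cuni (i + 2) (topOf : P → Tops P)) :
    ∃ x x' u u' : P, J5 i z x x' u u' := by
  refine h.jn z hz ?_
  by_contra hn
  apply hc
  unfold cuni
  rw [mem_biUnion]
  refine ⟨topOf z, mem_image_of_mem _ (mem_univ z), ?_⟩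
  rw [mem_cext]
  intro y hy _
  refine Subtype.ext ?_
  exact Hul.top_unique hn (topOf y).2 (topOf z).2 (hy.trans (le_topOf y)) (le_topOf z)

/-- (5,2) -/
theorem be5_all (t : Tops P) : be 5 (st i (SS i t)).card (ZS i (SS i t)) = 0 := by
  have hr := h.hr
  have h1 := be5_zero1 h.g.H (by omega)
    (fun m _ hm => h.g.good m (by omega)) h.split h.jn' (by
      intro c _ hb
      rw [h.bb_eq] at hb ⊢
      rw [h.VV_eq]
      obtain ⟨lo, hi, e, C⟩ := Cp.comp_exists h.g.H c.2 h.g.hr h.g.good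
      have h2 := be5_nat h.g C.toWin c.2 h.hi1 (by omega)
        (fun y hy => h.mem c (by omega)) (h.part (by omega) c)
      omega) t (mem_tops t)
  rwa [h.bb_eq, h.VV_eq] at h1

/-- no flip -/
theorem no_flip {t : Tops P} {lo hi : ℕ → ℕ} {e : ℕ → ℕ → P}
    (C : Cp.Comp (i + 2) (t : P) lo hi e) : ¬ Flip lo hi i := by
  intro hf
  have hS : ∀ y, lev y ≤ i + 2 → (y ∈ Wd.SS i t ↔ y ≤ (t : P)) :=
    fun y hy => h.mem t (by omega)
  have h1 := be5_nat h.g C.toWin t.2 h.hi1 (by omega) hS (h.part (by omega) t)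
  have h2 := F5_flip h.g C.toWin t.2 h.hi1 (by omega) hS hf
  have h4 := h.be5_all t
  rw [← card_pos] at h2
  omega

/-- the values -/
theorem vals {t : Tops P} {lo hi : ℕ → ℕ} {e : ℕ → ℕ → P}
    (C : Cp.Comp (i + 2) (t : P) lo hi e) :
    al 3 (st i (SS i t)).card (ZS i (SS i t)) = ((FL i (SS i t)).card : ℤ) - fuw lo hi i ∧
    be 6 (st i (SS i t)).card (ZS i (SS i t)) =
      - ((SO.N1f i (SS i t)).card : ℤ) - ((SO.N5f i (SS i t)).card : ℤ) :=
  be6_gen h.g C.toWin t.2 h.hi1 (by omega) (fun y hy => h.mem t (by omega))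
    (h.part (by omega) t) (h.no_flip C)

/-- (3,1), (6,2) -/
theorem al3_sq (t : Tops P) : (al 3 (st i (SS i t)).card (ZS i (SS i t))) ^ 2 =
    2 * be 6 (st i (SS i t)).card (ZS i (SS i t)) := by
  have hr := h.hr
  have h1 := al3_sq1 h.g.H (by omega)
    (fun m _ hm => h.g.good m (by omega)) h.split h.jn' (by
      intro c _
      rw [h.bb_eq, h.VV_eq]
      exact h.be5_all c) (by
      intro c _ hb
      rw [h.bb_eq] at hb ⊢
      rw [h.VV_eq]
      obtain ⟨lo, hi, e, C⟩ := Cp.comp_exists h.g.H c.2 h.g.hr h.g.good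
      have h2 := (h.vals C).2
      have h4 := sq_nonneg (al 3 (st i (SS i c)).card (ZS i (SS i c)))
      rw [h2]
      have h5 : (0 : ℤ) ≤ (SO.N1f i (SS i c)).card := by positivity
      have h6 : (0 : ℤ) ≤ (SO.N5f i (SS i c)).card := by positivity
      linarith) t (mem_tops t)
  rwa [h.bb_eq, h.VV_eq] at h1

/-- THE LAWS at the window `i = j - 2`: chain balance, nothing hangs below a twisted triple -/
theorem law {t : Tops P} {lo hi : ℕ → ℕ} {e : ℕ → ℕ → P}
    (C : Cp.Comp (i + 2) (t : P) lo hi e) :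
    (FL i (SS i t)).card = fuw lo hi i ∧ SO.N1f i (SS i t) = ∅ ∧ SO.N5f i (SS i t) = ∅ := by
  obtain ⟨h1, h2⟩ := h.vals C
  have h4 := h.al3_sq t
  have h5 : (0 : ℤ) ≤ (SO.N1f i (SS i t)).card := by positivity
  have h6 : (0 : ℤ) ≤ (SO.N5f i (SS i t)).card := by positivity
  have h7 := sq_nonneg (al 3 (st i (SS i t)).card (ZS i (SS i t)))
  rw [h4] at h7
  have h8 : al 3 (st i (SS i t)).card (ZS i (SS i t)) = 0 := by
    have : (al 3 (st i (SS i t)).card (ZS i (SS i t))) ^ 2 = 0 := by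
      rw [h4]
      linarith
    exact pow_eq_zero_iff (two_ne_zero) |>.1 this
  refine ⟨?_, ?_, ?_⟩
  · rw [h1] at h8
    have h9 : ((FL i (SS i t)).card : ℤ) = (fuw lo hi i : ℕ) := by
      have : (fuw lo hi i : ℤ) = (Win.fuw lo hi i : ℤ) := rfl
      linarith
    exact_mod_cast h9
  · rw [← card_eq_zero]
    have : ((SO.N1f i (SS i t)).card : ℤ) = 0 := by linarith
    exact_mod_cast this
  · rw [← card_eq_zero]
    have : ((SO.N5f i (SS i t)).card : ℤ) = 0 := by linarith
    exact_mod_cast this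

/-- **nothing hangs below an element of level `j` over three elements of level `j - 2`** -/
theorem pen_three {t : Tops P} {lo hi : ℕ → ℕ} {e : ℕ → ℕ → P}
    (C : Cp.Comp (i + 2) (t : P) lo hi e) {a : ℕ} (ha : lo i + 2 ≤ a) (ha' : a ≤ hi i) :
    pen (e (i + 2) a) = ∅ := by
  have W := C.toWin
  have f1 := W.lo_ge i (by omega)
  have f2 := W.lo_ge (i + 1) (by omega)
  have f3 := W.hi_le i (by omega)
  have f4 := W.hi_le (i + 1) (by omega)
  have e1 : i + 1 + 1 = i + 2 := rfl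
  rw [e1] at f2 f4
  have hl := W.lev_x (i + 2) (by omega) a (by omega) (by omega)
  have hat := W.le_t (i + 2) (by omega) a (by omega) (by omega)
  rw [eq_empty_iff_forall_notMem]
  intro z hz
  have hu := pen_uc hz
  have hzc := (mem_pen.1 hz).1
  have hlz := lev_cov h.g.H hzc
  have hN := (h.law C).2.1
  have hzS : z ∈ SS i t := h.mem_one hu (by omega) ((h.mem t (by omega)).2 hat)
  have : z ∈ SO.N1f i (SS i t) := by
    refine SO.mem_N1f.2 ⟨hzS, Or.inl ⟨by omega, e (i + 2) a, ?_, hu⟩⟩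
    exact mem_ZL.2 ⟨(h.mem t (by omega)).2 hat, hl,
      (W.up_three h.g t.2 (by omega) (by omega) (by omega)).2 ⟨ha, ha'⟩⟩
  rw [hN] at this
  exact absurd this (notMem_empty _)

end GJ

end Pool.Agent.GaussPoset.Wd
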