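import Pool.Agent.W_448s8f_h76.FrF
import Pool.Agent.W_448s7_h27.PpD
import Pool.Agent.W_448s7s_h5.SmH

/-!
# The window `j - 2` with joins of level `j + 1` (MP_448cb3_co, S7): coordinates

If no join of level `j + 1` has two ends with two elements above on the level `j - 2` (`NoPD P j`), then
the laws of the window `j - 2` hold for every component.
-/

namespace Pool.Agent.GaussPoset.Wd

set_option linter.unusedSectionVars false

open Finset Win Win.I2

universe u

variable {P : Type u} [Fintype P] [PartialOrder P] [DecidableEq P] {r j i k : ℕ}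
  {t : Tops P} {lo hi : ℕ → ℕ} {e : ℕ → ℕ → P}

/-- the chains below the window `i`: the children of the pendants of level `i + 2` -/
theorem GJ.FL_eq (h : GJ P r i) (C : Cp.Comp (i + 2) (t : P) lo hi e) :
    (pdL lo hi i → pen (e (i + 2) (lo (i + 2))) ⊆ FL i (SS i t)) ∧
    (pdR lo hi i → pen (e (i + 2) (hi (i + 2))) ⊆ FL i (SS i t)) ∧
    (∀ z ∈ FL i (SS i t), (pdL lo hi i ∧ z ∈ pen (e (i + 2) (lo (i + 2)))) ∨
      (pdR lo hi i ∧ z ∈ pen (e (i + 2) (hi (i + 2))))) := by
  have W := C.toWin
  have e0 := W.lohi (i + 2) (by omega)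
  have key : ∀ a, lo (i + 2) ≤ a → a ≤ hi (i + 2) → e (i + 2) a ∈ PD P i →
      pen (e (i + 2) a) ⊆ FL i (SS i t) := by
    intro a a1 a2 hp z hz
    have hat := W.le_t (i + 2) (by omega) a a1 a2
    have hl := W.lev_x (i + 2) (by omega) a a1 a2
    have hzc := (mem_pen.1 hz).1
    have hlz := lev_cov h.g.H hzc
    exact mem_FL.2 ⟨h.mem_one (pen_uc hz) (by omega) ((h.mem t (by omega)).2 hat), _, hp,
      pen_uc hz⟩
  refine ⟨fun hp => key _ le_rfl e0 ((W.mem_PD_iff h.g t.2 le_rfl le_rfl e0).2
      (Or.inl ⟨rfl, hp⟩)),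
    fun hp => key _ e0 le_rfl ((W.mem_PD_iff h.g t.2 le_rfl e0 le_rfl).2 (Or.inr ⟨rfl, hp⟩)), ?_⟩
  intro z hz
  obtain ⟨hzS, p, hp, hzp⟩ := mem_FL.1 hz
  have hlp := (lev_PD hp).1
  have hzc : z ⋖ p := by
    rw [← mem_uc, hzp]
    exact mem_singleton_self p
  have hlz := lev_cov h.g.H hzc
  have hpS : p ∈ SS i t := (h.part (by omega) (k := i) t).up hzS hzc
  have hpt := (h.mem t (by omega)).1 hpS
  obtain ⟨a, a1, a2, rfl⟩ := W.surj (i + 2) (by omega) p hlp hpt
  rcases (W.mem_PD_iff h.g t.2 le_rfl a1 a2).1 hp with ⟨rfl, h5⟩ | ⟨rfl, h5⟩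
  · exact Or.inl ⟨h5, mem_pen_of_uc hzp⟩
  · exact Or.inr ⟨h5, mem_pen_of_uc hzp⟩

/-- THE CHAIN BALANCE in coordinates, for a last row with at least two elements -/
theorem GJ.chain (h : GJ P r i) (C : Cp.Comp (i + 2) (t : P) lo hi e)
    (hb : lo (i + 2) < hi (i + 2)) :
    (if pdL lo hi i then (pen (e (i + 2) (lo (i + 2)))).card else 0) +
      (if pdR lo hi i then (pen (e (i + 2) (hi (i + 2)))).card else 0) = fuw lo hi i := by
  classical
  have W := C.toWin
  obtain ⟨h1, h2, h4⟩ := h.FL_eq C
  have hne := W.inj (i + 2) (by omega) (lo (i + 2)) (hi (i + 2)) le_rfl hb le_rfl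
  rw [← (h.law C).1]
  have hdis : Disjoint (pen (e (i + 2) (lo (i + 2)))) (pen (e (i + 2) (hi (i + 2)))) := by
    rw [disjoint_left]
    intro z hz hz'
    have g1 := pen_uc hz
    rw [pen_uc hz', singleton_inj] at g1
    exact hne g1.symm
  by_cases c1 : pdL lo hi i
  · by_cases c2 : pdR lo hi i
    · rw [if_pos c1, if_pos c2, ← card_union_of_disjoint hdis]
      congr 1
      ext z
      rw [mem_union]
      constructor
      · rintro (g | g)
        · exact h1 c1 g
        · exact h2 c2 g
      · intro hz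
        rcases h4 z hz with g | g
        · exact Or.inl g.2
        · exact Or.inr g.2
    · rw [if_pos c1, if_neg c2, add_zero]
      congr 1
      ext z
      constructor
      · exact fun g => h1 c1 g
      · intro hz
        rcases h4 z hz with g | g
        · exact g.2
        · exact absurd g.1 c2
  · by_cases c2 : pdR lo hi i
    · rw [if_neg c1, if_pos c2, zero_add]
      congr 1
      ext z
      constructor
      · exact fun g => h2 c2 g
      · intro hz
        rcases h4 z hz with g | g
        · exact absurd g.1 c1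
        · exact g.2
    · rw [if_neg c1, if_neg c2]
      symm
      rw [add_zero, card_eq_zero, eq_empty_iff_forall_notMem]
      intro z hz
      rcases h4 z hz with g | g
      · exact absurd g.1 c1
      · exact absurd g.1 c2

end Pool.Agent.GaussPoset.Wd

namespace Pool.Agent.GaussPoset.Sm

set_option linter.unusedSectionVars false

open Finset Wd Ec W4

universe u

variable {P : Type u} [Fintype P] [PartialOrder P] [DecidableEq P] {r j : ℕ}
  {lo hi : Tops P → ℕ → ℕ} {e : Tops P → ℕ → ℕ → P}

/-- the elements above an end, two levels higher -/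
lemma nab_two (H : Gr P r) {x u : P} {k : ℕ} (hl : lev x = k + 2) (hu : Win.uc x = {u}) :
    nab k x = (Win.uc u).card := by
  classical
  have hx : x ⋖ u := by
    rw [← Win.mem_uc, hu]
    exact mem_singleton_self u
  have h1 := (H.covBy_iff.mp hx).2
  unfold nab
  congr 1
  ext y
  rw [mem_filter, mem_lv, Win.mem_uc]
  constructor
  · rintro ⟨g1, g2⟩
    rcases Win.le_cases g2 with rfl | ⟨c, hc, hcy⟩
    · omega
    · rw [hu, mem_singleton] at hc
      subst hc
      exact H.covBy_iff.mpr ⟨lt_of_le_of_ne hcy (by rintro rfl; omega), by omega⟩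
  · intro g
    have := (H.covBy_iff.mp g).2
    exact ⟨by omega, hx.1.le.trans g.1.le⟩

/-- the data of a join of level `j + 1`, if no join has two ends with two elements above -/
theorem Ctx.gj (K : Ctx P r j lo hi e) (hr : j + 1 ≤ r) (hPD : NoPD P j) {i : ℕ}
    (hij : j = i + 2) : GJ P r i where
  g := by rw [← hij]; exact K.gt
  hi1 := by have := K.h5; omega
  hr := by omega
  jn := by
    classical
    intro z hz hJ
    have H := K.gt.H
    have hl : lev z = j + 1 := by omega
    obtain ⟨x, x', hc⟩ := K.cross hJ hl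
    obtain ⟨e1, e2⟩ := K.ends hc hl
    obtain ⟨l1, l2⟩ := hc.lev_eq H
    obtain ⟨u, hu⟩ := card_eq_one.1 e1
    obtain ⟨u', hu'⟩ := card_eq_one.1 e2
    have hne : x ≠ x' := by
      rintro rfl
      exact hc.ne rfl
    have n1 := nab_two H (k := i) (by omega) hu
    have n2 := nab_two H (k := i) (by omega) hu'
    have c1 := Win.uc_card_le H u
    have c2 := Win.uc_card_le H u'
    have hx : x ⋖ u := by
      rw [← Win.mem_uc, hu]
      exact mem_singleton_self u
    have hx' : x' ⋖ u' := by
      rw [← Win.mem_uc, hu']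
      exact mem_singleton_self u'
    have key : ∀ w : P, x ≤ w → x' ≤ w → False := by
      intro w h1 h2
      have g1 := mem_onlyB.mp hc.only (topOf w) (topOf w).2 (h1.trans (le_topOf w))
      have g2 := mem_onlyB.mp hc.only' (topOf w) (topOf w).2 (h2.trans (le_topOf w))
      exact hc.ne (Subtype.ext (g1.symm.trans g2))
    refine ⟨x, x', u, u', ⟨hz, Win.StB_uc_pair H hc.cov hc.cov' hne, hu, hu', ?_, ?_, ?_⟩⟩
    · rintro rfl
      exact key u hx.1.le hx'.1.le
    · rw [disjoint_left]
      intro v hv hv'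
      exact key v (hx.1.le.trans (Win.mem_uc.1 hv).1.le) (hx'.1.le.trans (Win.mem_uc.1 hv').1.le)
    · by_contra hcon
      refine hPD z x x' hc hl ?_ ?_
      · rw [show j - 2 = i by omega]
        omega
      · rw [show j - 2 = i by omega]
        omega

end Pool.Agent.GaussPoset.Sm
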