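import Pool.Agent.W_448pn_h63.PoC
import Pool.Agent.W_448rd_h10.RdZ
import Pool.Agent.W_448so_h63.FL

/-!
# The joins of two pendants at the window `i = j - 2` (MP_448cb3_co, S7 / S8)

If all levels below `j` are good, then case B holds at the level `j - 1`, and the joins of the level
`j + 1` between two pendants are the joins `Z2s` of the window `i = j - 2`.
-/

set_option autoImplicit false

namespace Pool.Agent.GaussPoset.Gq

set_option linter.unusedSectionVars false

open Finset Win Wd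
open Pool.Agent.GaussPoset.Win.SO (con PN on mem_PN vp F5 mem_F5 O5 mem_O5)
open Pool.Agent.GaussPoset.Win.I2 (bb VV)
open Pool.Agent.GaussPoset.Win.So (N5s Z2s mem_Z2s)
open Pool.Agent.GaussPoset.Win.T8 (P10 Q8 Q10 cg)
open Pool.Agent.GaussPoset.Win.Pn

universe u

variable {P : Type u} [Fintype P] [PartialOrder P] [DecidableEq P] {r i : ℕ}

/-- the level `i + 1` is a case B level -/
lemma nj_of (h : GoodTo P r (i + 2)) : NJ P r (i + 1) :=
  ⟨h.mono (by omega), h.hr, fun z hz => h.no_join z (by omega)⟩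

variable (h : GoodTo P r (i + 2)) (hi1 : 1 ≤ i)

include h in
/-- no twins on the level `i + 2` -/
lemma tws_empty (t : Tops P) : Tws i (SS i t) = ∅ := by
  rw [eq_empty_iff_forall_notMem]
  intro q hq
  have T := mem_Tws.1 hq
  have h1 := (mem_ZL.1 T.zl)
  have hz' : q.2 ∈ ZL i (SS i t) := by
    refine mem_ZL.2 ⟨T.mC, ?_, ?_⟩
    · obtain ⟨w, hw⟩ : (uc q.1).Nonempty := uc_nonempty h.H (by omega)
      have e1 := lev_uc h.H hw
      rw [T.uc] at hw
      have e2 := lev_uc h.H hw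
      omega
    · have e1 : sts i q.1 = sts i q.2 := by
        have l1 := h1.2.1
        have l2 : lev q.2 = i + 2 := by
          obtain ⟨w, hw⟩ : (uc q.1).Nonempty := uc_nonempty h.H (by omega)
          have e1 := lev_uc h.H hw
          rw [T.uc] at hw
          have e2 := lev_uc h.H hw
          omega
        rw [Rd.sts_bi h.H l1, Rd.sts_bi h.H l2, T.uc]
      rw [← card_sts, ← e1, card_sts]
      exact h1.2.2
  have h2 : q ∈ O5 i (SS i t) := mem_O5.2 ⟨T.zl, hz', T.ne, T.uc⟩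
  rw [So.O5_empty h t] at h2
  exact notMem_empty _ h2

include h in
/-- the covers of a crossing element of the level `i + 3` -/
lemma x3_cov {z : P} (hz : z ∈ X3 i (topOf : P → Tops P)) :
    ∃ p p', topOf p ≠ topOf p' ∧ uc z = {p, p'} ∧ (uc p).card = 1 ∧ (uc p').card = 1 ∧
      lev p = i + 2 ∧ lev p' = i + 2 := by
  obtain ⟨h1, h2⟩ := mem_X3.1 hz
  obtain ⟨p, p', hk, hu⟩ := So.two_labels h.H (Wd.split_gt h) h2 (by omega)
  have c1 : z ⋖ p := mem_uc.1 (by rw [hu]; simp)
  have c2 : z ⋖ p' := mem_uc.1 (by rw [hu]; simp)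
  have l1 := lev_cov h.H c1
  have l2 := lev_cov h.H c2
  have hne : p ≠ p' := fun e => hk (by rw [e])
  rcases (near_level' (i := i + 1) h (by omega)).1 z p p' (by omega) c1 c2 hne with g | ⟨g1, g2, -⟩
  · exfalso
    obtain ⟨y, hy, hy'⟩ := Win.exists_of_ucv (v := p) (v' := p') (by rw [g]; exact one_pos)
    have e1 := Split.le (Wd.split_gt h) p hy.1.le (by omega)
    have e2 := Split.le (Wd.split_gt h) p' hy'.1.le (by omega)
    exact hk (e1.trans e2.symm)
  · exact ⟨p, p', hk, hu, g1, g2, by omega, by omega⟩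

include h in
lemma n5s_empty : N5s i (topOf : P → Tops P) = ∅ := by
  rw [eq_empty_iff_forall_notMem]
  intro z hz
  obtain ⟨h1, h2, h3, -⟩ := So.mem_N5s.1 hz
  obtain ⟨p, p', hk, hu, c1, c2, l1, l2⟩ := x3_cov h (mem_X3.2 ⟨h1, h2⟩)
  have D : So.CrV i (topOf : P → Tops P) z p p' := ⟨h1, hu, hk⟩
  rw [D.up1 h.H (Wd.split_gt h), c1, c2] at h3
  omega

include h in
lemma nfc_empty (t : Tops P) : Rd.NfC i (SS i t) = ∅ := by
  rw [eq_empty_iff_forall_notMem]
  intro a ha
  obtain ⟨z, z2, w, w2, y, S⟩ := Rd.mem_NfC.1 ha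
  have c1 : a ⋖ z := mem_uc.1 (by rw [S.ua]; simp)
  have c2 : a ⋖ z2 := mem_uc.1 (by rw [S.ua]; simp)
  have la := S.la
  rcases (near_level' (i := i + 1) h (by omega)).1 a z z2 (by omega) c1 c2 S.ne.symm with
    g | ⟨g1, -, -⟩
  · obtain ⟨x, hx, hx'⟩ := Win.exists_of_ucv (v := z) (v' := z2) (by rw [g]; exact one_pos)
    have e1 : x ∈ uc z := mem_uc.2 hx
    have e2 : x ∈ uc z2 := mem_uc.2 hx'
    rw [S.uz, mem_insert, mem_singleton] at e1
    rw [S.uz2, mem_singleton] at e2
    rcases e1 with e1 | e1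
    · exact S.yw (e2.symm.trans e1)
    · exact S.yw2 (e2.symm.trans e1)
  · rw [S.uz, card_pair S.ww] at g1
    omega

include h in
lemma ets_empty (t : Tops P) : Rd.ETs i (SS i t) = ∅ := by
  rw [eq_empty_iff_forall_notMem]
  rintro ⟨q, c⟩ ha
  obtain ⟨p0, y0, S⟩ := Rd.mem_ETs.1 ha
  have h1 : q ∈ Tws i (SS i t) := mem_Tws.2 (S.T.tws h.H)
  rw [tws_empty h t] at h1
  exact notMem_empty _ h1

include h in
lemma prs_empty (t : Tops P) : Rd.PrS i (SS i t) = ∅ := by
  unfold Rd.PrS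
  rw [tws_empty h t]
  rfl

include h hi1

/-- the value (10,4) of a component -/
theorem q10_val (t : Tops P) : Q10 (st i (SS i t)).card (ZS i (SS i t)) =
    ((F5 i (SS i t)).card : ℤ) ^ 2 := by
  have N := nj_of h
  rcases Nat.lt_or_ge (st i (SS i t)).card 4 with h4 | h4
  · rw [nj_Q10_small N rfl t (by omega), nj_be5 N rfl hi1 t, tws_empty h t, card_empty]
    ring
  · obtain ⟨lo, hi, e, C⟩ := Cp.comp_exists N.g.H t.2 N.g.hr N.g.good
    have h5 := N.card_SS (i := i) (by omega) C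
    have h6 := C.lo_le i (by omega)
    rw [(N.vals4 rfl hi1 C (by omega)).2.2.2.2, tws_empty h t, prs_empty h t, nfc_empty h t,
      nj_F5_three N rfl hi1 t (by omega)]
    simp

/-- the value (8,3) of a component -/
theorem q8_val (t : Tops P) : Q8 (st i (SS i t)).card (ZS i (SS i t)) =
    - (I2.al 3 (st i (SS i t)).card (ZS i (SS i t)) * ((F5 i (SS i t)).card : ℤ)) := by
  have N := nj_of h
  rcases Nat.lt_or_ge (st i (SS i t)).card 4 with h4 | h4
  · rw [nj_Q8_small N rfl t (by omega), nj_be5 N rfl hi1 t, tws_empty h t, card_empty]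
    push_cast
    ring
  · obtain ⟨lo, hi, e, C⟩ := Cp.comp_exists N.g.H t.2 N.g.hr N.g.good
    have h5 := N.card_SS (i := i) (by omega) C
    have h6 := C.lo_le i (by omega)
    rw [(N.vals4 rfl hi1 C (by omega)).2.2.2.1, tws_empty h t, ets_empty h t,
      nj_F5_three N rfl hi1 t (by omega)]
    simp

/-- the flips of a component -/
lemma f5_le (t : Tops P) : (F5 i (SS i t)).card ≤ 1 := by
  classical
  have N := nj_of h
  obtain ⟨n1, n2, -⟩ := nj_one N rfl hi1 t
  have h1 : F5 i (SS i t) ⊆ (SS i t).filter (· ∈ PD P i) ×ˢ (SS i t).filter (· ∈ PU P i) := by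
    intro q hq
    obtain ⟨a1, a2, a3, a4, -⟩ := mem_F5.1 hq
    exact mem_product.2 ⟨mem_filter.2 ⟨a1, a2⟩, mem_filter.2 ⟨a3, a4⟩⟩
  have h2 := card_le_card h1
  rw [card_product] at h2
  nlinarith

end Pool.Agent.GaussPoset.Gq
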