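import Pool.Agent.W_448s8f_h76.GqA
import Pool.Agent.W_448pn_h63.QbC

/-!
# The local contributions of the joins at the window `i = j - 2` (MP_448cb3_co, S7 / S8)
-/

set_option autoImplicit false

namespace Pool.Agent.GaussPoset.Gq

set_option linter.unusedSectionVars false

open Finset Win Wd
open Pool.Agent.GaussPoset.Win.SO (con PN on mem_PN vp F5 mem_F5 O5 mem_O5)
open Pool.Agent.GaussPoset.Win.I2 (bb VV)
open Pool.Agent.GaussPoset.Win.So (N5s Z2s mem_Z2s)
open Pool.Agent.GaussPoset.Win.T8 (P10 Q8 Q10 cg)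
open Pool.Agent.GaussPoset.Win.Pn

universe u

variable {P : Type u} [Fintype P] [PartialOrder P] [DecidableEq P] {r i : ℕ}

/-- the number of flips -/
noncomputable def nf (i : ℕ) (t : Tops P) : ℤ := ((F5 i (SS i t)).card : ℤ)

lemma sg_eq (h : GoodTo P r (i + 2)) (n : ℕ) (t : Tops P) :
    Pn.sg i (topOf : P → Tops P) n t = hc n (st i (SS i t)).card (ZS i (SS i t)) := by
  unfold Pn.sg
  rw [Wd.bb_eq h (by omega) t, Wd.VV_eq h (by omega) t]

variable (h : GoodTo P r (i + 2)) (hi1 : 1 ≤ i)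
include h hi1

/-- single elements outside `PD` have no pinned contribution -/
lemma rho_ns {w : P} (lw : lev w = i + 2) (hc : (uc w).card = 1) (hp : w ∉ PD P i) :
    Pn.rho i (topOf : P → Tops P) 5 w = 0 ∧ Pn.rho i (topOf : P → Tops P) 7 w = 0 := by
  have N := nj_of h
  have hz : w ∉ ZL i (SS i (topOf w)) := by
    intro hz
    obtain ⟨-, -, h3⟩ := mem_ZL.1 hz
    obtain ⟨y, hy⟩ := card_eq_one.1 hc
    have h4 : sts i w ⊆ uc y := by
      intro v hv
      rw [mem_sts_iff h.H lw] at hv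
      obtain ⟨x, hx, hx'⟩ := hv
      have : x ∈ uc w := by first | exact hx | exact mem_uc.2 hx
      rw [hy, mem_singleton] at this
      rw [← this]
      first | exact hx' | exact mem_uc.2 hx'
    have h5 := card_le_card h4
    rw [card_sts, h3] at h5
    have h6 := uc_card_le h.H y
    omega
  exact ⟨nj_rho5_else N rfl hi1 lw hp hz, nj_rho7_else N rfl hi1 lw hp hz⟩

/-- the local contribution of a join of two pendants -/
lemma wn_pair {z p p' : P} (m : ℕ) (hz : z ∈ Z2s i (topOf : P → Tops P)) (hu : uc z = {p, p'})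
    (hne : p ≠ p') : Wn i (topOf : P → Tops P) m z =
      (Pn.rho i (topOf : P → Tops P) (2 * m - 1) p - Pn.sg i (topOf : P → Tops P) (2 * m - 3) (topOf p)) +
      (Pn.rho i (topOf : P → Tops P) (2 * m - 1) p' -
        Pn.sg i (topOf : P → Tops P) (2 * m - 3) (topOf p')) := by
  have h1 := (Z2s_cov h.H (Wd.split_gt h) hz (w := p) (by rw [hu]; simp)).1
  have h2 := (Z2s_cov h.H (Wd.split_gt h) hz (w := p') (by rw [hu]; simp)).1
  rw [Wn_pair hu hne, if_pos h2, if_pos h1, if_pos ⟨h1, h2⟩]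
  ring

/-- the other crossing elements of the level `i + 3` do not contribute -/
lemma wn_zero {z : P} {m : ℕ} (hm : m = 3 ∨ m = 4) (hz : z ∈ X3 i (topOf : P → Tops P))
    (hz2 : z ∉ Z2s i (topOf : P → Tops P)) : Wn i (topOf : P → Tops P) m z = 0 := by
  obtain ⟨p, p', hk, hu, c1, c2, l1, l2⟩ := x3_cov h hz
  have hne : p ≠ p' := fun e => hk (by rw [e])
  have key : ¬ (p ∈ PD P i ∧ p' ∈ PD P i) := by
    rintro ⟨k1, k2⟩
    apply hz2
    rw [X3_Z2s h.H (Wd.split_gt h)]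
    refine ⟨hz, ?_⟩
    intro q hq
    rw [hu, mem_insert, mem_singleton] at hq
    rcases hq with rfl | rfl
    · exact k1
    · exact k2
  rw [Wn_pair hu hne, if_neg key, sub_zero]
  by_cases k1 : p ∈ PD P i
  · have k2 : p' ∉ PD P i := fun k => key ⟨k1, k⟩
    have r2 := rho_ns h hi1 l2 c2 k2
    rw [if_neg k2, if_pos k1, zero_add]
    rcases hm with rfl | rfl
    · exact r2.1
    · exact r2.2
  · have r1 := rho_ns h hi1 l1 c1 k1
    rw [if_neg k1, add_zero]
    by_cases k2 : p' ∈ PD P i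
    · rw [if_pos k2]
      rcases hm with rfl | rfl
      · exact r1.1
      · exact r1.2
    · rw [if_neg k2]

lemma z2_sub : Z2s i (topOf : P → Tops P) ⊆ X3 i (topOf : P → Tops P) := by
  intro z hz
  rw [X3_Z2s h.H (Wd.split_gt h)] at hz
  exact hz.1

lemma sum_wn {m : ℕ} (hm : m = 3 ∨ m = 4) : ∑ z ∈ X3 i (topOf : P → Tops P),
    Wn i (topOf : P → Tops P) m z = ∑ z ∈ Z2s i (topOf : P → Tops P),
      Wn i (topOf : P → Tops P) m z :=
  (sum_subset (z2_sub h hi1) fun z hz hz2 => wn_zero h hi1 hm hz hz2).symm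

/-- the value (7) of a pendant -/
lemma net7 {p : P} (hp : p ∈ PD P i) : Pn.rho i (topOf : P → Tops P) 7 p -
    Pn.sg i (topOf : P → Tops P) 5 (topOf p) = nf i (topOf p) := by
  have N := nj_of h
  have e := nj_net7 N rfl hi1 hp
  rw [sg_eq h]
  have e2 : hc 5 (st i (SS i (topOf p))).card (ZS i (SS i (topOf p))) =
      I2.be 5 (st i (SS i (topOf p))).card (ZS i (SS i (topOf p))) := rfl
  rw [e2, e, tws_empty h]
  simp [nf]

lemma wn4 {z : P} (hz : z ∈ Z2s i (topOf : P → Tops P)) :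
    Wn i (topOf : P → Tops P) 4 z = ∑ p ∈ uc z, nf i (topOf p) := by
  obtain ⟨p, p', y, y', D⟩ := So.Z2s_ZD h.H (Wd.split_gt h) hz
  have hne : p ≠ p' := fun e => D.ne (by rw [e])
  have h1 := (Z2s_cov h.H (Wd.split_gt h) hz (w := p) (by rw [D.cov]; simp)).1
  have h2 := (Z2s_cov h.H (Wd.split_gt h) hz (w := p') (by rw [D.cov]; simp)).1
  rw [wn_pair h hi1 4 hz D.cov hne, D.cov, sum_pair hne, ← net7 h hi1 h1, ← net7 h hi1 h2]

lemma wn3 {z : P} (hz : z ∈ Z2s i (topOf : P → Tops P)) :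
    Wn i (topOf : P → Tops P) 3 z = ∑ p ∈ uc z, (Pn.rho i (topOf : P → Tops P) 5 p -
      Pn.sg i (topOf : P → Tops P) 3 (topOf p)) := by
  obtain ⟨p, p', y, y', D⟩ := So.Z2s_ZD h.H (Wd.split_gt h) hz
  have hne : p ≠ p' := fun e => D.ne (by rw [e])
  rw [wn_pair h hi1 3 hz D.cov hne, D.cov, sum_pair hne]

/-- the value (5) of the pendant of a flip -/
lemma net5_flip {p : P} (hp : p ∈ PD P i) (hf : nf i (topOf p) ≠ 0) :
    Pn.rho i (topOf : P → Tops P) 5 p = -1 := by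
  have N := nj_of h
  have h1 : (F5 i (SS i (topOf p))).Nonempty := by
    rw [← card_pos]
    unfold nf at hf
    omega
  obtain ⟨⟨p1, q1⟩, hq⟩ := h1
  have hp1 : p1 = p := by
    obtain ⟨n1, -, -⟩ := nj_one N rfl hi1 (topOf p)
    rw [card_le_one] at n1
    obtain ⟨a1, a2, -⟩ := mem_F5.1 hq
    exact n1 p1 (mem_filter.2 ⟨a1, a2⟩) p (mem_filter.2
      ⟨nj_mem N rfl hi1 (mem_PD.1 hp).1, hp⟩)
  subst hp1
  obtain ⟨y, u, a, s, b, F⟩ := Pf.nj_flp N rfl hi1 (topOf p1) hq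
  exact Pf.nj_flip_rho5 N rfl hi1 F

end Pool.Agent.GaussPoset.Gq
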