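import Pool.Agent.W_448s8f_h76.GqB

/-!
# No joins of two pendants (MP_448cb3_co, S7 / S8)

All levels below `i + 2` are good. If a flip is never joined with a flip nor with a component with an
element of `FU'`, then there are no joins of two pendants on the level `i + 3`.
-/

set_option autoImplicit false

namespace Pool.Agent.GaussPoset.Gq

set_option linter.unusedSectionVars false

open Finset Win Wd
open Pool.Agent.GaussPoset.Win.SO (con PN on mem_PN vp F5 mem_F5 O5 mem_O5)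
open Pool.Agent.GaussPoset.Win.I2 (bb VV)
open Pool.Agent.GaussPoset.Win.So (N5s Z2s mem_Z2s)
open Pool.Agent.GaussPoset.Win.T8 (P10 Q8 Q10 cg)
open Pool.Agent.GaussPoset.Win.Pn

universe u

variable {P : Type u} [Fintype P] [PartialOrder P] [DecidableEq P] {r i : ℕ}

/-- the sites of an element of the level `i + 2` -/
lemma sts_low (h : GoodTo P r (i + 2)) {t : Tops P} {lo hi : ℕ → ℕ} {e : ℕ → ℕ → P}
    (C : Cp.Comp (i + 2) (t : P) lo hi e) {s s' : ℕ} (h1 : lo (i + 2) ≤ s) (h2 : s ≤ hi (i + 2))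
    (h3 : lo i ≤ s') (h4 : s' ≤ hi i) : e i s' ∈ sts i (e (i + 2) s) ↔ s' ≤ s ∧ s ≤ s' + 2 := by
  rw [mem_sts, ← C.le_iff h.H h.good t.2 h3 h4 (by omega) h1 h2]
  have l1 := C.lev_e (i + 2) s (by omega) h1 h2
  have l2 := C.lev_e i s' (by omega) h3 h4
  constructor
  · rintro ⟨-, k⟩
    exact k.le
  · intro k
    refine ⟨l2, lt_of_le_of_ne k ?_⟩
    intro k'
    rw [k'] at l1
    omega

lemma sts_upp (h : GoodTo P r (i + 2)) (hi2 : 2 ≤ i) {t : Tops P} {lo hi : ℕ → ℕ}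
    {e : ℕ → ℕ → P} (C : Cp.Comp (i + 2) (t : P) lo hi e) {s s' : ℕ} (h1 : lo (i - 2) ≤ s)
    (h2 : s ≤ hi (i - 2)) (h3 : lo i ≤ s') (h4 : s' ≤ hi i) :
    e i s' ∈ stD i (e (i - 2) s) ↔ s ≤ s' ∧ s' ≤ s + 2 := by
  obtain ⟨k, rfl⟩ : ∃ k, i = k + 2 := ⟨i - 2, by omega⟩
  rw [show k + 2 - 2 = k by omega] at h1 h2 ⊢
  rw [mem_stD, ← C.le_iff h.H h.good t.2 h1 h2 (by omega) h3 h4]
  have l1 := C.lev_e k s (by omega) h1 h2
  have l2 := C.lev_e (k + 2) s' (by omega) h3 h4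
  constructor
  · rintro ⟨-, k⟩
    exact k.le
  · intro k
    refine ⟨l2, lt_of_le_of_ne k ?_⟩
    intro k'
    rw [k'] at l2
    omega

lemma le_of_SS (h : GoodTo P r (i + 2)) {t : Tops P} {z : P} (hz : z ∈ SS i t)
    (hl : lev z ≤ i + 2) : z ≤ (t : P) :=
  ((nj_of h).mem (i := i) (by omega) t (by omega)).1 hz

/-- an element of the level `i + 2` with three sites has a twin above with the same sites -/
lemma zl_zu (h : GoodTo P r (i + 2)) (hi2 : 2 ≤ i) {t : Tops P} {lo hi : ℕ → ℕ}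
    {e : ℕ → ℕ → P} (C : Cp.Comp (i + 2) (t : P) lo hi e) {z : P} (hz : z ∈ ZL i (SS i t)) :
    ∃ s, lo i + 2 ≤ s ∧ s ≤ hi i ∧ lo (i + 2) ≤ s ∧ s ≤ hi (i + 2) ∧ z = e (i + 2) s ∧
      lo (i - 2) ≤ s - 2 ∧ s - 2 ≤ hi (i - 2) ∧
      sit i z = (Icc (s - 2) s).image (e i) ∧
      sit i (e (i - 2) (s - 2)) = (Icc (s - 2) s).image (e i) ∧
      e (i - 2) (s - 2) ∈ ZU i (SS i t) := by
  classical
  obtain ⟨hzC, hzl, hz3⟩ := mem_ZL.1 hz
  have hzt : z ≤ (t : P) := le_of_SS h hzC (by omega)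
  obtain ⟨s, s1, s2, s3⟩ := C.surj z hzt (by omega)
  rw [hzl] at s1 s2 s3
  have hall : ∀ v ∈ sts i z, ∃ s', lo i ≤ s' ∧ s' ≤ hi i ∧ e i s' = v := by
    intro v hv
    obtain ⟨a1, a2⟩ := mem_sts.1 hv
    have e1 : ((topOf v : Tops P) : P) = (t : P) :=
      h.top_eq (x := z) (by omega) (topOf v).2 t.2 (a2.le.trans (le_topOf v)) hzt
    have hvt : v ≤ (t : P) := by
      rw [← e1]
      exact le_topOf v
    obtain ⟨s', b1, b2, b3⟩ := C.surj v hvt (by omega)
    rw [a1] at b1 b2 b3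
    exact ⟨s', b1, b2, b3⟩
  have himg : sts i z = ((Icc (lo i) (hi i)).filter (fun s' => s' ≤ s ∧ s ≤ s' + 2)).image
      (e i) := by
    ext v
    rw [mem_image]
    constructor
    · intro hv
      obtain ⟨s', b1, b2, b3⟩ := hall v hv
      refine ⟨s', mem_filter.2 ⟨mem_Icc.2 ⟨b1, b2⟩, ?_⟩, b3⟩
      rw [← b3, ← s3] at hv
      exact (sts_low h C s1 s2 b1 b2).1 hv
    · rintro ⟨s', b, rfl⟩
      obtain ⟨b1, b2⟩ := mem_filter.1 b
      obtain ⟨b3, b4⟩ := mem_Icc.1 b1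
      rw [← s3]
      exact (sts_low h C s1 s2 b3 b4).2 b2
  have hcard : 3 ≤ ((Icc (lo i) (hi i)).filter (fun s' => s' ≤ s ∧ s ≤ s' + 2)).card := by
    have h1 : (sts i z).card = 3 := by rw [card_sts]; exact hz3
    rw [himg] at h1
    rw [← h1]
    exact card_image_le
  have hlo : lo i + 2 ≤ s ∧ s ≤ hi i := by
    by_contra hcon
    have hsub : (Icc (lo i) (hi i)).filter (fun s' => s' ≤ s ∧ s ≤ s' + 2) ⊆
        Icc (max (lo i) (s - 2)) (min (hi i) s) := by
      intro x hx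
      obtain ⟨b1, b2⟩ := mem_filter.1 hx
      obtain ⟨b3, b4⟩ := mem_Icc.1 b1
      rw [mem_Icc]
      omega
    have h1 := card_le_card hsub
    rw [Nat.card_Icc] at h1
    omega
  have hfil : (Icc (lo i) (hi i)).filter (fun s' => s' ≤ s ∧ s ≤ s' + 2) = Icc (s - 2) s := by
    ext x
    rw [mem_filter, mem_Icc, mem_Icc]
    omega
  have m1 := C.lo_mono (l := i - 2) (d := 2) (by omega)
  have m2 := C.hi_mono (l := i - 2) (d := 2) (by omega)
  rw [show i - 2 + 2 = i by omega] at m1 m2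
  have k1 : lo (i - 2) ≤ s - 2 := by omega
  have k2 : s - 2 ≤ hi (i - 2) := by omega
  have hw : stD i (e (i - 2) (s - 2)) = (Icc (s - 2) s).image (e i) := by
    ext v
    rw [mem_image]
    constructor
    · intro hv
      obtain ⟨a1, a2⟩ := mem_stD.1 hv
      have hvt : v ≤ (t : P) := a2.le.trans (C.le_t (i - 2) (s - 2) (by omega) k1 k2)
      obtain ⟨s', b1, b2, b3⟩ := C.surj v hvt (by omega)
      rw [a1] at b1 b2 b3
      rw [← b3] at hv
      have := (sts_upp h hi2 C k1 k2 b1 b2).1 hv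
      exact ⟨s', mem_Icc.2 (by omega), b3⟩
    · rintro ⟨s', b, rfl⟩
      have b' := mem_Icc.1 b
      exact (sts_upp h hi2 C k1 k2 (by omega) (by omega)).2 (by omega)
  have l0 := C.lev_e (i - 2) (s - 2) (by omega) k1 k2
  refine ⟨s, hlo.1, hlo.2, s1, s2, s3.symm, k1, k2, ?_, ?_, ?_⟩
  · rw [sit_low h.H (by omega), himg, hfil]
  · rw [sit_upp h.H (by omega), hw]
  · rw [mem_ZU]
    refine ⟨?_, by omega, ?_⟩
    · rw [(nj_of h).mem (i := i) (by omega) t (by omega)]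
      exact C.le_t (i - 2) (s - 2) (by omega) k1 k2
    · rw [← card_stD, hw, card_image_of_injOn, Nat.card_Icc]
      · omega
      · intro a ha b hb hab
        have ha' := mem_Icc.1 (mem_coe.1 ha)
        have hb' := mem_Icc.1 (mem_coe.1 hb)
        exact C.inj i a b (by omega) (by omega) (by omega) (by omega) (by omega) hab

/-- at least as many upper as lower elements with three sites meet a given set -/
lemma zl_le_zu (h : GoodTo P r (i + 2)) (hi2 : 2 ≤ i) (t : Tops P) (Q : Finset P)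
    [DecidablePred (fun z : P => ¬ Disjoint (sit i z) Q)] :
    ((ZL i (SS i t)).filter (fun z => ¬ Disjoint (sit i z) Q)).card ≤
      ((ZU i (SS i t)).filter (fun z => ¬ Disjoint (sit i z) Q)).card := by
  classical
  obtain ⟨lo, hi, e, C⟩ := Cp.comp_exists h.H t.2 h.hr h.good
  refine card_le_card_of_forall_subsingleton (fun z w => sit i z = sit i w) ?_ ?_
  · intro z hz
    obtain ⟨hz1, hz2⟩ := mem_filter.1 hz
    obtain ⟨s, -, -, -, -, -, -, -, a1, a2, a3⟩ := zl_zu h hi2 C hz1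
    refine ⟨e (i - 2) (s - 2), mem_filter.2 ⟨a3, ?_⟩, by rw [a1, a2]⟩
    rw [a2, ← a1]
    exact hz2
  · intro w _ z hz z' hz'
    obtain ⟨hz1, hz2⟩ := hz
    obtain ⟨hz1', hz2'⟩ := hz'
    obtain ⟨s, b1, b2, b3, b4, rfl, -, -, a1, -, -⟩ := zl_zu h hi2 C (mem_filter.1 hz1).1
    obtain ⟨s', b1', b2', b3', b4', rfl, -, -, a1', -, -⟩ := zl_zu h hi2 C (mem_filter.1 hz1').1
    have he : (Icc (s - 2) s).image (e i) = (Icc (s' - 2) s').image (e i) := by
      rw [← a1, ← a1', hz2, hz2']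
    have key : ∀ {x y : ℕ}, lo i + 2 ≤ x → x ≤ hi i → lo i + 2 ≤ y → y ≤ hi i →
        (Icc (x - 2) x).image (e i) ⊆ (Icc (y - 2) y).image (e i) → x ≤ y := by
      intro x y c1 c2 c3 c4 hs
      have h1 : e i x ∈ (Icc (x - 2) x).image (e i) :=
        mem_image_of_mem _ (mem_Icc.2 (by omega))
      obtain ⟨y', d1, d2⟩ := mem_image.1 (hs h1)
      have d1' := mem_Icc.1 d1
      have := C.inj i y' x (by omega) (by omega) (by omega) (by omega) (by omega) d2
      omega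
    have e1 := key b1 b2 b1' b2' he.subset
    have e2 := key b1' b2' b1 b2 he.symm.subset
    rw [show s = s' by omega]

end Pool.Agent.GaussPoset.Gq
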