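import Pool.Agent.W_448s8f_h76.GqC

/-!
# No joins of two pendants (MP_448cb3_co, S7 / S8)

All levels below `i + 2` are good. If a flip is never joined with a flip nor with a component with an
element of `FU'`, then there are no joins of two pendants on the level `i + 3`.
-/

set_option autoImplicit false

namespace Pool.Agent.GaussPoset.Gq

set_option linter.unusedSectionVars false

open Finset Win Wd
open Pool.Agent.GaussPoset.Win.SO (con PN on mem_PN vp F5 mem_F5 O5 mem_O5)
open Pool.Agent.GaussPoset.Win.I2 (bb VV)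
open Pool.Agent.GaussPoset.Win.So (N5s Z2s mem_Z2s)
open Pool.Agent.GaussPoset.Win.T8 (P10 Q8 Q10 cg)
open Pool.Agent.GaussPoset.Win.Pn

universe u

variable {P : Type u} [Fintype P] [PartialOrder P] [DecidableEq P] {r i : ℕ}

lemma nf_nonneg (t : Tops P) : 0 ≤ nf i t := Int.natCast_nonneg _

lemma nf_zero {t : Tops P} (h : nf i t = 0) : F5 i (SS i t) = ∅ := by
  unfold nf at h
  rw [← card_eq_zero]
  exact_mod_cast h

lemma nf_ne {t : Tops P} (h : F5 i (SS i t) ≠ ∅) : nf i t ≠ 0 := fun h' => h (nf_zero h')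

variable (h : GoodTo P r (i + 2)) (hi1 : 1 ≤ i)
include h hi1

lemma nf_le (t : Tops P) : nf i t ≤ 1 := by
  have := f5_le h hi1 t
  unfold nf
  omega

/-- the value (5) of the pendants of the components without flip and without `FU'` -/
lemma net5_le (hi2 : 2 ≤ i) {p : P} (hp : p ∈ PD P i) (hF : F5 i (SS i (topOf p)) = ∅)
    (hU : FU' i (SS i (topOf p)) = ∅) :
    Pn.rho i (topOf : P → Tops P) 5 p - Pn.sg i (topOf : P → Tops P) 3 (topOf p) ≤ 0 := by
  classical
  have N := nj_of h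
  have e := nj_net5 N rfl hi1 hp hF
  rw [sg_eq h]
  have e2 : hc 3 (st i (SS i (topOf p))).card (ZS i (SS i (topOf p))) =
      I2.al 3 (st i (SS i (topOf p))).card (ZS i (SS i (topOf p))) := by
    unfold hc I2.al
    rw [show 3 / 2 = 1 from rfl, pow_one]
  have e3 := zl_le_zu h hi2 (topOf p) (sit i p)
  rw [e2, e, hU, card_empty]
  have e4 : ((((ZL i (SS i (topOf p))).filter
      (fun z => ¬ Disjoint (sit i z) (sit i p))).card : ℕ) : ℤ) ≤
      (((ZU i (SS i (topOf p))).filter (fun z => ¬ Disjoint (sit i z) (sit i p))).card : ℤ) := by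
    exact_mod_cast e3
  have e5 : (0 : ℤ) ≤ ((FL i (SS i (topOf p))).card : ℤ) := Int.natCast_nonneg _
  push_cast
  linarith

/-- NO JOINS OF TWO PENDANTS on the level `i + 3` -/
theorem z2_empty (hi2 : 2 ≤ i)
    (hfo : ∀ z p q, z ∈ Z2s i (topOf : P → Tops P) → uc z = {p, q} → p ≠ q →
      F5 i (SS i (topOf p)) ≠ ∅ → F5 i (SS i (topOf q)) = ∅ ∧ FU' i (SS i (topOf q)) = ∅) :
    Z2s i (topOf : P → Tops P) = ∅ := by
  classical
  have N := nj_of h
  have H := h.H
  have hκ : Split (i + 2) (topOf : P → Tops P) := Wd.split_gt h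
  by_contra hne0
  obtain ⟨z0, hz0⟩ := nonempty_iff_ne_empty.2 hne0
  have hb : 1 ≤ (lv P i).card := by
    obtain ⟨h1, -⟩ := mem_Z2s.1 hz0
    obtain ⟨y, -, hy⟩ := exists_above' (x := z0) (j := i) (by omega)
    exact card_pos.2 ⟨y, mem_lv.2 hy⟩
  set Z := Z2s i (topOf : P → Tops P) with hZ
  set T := univ.image (topOf : P → Tops P) with hT
  -- covers
  have hcov : ∀ z ∈ Z, ∃ p p', uc z = {p, p'} ∧ p ≠ p' ∧ p ∈ PD P i ∧ p' ∈ PD P i := by
    intro z hz
    obtain ⟨p, p', y, y', D⟩ := So.Z2s_ZD H hκ hz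
    have hne : p ≠ p' := fun e => D.ne (by rw [e])
    exact ⟨p, p', D.cov, hne, (Z2s_cov H hκ hz (w := p) (by rw [D.cov]; simp)).1,
      (Z2s_cov H hκ hz (w := p') (by rw [D.cov]; simp)).1⟩
  have nfc : ∀ t : Tops P, nf i t = 0 ∨ nf i t = 1 := by
    intro t
    have a1 := nf_nonneg (i := i) t
    have a2 := nf_le h hi1 t
    omega
  -- the number of joins
  have h52 : (Z.card : ℤ) = ∑ t ∈ T, nf i t := by
    have := So.Z2_card h hi1
    rw [hZ, this]
    push_cast
    rfl
  -- the total (10,4)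
  have h104 := nj_tot10' N rfl hi1 hb
  have q10 : ∑ a ∈ T, T8.Q10 (bb i (i + 2) topOf a) (VV i (i + 2) topOf a) =
      ∑ t ∈ T, nf i t := by
    refine sum_congr rfl fun t _ => ?_
    rw [Wd.bb_eq h (by omega) t, Wd.VV_eq h (by omega) t, q10_val h hi1 t]
    have e : ((F5 i (SS i t)).card : ℤ) = nf i t := rfl
    rw [e]
    rcases nfc t with e1 | e1 <;> rw [e1] <;> norm_num
  rw [q10, sum_wn h hi1 (Or.inr rfl), n5s_empty h, card_empty, ← h52] at h104
  have w4 : ∑ z ∈ Z2s i (topOf : P → Tops P), Wn i (topOf : P → Tops P) 4 z =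
      ∑ z ∈ Z, ∑ p ∈ uc z, nf i (topOf p) := sum_congr rfl fun z hz => wn4 h hi1 hz
  rw [w4] at h104
  have fl1 : ∀ z ∈ Z, ∑ p ∈ uc z, nf i (topOf p) ≤ 1 := by
    intro z hz
    obtain ⟨p, p', hu, hne, -, -⟩ := hcov z hz
    rw [hu, sum_pair hne]
    rcases nfc (topOf p) with e1 | e1
    · have := nf_le h hi1 (topOf p')
      omega
    · have hF : F5 i (SS i (topOf p)) ≠ ∅ := by
        intro hF
        unfold nf at e1
        rw [hF, card_empty] at e1
        norm_num at e1
      obtain ⟨g1, -⟩ := hfo z p p' hz hu hne hF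
      have : nf i (topOf p') = 0 := by
        unfold nf
        rw [g1, card_empty]
        rfl
      omega
  have s1 : ∑ z ∈ Z, ∑ p ∈ uc z, nf i (topOf p) ≤ (Z.card : ℤ) := by
    calc _ ≤ ∑ z ∈ Z, (1 : ℤ) := sum_le_sum fl1
      _ = _ := by simp
  have p3 : (0 : ℤ) ≤ ((PR i (topOf : P → Tops P) 3).card : ℤ) := Int.natCast_nonneg _
  have p2 : (0 : ℤ) ≤ ((DB i (topOf : P → Tops P)).card : ℤ) := Int.natCast_nonneg _
  push_cast at h104
  have s2 : ∑ z ∈ Z, ∑ p ∈ uc z, nf i (topOf p) = (Z.card : ℤ) := by linarith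
  have hPR : PR i (topOf : P → Tops P) 3 = ∅ := by
    rw [← card_eq_zero]
    have : ((PR i (topOf : P → Tops P) 3).card : ℤ) = 0 := by linarith
    exact_mod_cast this
  have hDB : DB i (topOf : P → Tops P) = ∅ := by
    rw [← card_eq_zero]
    have : ((DB i (topOf : P → Tops P)).card : ℤ) = 0 := by linarith
    exact_mod_cast this
  -- every join has exactly one flip
  have fl2 : ∀ z ∈ Z, ∑ p ∈ uc z, nf i (topOf p) = 1 := by
    have e1 : ∑ z ∈ Z, ∑ p ∈ uc z, nf i (topOf p) = ∑ z ∈ Z, (1 : ℤ) := by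
      rw [s2]; simp
    exact (sum_eq_sum_iff_of_le fl1).1 e1
  -- different joins have disjoint covers
  have hdis : ∀ z ∈ Z, ∀ z' ∈ Z, z ≠ z' → Disjoint (uc z) (uc z') := by
    intro z hz z' hz' hzz
    obtain ⟨p, p', hu, hne, -, -⟩ := hcov z hz
    obtain ⟨q, q', hu', hne', -, -⟩ := hcov z' hz'
    have c1 : (uc z).card = 2 := by rw [hu, card_pair hne]
    have c2 : (uc z').card = 2 := by rw [hu', card_pair hne']
    have hs : ({z, z'} : Finset P) ∈ Z.powersetCard 2 := by
      rw [mem_powersetCard]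
      refine ⟨?_, card_pair hzz⟩
      intro x hx
      rw [mem_insert, mem_singleton] at hx
      rcases hx with rfl | rfl
      · exact hz
      · exact hz'
    have hb' : ({z, z'} : Finset P).biUnion uc = uc z ∪ uc z' := by
      rw [biUnion_insert, singleton_biUnion]
    have n3 : (uc z ∪ uc z').card ≠ 3 := by
      intro h3
      have : ({z, z'} : Finset P) ∈ PR i (topOf : P → Tops P) 3 := by
        rw [nj_PR N rfl hi1, mem_filter]
        exact ⟨hs, by rw [hb', h3]⟩
      rw [hPR] at this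
      exact notMem_empty _ this
    have n2 : (uc z ∪ uc z').card ≠ 2 := by
      intro h3
      have : ({z, z'} : Finset P) ∈ DB i (topOf : P → Tops P) := by
        unfold DB
        rw [mem_filter]
        exact ⟨hs, by rw [hb', h3]⟩
      rw [hDB] at this
      exact notMem_empty _ this
    have u1 := card_union_add_card_inter (uc z) (uc z')
    have u2 := card_le_card (subset_union_left (s₁ := uc z) (s₂ := uc z'))
    rw [disjoint_iff_inter_eq_empty, ← card_eq_zero]
    omega
  set B := Z.biUnion uc with hB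
  have hBP : ∀ p ∈ B, p ∈ PD P i := by
    intro p hp
    obtain ⟨z, hz, hz'⟩ := mem_biUnion.1 hp
    exact (Z2s_cov H hκ hz hz').1
  have hinj : Set.InjOn (topOf : P → Tops P) (B : Set P) := by
    intro p hp p' hp' he
    have k1 := hBP p (mem_coe.1 hp)
    have k2 := hBP p' (mem_coe.1 hp')
    obtain ⟨n1, -, -⟩ := nj_one N rfl hi1 (topOf p)
    rw [card_le_one] at n1
    refine n1 p (mem_filter.2 ⟨nj_mem N rfl hi1 (mem_PD.1 k1).1, k1⟩) p' (mem_filter.2 ⟨?_, k2⟩)
    rw [he]
    exact nj_mem N rfl hi1 (mem_PD.1 k2).1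
  have hsum : ∀ G : Tops P → ℤ, ∑ z ∈ Z, ∑ p ∈ uc z, G (topOf p) = ∑ t ∈ B.image topOf, G t := by
    intro G
    rw [sum_image hinj, hB, sum_biUnion]
    intro z hz z' hz' hzz
    exact hdis z hz z' hz' hzz
  have hBT : B.image (topOf : P → Tops P) ⊆ T := image_subset_image (subset_univ _)
  have hoff : ∀ t ∈ T, t ∉ B.image (topOf : P → Tops P) → nf i t = 0 := by
    have e1 := hsum (fun t => nf i t)
    rw [s2, h52, ← sum_sdiff hBT] at e1
    have e2 : ∑ t ∈ T \ B.image (topOf : P → Tops P), nf i t = 0 := by linarith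
    rw [sum_eq_zero_iff_of_nonneg (fun t _ => nf_nonneg t)] at e2
    intro t ht ht'
    exact e2 t (mem_sdiff.2 ⟨ht, ht'⟩)
  have hfin : ∑ z ∈ Z, ∑ p ∈ uc z, Pn.sg i (topOf : P → Tops P) 3 (topOf p) * nf i (topOf p) =
      ∑ t ∈ T, Pn.sg i (topOf : P → Tops P) 3 t * nf i t := by
    rw [hsum (fun t => Pn.sg i (topOf : P → Tops P) 3 t * nf i t)]
    refine sum_subset hBT fun t ht ht' => ?_
    rw [hoff t ht ht', mul_zero]
  -- the total (8,3)
  have h83 := nj_tot8' N rfl hi1 hb
  have q8 : ∑ a ∈ T, T8.Q8 (bb i (i + 2) topOf a) (VV i (i + 2) topOf a) =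
      - ∑ t ∈ T, Pn.sg i (topOf : P → Tops P) 3 t * nf i t := by
    rw [← sum_neg_distrib]
    refine sum_congr rfl fun t _ => ?_
    rw [sg_three, Wd.bb_eq h (by omega) t, Wd.VV_eq h (by omega) t, q8_val h hi1 t]
    rfl
  rw [q8, sum_wn h hi1 (Or.inl rfl), hPR, card_empty, ← hfin] at h83
  have w3 : ∑ z ∈ Z, Wn i (topOf : P → Tops P) 3 z ≤ ∑ z ∈ Z, (-1 -
      ∑ p ∈ uc z, Pn.sg i (topOf : P → Tops P) 3 (topOf p) * nf i (topOf p)) := by
    refine sum_le_sum fun z hz => ?_
    rw [wn3 h hi1 hz]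
    have f := fl2 z hz
    obtain ⟨p, p', hu, hne, k1, k2⟩ := hcov z hz
    have hu' : uc z = {p', p} := by rw [hu, pair_comm]
    rw [hu, sum_pair hne] at f
    rw [hu, sum_pair hne, sum_pair hne]
    rcases nfc (topOf p) with e1 | e1
    · have e2 : nf i (topOf p') = 1 := by linarith
      have hF : F5 i (SS i (topOf p')) ≠ ∅ := by
        intro hF
        unfold nf at e2
        rw [hF, card_empty] at e2
        norm_num at e2
      obtain ⟨g1, g2⟩ := hfo z p' p hz hu' hne.symm hF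
      have r1 := net5_flip h hi1 k2 (by rw [e2]; norm_num)
      have r2 := net5_le h hi1 hi2 k1 g1 g2
      rw [e1, e2, r1]
      linarith
    · have e2 : nf i (topOf p') = 0 := by linarith
      have hF : F5 i (SS i (topOf p)) ≠ ∅ := by
        intro hF
        unfold nf at e1
        rw [hF, card_empty] at e1
        norm_num at e1
      obtain ⟨g1, g2⟩ := hfo z p p' hz hu hne hF
      have r1 := net5_flip h hi1 k1 (by rw [e1]; norm_num)
      have r2 := net5_le h hi1 hi2 k2 g1 g2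
      rw [e1, e2, r1]
      linarith
  rw [sum_sub_distrib, sum_const, nsmul_eq_mul] at w3
  have hpos : (1 : ℤ) ≤ (Z.card : ℤ) := by
    have : 0 < Z.card := card_pos.2 ⟨z0, hz0⟩
    exact_mod_cast this
  push_cast at h83
  rw [← hZ] at h83
  linarith

end Pool.Agent.GaussPoset.Gq
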