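import Pool.Agent.W_448s8f_h76.GqD
import Pool.Agent.W_448s7s_h5.SmF

/-!
# No joins of two ends with two sites two levels above (MP_448cb3_co, S7 / S8)

The rows of the components with a flip and with an element of `FU'`.
-/

set_option autoImplicit false

namespace Pool.Agent.GaussPoset.Gq

set_option linter.unusedSectionVars false

open Finset Win Wd
open Pool.Agent.GaussPoset.Win.SO (F5 mem_F5)
open Pool.Agent.GaussPoset.Win.So (Z2s mem_Z2s)

universe u

variable {P : Type u} [Fintype P] [PartialOrder P] [DecidableEq P] {r i j : ℕ}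

section row

variable {t : Tops P} {lo hi : ℕ → ℕ} {e : ℕ → ℕ → P}

/-- the rows of a component with a flip -/
lemma flip_row (h : GoodTo P r (i + 2)) (hi1 : 1 ≤ i) (C : Cp.Comp (i + 2) (t : P) lo hi e)
    (hF : F5 i (SS i t) ≠ ∅) : 2 ≤ i ∧ hi i = lo i + 2 ∧
      ((lo (i - 1) = lo i ∧ lo (i - 1) = lo (i - 2) + 1 ∧ hi (i + 1) = hi i ∧
          hi (i + 2) = hi (i + 1) + 1) ∨
        (hi i = hi (i - 1) + 1 ∧ hi (i - 1) = hi (i - 2) ∧ lo (i + 1) = lo i + 1 ∧
          lo (i + 2) = lo (i + 1))) := by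
  classical
  have N := nj_of h
  have H := h.H
  obtain ⟨⟨p, q⟩, hpq⟩ := nonempty_iff_ne_empty.2 hF
  obtain ⟨y, u, a, s, b, F⟩ := Pf.nj_flp N rfl hi1 t hpq
  obtain ⟨psi, hM⟩ := good_mat N.g.H (N.g.good i (by omega))
  have Q := Pf.nj_pso N rfl hi1 hM t
  have W := (C.mono (i := i + 1) (by omega)).toWin
  have hS : ∀ y, lev y ≤ i + 1 → (y ∈ SS i t ↔ y ≤ (t : P)) := fun y hy =>
    N.mem (by omega) t (by omega)
  obtain ⟨k, hk⟩ : ∃ k, i = k + 2 := ⟨i - 2, by have := F.lq; omega⟩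
  obtain ⟨hV, hpos⟩ := Pf.flip_pos W N.g t.2 hS F hk Q.hC
  have i1 : i - 1 = k + 1 := by omega
  have i2 : i - 2 = k := by omega
  have lp := F.lp
  have hp : p ≤ (t : P) := le_of_SS h F.mp (by omega)
  obtain ⟨n, s1, s2, s3⟩ := C.surj p hp (by omega)
  rw [lp] at s1 s2 s3
  have hpD := F.pD
  rw [← s3] at hpD
  have hm := (C.mem_PD H h.good t.2 (i := i) le_rfl s1 s2).1 hpD
  have ly := F.ly
  have hyt : y ≤ (t : P) := le_of_SS h (F.yC Q.hC) (by omega)
  obtain ⟨m, m1, m2, m3⟩ := C.surj y hyt (by omega)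
  rw [ly] at m1 m2 m3
  have hpy := F.py
  rw [← s3, ← m3] at hpy
  have c1 := (C.cov (i + 1) n m (by omega) s1 s2 m1 m2).1 hpy
  have hya := F.ya
  rw [← m3] at hya
  have l1 := C.lo_le i (by omega)
  have a1 := C.lo_step i (by omega)
  have a2 := C.lo_step (i + 1) (by omega)
  have a3 := C.hi_step i (by omega)
  have a4 := C.hi_step (i + 1) (by omega)
  have e1 : i + 1 + 1 = i + 2 := by omega
  rw [e1] at a2 a4
  refine ⟨by omega, hV, ?_⟩
  rw [i1, i2]
  rcases hpos with ⟨g1, g2, g3, g4, g5⟩ | ⟨g1, g2, g3, g4, g5⟩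
  · left
    rw [g4] at hya
    have c2 := (C.cov i m (hi i) (by omega) m1 m2 l1 le_rfl).1 hya
    omega
  · right
    rw [g4] at hya
    have c2 := (C.cov i m (lo i) (by omega) m1 m2 le_rfl l1).1 hya
    omega

/-- the rows of a component with an element of `FU'` -/
lemma fup_row (h : GoodTo P r (i + 2)) (hi3 : 3 ≤ i) (C : Cp.Comp (i + 2) (t : P) lo hi e)
    (hF : FU' i (SS i t) ≠ ∅) :
    ∃ s', ((lo i = lo (i - 1) ∧ s' + 1 = lo (i - 1)) ∨ (s' = hi (i - 1) ∧ hi i = hi (i - 1) + 1)) ∧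
      ((s' = lo (i - 2) ∧ lo (i - 2) = lo (i - 3) + 1) ∨
        (s' = hi (i - 2) ∧ hi (i - 2) = hi (i - 3))) := by
  classical
  obtain ⟨k, rfl⟩ : ∃ k, i = k + 3 := ⟨i - 3, by omega⟩
  have H := h.H
  obtain ⟨w, hw⟩ := nonempty_iff_ne_empty.2 hF
  obtain ⟨hwS, z, hz, hdc⟩ := mem_FU'.1 hw
  have hzw : z ⋖ w := by rw [← mem_dc, hdc]; exact mem_singleton_self _
  have lz : lev z = k + 1 := by have := (mem_PU.1 hz).1; omega
  have lw : lev w = k := by have := lev_cov H hzw; omega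
  have hwt : w ≤ (t : P) := le_of_SS h hwS (by omega)
  have hzt : z ≤ (t : P) := hzw.le.trans hwt
  obtain ⟨s, s1, s2, s3⟩ := C.surj w hwt (by omega)
  obtain ⟨s', t1, t2, t3⟩ := C.surj z hzt (by omega)
  rw [lw] at s1 s2 s3
  rw [lz] at t1 t2 t3
  rw [← t3] at hz hzw
  rw [← s3] at hzw
  have hzp := (C.mem_PU H (i := k + 1) (by omega) t1 t2).1 hz
  have hcv := (C.cov k s' s (by omega) t1 t2 s1 s2).1 hzw
  have hsd := (C.single_down H (k := k) (by omega) s1 s2).1 (by rw [s3, hdc, card_singleton])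
  have m1 := C.lo_step k (by omega)
  have m2 := C.hi_step k (by omega)
  have e1 : k + 3 - 1 = k + 1 + 1 := by omega
  have e2 : k + 3 - 2 = k + 1 := by omega
  have e3 : k + 3 - 3 = k := by omega
  have e4 : k + 1 + 2 = k + 3 := by omega
  rw [e4] at hzp
  refine ⟨s', ?_, ?_⟩
  · rw [e1]
    rcases hzp with ⟨a1, a2, a3⟩ | ⟨a1, a2, a3⟩
    · exact Or.inl ⟨a2, a1⟩
    · exact Or.inr ⟨a1, a2⟩
  · rw [e2, e3]
    omega

/-- no ends with two sites in the rectangles -/
lemma rect_nPD (h : GoodTo P r (i + 2)) (C : Cp.Comp (i + 2) (t : P) lo hi e)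
    (hR : RectShape (i + 2) lo hi) {p : P} (hp : p ≤ (t : P)) : p ∉ PD P i := by
  intro hpD
  have lp := (mem_PD.1 hpD).1
  obtain ⟨s, s1, s2, s3⟩ := C.surj p hp (by omega)
  rw [lp] at s1 s2 s3
  rw [← s3] at hpD
  have hm := (C.mem_PD h.H h.good t.2 (i := i) le_rfl s1 s2).1 hpD
  have a1 := C.lo_step i (by omega)
  have a2 := C.lo_step (i + 1) (by omega)
  have a3 := C.hi_step i (by omega)
  have a4 := C.hi_step (i + 1) (by omega)
  have a5 := C.hi_le (k := i) (by omega)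
  have r1 := hR.lo (i + 1) (by omega)
  have r2 := hR.hi (i + 1) (by omega)
  have r3 := hR.hi i (by omega)
  have e1 : i + 1 + 1 = i + 2 := by omega
  rw [e1] at a2 a4 r1 r2
  omega

/-- no flip in the stairs -/
lemma stair_F5 (h : GoodTo P r (i + 2)) (hi1 : 1 ≤ i) (C : Cp.Comp (i + 2) (t : P) lo hi e)
    (hR : StairShape (i + 2) lo hi) : F5 i (SS i t) = ∅ := by
  by_contra hF
  obtain ⟨hi2, hV, hpos⟩ := flip_row h hi1 C hF
  obtain ⟨k, rfl⟩ : ∃ k, i = k + 2 := ⟨i - 2, by omega⟩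
  have e1 : k + 2 - 1 = k + 1 := by omega
  have e2 : k + 2 - 2 = k := by omega
  have e3 : k + 1 + 1 = k + 2 := by omega
  have e4 : k + 2 + 1 + 1 = k + 2 + 2 := by omega
  rw [e1, e2] at hpos
  have r1 := hR.lo (k + 1) (by omega)
  have r2 := hR.lo (k + 2 + 1) (by omega)
  rw [e3] at r1
  rw [e4] at r2
  omega

/-- `FU'` is empty in the stairs -/
lemma stair_FU (h : GoodTo P r (i + 2)) (hi3 : 3 ≤ i) (C : Cp.Comp (i + 2) (t : P) lo hi e)
    (hR : StairShape (i + 2) lo hi) : FU' i (SS i t) = ∅ := by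
  by_contra hF
  obtain ⟨s', h1, h2⟩ := fup_row h hi3 C hF
  obtain ⟨k, rfl⟩ : ∃ k, i = k + 3 := ⟨i - 3, by omega⟩
  have e1 : k + 3 - 1 = k + 2 := by omega
  have e2 : k + 3 - 2 = k + 1 := by omega
  have e3 : k + 3 - 3 = k := by omega
  rw [e1] at h1
  rw [e2, e3] at h2
  have r1 := hR.lo (k + 2) (by omega)
  have r2 := hR.lo (k + 1) (by omega)
  have r3 := hR.lo k (by omega)
  have a1 := C.lo_step (k + 2) (by omega)
  have a2 := C.lo_step (k + 1) (by omega)
  have a3 := C.lo_step k (by omega)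
  have b0 := hR.hi k (by omega)
  have b1 := hR.hi (k + 1) (by omega)
  have b2 := hR.hi (k + 2) (by omega)
  have b3 := hR.hi (k + 3) (by omega)
  have c1 := C.lo_le (k + 2) (by omega)
  have c2 := C.lo_le (k + 1) (by omega)
  have e4 : k + 1 + 1 = k + 2 := by omega
  have e5 : k + 2 + 1 = k + 3 := by omega
  rw [e5] at r1 a1
  rw [e4] at r2 a2
  omega

end row

/-- the number of sites of an element with one cover -/
lemma nab_uc (H : Gr P r) {p y : P} (lp : lev p = i + 2) (hy : uc p = {y}) :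
    nab i p = (uc y).card := by
  classical
  have hpy : p ⋖ y := by rw [← mem_uc, hy]; exact mem_singleton_self _
  have ly : lev y = i + 1 := by have := lev_cov H hpy; omega
  unfold nab
  congr 1
  ext v
  rw [mem_filter, mem_lv, mem_uc]
  constructor
  · rintro ⟨lv, hv⟩
    have hlt : p < v := lt_of_le_of_ne hv (by rintro rfl; omega)
    obtain ⟨w, hw1, hw2⟩ := Hul.exists_cov hlt
    have : w ∈ uc p := mem_uc.2 hw1
    rw [hy, mem_singleton] at this
    subst this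
    exact H.covBy_iff.2 ⟨lt_of_le_of_ne hw2 (by rintro rfl; omega), by omega⟩
  · intro hv
    have := lev_cov H hv
    exact ⟨by omega, hpy.le.trans hv.le⟩

end Pool.Agent.GaussPoset.Gq
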