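import Pool.Agent.W_448s8f_h76.GqE

/-!
# No joins of two ends with two sites two levels above (MP_448cb3_co, S7 / S8)
-/

set_option autoImplicit false

namespace Pool.Agent.GaussPoset.Gq

set_option linter.unusedSectionVars false

open Finset Win Wd
open Pool.Agent.GaussPoset.Win.SO (F5 mem_F5)
open Pool.Agent.GaussPoset.Win.So (Z2s mem_Z2s)

universe u

variable {P : Type u} [Fintype P] [PartialOrder P] [DecidableEq P] {r i j : ℕ}

/-- the word of a component with a flip -/
def flipW (w : List Ltr) : Prop :=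
  Hw w (w.length + 1) = Lw w (w.length + 1) + 2 ∧
    ((Lw w w.length = Lw w (w.length + 1) ∧ Lw w w.length = Lw w (w.length - 1) + 1 ∧
        Hw w (w.length + 2) = Hw w (w.length + 1) ∧
        Hw w (w.length + 3) = Hw w (w.length + 2) + 1) ∨
      (Hw w (w.length + 1) = Hw w w.length + 1 ∧ Hw w w.length = Hw w (w.length - 1) ∧
        Lw w (w.length + 2) = Lw w (w.length + 1) + 1 ∧
        Lw w (w.length + 3) = Lw w (w.length + 2)))

instance (w : List Ltr) : Decidable (flipW w) := by unfold flipW; infer_instance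

/-- the word of a component with an element of `FU'` -/
def fupW (w : List Ltr) : Prop :=
  (((Lw w (w.length + 1) = Lw w w.length ∧ Lw w (w.length - 1) + 1 = Lw w w.length) ∨
      (Lw w (w.length - 1) = Hw w w.length ∧ Hw w (w.length + 1) = Hw w w.length + 1)) ∧
    Lw w (w.length - 1) = Lw w (w.length - 2) + 1) ∨
  (((Lw w (w.length + 1) = Lw w w.length ∧ Hw w (w.length - 1) + 1 = Lw w w.length) ∨
      (Hw w (w.length - 1) = Hw w w.length ∧ Hw w (w.length + 1) = Hw w w.length + 1)) ∧
    Hw w (w.length - 1) = Hw w (w.length - 2))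

instance (w : List Ltr) : Decidable (fupW w) := by unfold fupW; infer_instance

/-- the data of the ends with two sites in the components with a flip and with `FU'` -/
def ChkG (j : ℕ) (S SU : List (ℕ × ℕ × ℕ)) : Prop :=
  ∀ a ∈ range (j + 1), 2 ≤ a → ∀ w ∈ Sm.wds j a, w.length = j - a →
    ∀ A ∈ (Icc (Lw w (w.length + 3)) (Hw w (w.length + 3))).powerset, A.Nonempty →
      Sm.condA 0 w A → Sm.rhA w A = 1 →
        (flipW w → (Sm.mA w A, Sm.dA w A, Sm.rhA w A) ∈ S) ∧
          (fupW w → (Sm.mA w A, Sm.dA w A, Sm.rhA w A) ∈ SU)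

instance (j : ℕ) (S SU : List (ℕ × ℕ × ℕ)) : Decidable (ChkG j S SU) := by
  unfold ChkG; infer_instance

section row

variable {t : Tops P} {lo hi : ℕ → ℕ} {e : ℕ → ℕ → P} {a : ℕ}

/-- the rows from the word -/
lemma row_word (C : Cp.Comp j (t : P) lo hi e) (h : Sm.LateC j lo hi a) {k : ℕ}
    (h1 : a ≤ k + 3) (h2 : k ≤ j) :
    Lw (word lo hi a (j - a)) (k + 3 - a) = lo k ∧ Hw (word lo hi a (j - a)) (k + 3 - a) = hi k := by
  have hle := h.le
  rcases Nat.lt_or_ge k a with hk | hk
  · obtain ⟨l1, l2⟩ := h.low k hk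
    rw [l1, l2]
    unfold Lw Hw
    rw [show k + 3 - a - 3 = 0 by omega, if_pos (by omega)]
    simp
  · have e1 := lo_word (a := a) (d := j - a) C.lo_step h.at_a.1 (hi := hi) (by omega) (k - a)
      (by omega)
    have e2 := hi_word (a := a) (d := j - a) C.hi_step h.at_a.2 (lo := lo) (by omega) (k - a)
      (by omega)
    rw [show k - a + 3 = k + 3 - a by omega, show a + (k - a) = k by omega] at e1 e2
    exact ⟨e1, e2⟩

end row

variable {lo hi : Tops P → ℕ → ℕ} {e : Tops P → ℕ → ℕ → P}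

/-- the data of an end with two sites in a component with a flip or with `FU'` -/
theorem pd_dat (K : Sm.Ctx P r (i + 2) lo hi e) {S SU : List (ℕ × ℕ × ℕ)}
    (hc : ChkG (i + 2) S SU) {p : P} (hp : p ∈ PD P i) :
    (F5 i (SS i (topOf p)) ≠ ∅ → ∃ s ∈ S, Sm.Dt (i + 2) p s) ∧
      (FU' i (SS i (topOf p)) ≠ ∅ → ∃ s ∈ SU, Sm.Dt (i + 2) p s) := by
  classical
  have h : GoodTo P r (i + 2) := K.gt
  have h5 := K.h5
  have C := K.comp (topOf p)
  have lp := (mem_PD.1 hp).1
  have hpt : p ≤ (topOf p : P) := le_topOf p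
  rcases Sm.shape_cases C (by omega) (K.shape (topOf p)) with hs | hs | ⟨a, hl, -⟩
  · exfalso
    obtain ⟨s, s1, s2, s3⟩ := C.surj p hpt (by omega)
    rw [lp] at s1 s2 s3
    have hp' := hp
    rw [← s3] at hp'
    have hm := (C.mem_PD h.H h.good (topOf p).2 (i := i) le_rfl s1 s2).1 hp'
    have a0 := hs i (by omega)
    have a1 := hs (i + 1) (by omega)
    have a3 := C.lo_step i (by omega)
    omega
  · rcases hs with hs | hs
    · exact absurd hp (rect_nPD h C hs hpt)
    · exact ⟨fun hF => absurd (stair_F5 h (by omega) C hs) hF,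
        fun hF => absurd (stair_FU h (by omega) C hs) hF⟩
  · have hon : p ∈ onlyB (topOf p) := mem_onlyB.mpr fun s hs hps =>
      h.top_eq (x := p) (by omega) hs (topOf p).2 hps hpt
    have hend : (Win.uc p).card = 1 := (mem_PD.1 hp).2.1
    obtain ⟨A, g1, g2, g3, g4, g5, -, g7⟩ := Sm.late_side h (by omega) C hl.two hl.le hl.low
      hl.at_a hon (by omega) (fun _ => hend) rfl
    have hwl : (word (lo (topOf p)) (hi (topOf p)) a (i + 2 - a)).length = i + 2 - a := by simp
    obtain ⟨y, hy⟩ := card_eq_one.1 hend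
    have hn : nab i p = 2 := by
      rw [nab_uc h.H lp hy]
      obtain ⟨-, -, y', hy', h2⟩ := mem_PD.1 hp
      have : y' ∈ uc p := mem_uc.2 hy'
      rw [hy, mem_singleton] at this
      rw [← this]
      exact h2
    have hrh : Sm.rhA (word (lo (topOf p)) (hi (topOf p)) a (i + 2 - a)) A = 1 := by
      rw [show i + 2 - 2 = i by omega, hn] at g7
      omega
    have hd : 2 ≤ i + 2 - a := by
      unfold Sm.rhA at hrh
      split_ifs at hrh with hd
      · rw [hwl] at hd
        exact hd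
    have hchk := hc a (mem_range.mpr (by have := hl.le; omega)) hl.two _ hl.word hwl A g1 g2
      (g3 0 (by omega)) hrh
    have hD : Sm.Dt (i + 2) p (Sm.mA (word (lo (topOf p)) (hi (topOf p)) a (i + 2 - a)) A,
        Sm.dA (word (lo (topOf p)) (hi (topOf p)) a (i + 2 - a)) A,
        Sm.rhA (word (lo (topOf p)) (hi (topOf p)) a (i + 2 - a)) A) := ⟨g4, g5, g7⟩
    have r0 := row_word C hl (k := i) (by omega) (by omega)
    have r1 := row_word C hl (k := i - 1) (by omega) (by omega)
    have r2 := row_word C hl (k := i - 2) (by omega) (by omega)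
    have r3 := row_word C hl (k := i - 3) (by omega) (by omega)
    have r4 := row_word C hl (k := i + 1) (by omega) (by omega)
    have r5 := row_word C hl (k := i + 2) (by omega) (by omega)
    rw [show i + 1 + 3 - a = i + 2 - a + 2 by omega] at r4
    rw [show i + 2 + 3 - a = i + 2 - a + 3 by omega] at r5
    rw [show i + 3 - a = i + 2 - a + 1 by omega] at r0
    rw [show i - 1 + 3 - a = i + 2 - a by omega] at r1
    rw [show i - 2 + 3 - a = i + 2 - a - 1 by omega] at r2
    rw [show i - 3 + 3 - a = i + 2 - a - 2 by omega] at r3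
    refine ⟨fun hF => ⟨_, hchk.1 ?_, hD⟩, fun hF => ⟨_, hchk.2 ?_, hD⟩⟩
    · obtain ⟨-, hV, hpos⟩ := flip_row h (by omega) C hF
      unfold flipW
      rw [hwl, r0.1, r0.2, r1.1, r1.2, r2.1, r2.2, r4.1, r4.2, r5.1, r5.2]
      exact ⟨hV, hpos⟩
    · obtain ⟨s', b1, b2⟩ := fup_row h (by omega) C hF
      unfold fupW
      rw [hwl, r0.1, r0.2, r1.1, r1.2, r2.1, r2.2, r3.1, r3.2]
      rcases b2 with ⟨b2, b3⟩ | ⟨b2, b3⟩
      · left
        refine ⟨?_, b3⟩
        rw [b2] at b1
        exact b1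
      · right
        refine ⟨?_, b3⟩
        rw [b2] at b1
        exact b1

/-- NO JOINS of two ends with two sites two levels above -/
theorem no_pdpd (K : Sm.Ctx P r j lo hi e) {S SU : List (ℕ × ℕ × ℕ)} (hc : ChkG j S SU)
    (hff : ∀ z x x' : P, Sm.Cg z x x' → lev z = j + 1 → ∀ s s', s ∈ S → (s' ∈ S ∨ s' ∈ SU) →
      Sm.Dt j x s → Sm.Dt j x' s' → False) :
    ∀ z x x' : P, Sm.Cg z x x' → lev z = j + 1 → nab (j - 2) x = 2 → nab (j - 2) x' = 2 →
      False := by
  classical
  have h5 := K.h5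
  obtain ⟨i, rfl⟩ : ∃ i, j = i + 2 := ⟨j - 2, by omega⟩
  rw [show i + 2 - 2 = i by omega]
  have h : GoodTo P r (i + 2) := K.gt
  have H := h.H
  have hκ : Split (i + 2) (topOf : P → Tops P) := Wd.split_gt h
  have hon : ∀ p : P, lev p = i + 2 → p ∈ onlyB (topOf p) := fun p lp =>
    mem_onlyB.mpr fun s hs hps => h.top_eq (x := p) (by omega) hs (topOf p).2 hps (le_topOf p)
  have hE : Z2s i (topOf : P → Tops P) = ∅ := by
    refine z2_empty h (by omega) (by omega) ?_
    intro z p q hz hu hne hF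
    have pD := (Pn.Z2s_cov H hκ hz (w := p) (by rw [hu]; simp)).1
    have qD := (Pn.Z2s_cov H hκ hz (w := q) (by rw [hu]; simp)).1
    have lp := (mem_PD.1 pD).1
    have lq := (mem_PD.1 qD).1
    have cp : z ⋖ p := mem_uc.1 (by rw [hu]; simp)
    have cq : z ⋖ q := mem_uc.1 (by rw [hu]; simp)
    obtain ⟨lz, -⟩ := mem_Z2s.1 hz
    have htop : topOf p ≠ topOf q := by
      obtain ⟨p1, p2, y, y', D⟩ := So.Z2s_ZD H hκ hz
      have hc1 := D.cov
      have hn := D.ne
      rw [hu] at hc1
      have q1 : p ∈ ({p1, p2} : Finset P) := by rw [← hc1]; simp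
      have q2 : q ∈ ({p1, p2} : Finset P) := by rw [← hc1]; simp
      rw [mem_insert, mem_singleton] at q1 q2
      rcases q1 with q1 | q1 <;> rcases q2 with q2 | q2
      · exact absurd (q1.trans q2.symm) hne
      · rw [q1, q2]; exact hn
      · rw [q1, q2]; exact hn.symm
      · exact absurd (q1.trans q2.symm) hne
    have hcg : Sm.Cg z p q := Sm.Cg.mk' cp cq (hon p lp) (hon q lq) htop
    obtain ⟨s, hs, hD⟩ := (pd_dat K hc pD).1 hF
    constructor
    · by_contra hF'
      obtain ⟨s', hs', hD'⟩ := (pd_dat K hc qD).1 hF'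
      exact hff z p q hcg (by omega) s s' hs (Or.inl hs') hD hD'
    · by_contra hF'
      obtain ⟨s', hs', hD'⟩ := (pd_dat K hc qD).2 hF'
      exact hff z p q hcg (by omega) s s' hs (Or.inr hs') hD hD'
  intro z x x' hz hlz n1 n2
  obtain ⟨u1, u2⟩ := K.ends hz hlz
  obtain ⟨l1, l2⟩ := hz.lev_eq H
  obtain ⟨y, hy⟩ := card_eq_one.1 u1
  obtain ⟨y', hy'⟩ := card_eq_one.1 u2
  have hne : x ≠ x' := by rintro rfl; exact hz.ne rfl
  have huz : uc z = {x, x'} := by
    ext w
    rw [mem_uc, mem_insert, mem_singleton]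
    constructor
    · exact fun hw => uc_two_of H hz.cov hz.cov' hne _ hw
    · rintro (rfl | rfl)
      · exact hz.cov
      · exact hz.cov'
  rw [nab_uc H (by omega) hy] at n1
  rw [nab_uc H (by omega) hy'] at n2
  have := So.mem_Z2s_join h (by omega) huz hz.ne hy hy' n1 n2
  rw [hE] at this
  exact notMem_empty _ this

end Pool.Agent.GaussPoset.Gq
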